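import Mathlib

/-! Locally absolutely continuous real functions together with an a.e. derivative. -/

open Set MeasureTheory Filter Topology

namespace Pool.Agent.MP_0b7119_mp

theorem ac_comp_lipschitzOn {X Y : Type*} [PseudoMetricSpace X] [PseudoMetricSpace Y] {f : ℝ → X}
    {g : X → Y} {a b : ℝ} {s : Set X} {K : NNReal} (hf : AbsolutelyContinuousOnInterval f a b)
    (hg : LipschitzOnWith K g s) (hs : MapsTo f (uIcc a b) s) :
    AbsolutelyContinuousOnInterval (fun x => g (f x)) a b := by
  rw [absolutelyContinuousOnInterval_iff] at hf ⊢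
  intro ε hε
  obtain ⟨δ, hδ, h⟩ := hf (ε / (K + 1)) (by positivity)
  refine ⟨δ, hδ, fun E hE hE2 => ?_⟩
  have h1 := h E hE hE2
  calc ∑ i ∈ Finset.range E.1, dist (g (f (E.2 i).1)) (g (f (E.2 i).2))
      ≤ ∑ i ∈ Finset.range E.1, K * dist (f (E.2 i).1) (f (E.2 i).2) := by
        apply Finset.sum_le_sum
        intro i hi
        exact hg.dist_le_mul _ (hs (hE.1 i hi).1) _ (hs (hE.1 i hi).2)
    _ = K * ∑ i ∈ Finset.range E.1, dist (f (E.2 i).1) (f (E.2 i).2) := by rw [Finset.mul_sum]
    _ ≤ K * (ε / (K + 1)) := by gcongr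
    _ < (K + 1) * (ε / (K + 1)) := by gcongr; linarith
    _ = ε := by field_simp

theorem ac_comp_contDiff {X Y : Type*} [NormedAddCommGroup X] [NormedSpace ℝ X] [ProperSpace X]
    [NormedAddCommGroup Y] [NormedSpace ℝ Y] {f : ℝ → X} {g : X → Y} {a b : ℝ}
    (hf : AbsolutelyContinuousOnInterval f a b) (hg : ContDiff ℝ 1 g) :
    AbsolutelyContinuousOnInterval (fun x => g (f x)) a b := by
  obtain ⟨C, hC⟩ := hf.exists_bound
  obtain ⟨K, hK⟩ := (hg.contDiffOn (s := Metric.closedBall 0 C)).exists_lipschitzOnWith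
    (by decide) (convex_closedBall _ _) (isCompact_closedBall _ _)
  exact ac_comp_lipschitzOn hf hK (fun x hx => by simpa using hC x hx)

structure ACD (f f' : ℝ → ℝ) : Prop where
  ac : ∀ a b, AbsolutelyContinuousOnInterval f a b
  der : ∀ᵐ x, HasDerivAt f (f' x) x

namespace ACD

variable {f f' g g' : ℝ → ℝ}

theorem continuous (h : ACD f f') : Continuous f := by
  rw [continuous_iff_continuousAt]
  intro x
  have := (h.ac (x - 1) (x + 1)).continuousOn
  rw [uIcc_of_le (by linarith)] at this
  exact this.continuousAt (Icc_mem_nhds (by linarith) (by linarith))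

theorem congr_deriv (h : ACD f f') (e : ∀ᵐ x, f' x = g' x) : ACD f g' :=
  ⟨h.ac, by filter_upwards [h.der, e] with x h1 h2; rwa [← h2]⟩

theorem congr_deriv' (h : ACD f f') (e : ∀ x, f' x = g' x) : ACD f g' :=
  h.congr_deriv (Eventually.of_forall e)

theorem add (h : ACD f f') (k : ACD g g') : ACD (fun x => f x + g x) (fun x => f' x + g' x) :=
  ⟨fun a b => (h.ac a b).add (k.ac a b), by
    filter_upwards [h.der, k.der] with x h1 h2; exact h1.add h2⟩

theorem sub (h : ACD f f') (k : ACD g g') : ACD (fun x => f x - g x) (fun x => f' x - g' x) :=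
  ⟨fun a b => (h.ac a b).sub (k.ac a b), by
    filter_upwards [h.der, k.der] with x h1 h2; exact h1.sub h2⟩

theorem neg (h : ACD f f') : ACD (fun x => -f x) (fun x => -f' x) :=
  ⟨fun a b => (h.ac a b).neg, by filter_upwards [h.der] with x h1; exact h1.neg⟩

theorem mul (h : ACD f f') (k : ACD g g') :
    ACD (fun x => f x * g x) (fun x => f' x * g x + f x * g' x) :=
  ⟨fun a b => (h.ac a b).mul (k.ac a b), by
    filter_upwards [h.der, k.der] with x h1 h2; exact h1.mul h2⟩

theorem const_mul (c : ℝ) (h : ACD f f') : ACD (fun x => c * f x) (fun x => c * f' x) :=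
  ⟨fun a b => (h.ac a b).const_mul c, by filter_upwards [h.der] with x h1; exact h1.const_mul c⟩

theorem of_contDiff (hf : ContDiff ℝ 1 f) (hd : ∀ x, HasDerivAt f (f' x) x) : ACD f f' :=
  ⟨fun _ _ => hf.contDiffOn.absolutelyContinuousOnInterval, Eventually.of_forall hd⟩

theorem of_hasDerivAt (hd : ∀ x, HasDerivAt f (f' x) x) (hc : Continuous f') : ACD f f' := by
  refine of_contDiff ?_ hd
  rw [contDiff_one_iff_deriv]
  refine ⟨fun x => (hd x).differentiableAt, ?_⟩
  have : deriv f = f' := funext fun x => (hd x).deriv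
  rwa [this]

theorem const (c : ℝ) : ACD (fun _ => c) (fun _ => 0) :=
  of_hasDerivAt (fun x => hasDerivAt_const x c) continuous_const

theorem id' : ACD (fun x => x) (fun _ => 1) :=
  of_hasDerivAt (fun x => hasDerivAt_id x) continuous_const

theorem comp (h : ACD f f') {G G' : ℝ → ℝ} (hd : ∀ y, HasDerivAt G (G' y) y)
    (hc : Continuous G') : ACD (fun x => G (f x)) (fun x => G' (f x) * f' x) := by
  have hG : ContDiff ℝ 1 G := by
    rw [contDiff_one_iff_deriv]
    refine ⟨fun x => (hd x).differentiableAt, ?_⟩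
    have : deriv G = G' := funext fun x => (hd x).deriv
    rwa [this]
  exact ⟨fun a b => ac_comp_contDiff (h.ac a b) hG, by
    filter_upwards [h.der] with x h1; exact (hd (f x)).comp x h1⟩

theorem exp (h : ACD f f') : ACD (fun x => Real.exp (f x)) (fun x => Real.exp (f x) * f' x) :=
  h.comp Real.hasDerivAt_exp Real.continuous_exp

theorem sin (h : ACD f f') : ACD (fun x => Real.sin (f x)) (fun x => Real.cos (f x) * f' x) :=
  h.comp Real.hasDerivAt_sin Real.continuous_cos

theorem cos (h : ACD f f') : ACD (fun x => Real.cos (f x)) (fun x => -Real.sin (f x) * f' x) :=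
  h.comp Real.hasDerivAt_cos Real.continuous_sin.neg

theorem primitive {v : ℝ → ℝ} (hv : LocallyIntegrable v volume) (c : ℝ) :
    ACD (fun x => ∫ t in c..x, v t) v := by
  have hi : ∀ a b, IntervalIntegrable v volume a b := fun a b =>
    (hv.integrableOn_isCompact isCompact_uIcc).intervalIntegrable
  refine ⟨fun a b => ?_, ?_⟩
  · have := (hi (min c (min a b)) (max c (max a b))).absolutelyContinuousOnInterval_intervalIntegral
      (c := c) (by
        rw [uIcc_of_le ((min_le_left _ _).trans (le_max_left _ _))]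
        exact ⟨min_le_left _ _, le_max_left _ _⟩)
    refine this.mono ?_
    rw [uIcc_of_le (a := min c (min a b)) ((min_le_left _ _).trans (le_max_left _ _))]
    exact Icc_subset_Icc (min_le_right _ _) (le_max_right _ _)
  · filter_upwards [LocallyIntegrable.ae_hasDerivAt_integral hv] with x hx
    exact hx c

theorem le_of_nonneg (h : ACD f f') {a b : ℝ} (hab : a ≤ b)
    (hp : ∀ᵐ x, x ∈ Icc a b → 0 ≤ f' x) : f a ≤ f b := by
  have h1 := (h.ac a b).integral_deriv_eq_sub
  have h2 : 0 ≤ ∫ x in a..b, deriv f x := by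
    apply intervalIntegral.integral_nonneg_of_ae_restrict hab
    rw [EventuallyLE, ae_restrict_iff' measurableSet_Icc]
    filter_upwards [h.der, hp] with x h1 h2 hx
    rw [h1.deriv]; exact h2 hx
  linarith

theorem eq_of_zero (h : ACD f (fun _ => 0)) (a b : ℝ) : f a = f b := by
  have key : ∀ a b, a ≤ b → f a = f b := fun a b hab => by
    have h1 := h.le_of_nonneg hab (Eventually.of_forall fun _ _ => le_rfl)
    have h2 := h.neg.le_of_nonneg hab (Eventually.of_forall fun _ _ => by simp)
    linarith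
  rcases le_total a b with hab | hab
  · exact key a b hab
  · exact (key b a hab).symm

/-- comparison lemma -/
theorem nonneg_of_ge (h : ACD f f') {a b K : ℝ} (hab : a ≤ b)
    (hp : ∀ᵐ x, x ∈ Icc a b → -(K * |f x|) ≤ f' x) (ha : 0 ≤ f a) : 0 ≤ f b := by
  by_contra hb
  push Not at hb
  set S : Set ℝ := Icc a b ∩ {x | 0 ≤ f x} with hS
  have hSc : IsCompact S := isCompact_Icc.inter_right (isClosed_le continuous_const h.continuous)
  have hSn : S.Nonempty := ⟨a, left_mem_Icc.2 hab, ha⟩
  obtain ⟨c, hcS, hc⟩ := hSc.exists_isGreatest hSn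
  have hle : ∀ x ∈ Icc c b, x ≠ c → f x < 0 := by
    intro x hx hne
    by_contra hh
    push Not at hh
    have := hc ⟨⟨hcS.1.1.trans hx.1, hx.2⟩, hh⟩
    exact hne (le_antisymm this hx.1)
  have h2 : ACD (fun x => f x * Real.exp (-K * x))
      (fun x => f' x * Real.exp (-K * x) + f x * (Real.exp (-K * x) * (-K * 1))) :=
    h.mul ((id'.const_mul (-K)).exp)
  have h3 := h2.le_of_nonneg hcS.1.2 (by
    filter_upwards [hp, (Measure.ae_ne volume c)] with x hx hne hxm
    have h4 := hx ⟨hcS.1.1.trans hxm.1, hxm.2⟩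
    have h5 := hle x hxm hne
    rw [abs_of_neg h5] at h4
    have h6 : 0 < Real.exp (-K * x) := Real.exp_pos _
    nlinarith)
  have h7 : 0 ≤ f c * Real.exp (-K * c) := mul_nonneg hcS.2 (Real.exp_pos _).le
  have h8 : f b * Real.exp (-K * b) < 0 := mul_neg_of_neg_of_pos hb (Real.exp_pos _)
  linarith

theorem reflect (h : ACD f f') : ACD (fun x => f (-x)) (fun x => -f' (-x)) := by
  refine ⟨fun a b => ?_, ?_⟩
  · have h1 := h.ac (-a) (-b)
    rw [absolutelyContinuousOnInterval_iff] at h1 ⊢
    intro ε hε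
    obtain ⟨δ, hδ, h2⟩ := h1 ε hε
    refine ⟨δ, hδ, fun E hE hE2 => ?_⟩
    have := h2 (E.1, fun i => (-(E.2 i).1, -(E.2 i).2)) ?_ (by simpa using hE2)
    · simpa using this
    · refine ⟨fun i hi => ?_, ?_⟩
      · have := hE.1 i hi
        simp only [mem_uIcc] at this ⊢
        constructor
        · rcases this.1 with h | h
          · right; constructor <;> linarith [h.1, h.2]
          · left; constructor <;> linarith [h.1, h.2]
        · rcases this.2 with h | h
          · right; constructor <;> linarith [h.1, h.2]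
          · left; constructor <;> linarith [h.1, h.2]
      · intro i hi j hj hij
        have hd := hE.2 hi hj hij
        simp only [Function.onFun] at hd ⊢
        rw [Set.disjoint_left] at hd ⊢
        intro x hx hx'
        simp only [mem_uIoc] at hx hx' hd
        -- two overlapping half-open intervals overlap after reflection as well
        have key : ∀ (u v w z : ℝ), u < v → w < z → -v < x ∧ x ≤ -u → -z < x ∧ x ≤ -w →
            ∃ y, (u < y ∧ y ≤ v) ∧ (w < y ∧ y ≤ z) := by
          intro u v w z _ _ h1 h2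
          refine ⟨min v z, ⟨lt_min (by linarith) (by linarith), min_le_left _ _⟩,
            ⟨lt_min (by linarith) (by linarith), min_le_right _ _⟩⟩
        rcases hx with hx | hx <;> rcases hx' with hx' | hx'
        · obtain ⟨y, h1, h2⟩ := key (E.2 i).2 (E.2 i).1 (E.2 j).2 (E.2 j).1
            (by linarith [hx.1, hx.2]) (by linarith [hx'.1, hx'.2]) hx hx'
          exact hd (Or.inr h1) (Or.inr h2)
        · obtain ⟨y, h1, h2⟩ := key (E.2 i).2 (E.2 i).1 (E.2 j).1 (E.2 j).2
            (by linarith [hx.1, hx.2]) (by linarith [hx'.1, hx'.2]) hx hx'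
          exact hd (Or.inr h1) (Or.inl h2)
        · obtain ⟨y, h1, h2⟩ := key (E.2 i).1 (E.2 i).2 (E.2 j).2 (E.2 j).1
            (by linarith [hx.1, hx.2]) (by linarith [hx'.1, hx'.2]) hx hx'
          exact hd (Or.inl h1) (Or.inr h2)
        · obtain ⟨y, h1, h2⟩ := key (E.2 i).1 (E.2 i).2 (E.2 j).1 (E.2 j).2
            (by linarith [hx.1, hx.2]) (by linarith [hx'.1, hx'.2]) hx hx'
          exact hd (Or.inl h1) (Or.inl h2)
  · have h1 : ∀ᵐ x, HasDerivAt f (f' (-x)) (-x) :=
      (Measure.measurePreserving_neg (volume : Measure ℝ)).quasiMeasurePreserving.ae h.der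
    filter_upwards [h1] with x hx
    exact HasDerivAt.congr_deriv (hx.comp x (hasDerivAt_neg x)) (by ring)

end ACD

end Pool.Agent.MP_0b7119_mp
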