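import Pool.Agent.MP_0b7119_mp.Ops

/-! The ground state is almost aligned with a fixed upper spinor. -/

open Set MeasureTheory Real
open scoped ENNReal

namespace Pool.Agent.MP_0b7119_mp.G

set_option linter.unusedSectionVars false

variable {E S : Type} [NormedAddCommGroup E] [InnerProductSpace ℝ E] [FiniteDimensional ℝ E]
  [MeasurableSpace E] [BorelSpace E] [NormedAddCommGroup S] [InnerProductSpace ℂ S]
  [CompleteSpace S] [FiniteDimensional ℂ S] {d : ℕ} {α : Fin d → S →L[ℂ] S} {β : S →L[ℂ] S}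

/-- Scalar kernel operator. -/
noncomputable def Gop (g V : E → ℝ) (f : E → S) (x : E) : S :=
  ∫ y, ((V y * g (x - y) : ℝ) : ℂ) • f y

/-- Clifford kernel operator. -/
noncomputable def Kop (e : Fin d → E) (α : Fin d → S →L[ℂ] S) (q V : E → ℝ) (f : E → S) (x : E) :
    S :=
  ∫ y, ((V y * q (x - y) : ℝ) : ℂ) • cl e α (x - y) (f y)

/-- Nonnegative measurable functions. -/
structure NM (a : E → ℝ) : Prop where
  meas : Measurable a
  nonneg : ∀ z, 0 ≤ a z

lemma Nice.nm {V : E → ℝ} (h : Nice V) : NM V := ⟨h.meas, h.nonneg⟩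

lemma sm_G {g V : E → ℝ} (hg : Measurable g) (hV : Measurable V) {f : E → S}
    (hf : StronglyMeasurable f) :
    StronglyMeasurable (fun p : E × E => ((V p.2 * g (p.1 - p.2) : ℝ) : ℂ) • f p.2) :=
  (Complex.continuous_ofReal.measurable.comp ((hV.comp measurable_snd).mul
    (hg.comp (measurable_fst.sub measurable_snd)))).stronglyMeasurable.smul
    (hf.comp_measurable measurable_snd)

lemma sm_K (e : Fin d → E) (α : Fin d → S →L[ℂ] S) {q V : E → ℝ} (hq : Measurable q)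
    (hV : Measurable V) {f : E → S} (hf : StronglyMeasurable f) :
    StronglyMeasurable
      (fun p : E × E => ((V p.2 * q (p.1 - p.2) : ℝ) : ℂ) • cl e α (p.1 - p.2) (f p.2)) :=
  (Complex.continuous_ofReal.measurable.comp ((hV.comp measurable_snd).mul
    (hq.comp (measurable_fst.sub measurable_snd)))).stronglyMeasurable.smul
    ((isBoundedBilinearMap_apply (𝕜 := ℂ) (E := S) (F := S)).continuous.comp_stronglyMeasurable
      ((((continuous_cl e α).comp (continuous_fst.sub continuous_snd)).stronglyMeasurable).prodMk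
        (hf.comp_measurable measurable_snd)))

lemma sm_Gop {g V : E → ℝ} (hg : Measurable g) (hV : Measurable V) {f : E → S}
    (hf : StronglyMeasurable f) : StronglyMeasurable (Gop g V f) :=
  (sm_G hg hV hf).integral_prod_right'

lemma sm_Kop (e : Fin d → E) (α : Fin d → S →L[ℂ] S) {q V : E → ℝ} (hq : Measurable q)
    (hV : Measurable V) {f : E → S} (hf : StronglyMeasurable f) :
    StronglyMeasurable (Kop e α q V f) :=
  (sm_K e α hq hV hf).integral_prod_right'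

lemma Gop_bound {g V : E → ℝ} (hg : NM g) (hV : NM V) {γ M : ℝ} (hA : Adm V g γ) {f : E → S}
    (hf : StronglyMeasurable f) (hM : 0 ≤ M) (hb : ∀ y, V y ≠ 0 → ‖f y‖ ≤ M) (x : E) :
    Integrable (fun y => ((V y * g (x - y) : ℝ) : ℂ) • f y) ∧ ‖Gop g V f x‖ ≤ γ * M := by
  refine hA.bound x ((sm_G hg.meas hV.meas hf).comp_measurable
    (measurable_prodMk_left (x := x))).aestronglyMeasurable hM
    (Filter.Eventually.of_forall fun y => ?_)
  have h0 := mul_nonneg (hV.nonneg y) (hg.nonneg (x - y))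
  rw [norm_smul, Complex.norm_real, Real.norm_of_nonneg h0]
  by_cases hy : V y = 0
  · simp [hy]
  · exact mul_le_mul_of_nonneg_left (hb y hy) h0

lemma Kop_bound (h : IsDiracRep α β) (e : OrthonormalBasis (Fin d) ℝ E) {q V : E → ℝ} (hq : NM q)
    (hV : NM V) {η M : ℝ} (hA : Adm V (fun z => q z * ‖z‖) η) {f : E → S}
    (hf : StronglyMeasurable f) (hM : 0 ≤ M) (hb : ∀ y, V y ≠ 0 → ‖f y‖ ≤ M) (x : E) :
    Integrable (fun y => ((V y * q (x - y) : ℝ) : ℂ) • cl e α (x - y) (f y)) ∧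
      ‖Kop e α q V f x‖ ≤ η * M := by
  refine hA.bound x ((sm_K e α hq.meas hV.meas hf).comp_measurable
    (measurable_prodMk_left (x := x))).aestronglyMeasurable hM
    (Filter.Eventually.of_forall fun y => ?_)
  have h0 := mul_nonneg (hV.nonneg y) (hq.nonneg (x - y))
  rw [norm_smul, Complex.norm_real, Real.norm_of_nonneg h0, norm_cl_apply h]
  by_cases hy : V y = 0
  · simp [hy]
  · calc _ ≤ V y * q (x - y) * (‖x - y‖ * M) := by gcongr; exact hb y hy
      _ = _ := by ring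

/-- The shape of the resolvent kernel. -/
structure Ker (e : Fin d → E) (α : Fin d → S →L[ℂ] S) (β : S →L[ℂ] S) (m l : ℝ)
    (r : E → S →L[ℂ] S) (g q : E → ℝ) : Prop where
  gnm : NM g
  qnm : NM q
  app : ∀ z ξ, r z ξ = (g z : ℂ) • ((m : ℂ) • β ξ + (l : ℂ) • ξ) +
    (Complex.I * (q z : ℂ)) • cl e α z ξ

lemma ker_rk (e : Fin d → E) (α : Fin d → S →L[ℂ] S) (β : S →L[ℂ] S) (m l : ℝ) :
    Ker e α β m l (rk e α β m l) (gk (m ^ 2 - l ^ 2)) (qk (m ^ 2 - l ^ 2)) :=
  ⟨⟨measurable_gk _, gk_nonneg _⟩, ⟨measurable_qk _, qk_nonneg _⟩, rk_apply e α β m l⟩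

lemma Rop_eq {e : Fin d → E} {m l : ℝ} {r : E → S →L[ℂ] S} {g q V : E → ℝ}
    (hk : Ker e α β m l r g q) {f : E → S} {x : E}
    (h1 : Integrable (fun y => ((V y * g (x - y) : ℝ) : ℂ) • f y))
    (h2 : Integrable (fun y => ((V y * q (x - y) : ℝ) : ℂ) • cl e α (x - y) (f y))) :
    Rop r V f x = (m : ℂ) • β (Gop g V f x) + (l : ℂ) • Gop g V f x +
      Complex.I • Kop e α q V f x := by
  unfold Rop Gop Kop
  have h3 := β.integrable_comp h1
  have h5 : Integrable (fun y => (m : ℂ) • β (((V y * g (x - y) : ℝ) : ℂ) • f y)) :=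
    h3.smul (m : ℂ)
  have h6 : Integrable (fun y => (l : ℂ) • (((V y * g (x - y) : ℝ) : ℂ) • f y)) := h1.smul (l : ℂ)
  have h7 : Integrable (fun y =>
      Complex.I • (((V y * q (x - y) : ℝ) : ℂ) • cl e α (x - y) (f y))) := h2.smul Complex.I
  have h4 : Integrable (fun y => (m : ℂ) • β (((V y * g (x - y) : ℝ) : ℂ) • f y) +
      (l : ℂ) • (((V y * g (x - y) : ℝ) : ℂ) • f y)) := h5.add h6
  rw [← β.integral_comp_comm h1, ← integral_smul, ← integral_smul, ← integral_smul,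
    ← integral_add h5 h6, ← integral_add h4 h7]
  refine integral_congr_ae (Filter.Eventually.of_forall fun y => ?_)
  simp only [hk.app, map_smul]
  push_cast
  module

lemma Gop_sub_β {g V : E → ℝ} {f : E → S} {x : E}
    (h1 : Integrable (fun y => ((V y * g (x - y) : ℝ) : ℂ) • f y)) :
    Gop g V f x - β (Gop g V f x) = Gop g V (fun y => f y - β (f y)) x := by
  unfold Gop
  rw [← β.integral_comp_comm h1, ← integral_sub h1 (β.integrable_comp h1)]
  simp only [map_smul, smul_sub]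

lemma re_inner_le (x y : S) : (inner ℂ x y).re ≤ ‖x‖ * ‖y‖ := re_inner_le_norm (𝕜 := ℂ) x y

lemma abs_re_inner_le (x y : S) : |(inner ℂ x y).re| ≤ ‖x‖ * ‖y‖ :=
  (Complex.abs_re_le_norm _).trans (norm_inner_le_norm x y)

lemma re_inner_self (x : S) : (inner ℂ x x).re = ‖x‖ ^ 2 := inner_self_eq_norm_sq (𝕜 := ℂ) x

lemma re_inner_integral {f : E → S} (hf : Integrable f) (ξ : S) :
    (inner ℂ ξ (∫ y, f y)).re = ∫ y, (inner ℂ ξ (f y)).re := by
  rw [← integral_inner hf]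
  exact (integral_re (hf.const_inner (𝕜 := ℂ) ξ)).symm

lemma re_inner_real_smul (c : ℝ) (x y : S) : (inner ℂ x ((c : ℂ) • y)).re = c * (inner ℂ x y).re := by
  rw [inner_smul_right, Complex.re_ofReal_mul]

lemma re_inner_real_smul_left (c : ℝ) (x y : S) :
    (inner ℂ ((c : ℂ) • x) y).re = c * (inner ℂ x y).re := by
  rw [inner_smul_left, Complex.conj_ofReal, Complex.re_ofReal_mul]

lemma sm_β {f : E → S} (hf : StronglyMeasurable f) : StronglyMeasurable (fun y => β (f y)) :=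
  β.continuous.comp_stronglyMeasurable hf

lemma sm_re_inner {f g : E → S} (hf : StronglyMeasurable f) (hg : StronglyMeasurable g) :
    StronglyMeasurable (fun y => (inner ℂ (f y) (g y)).re) :=
  Complex.continuous_re.comp_stronglyMeasurable (hf.inner hg)

/-- The lower component of a fixed point is small. -/
lemma lower_le (h : IsDiracRep α β) (e : OrthonormalBasis (Fin d) ℝ E) {m l : ℝ}
    {r : E → S →L[ℂ] S} {g q V : E → ℝ} (hk : Ker e α β m l r g q) (hV : NM V) {γ η M : ℝ}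
    (hγ : Adm V g γ) (hη : Adm V (fun z => q z * ‖z‖) η) (hl : l ≤ m) {ψ : E → S}
    (hψ : StronglyMeasurable ψ) (hfix : ∀ x, ψ x = Rop r V ψ x) (hM : ∀ x, ‖ψ x‖ ≤ M) (x : E) :
    ‖ψ x - β (ψ x)‖ ≤ (2 * (m - l) * γ + 2 * η) * M := by
  have hM0 : 0 ≤ M := (norm_nonneg _).trans (hM x)
  obtain ⟨i1, b1⟩ := Gop_bound hk.gnm hV hγ hψ hM0 (fun y _ => hM y) x
  obtain ⟨i2, b2⟩ := Kop_bound h e hk.qnm hV hη hψ hM0 (fun y _ => hM y) x
  have e1 : ψ x - β (ψ x) = ((m - l : ℝ) : ℂ) • (β (Gop g V ψ x) - Gop g V ψ x) +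
      Complex.I • (Kop e α q V ψ x - β (Kop e α q V ψ x)) := by
    rw [hfix x, Rop_eq hk i1 i2]
    simp only [map_add, map_smul, β_β h]
    push_cast
    module
  rw [e1]
  refine (norm_add_le _ _).trans ?_
  rw [norm_smul, norm_smul, Complex.norm_real, Real.norm_of_nonneg (by linarith), Complex.norm_I,
    one_mul]
  have e2 := norm_sub_le (β (Gop g V ψ x)) (Gop g V ψ x)
  have e3 := norm_sub_le (Kop e α q V ψ x) (β (Kop e α q V ψ x))
  rw [norm_β_apply h] at e2 e3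
  have : 0 ≤ m - l := by linarith
  nlinarith

/-- The alignment inequality. -/
lemma align (h : IsDiracRep α β) (e : OrthonormalBasis (Fin d) ℝ E) {m l : ℝ}
    {r : E → S →L[ℂ] S} {g q V : E → ℝ} (hk : Ker e α β m l r g q) (hV : Nice V)
    {γ η M κ ω gmin : ℝ} (hγ : Adm V g γ) (hη : Adm V (fun z => q z * ‖z‖) η) (hm : 0 < m)
    (hl : 0 ≤ l) {ψ : E → S} (hψ : StronglyMeasurable ψ) (hfix : ∀ x, ψ x = Rop r V ψ x)
    (hM : ∀ x, ‖ψ x‖ ≤ M) (hκ0 : 0 ≤ κ) (hκ : ∀ x, ‖ψ x - β (ψ x)‖ ≤ κ * M)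
    (hmax : ∀ f : E → S, Test f → Qf r V f ≤ Nf V f) {ξ₀ : S} (hξ : β ξ₀ = ξ₀) (hξ1 : ‖ξ₀‖ = 1)
    (hω : ∫ y, V y ≤ ω) (hg0 : 0 ≤ gmin)
    (hmin : ∀ x, V x ≠ 0 → ∀ᵐ y, V y ≠ 0 → gmin ≤ g (x - y)) :
    m * gmin * ((∫ y, V y * ‖ψ y‖) ^ 2 - ‖∫ y, (V y : ℂ) • ψ y‖ ^ 2) ≤
      ω * (M ^ 2 * (m * γ * κ + η)) := by
  have hM0 : 0 ≤ M := (norm_nonneg _).trans (hM 0)
  have hγ0 : 0 ≤ γ := le_trans (integral_nonneg fun y =>
    mul_nonneg (hV.nonneg y) (hk.gnm.nonneg _)) (hγ.le 0)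
  have hη0 : 0 ≤ η := le_trans (integral_nonneg fun y =>
    mul_nonneg (hV.nonneg y) (mul_nonneg (hk.qnm.nonneg _) (norm_nonneg _))) (hη.le 0)
  set n₁ := ∫ y, V y * ‖ψ y‖
  set Ψ := ∫ y, (V y : ℂ) • ψ y with hΨ
  set Er := M ^ 2 * (m * γ * κ + η) with hEr
  have hEr0 : 0 ≤ Er := by positivity
  set f : E → S := fun y => ((‖ψ y‖ : ℝ) : ℂ) • ξ₀ with hf
  have hfm : StronglyMeasurable f :=
    (Complex.continuous_ofReal.comp_stronglyMeasurable hψ.norm).smul_const _
  have hfn : ∀ y, ‖f y‖ = ‖ψ y‖ := fun y => by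
    simp [hf, norm_smul, hξ1]
  have hiψ : Integrable (fun y => V y * ‖ψ y‖) :=
    hV.integrable_mul hψ.norm.aestronglyMeasurable (M := M) fun y => by
      rw [abs_of_nonneg (norm_nonneg _)]; exact hM y
  have hiΨ : Integrable (fun y => (V y : ℂ) • ψ y) :=
    hiψ.mono' ((Complex.continuous_ofReal.measurable.comp hV.meas).stronglyMeasurable.smul
      hψ).aestronglyMeasurable (Filter.Eventually.of_forall fun y => by
        rw [norm_smul, Complex.norm_real, Real.norm_of_nonneg (hV.nonneg y)])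
  have hGψ := Gop_bound hk.gnm hV.nm hγ hψ hM0 (fun y _ => hM y)
  have hKψ := Kop_bound h e hk.qnm hV.nm hη hψ hM0 (fun y _ => hM y)
  have hGf := Gop_bound hk.gnm hV.nm hγ hfm hM0 (fun y _ => (hfn y).le.trans (hM y))
  have hKf := Kop_bound h e hk.qnm hV.nm hη hfm hM0 (fun y _ => (hfn y).le.trans (hM y))
  have hGχ := Gop_bound hk.gnm hV.nm hγ (hψ.sub (sm_β (β := β) hψ)) (mul_nonneg hκ0 hM0)
    (fun y _ => hκ y)
  -- pointwise bound for the ground state
  have p1 : ∀ x, ‖ψ x‖ ^ 2 ≤ (m + l) * (inner ℂ (ψ x) (Gop g V ψ x)).re + Er := by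
    intro x
    have e1 : ψ x = ((m + l : ℝ) : ℂ) • Gop g V ψ x -
        (m : ℂ) • Gop g V (fun y => ψ y - β (ψ y)) x + Complex.I • Kop e α q V ψ x := by
      rw [← Gop_sub_β (hGψ x).1]
      conv_lhs => rw [hfix x, Rop_eq hk (hGψ x).1 (hKψ x).1]
      push_cast
      module
    rw [← re_inner_self]
    nth_rewrite 2 [e1]
    rw [inner_add_right, inner_sub_right, Complex.add_re, Complex.sub_re, re_inner_real_smul,
      re_inner_real_smul]
    have e2 := (abs_le.1 (abs_re_inner_le (ψ x) (Gop g V (fun y => ψ y - β (ψ y)) x))).1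
    have e3 := re_inner_le (ψ x) (Complex.I • Kop e α q V ψ x)
    rw [norm_smul, Complex.norm_I, one_mul] at e3
    have e4 : ‖ψ x‖ * ‖Gop g V (fun y => ψ y - β (ψ y)) x‖ ≤ M * (γ * (κ * M)) :=
      mul_le_mul (hM x) (hGχ x).2 (norm_nonneg _) hM0
    have e5 : ‖ψ x‖ * ‖Kop e α q V ψ x‖ ≤ M * (η * M) :=
      mul_le_mul (hM x) (hKψ x).2 (norm_nonneg _) hM0
    rw [hEr]
    nlinarith
  -- the form at the aligned test function
  have p2 : ∀ x, (inner ℂ (f x) (Rop r V f x)).re =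
      (m + l) * (inner ℂ (f x) (Gop g V f x)).re := by
    intro x
    have e1 : β (Gop g V f x) = Gop g V f x := by
      have := Gop_sub_β (β := β) (hGf x).1
      have e2 : (fun y => f y - β (f y)) = fun _ => 0 := by
        funext y; simp [hf, hξ]
      rw [e2] at this
      simp only [Gop, smul_zero, integral_zero] at this
      exact (sub_eq_zero.1 this).symm
    have e2 : inner ℂ (f x) (Kop e α q V f x) = 0 := by
      unfold Kop
      rw [← integral_inner (hKf x).1]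
      simp only [hf, map_smul, inner_smul_left, inner_smul_right, inner_cl_upper h _ _ hξ,
        mul_zero, integral_zero]
    rw [Rop_eq hk (hGf x).1 (hKf x).1, e1, inner_add_right, inner_add_right, inner_smul_right _ _
      Complex.I, e2, mul_zero, add_zero, Complex.add_re, re_inner_real_smul, re_inner_real_smul]
    ring
  -- the pointwise gain
  have p3 : ∀ x, V x ≠ 0 → gmin * (‖ψ x‖ * n₁ - (inner ℂ (ψ x) Ψ).re) ≤
      (inner ℂ (f x) (Gop g V f x)).re - (inner ℂ (ψ x) (Gop g V ψ x)).re := by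
    intro x hx
    have j1 := Complex.reCLM.integrable_comp ((hGf x).1.const_inner (𝕜 := ℂ) (f x))
    have j2 := Complex.reCLM.integrable_comp ((hGψ x).1.const_inner (𝕜 := ℂ) (ψ x))
    have j3 := Complex.reCLM.integrable_comp (hiΨ.const_inner (𝕜 := ℂ) (ψ x))
    simp only [Complex.reCLM_apply] at j1 j2 j3
    unfold Gop
    rw [re_inner_integral (hGf x).1, re_inner_integral (hGψ x).1, hΨ, re_inner_integral hiΨ,
      ← integral_const_mul, ← integral_sub (hiψ.const_mul _) j3, ← integral_const_mul,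
      ← integral_sub j1 j2]
    refine integral_mono_ae (((hiψ.const_mul _).sub j3).const_mul _) (j1.sub j2) ?_
    filter_upwards [hmin x hx] with y hy
    rw [re_inner_real_smul (V y), re_inner_real_smul (V y * g (x - y)) (f x),
      re_inner_real_smul (V y * g (x - y)) (ψ x)]
    have e1 : (inner ℂ (f x) (f y)).re = ‖ψ x‖ * ‖ψ y‖ := by
      simp only [hf]
      rw [re_inner_real_smul, re_inner_real_smul_left, re_inner_self, hξ1]
      ring
    rw [e1]
    by_cases hy0 : V y = 0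
    · simp [hy0]
    · have e2 := re_inner_le (ψ x) (ψ y)
      have e3 := hy hy0
      have e4 := hV.nonneg y
      have : 0 ≤ V y * (g (x - y) - gmin) * (‖ψ x‖ * ‖ψ y‖ - (inner ℂ (ψ x) (ψ y)).re) :=
        mul_nonneg (mul_nonneg e4 (by linarith)) (by linarith)
      nlinarith
  have k1 : Integrable (fun x => V x * (inner ℂ (f x) (Gop g V f x)).re) :=
    hV.integrable_mul (sm_re_inner hfm (sm_Gop hk.gnm.meas hV.meas hfm)).aestronglyMeasurable
      (M := M * (γ * M)) fun x => (abs_re_inner_le _ _).trans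
        (mul_le_mul ((hfn x).le.trans (hM x)) (hGf x).2 (norm_nonneg _) hM0)
  have k2 : Integrable (fun x => V x * (inner ℂ (ψ x) (Gop g V ψ x)).re) :=
    hV.integrable_mul (sm_re_inner hψ (sm_Gop hk.gnm.meas hV.meas hψ)).aestronglyMeasurable
      (M := M * (γ * M)) fun x => (abs_re_inner_le _ _).trans
        (mul_le_mul (hM x) (hGψ x).2 (norm_nonneg _) hM0)
  have k3 : Integrable (fun x => V x * ‖ψ x‖ ^ 2) :=
    hV.integrable_mul (hψ.norm.pow 2).aestronglyMeasurable (M := M ^ 2) fun x => by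
      rw [abs_of_nonneg (sq_nonneg _)]
      exact pow_le_pow_left₀ (norm_nonneg _) (hM x) 2
  have k4 : Integrable (fun x => V x * (inner ℂ (ψ x) Ψ).re) :=
    hV.integrable_mul (sm_re_inner hψ stronglyMeasurable_const).aestronglyMeasurable
      (M := M * ‖Ψ‖) fun x => (abs_re_inner_le _ _).trans
        (mul_le_mul_of_nonneg_right (hM x) (norm_nonneg _))
  have q1 : (m + l) * ∫ x, V x * (inner ℂ (f x) (Gop g V f x)).re ≤ ∫ x, V x * ‖ψ x‖ ^ 2 := by
    have := hmax f ⟨hfm, M, fun y => (hfn y).le.trans (hM y)⟩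
    unfold Qf Nf at this
    simp only [p2, hfn, mul_left_comm _ (m + l)] at this
    rwa [integral_const_mul] at this
  have q2 : ∫ x, V x * ‖ψ x‖ ^ 2 ≤
      (m + l) * (∫ x, V x * (inner ℂ (ψ x) (Gop g V ψ x)).re) + ω * Er := by
    calc _ ≤ ∫ x, ((m + l) * (V x * (inner ℂ (ψ x) (Gop g V ψ x)).re) + V x * Er) :=
          integral_mono k3 ((k2.const_mul _).add (hV.integrable.mul_const _)) fun x => by
            have := mul_le_mul_of_nonneg_left (p1 x) (hV.nonneg x)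
            simp only
            linarith
      _ ≤ _ := by
          rw [integral_add (k2.const_mul _) (hV.integrable.mul_const _), integral_const_mul,
            integral_mul_const]
          gcongr
  have q3 : ∫ x, V x * (inner ℂ (ψ x) Ψ).re = ‖Ψ‖ ^ 2 := by
    rw [← re_inner_self]
    nth_rewrite 2 [hΨ]
    rw [re_inner_integral hiΨ]
    refine integral_congr_ae (Filter.Eventually.of_forall fun x => ?_)
    simp only
    rw [re_inner_real_smul]
    congr 1
    exact inner_re_symm (𝕜 := ℂ) _ _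
  have q4 : gmin * (n₁ ^ 2 - ‖Ψ‖ ^ 2) ≤ (∫ x, V x * (inner ℂ (f x) (Gop g V f x)).re) -
      ∫ x, V x * (inner ℂ (ψ x) (Gop g V ψ x)).re := by
    rw [← q3, sq, ← integral_mul_const, ← integral_sub (hiψ.mul_const _) k4, ← integral_const_mul,
      ← integral_sub k1 k2]
    refine integral_mono (((hiψ.mul_const _).sub k4).const_mul _) (k1.sub k2) fun x => ?_
    by_cases hx : V x = 0
    · simp [hx]
    · have := mul_le_mul_of_nonneg_left (p3 x hx) (hV.nonneg x)
      simp only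
      linarith
  have q5 : ‖Ψ‖ ≤ n₁ := norm_integral_le_of_norm_le hiψ (Filter.Eventually.of_forall fun y => by
    rw [norm_smul, Complex.norm_real, Real.norm_of_nonneg (hV.nonneg y)])
  have q6 : 0 ≤ gmin * (n₁ ^ 2 - ‖Ψ‖ ^ 2) :=
    mul_nonneg hg0 (by nlinarith [norm_nonneg Ψ])
  nlinarith

/-- Lower bound for the macroscopic field at the origin. -/
lemma field_ge {g V₀ V₁ : E → ℝ} (hg : NM g) (h₀ : Nice V₀) (h₁ : Nice V₁) {γ M ω₁ gmin gfar : ℝ}
    (hγ : Adm V₀ g γ) {ψ : E → S} (hψ : StronglyMeasurable ψ) (hM : ∀ x, ‖ψ x‖ ≤ M) {ξ₀ : S}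
    (hξ1 : ‖ξ₀‖ = 1) (hω : ∫ y, V₁ y ≤ ω₁) (hg0 : 0 ≤ gmin) (hg1 : 0 ≤ gfar)
    (hlow : ∀ᵐ y, V₀ y ≠ 0 → gmin ≤ g (0 - y)) (hup : ∀ y, V₀ y ≠ 0 → g (0 - y) ≤ gfar) :
    gmin * ((∫ y, (V₀ y + V₁ y) * ‖ψ y‖) - ω₁ * M) -
      gfar * ((∫ y, (V₀ y + V₁ y) * ‖ψ y‖) - ‖∫ y, ((V₀ y + V₁ y : ℝ) : ℂ) • ψ y‖) ≤
      ‖Gop g V₀ ψ 0‖ := by
  have hM0 : 0 ≤ M := (norm_nonneg _).trans (hM 0)
  set Ψ := ∫ y, ((V₀ y + V₁ y : ℝ) : ℂ) • ψ y with hΨ
  obtain ⟨u, hu1, hu⟩ : ∃ u : S, ‖u‖ = 1 ∧ (inner ℂ u Ψ).re = ‖Ψ‖ := by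
    by_cases h0 : Ψ = 0
    · exact ⟨ξ₀, hξ1, by simp [h0]⟩
    · have hp : 0 < ‖Ψ‖ := norm_pos_iff.2 h0
      refine ⟨((‖Ψ‖⁻¹ : ℝ) : ℂ) • Ψ, ?_, ?_⟩
      · rw [norm_smul, Complex.norm_real, Real.norm_of_nonneg (by positivity)]
        field_simp
      · rw [re_inner_real_smul_left, re_inner_self]
        field_simp
  have hb : ∀ y, |‖ψ y‖| ≤ M := fun y => by rw [abs_of_nonneg (norm_nonneg _)]; exact hM y
  have hb' : ∀ y, |(inner ℂ u (ψ y)).re| ≤ M := fun y => (abs_re_inner_le _ _).trans (by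
    rw [hu1, one_mul]; exact hM y)
  have hsm := (sm_re_inner (stronglyMeasurable_const (b := u)) hψ).aestronglyMeasurable
    (μ := (volume : Measure E))
  have i0 := h₀.integrable_mul hψ.norm.aestronglyMeasurable hb
  have i1 := h₁.integrable_mul hψ.norm.aestronglyMeasurable hb
  have j0 := h₀.integrable_mul hsm hb'
  have j1 := h₁.integrable_mul hsm hb'
  have i01 : Integrable (fun y => (V₀ y + V₁ y) * ‖ψ y‖) := by
    simp only [add_mul]; exact i0.add i1
  have j01 : Integrable (fun y => (V₀ y + V₁ y) * (inner ℂ u (ψ y)).re) := by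
    simp only [add_mul]; exact j0.add j1
  have hiΨ : Integrable (fun y => ((V₀ y + V₁ y : ℝ) : ℂ) • ψ y) :=
    i01.mono' ((Complex.continuous_ofReal.measurable.comp
      (h₀.meas.add h₁.meas)).stronglyMeasurable.smul hψ).aestronglyMeasurable
      (Filter.Eventually.of_forall fun y => by
        rw [norm_smul, Complex.norm_real,
          Real.norm_of_nonneg (add_nonneg (h₀.nonneg y) (h₁.nonneg y))])
  have hG := (Gop_bound hg h₀.nm hγ hψ hM0 (fun y _ => hM y) 0).1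
  have jG := Complex.reCLM.integrable_comp (hG.const_inner (𝕜 := ℂ) u)
  simp only [Complex.reCLM_apply] at jG
  have e1 : (inner ℂ u (Gop g V₀ ψ 0)).re ≤ ‖Gop g V₀ ψ 0‖ := by
    simpa [hu1] using re_inner_le u (Gop g V₀ ψ 0)
  refine le_trans ?_ e1
  have e2 : ‖Ψ‖ = ∫ y, (V₀ y + V₁ y) * (inner ℂ u (ψ y)).re := by
    rw [← hu, hΨ, re_inner_integral hiΨ]
    simp only [re_inner_real_smul]
  have e3 : (∫ y, (V₀ y + V₁ y) * ‖ψ y‖) - ω₁ * M ≤ ∫ y, V₀ y * ‖ψ y‖ := by
    simp only [add_mul]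
    rw [integral_add i0 i1]
    have : ∫ y, V₁ y * ‖ψ y‖ ≤ ∫ y, V₁ y * M :=
      integral_mono i1 (h₁.integrable.mul_const _) fun y =>
        mul_le_mul_of_nonneg_left (hM y) (h₁.nonneg y)
    rw [integral_mul_const] at this
    nlinarith
  refine le_trans (sub_le_sub_right (mul_le_mul_of_nonneg_left e3 hg0) _) ?_
  have k01 : Integrable (fun y => (V₀ y + V₁ y) * ‖ψ y‖ - (V₀ y + V₁ y) * (inner ℂ u (ψ y)).re) :=
    i01.sub j01
  unfold Gop
  rw [e2, re_inner_integral hG, ← integral_sub i01 j01, ← integral_const_mul, ← integral_const_mul,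
    ← integral_sub (i0.const_mul _) (k01.const_mul _)]
  refine integral_mono_ae ((i0.const_mul _).sub (k01.const_mul _)) jG ?_
  filter_upwards [hlow] with y hy
  rw [re_inner_real_smul]
  have a1 : (inner ℂ u (ψ y)).re ≤ ‖ψ y‖ := by simpa [hu1] using re_inner_le u (ψ y)
  have a2 := h₀.nonneg y
  have a3 := h₁.nonneg y
  have a4 : 0 ≤ gfar * (V₁ y * (‖ψ y‖ - (inner ℂ u (ψ y)).re)) :=
    mul_nonneg hg1 (mul_nonneg a3 (by linarith))
  by_cases hy0 : V₀ y = 0
  · simp only [hy0]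
    nlinarith
  · have a5 : 0 ≤ V₀ y * (g (0 - y) - gmin) * ‖ψ y‖ :=
      mul_nonneg (mul_nonneg a2 (by linarith [hy hy0])) (norm_nonneg _)
    have a6 : 0 ≤ V₀ y * (gfar - g (0 - y)) * (‖ψ y‖ - (inner ℂ u (ψ y)).re) :=
      mul_nonneg (mul_nonneg a2 (by linarith [hup y hy0])) (by linarith)
    nlinarith

end Pool.Agent.MP_0b7119_mp.G
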