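import Pool.Agent.MP_0b7119_mp.Keller

open Set MeasureTheory Matrix Filter Topology

namespace Pool.Agent.MP_0b7119_mp

theorem exists_theta {Ψ : ℝ → ℝ} {C : ℝ} (hc : Continuous Ψ) (hpos : ∀ y, 0 < Ψ y)
    (hC : ∀ y, Ψ y ≤ C) : ∃ θ : ℝ → ℝ, StrictMono θ ∧ Function.Surjective θ ∧
      ∀ x, HasDerivAt θ (Ψ (θ x)) x := by
  have hC0 : 0 < C := (hpos 0).trans_le (hC 0)
  have hic : Continuous fun y => (Ψ y)⁻¹ := hc.inv₀ (fun y => (hpos y).ne')
  set X : ℝ → ℝ := fun y => ∫ t in (0 : ℝ)..y, (Ψ t)⁻¹ with hX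
  have hXd : ∀ y, HasDerivAt X (Ψ y)⁻¹ y := fun y =>
    (hic.integral_hasStrictDerivAt 0 y).hasDerivAt
  have hXm : StrictMono X := strictMono_of_deriv_pos fun y => by
    rw [(hXd y).deriv]; exact inv_pos.2 (hpos y)
  have hXc : Continuous X := continuous_iff_continuousAt.2 fun y => (hXd y).continuousAt
  have hmono : Monotone fun y => X y - C⁻¹ * y := by
    have hd : ∀ y, HasDerivAt (fun y => X y - C⁻¹ * y) ((Ψ y)⁻¹ - C⁻¹ * 1) y := fun y =>
      (hXd y).sub ((hasDerivAt_id y).const_mul _)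
    apply monotone_of_deriv_nonneg (fun y => (hd y).differentiableAt)
    intro y
    rw [(hd y).deriv]
    have := inv_anti₀ (hpos y) (hC y)
    linarith
  have hX0 : X 0 = 0 := by simp [hX]
  have hsurj : Function.Surjective X := by
    apply hXc.surjective
    · refine tendsto_atTop_mono' atTop (f₁ := fun y => C⁻¹ * y) ?_
        (tendsto_id.const_mul_atTop (inv_pos.2 hC0))
      filter_upwards [eventually_ge_atTop 0] with y hy
      have := hmono hy
      simp only [hX0] at this
      linarith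
    · refine tendsto_atBot_mono' atBot (f₂ := X) (f₁ := fun y => C⁻¹ * y) ?_
        (tendsto_id.const_mul_atBot (inv_pos.2 hC0))
      filter_upwards [eventually_le_atBot 0] with y hy
      have := hmono hy
      simp only [hX0] at this
      linarith
  let e := hXm.orderIsoOfSurjective X hsurj
  refine ⟨e.symm, e.symm.strictMono, e.symm.surjective, fun x => ?_⟩
  have := HasDerivAt.of_local_left_inverse (f := X) (g := e.symm) (a := x)
    e.symm.continuous.continuousAt (hXd _) (inv_ne_zero (hpos _).ne')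
    (Eventually.of_forall fun y => e.apply_symm_apply y)
  rwa [inv_inv] at this

theorem integrable_of_bdd {f : ℝ → ℝ} {a b B : ℝ} (hf : Measurable f) (hB : ∀ x, |f x| ≤ B)
    (hs : ∀ x, x ∉ Icc a b → f x = 0) : Integrable f volume := by
  have h1 : IntegrableOn f (Icc a b) volume :=
    Measure.integrableOn_of_bounded (M := B) (by simp) hf.aestronglyMeasurable
      (Eventually.of_forall fun x => hB x)
  exact h1.integrable_of_forall_notMem_eq_zero hs

/-- the base potential together with its Pruefer data -/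
theorem exists_base {m p : ℝ} (hm : 0 < m) (hp : 1 ≤ p) :
    ∃ (M φ ρ : ℝ → ℝ) (a a' b g B : ℝ), a < a' ∧ a' ≤ b ∧ 0 < g ∧ Measurable M ∧
      (∀ x, 0 ≤ M x) ∧ (∀ x, M x ≤ B) ∧ (∀ x, x ∉ Icc a b → M x = 0) ∧
      (∀ x ∈ Icc a b, g ≤ M x) ∧ Pruefer m (m * Real.cos 2) M φ ρ ∧ φ a = -2 ∧ φ b = 2 ∧
      (∀ x ∈ Icc a a', Real.cos (φ x) ≤ 0) ∧ (∀ x ∈ Ioo a a', Real.cos (φ x) < 0) ∧
      2 * cp p * ∫ x, M x ^ p < HH m p 3 - HH m p (-3) := by
  have hg := GG_two_pos hm
  have hcp := cp_pos hp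
  set I := HH m p 2 - HH m p (-2) with hI
  set J := HH m p 3 - HH m p (-3) with hJ
  have hI0 : 0 ≤ I := sub_nonneg.2 (HH_mono hm hp (by norm_num))
  have hIJ : I < J := by
    have h1 := HH_lt hm hp
    have h2 : HH m p (-3) ≤ HH m p (-2) := HH_mono hm hp (by norm_num)
    linarith
  have hJ0 : 0 < J := hI0.trans_lt hIJ
  have hlt : cp p * (I / J) < cp p := mul_lt_of_lt_one_right hcp ((div_lt_one hJ0).2 hIJ)
  obtain ⟨_, ⟨τ, hτ, rfl⟩, hτ2⟩ := exists_lt_of_lt_csSup
    (s := (fun τ : ℝ => (τ - 1) / τ ^ p) '' Ioi 1) ⟨_, 2, by norm_num, rfl⟩ hlt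
  have hτ1 : (1 : ℝ) < τ := hτ
  have hτp : 0 < τ ^ p := by positivity
  set Ψ : ℝ → ℝ := fun y => 2 * (τ - 1) * max (GG m y) 0 + 2 * GG m 2 with hΨ
  have hGle : ∀ y, GG m y ≤ 2 * m := fun y => by
    unfold GG
    nlinarith [Real.cos_le_one y, cos3_gt]
  obtain ⟨θ, hθm, hθs, hθd⟩ := exists_theta (Ψ := Ψ) (C := 2 * (τ - 1) * (2 * m) + 2 * GG m 2)
    (by have := GG_cont m; fun_prop)
    (fun y => by
      have : 0 ≤ 2 * (τ - 1) * max (GG m y) 0 :=
        mul_nonneg (by linarith) (le_max_right _ _)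
      simp only [hΨ]; linarith)
    (fun y => by
      have : 2 * (τ - 1) * max (GG m y) 0 ≤ 2 * (τ - 1) * (2 * m) :=
        mul_le_mul_of_nonneg_left (max_le (hGle y) (by linarith)) (by linarith)
      simp only [hΨ]; linarith)
  have hθc : Continuous θ := continuous_iff_continuousAt.2 fun x => (hθd x).continuousAt
  obtain ⟨a, ha⟩ := hθs (-2)
  obtain ⟨a', ha'⟩ := hθs (-(Real.pi / 2))
  obtain ⟨b, hb⟩ := hθs 2
  have haa' : a < a' := hθm.lt_iff_lt.1 (by rw [ha, ha']; linarith [pi_div_two_lt_two])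
  have ha'b : a' ≤ b := hθm.le_iff_le.1 (by rw [ha', hb]; linarith [Real.pi_pos])
  have hab : a ≤ b := haa'.le.trans ha'b
  have hθin : ∀ x ∈ Icc a b, θ x ∈ Icc (-2 : ℝ) 2 := fun x hx =>
    ⟨ha ▸ hθm.monotone hx.1, hb ▸ hθm.monotone hx.2⟩
  set M : ℝ → ℝ := (Icc a b).indicator fun x => τ * GG m (θ x) with hM
  have hMin : ∀ x ∈ Icc a b, M x = τ * GG m (θ x) := fun x hx => indicator_of_mem hx _
  have hMout : ∀ x, x ∉ Icc a b → M x = 0 := fun x hx => indicator_of_notMem hx _
  have hMg : ∀ x ∈ Icc a b, GG m 2 ≤ M x := fun x hx => by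
    rw [hMin x hx]
    have := GG_ge hm (hθin x hx)
    nlinarith
  have hM0 : ∀ x, 0 ≤ M x := fun x => by
    by_cases hx : x ∈ Icc a b
    · exact hg.le.trans (hMg x hx)
    · rw [hMout x hx]
  have hMB : ∀ x, M x ≤ τ * (2 * m) := fun x => by
    by_cases hx : x ∈ Icc a b
    · rw [hMin x hx]; exact mul_le_mul_of_nonneg_left (hGle _) (by linarith)
    · rw [hMout x hx]; positivity
  have hMm : Measurable M :=
    (continuous_const.mul ((GG_cont m).comp hθc)).measurable.indicator measurableSet_Icc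
  set φ : ℝ → ℝ := fun x => max (-2) (min (θ x) 2) with hφ
  have hφin : ∀ x ∈ Icc a b, φ x = θ x := fun x hx => by
    simp only [hφ]; rw [min_eq_left (hθin x hx).2, max_eq_right (hθin x hx).1]
  have hφl : ∀ x ≤ a, φ x = -2 := fun x hx => by
    have : θ x ≤ -2 := ha ▸ hθm.monotone hx
    simp only [hφ]; rw [min_eq_left (by linarith), max_eq_left this]
  have hφr : ∀ x ≥ b, φ x = 2 := fun x hx => by
    have : 2 ≤ θ x := hb ▸ hθm.monotone hx
    simp only [hφ]; rw [min_eq_right this, max_eq_right (by norm_num)]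
  have hθA : ACD θ (fun x => Ψ (θ x)) := ACD.of_hasDerivAt hθd (by
    have := GG_cont m
    fun_prop)
  have hφD : ACD φ (fun x => 2 * (m * Real.cos 2 + M x) - 2 * m * Real.cos (φ x)) := by
    refine ⟨fun c d => ?_, ?_⟩
    · have hl : LipschitzWith 1 (fun y : ℝ => max (-2) (min y 2)) :=
        (LipschitzWith.id.min_const 2).const_max (-2)
      exact ac_comp_lipschitzOn (g := fun y : ℝ => max (-2) (min y 2)) (hθA.ac c d)
        (hl.lipschitzOnWith (s := univ)) (mapsTo_univ _ _)
    · filter_upwards [Measure.ae_ne volume a, Measure.ae_ne volume b] with x hxa hxb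
      rcases lt_or_gt_of_ne hxa with h1 | h1
      · rw [hMout x (fun h => absurd h.1 (not_le.2 h1)), hφl x h1.le, Real.cos_neg]
        refine ((hasDerivAt_const x (-2 : ℝ)).congr_of_eventuallyEq ?_).congr_deriv (by ring)
        filter_upwards [Iio_mem_nhds h1] with y hy
        exact hφl y (le_of_lt hy)
      rcases lt_or_gt_of_ne hxb with h2 | h2
      · have hx : x ∈ Icc a b := ⟨h1.le, h2.le⟩
        rw [hMin x hx, hφin x hx]
        refine ((hθd x).congr_of_eventuallyEq ?_).congr_deriv ?_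
        · filter_upwards [Icc_mem_nhds h1 h2] with y hy
          exact hφin y hy
        · have := GG_ge hm (hθin x hx)
          simp only [hΨ]
          rw [max_eq_left (by linarith)]
          unfold GG; ring
      · rw [hMout x (fun h => absurd h.2 (not_le.2 h2)), hφr x h2.le]
        refine ((hasDerivAt_const x (2 : ℝ)).congr_of_eventuallyEq ?_).congr_deriv (by ring)
        filter_upwards [Ioi_mem_nhds h2] with y hy
        exact hφr y (le_of_lt hy)
  have hsc : Continuous fun x => -2 * m * Real.sin (φ x) := by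
    have := hφD.continuous
    fun_prop
  set ρ : ℝ → ℝ := fun x => ∫ t in (0 : ℝ)..x, -2 * m * Real.sin (φ t) with hρ
  have hρD : ACD ρ (fun x => -2 * m * Real.sin (φ x)) := ACD.primitive hsc.locallyIntegrable 0
  set κ := 2 * m * Real.sin 2 with hκ
  have hκ0 : 0 < κ := by
    have := Real.sin_pos_of_pos_of_lt_pi (x := 2) (by norm_num) (by linarith [three_lt_pi])
    positivity
  have hec : Continuous fun x => Real.exp (ρ x) := hρD.exp.continuous
  have hint : Integrable (fun x => Real.exp (ρ x)) volume := by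
    have i1 : IntegrableOn (fun x => Real.exp (ρ x)) (Iic a) volume := by
      refine Integrable.mono' ((integrableOn_exp_mul_Iic hκ0 a).const_mul
        (Real.exp (ρ a - κ * a))) hec.aestronglyMeasurable ?_
      rw [ae_restrict_iff' measurableSet_Iic]
      refine Eventually.of_forall fun x hx => ?_
      rw [Real.norm_eq_abs, abs_of_pos (Real.exp_pos _), ← Real.exp_add]
      apply Real.exp_le_exp.2
      have := (hρD.sub (ACD.id'.const_mul κ)).le_of_nonneg hx (Eventually.of_forall fun z hz => by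
        rw [hφl z hz.2, Real.sin_neg]; linarith)
      linarith
    have i2 : IntegrableOn (fun x => Real.exp (ρ x)) (Icc a b) volume :=
      hec.continuousOn.integrableOn_Icc
    have i3 : IntegrableOn (fun x => Real.exp (ρ x)) (Ioi b) volume := by
      refine Integrable.mono' ((integrableOn_exp_mul_Ioi (neg_lt_zero.2 hκ0) b).const_mul
        (Real.exp (ρ b + κ * b))) hec.aestronglyMeasurable ?_
      rw [ae_restrict_iff' measurableSet_Ioi]
      refine Eventually.of_forall fun x hx => ?_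
      rw [Real.norm_eq_abs, abs_of_pos (Real.exp_pos _), ← Real.exp_add]
      apply Real.exp_le_exp.2
      have := (hρD.neg.sub (ACD.id'.const_mul κ)).le_of_nonneg (le_of_lt hx)
        (Eventually.of_forall fun z hz => by rw [hφr z hz.1]; linarith)
      linarith
    rw [← integrableOn_univ]
    refine ((i1.union i2).union i3).mono_set fun x _ => ?_
    rcases le_or_gt x a with h | h
    · exact Or.inl (Or.inl h)
    rcases le_or_gt x b with h' | h'
    · exact Or.inl (Or.inr ⟨h.le, h'⟩)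
    · exact Or.inr h'
  have hcos : ∀ x ∈ Icc a a', θ x ∈ Icc (-2) (-(Real.pi / 2)) := fun x hx =>
    ⟨ha ▸ hθm.monotone hx.1, ha' ▸ hθm.monotone hx.2⟩
  refine ⟨M, φ, ρ, a, a', b, GG m 2, τ * (2 * m), haa', ha'b, hg, hMm, hM0, hMB, hMout, hMg,
    ⟨hφD, hρD, hint⟩, hφl a le_rfl, hφr b le_rfl, fun x hx => ?_, fun x hx => ?_, ?_⟩
  · rw [hφin x ⟨hx.1, hx.2.trans ha'b⟩, ← Real.cos_neg]
    have := hcos x hx
    exact Real.cos_nonpos_of_pi_div_two_le_of_le (by linarith [this.2])
      (by linarith [this.1, three_lt_pi, Real.pi_pos])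
  · rw [hφin x ⟨hx.1.le, hx.2.le.trans ha'b⟩, ← Real.cos_neg]
    have h1 := hcos x ⟨hx.1.le, hx.2.le⟩
    have h2 : θ x < -(Real.pi / 2) := ha' ▸ hθm hx.2
    exact Real.cos_neg_of_pi_div_two_lt_of_lt (by linarith)
      (by linarith [h1.1, three_lt_pi, Real.pi_pos])
  · have hMp : Integrable (fun x => M x ^ p) volume := by
      refine integrable_of_bdd (a := a) (b := b) (B := (τ * (2 * m)) ^ p)
        (hMm.pow_const p) (fun x => ?_) (fun x hx => ?_)
      · rw [abs_of_nonneg (Real.rpow_nonneg (hM0 x) _)]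
        exact Real.rpow_le_rpow (hM0 x) (hMB x) (by linarith)
      · rw [hMout x hx, Real.zero_rpow (by linarith)]
    have e1 : ∫ x, M x ^ p = ∫ x in a..b, M x ^ p := by
      rw [intervalIntegral.integral_of_le hab, ← integral_Icc_eq_integral_Ioc]
      exact (setIntegral_eq_integral_of_forall_compl_eq_zero (fun x hx => by
        rw [hMout x hx, Real.zero_rpow (by linarith)])).symm
    have hW := ((hφD.comp (HH_hasDerivAt m hp) (hh_cont m hp)).const_mul
      (τ ^ p / (2 * (τ - 1)))).sub (ACD.primitive hMp.locallyIntegrable a)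
    have h1 := hW.le_of_nonneg hab (Eventually.of_forall fun x hx => by
      rw [hMin x hx, hφin x hx]
      have h2 := GG_ge hm (hθin x hx)
      have h3 : 0 < GG m (θ x) := hg.trans_le h2
      have h4 : hh m p (θ x) = GG m (θ x) ^ (p - 1) := by
        unfold hh
        rw [max_eq_left h3.le, min_eq_left ((one_le_div hg).2 h2), mul_one]
      have h5 : (τ * GG m (θ x)) ^ p = τ ^ p * (GG m (θ x) ^ (p - 1) * GG m (θ x)) := by
        rw [Real.mul_rpow (by linarith) h3.le, ← Real.rpow_add_one h3.ne']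
        congr 2; ring
      have h6 : 2 * (τ - 1) * GG m (θ x) ≤
          2 * (m * Real.cos 2 + τ * GG m (θ x)) - 2 * m * Real.cos (θ x) := by
        have : 2 * (m * Real.cos 2 + τ * GG m (θ x)) - 2 * m * Real.cos (θ x) =
          2 * (τ - 1) * GG m (θ x) + 2 * GG m 2 := by unfold GG; ring
        linarith
      have h7 : 0 < GG m (θ x) ^ (p - 1) := Real.rpow_pos_of_pos h3 _
      have h8 : 0 < τ - 1 := by linarith
      have h9 : τ ^ p / (2 * (τ - 1)) * (GG m (θ x) ^ (p - 1) * (2 * (τ - 1) * GG m (θ x))) ≤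
          τ ^ p / (2 * (τ - 1)) * (GG m (θ x) ^ (p - 1) *
            (2 * (m * Real.cos 2 + τ * GG m (θ x)) - 2 * m * Real.cos (θ x))) := by gcongr
      have h10 : τ ^ p / (2 * (τ - 1)) * (GG m (θ x) ^ (p - 1) * (2 * (τ - 1) * GG m (θ x))) =
          τ ^ p * (GG m (θ x) ^ (p - 1) * GG m (θ x)) := by field_simp
      rw [h4, h5]
      linarith)
    simp only [intervalIntegral.integral_same, hφl a le_rfl, hφr b le_rfl] at h1
    rw [e1]
    have h8 : 0 < τ - 1 := by linarith
    have h2 : ∫ x in a..b, M x ^ p ≤ τ ^ p / (2 * (τ - 1)) * I := by rw [hI]; linarith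
    have h3 : cp p * I * τ ^ p < J * (τ - 1) := by
      have h4 : cp p * (I / J) < (τ - 1) / τ ^ p := hτ2
      rw [← mul_div_assoc, div_lt_div_iff₀ hJ0 hτp] at h4
      linarith
    have h5 : 2 * cp p * (τ ^ p / (2 * (τ - 1)) * I) < J := by
      have : 2 * cp p * (τ ^ p / (2 * (τ - 1)) * I) = cp p * I * τ ^ p / (τ - 1) := by
        field_simp
      rw [this, div_lt_iff₀ h8]
      exact h3
    have h6 : 2 * cp p * ∫ x in a..b, M x ^ p ≤ 2 * cp p * (τ ^ p / (2 * (τ - 1)) * I) := by
      gcongr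
    linarith

end Pool.Agent.MP_0b7119_mp
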