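import Pool.Agent.MP_0b7119_mp.Expand

/-! Parity and the criterion for the midpoint potential. -/

open Set MeasureTheory Real
open scoped ENNReal

namespace Pool.Agent.MP_0b7119_mp.G

set_option linter.unusedSectionVars false

variable {E S : Type} [NormedAddCommGroup E] [InnerProductSpace ℝ E] [FiniteDimensional ℝ E]
  [MeasurableSpace E] [BorelSpace E] [NormedAddCommGroup S] [InnerProductSpace ℂ S]
  [CompleteSpace S] [FiniteDimensional ℂ S] {d : ℕ} {α : Fin d → S →L[ℂ] S} {β : S →L[ℂ] S}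

lemma β_integral (h : IsDiracRep α β) (f : E → S) : β (∫ y, f y) = ∫ y, β (f y) :=
  ((⟨β.toLinearMap, norm_β_apply h⟩ : S →ₗᵢ[ℂ] S).integral_comp_comm f).symm

lemma Rop_parity (h : IsDiracRep α β) {r : E → S →L[ℂ] S}
    (hr : ∀ z ξ, β (r (-z) ξ) = r z (β ξ)) (V : E → ℝ) (ψ : E → S) (x : E) :
    Rop r (fun y => V (-y)) (fun y => β (ψ (-y))) x = β (Rop r V ψ (-x)) := by
  unfold Rop
  rw [β_integral h, ← integral_neg_eq_self]
  refine integral_congr_ae (Filter.Eventually.of_forall fun y => ?_)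
  simp only [neg_neg, map_smul]
  rw [← hr]
  congr 3
  abel

lemma Sol.parity (h : IsDiracRep α β) {r : E → S →L[ℂ] S}
    (hr : ∀ z ξ, β (r (-z) ξ) = r z (β ξ)) {V : E → ℝ} {ψ : E → S} (hψ : Sol r V ψ) :
    Sol r (fun y => V (-y)) (fun y => β (ψ (-y))) := by
  have hq := Measure.measurePreserving_neg (volume : Measure E)
  refine ⟨β.comp_memLp' (hψ.1.comp_measurePreserving hq), fun h0 => hψ.2.1 ?_, ?_⟩
  · filter_upwards [hq.quasiMeasurePreserving.ae h0] with x hx
    simp only [neg_neg, Pi.zero_apply] at hx ⊢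
    rw [← β_β h (ψ x), hx, map_zero]
  · filter_upwards [hq.quasiMeasurePreserving.ae hψ.2.2] with x hx
    rw [Rop_parity h hr, ← hx]

lemma Nice.neg {V : E → ℝ} (h : Nice V) : Nice (fun y => V (-y)) := by
  obtain ⟨C, hC⟩ := h.bdd
  obtain ⟨R, hR⟩ := h.supp
  exact ⟨h.meas.comp measurable_neg, fun y => h.nonneg _, ⟨C, fun y => hC _⟩,
    ⟨R, fun y hy => hR _ (by rwa [norm_neg])⟩⟩

lemma Nice.add {V W : E → ℝ} (h : Nice V) (h' : Nice W) : Nice (fun y => V y + W y) := by
  obtain ⟨C, hC⟩ := h.bdd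
  obtain ⟨R, hR⟩ := h.supp
  obtain ⟨C', hC'⟩ := h'.bdd
  obtain ⟨R', hR'⟩ := h'.supp
  exact ⟨h.meas.add h'.meas, fun y => add_nonneg (h.nonneg y) (h'.nonneg y),
    ⟨C + C', fun y => add_le_add (hC y) (hC' y)⟩, ⟨max R R', fun y hy => by
      rw [hR y ((le_max_left _ _).trans hy), hR' y ((le_max_right _ _).trans hy), add_zero]⟩⟩

lemma Nice.const_mul {V : E → ℝ} (h : Nice V) {c : ℝ} (hc : 0 ≤ c) : Nice (fun y => c * V y) := by
  obtain ⟨C, hC⟩ := h.bdd
  obtain ⟨R, hR⟩ := h.supp
  exact ⟨h.meas.const_mul c, fun y => mul_nonneg hc (h.nonneg y),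
    ⟨c * C, fun y => mul_le_mul_of_nonneg_left (hC y) hc⟩, ⟨R, fun y hy => by
      rw [hR y hy, mul_zero]⟩⟩

lemma Rop_bound {r : E → S →L[ℂ] S} (hrm : StronglyMeasurable r) (hri : Integrable r)
    {V : E → ℝ} (hV : Nice V) {f : E → S} (hf : StronglyMeasurable f) {M : ℝ}
    (hM : ∀ y, ‖f y‖ ≤ M) (x : E) : Integrable (fun y => (V y : ℂ) • r (x - y) (f y)) := by
  obtain ⟨C, hC⟩ := hV.bdd
  refine ((adm_of_integrable hV.meas hV.nonneg hC hri.norm fun z => norm_nonneg _).bound x
    (f := fun y => (V y : ℂ) • r (x - y) (f y)) ((sm_apply hrm hV.meas hf).comp_measurable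
    (measurable_prodMk_left (x := x))).aestronglyMeasurable ((norm_nonneg _).trans (hM 0))
    (Filter.Eventually.of_forall fun y => ?_)).1
  exact (norm_Rop_integrand_le (fun _ => le_rfl) hV.nonneg f x y).trans
    (mul_le_mul_of_nonneg_left (hM y) (mul_nonneg (hV.nonneg y) (norm_nonneg _)))

lemma criterion (h : IsDiracRep α β) {r : E → S →L[ℂ] S} (hrm : StronglyMeasurable r)
    (hri : Integrable r) (hr : ∀ z ξ, β (r (-z) ξ) = r z (β ξ)) {V : E → ℝ} (hV : Nice V)
    {P : Set E} (hP : MeasurableSet P) {ρ s : ℝ} (hPρ : P ⊆ Metric.ball 0 ρ) (hs : 0 < s)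
    (h1 : ∀ x ∈ P, V x = s ∧ V (-x) = 0 ∧ -x ∉ P) (h2 : ∀ x, x ∉ P → -x ∉ P → V (-x) = V x)
    {ψ : E → S} (hψ : StronglyMeasurable ψ) (hfix : ∀ x, ψ x = Rop r V ψ x) {M : ℝ}
    (hM : ∀ x, ‖ψ x‖ ≤ M)
    (hD : 0 < ∫ x in P, ((inner ℂ (ψ x) (β (ψ (-x)))).re - ‖ψ x‖ ^ 2)) :
    ∃ f : E → S, Test f ∧ Nf (fun x => 1 / 2 * V x + 1 / 2 * V (-x)) f <
      Qf r (fun x => 1 / 2 * V x + 1 / 2 * V (-x)) f := by
  classical
  have hM0 : 0 ≤ M := (norm_nonneg _).trans (hM 0)
  set W : E → ℝ := fun x => 1 / 2 * V x + 1 / 2 * V (-x) with hW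
  have hWn : Nice W := (hV.const_mul (by norm_num)).add (hV.neg.const_mul (by norm_num))
  set φ : E → S := fun x => β (ψ (-x)) with hφ
  have hφm : StronglyMeasurable φ := sm_β (hψ.comp_measurable measurable_neg)
  have hφM : ∀ x, ‖φ x‖ ≤ M := fun x => by rw [hφ]; simp only [norm_β_apply h]; exact hM _
  set χ : E → S := fun x => ((1 / 2 : ℝ) : ℂ) • (ψ x + φ x) with hχ
  have hχm : StronglyMeasurable χ := (hψ.add hφm).const_smul _
  have hχM : ∀ x, ‖χ x‖ ≤ M := fun x => by
    simp only [hχ]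
    rw [norm_smul, Complex.norm_real, Real.norm_of_nonneg (by norm_num)]
    linarith [norm_add_le (ψ x) (φ x), hM x, hφM x]
  have hP' : MeasurableSet {x : E | -x ∈ P} := measurable_neg hP
  set f : E → S := fun x => if x ∈ P then ψ x else if -x ∈ P then φ x else χ x with hf
  have hfm : StronglyMeasurable f :=
    StronglyMeasurable.ite hP hψ (StronglyMeasurable.ite hP' hφm hχm)
  have hfM : ∀ x, ‖f x‖ ≤ M := fun x => by
    simp only [hf]
    split_ifs
    exacts [hM x, hφM x, hχM x]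
  have hR : ∀ x, Rop r W f x = χ x := by
    intro x
    have i1 := Rop_bound hrm hri hV hψ hM x
    have i2 := Rop_bound hrm hri hV.neg hφm hφM x
    have e1 : φ x = Rop r (fun y => V (-y)) φ x := by
      rw [hφ, Rop_parity h hr, ← hfix]
    simp only [hχ]
    rw [hfix x, e1]
    unfold Rop
    rw [← integral_add i1 i2, ← integral_smul]
    refine integral_congr_ae (Filter.Eventually.of_forall fun y => ?_)
    simp only [hW, hf, hχ]
    split_ifs with a1 a2
    · rw [(h1 y a1).1, (h1 y a1).2.1]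
      push_cast
      module
    · have := h1 (-y) a2
      rw [neg_neg] at this
      rw [this.1, this.2.1]
      push_cast
      module
    · rw [h2 y a1 a2, map_smul, map_add]
      push_cast
      module
  set D : E → ℝ := fun x => (inner ℂ (ψ x) (β (ψ (-x)))).re - ‖ψ x‖ ^ 2 with hD'
  have hfin : volume P ≠ ⊤ := ((measure_mono hPρ).trans_lt measure_ball_lt_top).ne
  have iD : IntegrableOn D P := by
    refine Measure.integrableOn_of_bounded (M := M * M + M ^ 2) hfin
      ((sm_re_inner hψ hφm).sub (hψ.norm.pow 2)).aestronglyMeasurable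
      (Filter.Eventually.of_forall fun x => (norm_sub_le _ _).trans (add_le_add ?_ ?_))
    · exact (abs_re_inner_le _ _).trans (mul_le_mul (hM _) (hφM _) (norm_nonneg _) hM0)
    · rw [Real.norm_of_nonneg (sq_nonneg _)]
      exact pow_le_pow_left₀ (norm_nonneg _) (hM x) 2
  have iD1 : Integrable (P.indicator D) := (integrable_indicator_iff hP).2 iD
  have iD2 : Integrable (fun x => P.indicator D (-x)) := iD1.comp_neg
  have k1 : Integrable (fun x => W x * (inner ℂ (f x) (χ x)).re) :=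
    hWn.integrable_mul (sm_re_inner hfm hχm).aestronglyMeasurable (M := M * M) fun x =>
      (abs_re_inner_le _ _).trans (mul_le_mul (hfM x) (hχM x) (norm_nonneg _) hM0)
  have k2 : Integrable (fun x => W x * ‖f x‖ ^ 2) :=
    hWn.integrable_mul (hfm.norm.pow 2).aestronglyMeasurable (M := M ^ 2) fun x => by
      rw [abs_of_nonneg (sq_nonneg _)]
      exact pow_le_pow_left₀ (norm_nonneg _) (hfM x) 2
  refine ⟨f, ⟨hfm, M, hfM⟩, ?_⟩
  rw [← sub_pos]
  unfold Qf Nf
  simp only [hR]
  rw [← integral_sub k1 k2]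
  have key : ∀ x, W x * (inner ℂ (f x) (χ x)).re - W x * ‖f x‖ ^ 2 =
      s / 4 * P.indicator D x + s / 4 * P.indicator D (-x) := by
    intro x
    simp only [hW, hf, hχ]
    split_ifs with a1 a2
    · rw [(h1 x a1).1, (h1 x a1).2.1, indicator_of_mem a1, indicator_of_notMem (h1 x a1).2.2,
        re_inner_real_smul, inner_add_right, Complex.add_re, re_inner_self]
      simp only [hD', hφ]
      ring
    · have := h1 (-x) a2
      rw [neg_neg] at this
      rw [this.1, this.2.1, indicator_of_mem a2, indicator_of_notMem a1,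
        re_inner_real_smul, inner_add_right, Complex.add_re, re_inner_self]
      simp only [hD', hφ, neg_neg, norm_β_apply h, inner_β h]
      ring
    · rw [indicator_of_notMem a1, indicator_of_notMem a2, re_inner_self]
      ring
  simp only [key]
  rw [integral_add (iD1.const_mul _) (iD2.const_mul _), integral_const_mul, integral_const_mul,
    integral_neg_eq_self, integral_indicator hP]
  positivity

end Pool.Agent.MP_0b7119_mp.G
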