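import Mathlib

/-! One-dimensional Dirac operators `D_m - V = α (-i d/dx) + m β - V` on `L²(ℝ, ℂ²)`. -/

open Set MeasureTheory Matrix
open scoped ENNReal

namespace Pool.Agent.MP_0b7119_mp

/-- `l` is an eigenvalue of `D_m - V`: there is a nonzero, locally absolutely continuous,
square integrable `ψ` with `-i α ψ' + m β ψ - V ψ = l ψ` almost everywhere. -/
def IsEig (α β : Matrix (Fin 2) (Fin 2) ℂ) (m : ℝ) (V : ℝ → ℝ) (l : ℝ) : Prop :=
  ∃ ψ : ℝ → Fin 2 → ℂ, ψ ≠ 0 ∧ MemLp ψ 2 volume ∧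
    (∀ a b, AbsolutelyContinuousOnInterval ψ a b) ∧
    ∀ᵐ x, DifferentiableAt ℝ ψ x ∧
      (-Complex.I) • α *ᵥ deriv ψ x + (m : ℂ) • β *ᵥ ψ x - (V x : ℂ) • ψ x = (l : ℂ) • ψ x

/-- The lowest eigenvalue in the gap `(-m, m)`, and `m` if there is none. -/
noncomputable def lamD (α β : Matrix (Fin 2) (Fin 2) ℂ) (m : ℝ) (V : ℝ → ℝ) : ℝ :=
  sInf ({l | l ∈ Ioo (-m) m ∧ IsEig α β m V l} ∪ {m})

/-- Nonnegative potentials in `L^p`. -/
def Pot (p : ℝ) : Set (ℝ → ℝ) := {V | (∀ x, 0 ≤ V x) ∧ MemLp V (ENNReal.ofReal p) volume}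

/-- The critical norm: the infimum of the `a` such that potentials of norm at most `a` bring the
lowest gap eigenvalue arbitrarily close to `-m`. -/
noncomputable def alphaStar (α β : Matrix (Fin 2) (Fin 2) ℂ) (m p : ℝ) : ℝ≥0∞ :=
  sInf {a | ∀ δ > 0, ∃ V ∈ Pot p, eLpNorm V (ENNReal.ofReal p) volume ≤ a ∧ lamD α β m V < -m + δ}

end Pool.Agent.MP_0b7119_mp
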