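import Pool.Agent.MP_0b7119_mp.Core

/-! Kernel estimates for the microscopic and macroscopic parts of the potential. -/

open Set MeasureTheory Real
open scoped ENNReal

namespace Pool.Agent.MP_0b7119_mp.G

set_option linter.unusedSectionVars false

variable {E : Type} [NormedAddCommGroup E] [InnerProductSpace ℝ E] [FiniteDimensional ℝ E]
  [MeasurableSpace E] [BorelSpace E]

/-- Potentials bounded by `C` and supported in the ball of radius `ρ`. -/
structure Loc (W : E → ℝ) (C ρ : ℝ) : Prop where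
  meas : Measurable W
  nonneg : ∀ y, 0 ≤ W y
  le : ∀ y, W y ≤ C
  supp : ∀ y, ρ ≤ ‖y‖ → W y = 0
  pos : 0 < ρ

lemma Loc.nice {W : E → ℝ} {C ρ : ℝ} (h : Loc W C ρ) : Nice W :=
  ⟨h.meas, h.nonneg, ⟨C, h.le⟩, ⟨ρ, h.supp⟩⟩

lemma Loc.eLpNorm_le {W : E → ℝ} {C ρ p : ℝ} (h : Loc W C ρ) (hp : 0 < p) :
    eLpNorm W (ENNReal.ofReal p) volume ≤
      ENNReal.ofReal (C * (cB E * ρ ^ (Module.finrank ℝ E : ℝ)) ^ (1 / p)) := by
  have hC : 0 ≤ C := (h.nonneg 0).trans (h.le 0)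
  have h1 : eLpNorm W (ENNReal.ofReal p) volume ≤
      eLpNorm ((Metric.ball (0 : E) ρ).indicator fun _ => C) (ENNReal.ofReal p) volume := by
    refine eLpNorm_mono fun y => ?_
    by_cases hy : y ∈ Metric.ball (0 : E) ρ
    · rw [indicator_of_mem hy, Real.norm_of_nonneg (h.nonneg y), Real.norm_of_nonneg hC]
      exact h.le y
    · rw [h.supp y (by simpa using hy), norm_zero]
      exact norm_nonneg _
  refine h1.trans (le_of_eq ?_)
  rw [eLpNorm_indicator_const Metric.isOpen_ball.measurableSet (by simpa using hp) (by simp),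
    ← real_ball h.pos, ENNReal.ofReal_mul hC, Real.enorm_eq_ofReal hC, ENNReal.toReal_ofReal hp.le,
    ← ENNReal.ofReal_rpow_of_nonneg measureReal_nonneg (by positivity),
    ofReal_measureReal measure_ball_lt_top.ne]

lemma Loc.memLp {W : E → ℝ} {C ρ p : ℝ} (h : Loc W C ρ) (hp : 0 < p) :
    MemLp W (ENNReal.ofReal p) volume :=
  ⟨h.meas.aestronglyMeasurable, (h.eLpNorm_le hp).trans_lt ENNReal.ofReal_lt_top⟩

lemma Adm.of_le_ne (hn : 2 ≤ Module.finrank ℝ E) {V a a' : E → ℝ} {γ : ℝ} (h : Adm V a γ)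
    (hV : Measurable V) (hV0 : ∀ y, 0 ≤ V y) (ha : Measurable a') (h0 : ∀ z, 0 ≤ a' z)
    (hle : ∀ z, z ≠ 0 → a' z ≤ a z) : Adm V a' γ :=
  h.of_le hV hV0 ha h0 fun x => by
    filter_upwards [ae_sub_ne hn x] with y hy using hle _ hy

section

variable (hn : 2 ≤ Module.finrank ℝ E)
include hn

lemma micro_g {W : E → ℝ} {C ρ b a : ℝ} (h : Loc W C ρ) (hb : 0 < b) (ha : 0 < a) (ha1 : a < 1) :
    Adm W (gk b) (b ^ (-a) * cJ E a * (C * (cI E ((Module.finrank ℝ E : ℝ) + 2 * a - 2) + cB E) *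
      ρ ^ (2 - 2 * a))) := by
  have h2 := two_le_cast hn
  have hJ := cJ_pos (E := E) (σ := a) (by linarith)
  have := (adm_loc hn (σ := (Module.finrank ℝ E : ℝ) + 2 * a - 2) (by linarith) (by linarith) h.pos
    h.meas h.nonneg h.le h.supp).const_mul (c := b ^ (-a) * cJ E a) (by positivity)
  rw [show (Module.finrank ℝ E : ℝ) - ((Module.finrank ℝ E : ℝ) + 2 * a - 2) = 2 - 2 * a by ring]
    at this
  exact this.of_le_ne hn h.meas h.nonneg (measurable_gk b) (gk_nonneg b)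
    (fun z hz => gk_le hn hb ha ha1.le hz)

lemma micro_aux {W : E → ℝ} {C ρ : ℝ} (h : Loc W C ρ) :
    Adm W (fun z => cq E * ‖z‖ ^ (-((Module.finrank ℝ E : ℝ) - 1)))
      (cq E * (C * (cI E ((Module.finrank ℝ E : ℝ) - 1) + cB E) * ρ)) := by
  have h2 := two_le_cast hn
  have := (adm_loc hn (σ := (Module.finrank ℝ E : ℝ) - 1) (by linarith) (by linarith) h.pos
    h.meas h.nonneg h.le h.supp).const_mul (cq_pos hn).le
  rwa [show (Module.finrank ℝ E : ℝ) - ((Module.finrank ℝ E : ℝ) - 1) = 1 by ring,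
    Real.rpow_one] at this

lemma micro_q {W : E → ℝ} {C ρ b : ℝ} (h : Loc W C ρ) (hb : 0 ≤ b) :
    Adm W (fun z => qk b z * ‖z‖)
      (cq E * (C * (cI E ((Module.finrank ℝ E : ℝ) - 1) + cB E) * ρ)) :=
  (micro_aux hn h).of_le_ne hn h.meas h.nonneg ((measurable_qk b).mul measurable_norm)
    (fun z => mul_nonneg (qk_nonneg b z) (norm_nonneg z))
    (fun z hz => qk_mul_norm_le hn hb hz)

omit hn in
lemma a0_eq (c : ℝ) (z : E) : a0 c z = c * ‖z‖ ^ (-(Module.finrank ℝ E : ℝ)) := by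
  rw [a0, Real.rpow_neg (norm_nonneg z), Real.rpow_natCast]

lemma micro_a {W : E → ℝ} {C ρ : ℝ} (h : Loc W C ρ) :
    Adm W (fun z => a0 (cq E) z * ‖z‖)
      (cq E * (C * (cI E ((Module.finrank ℝ E : ℝ) - 1) + cB E) * ρ)) :=
  (micro_aux hn h).of_le_ne hn h.meas h.nonneg ((nm_a0 (cq_pos hn).le).meas.mul measurable_norm)
    (fun z => mul_nonneg ((nm_a0 (cq_pos hn).le).nonneg z) (norm_nonneg z))
    (fun z hz => le_of_eq (by
      rw [a0_eq, mul_assoc, ← Real.rpow_add_one (norm_ne_zero_iff.2 hz)]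
      congr 2; ring))

lemma micro_diff {W : E → ℝ} {C ρ b : ℝ} (h : Loc W C ρ) (hb : 0 ≤ b) :
    Adm W (fun z => |qk b z - a0 (cq E) z| * ‖z‖)
      (√b * cJ E (1 / 2) * (C * (cI E ((Module.finrank ℝ E : ℝ) - 2) + cB E) * ρ ^ 2)) := by
  have h2 := two_le_cast hn
  have hJ := cJ_pos (E := E) (σ := 1 / 2) (by linarith)
  have := (adm_loc hn (σ := (Module.finrank ℝ E : ℝ) - 2) (by linarith) (by linarith) h.pos
    h.meas h.nonneg h.le h.supp).const_mul (c := √b * cJ E (1 / 2)) (by positivity)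
  rw [show (Module.finrank ℝ E : ℝ) - ((Module.finrank ℝ E : ℝ) - 2) = 2 by ring,
    Real.rpow_two] at this
  refine this.of_le_ne hn h.meas h.nonneg
    ((((measurable_qk b).sub (nm_a0 (cq_pos hn).le).meas).abs).mul measurable_norm)
    (fun z => by positivity) (fun z hz => ?_)
  have hz' : 0 < ‖z‖ := norm_pos_iff.2 hz
  rw [a0_eq, abs_sub_comm, abs_of_nonneg (sub_nonneg.2 (qk_le hn hb hz))]
  calc _ ≤ √b * cJ E (1 / 2) * ‖z‖ ^ (-((Module.finrank ℝ E : ℝ) - 1)) * ‖z‖ := by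
        gcongr; exact qk_sub_le hn hb hz
    _ = _ := by
        rw [mul_assoc, ← Real.rpow_add_one hz'.ne']
        congr 2; ring

omit hn in
lemma macro_g {W : E → ℝ} {C ρ b : ℝ} (h : Loc W C ρ) (hb : 0 < b) : Adm W (gk b) (C / b) := by
  have := adm_of_integrable h.meas h.nonneg h.le (integrable_gk hb) (gk_nonneg b)
  rwa [integral_gk hb, mul_one_div] at this

omit hn in
lemma macro_q {W : E → ℝ} {C ρ b : ℝ} (h : Loc W C ρ) (hb : 0 < b) :
    Adm W (fun z => qk b z * ‖z‖) (C * (cH E / √b)) :=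
  (adm_of_integrable h.meas h.nonneg h.le (integrable_qk hb)
    fun z => mul_nonneg (qk_nonneg b z) (norm_nonneg z)).mono
    (mul_le_mul_of_nonneg_left (integral_qk_le hb) ((h.nonneg 0).trans (h.le 0)))

lemma gk_le_L {b L : ℝ} (hL : 0 < L) (hb : 1 / L ^ 2 ≤ b) {z : E} (hz : z ≠ 0) :
    gk b z ≤ L * cJ E (1 / 2) * ‖z‖ ^ (-((Module.finrank ℝ E : ℝ) - 1)) := by
  have h2 := two_le_cast hn
  have hJ := cJ_pos (E := E) (σ := 1 / 2) (by linarith)
  have hb0 : 0 < b := lt_of_lt_of_le (by positivity) hb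
  have h1 := gk_le hn hb0 (a := 1 / 2) (by norm_num) (by norm_num) hz
  rw [show (Module.finrank ℝ E : ℝ) + 2 * (1 / 2) - 2 = (Module.finrank ℝ E : ℝ) - 1 by ring] at h1
  refine h1.trans ?_
  gcongr
  calc b ^ (-(1 / 2) : ℝ) ≤ (1 / L ^ 2) ^ (-(1 / 2) : ℝ) :=
        Real.rpow_le_rpow_of_nonpos (by positivity) hb (by norm_num)
    _ = L := by
        rw [one_div, Real.inv_rpow (by positivity), ← Real.rpow_neg (by positivity), neg_neg,
          ← Real.sqrt_eq_rpow, Real.sqrt_sq hL.le]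

lemma rho_le {m b L : ℝ} (hm : 0 < m) (hL : 1 ≤ L) (hb : 1 / L ^ 2 ≤ b) {z : E} (hz : z ≠ 0) :
    2 * m * gk b z + qk b z * ‖z‖ ≤
      (2 * m * cJ E (1 / 2) + cq E) * L * ‖z‖ ^ (-((Module.finrank ℝ E : ℝ) - 1)) := by
  have hb0 : 0 < b := lt_of_lt_of_le (by positivity) hb
  have h1 := gk_le_L hn (by linarith) hb hz
  have h2 := qk_mul_norm_le hn hb0.le hz
  have h3 : 0 ≤ cq E * ‖z‖ ^ (-((Module.finrank ℝ E : ℝ) - 1)) := by
    have := cq_pos hn; positivity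
  nlinarith [mul_le_mul_of_nonneg_left h1 hm.le]

lemma macro_near {W : E → ℝ} {C ρ m b L δ : ℝ} (h : Loc W C ρ) (hm : 0 < m) (hL : 1 ≤ L)
    (hb : 1 / L ^ 2 ≤ b) (hδ : 0 < δ) :
    Adm W ((Metric.ball (0 : E) (δ * L)).indicator fun z => 2 * m * gk b z + qk b z * ‖z‖)
      ((2 * m * cJ E (1 / 2) + cq E) * L * (C * (cI E ((Module.finrank ℝ E : ℝ) - 1) * (δ * L)))) := by
  have h2 := two_le_cast hn
  have hJ := cJ_pos (E := E) (σ := 1 / 2) (by linarith)
  have hq := cq_pos hn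
  have := (adm_near hn (σ := (Module.finrank ℝ E : ℝ) - 1) (ρ := δ * L) (by linarith)
    (by positivity) h.meas h.nonneg h.le).const_mul
    (c := (2 * m * cJ E (1 / 2) + cq E) * L) (by positivity)
  rw [show (Module.finrank ℝ E : ℝ) - ((Module.finrank ℝ E : ℝ) - 1) = 1 by ring,
    Real.rpow_one] at this
  refine this.of_le_ne hn h.meas h.nonneg ((((measurable_gk b).const_mul _).add
    ((measurable_qk b).mul measurable_norm)).indicator Metric.isOpen_ball.measurableSet)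
    (fun z => indicator_nonneg (fun z _ => by
      have := gk_nonneg b z
      have := qk_nonneg b z
      positivity) z) (fun z hz => ?_)
  by_cases hz' : z ∈ Metric.ball (0 : E) (δ * L)
  · rw [indicator_of_mem hz', indicator_of_mem hz']
    exact rho_le hn hm hL hb hz
  · rw [indicator_of_notMem hz', indicator_of_notMem hz', mul_zero]

lemma rho_far {m b L δ : ℝ} (hm : 0 < m) (hL : 1 ≤ L) (hb : 1 / L ^ 2 ≤ b) (hδ : 0 < δ) {z : E}
    (hz : z ∉ Metric.ball (0 : E) (δ * L)) :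
    2 * m * gk b z + qk b z * ‖z‖ ≤
      (2 * m * cJ E (1 / 2) + cq E) * δ ^ (-((Module.finrank ℝ E : ℝ) - 1)) *
        L ^ (-((Module.finrank ℝ E : ℝ) - 2)) := by
  have h2 := two_le_cast hn
  have hJ := cJ_pos (E := E) (σ := 1 / 2) (by linarith)
  have hq := cq_pos hn
  have hL0 : 0 < L := by linarith
  have hz1 : δ * L ≤ ‖z‖ := by simpa using hz
  have hz0 : z ≠ 0 := norm_pos_iff.1 (lt_of_lt_of_le (by positivity) hz1)
  refine (rho_le hn hm hL hb hz0).trans ?_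
  calc _ ≤ (2 * m * cJ E (1 / 2) + cq E) * L * (δ * L) ^ (-((Module.finrank ℝ E : ℝ) - 1)) := by
        refine mul_le_mul_of_nonneg_left
          (Real.rpow_le_rpow_of_nonpos (by positivity) hz1 (by linarith)) (by positivity)
    _ = _ := by
        rw [Real.mul_rpow hδ.le hL0.le, show -((Module.finrank ℝ E : ℝ) - 2) =
          -((Module.finrank ℝ E : ℝ) - 1) + 1 by ring, Real.rpow_add_one hL0.ne']
        ring

lemma g_up {b L : ℝ} (hL : 0 < L) (hb : 1 / L ^ 2 ≤ b) {y : E} (hy : L ≤ ‖y‖) :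
    gk b (0 - y) ≤ cJ E (1 / 2) * L ^ (-((Module.finrank ℝ E : ℝ) - 2)) := by
  have h2 := two_le_cast hn
  have hJ := cJ_pos (E := E) (σ := 1 / 2) (by linarith)
  have hy0 : y ≠ 0 := norm_pos_iff.1 (hL.trans_le hy)
  rw [zero_sub, gk_neg]
  refine (gk_le_L hn hL hb hy0).trans ?_
  calc _ ≤ L * cJ E (1 / 2) * L ^ (-((Module.finrank ℝ E : ℝ) - 1)) :=
        mul_le_mul_of_nonneg_left (Real.rpow_le_rpow_of_nonpos hL hy (by linarith)) (by positivity)
    _ = _ := by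
        rw [show -((Module.finrank ℝ E : ℝ) - 2) = -((Module.finrank ℝ E : ℝ) - 1) + 1 by ring,
          Real.rpow_add_one hL.ne']
        ring

lemma g_lip {b L ρ : ℝ} (hb : 0 < b) (hL : 0 < L) (hρ : ρ ≤ L / 2) {x y : E} (hx : ‖x‖ < ρ)
    (hy : L ≤ ‖y‖) (hy2 : ‖y‖ < 2 * L) :
    |gk b (x - y) - gk b (0 - y)| ≤ 3 * L * ρ * (cq E * (L / 2) ^ (-(Module.finrank ℝ E : ℝ))) := by
  have hq := cq_pos hn
  have hw : ‖(1 / 2 : ℝ) • y‖ = ‖y‖ / 2 := by
    rw [norm_smul, Real.norm_of_nonneg (by norm_num)]; ring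
  have e1 : ‖y‖ - ‖x‖ ≤ ‖x - y‖ := by rw [norm_sub_rev]; exact norm_sub_norm_le _ _
  have e2 : ‖x - y‖ ≤ ‖x‖ + ‖y‖ := norm_sub_le _ _
  have hx0 := norm_nonneg x
  refine (gk_lip hn hb (w := (1 / 2 : ℝ) • y) (norm_pos_iff.1 (by rw [hw]; linarith))
    (by rw [hw]; linarith) (by rw [hw, zero_sub, norm_neg]; linarith)).trans ?_
  rw [hw, zero_sub, norm_neg]
  refine mul_le_mul ?_ (mul_le_mul_of_nonneg_left (Real.rpow_le_rpow_of_nonpos (by positivity)
    (by linarith) (by simp)) hq.le) (by positivity) (by nlinarith)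
  rw [div_le_iff₀ two_pos, abs_le]
  constructor <;> nlinarith [norm_nonneg (x - y)]

end

lemma ev_small {s C η : ℝ} (hs : 0 < s) (hη : 0 < η) :
    ∀ᶠ ε : ℝ in nhdsWithin 0 (Ioi 0), C * ε ^ s ≤ η := by
  have h1 : Filter.Tendsto (fun ε : ℝ => C * ε ^ s) (nhds 0) (nhds (C * 0 ^ s)) :=
    ((Real.continuousAt_rpow_const 0 s (Or.inr hs.le)).tendsto).const_mul C
  rw [Real.zero_rpow hs.ne', mul_zero] at h1
  exact ((h1.eventually (ge_mem_nhds hη)).filter_mono nhdsWithin_le_nhds)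

end Pool.Agent.MP_0b7119_mp.G
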