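import Pool.Agent.MP_0b7119_mp.Align

/-! Expansion of the ground state near the microscopic structure. -/

open Set MeasureTheory Real
open scoped ENNReal

namespace Pool.Agent.MP_0b7119_mp.G

set_option linter.unusedSectionVars false

variable {E S : Type} [NormedAddCommGroup E] [InnerProductSpace ℝ E] [FiniteDimensional ℝ E]
  [MeasurableSpace E] [BorelSpace E] [NormedAddCommGroup S] [InnerProductSpace ℂ S]
  [CompleteSpace S] [FiniteDimensional ℂ S] {d : ℕ} {α : Fin d → S →L[ℂ] S} {β : S →L[ℂ] S}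

lemma first_order (h : IsDiracRep α β) (e : OrthonormalBasis (Fin d) ℝ E) {m l : ℝ}
    {r : E → S →L[ℂ] S} {g q a V₀ V₁ : E → ℝ} (hk : Ker e α β m l r g q) (ha : NM a)
    (h₀ : Nice V₀) (h₁ : NM V₁) {γ₀ γ₁ η₀ η₁ η₂ τ lip ω₀ M : ℝ} (hγ₀ : Adm V₀ g γ₀)
    (hγ₁ : Adm V₁ g γ₁) (hη₀ : Adm V₀ (fun z => q z * ‖z‖) η₀)
    (hη₁ : Adm V₁ (fun z => q z * ‖z‖) η₁) (hτ : Adm V₁ (fun z => a z * ‖z‖) τ)
    (hη₂ : Adm V₁ (fun z => |q z - a z| * ‖z‖) η₂) (hω : ∫ y, V₀ y ≤ ω₀) (hl : 0 ≤ l)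
    (hlm : l ≤ m) {ψ : E → S} (hψ : StronglyMeasurable ψ)
    (hfix : ∀ x, ψ x = Rop r (fun y => V₀ y + V₁ y) ψ x) (hM : ∀ x, ‖ψ x‖ ≤ M) {x : E}
    (hlip0 : 0 ≤ lip) (hlip : ∀ y, V₀ y ≠ 0 → |g (x - y) - g (0 - y)| ≤ lip) :
    ‖ψ x - (((m + l) / 2 : ℝ) : ℂ) • (Gop g V₀ ψ 0 + β (Gop g V₀ ψ 0)) -
      Complex.I • Kop e α a V₁ ψ x‖ ≤
      ((m - l) * γ₀ + 2 * m * (lip * ω₀) + 2 * m * γ₁ + η₀ + η₂) * M := by
  have hM0 : 0 ≤ M := (norm_nonneg _).trans (hM x)
  have G0 := Gop_bound hk.gnm h₀.nm hγ₀ hψ hM0 (fun y _ => hM y)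
  have G1 := Gop_bound hk.gnm h₁ hγ₁ hψ hM0 (fun y _ => hM y) x
  have K0 := Kop_bound h e hk.qnm h₀.nm hη₀ hψ hM0 (fun y _ => hM y) x
  have K1 := Kop_bound h e hk.qnm h₁ hη₁ hψ hM0 (fun y _ => hM y) x
  have Ka := Kop_bound h e ha h₁ hτ hψ hM0 (fun y _ => hM y) x
  have eG : Gop g (fun y => V₀ y + V₁ y) ψ x = Gop g V₀ ψ x + Gop g V₁ ψ x := by
    unfold Gop
    rw [← integral_add (G0 x).1 G1.1]
    simp only [add_mul, Complex.ofReal_add, add_smul]
  have eK : Kop e α q (fun y => V₀ y + V₁ y) ψ x = Kop e α q V₀ ψ x + Kop e α q V₁ ψ x := by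
    unfold Kop
    rw [← integral_add K0.1 K1.1]
    simp only [add_mul, Complex.ofReal_add, add_smul]
  have iG : Integrable (fun y => (((V₀ y + V₁ y) * g (x - y) : ℝ) : ℂ) • ψ y) := by
    simp only [add_mul, Complex.ofReal_add, add_smul]
    exact (G0 x).1.add G1.1
  have iK : Integrable (fun y => (((V₀ y + V₁ y) * q (x - y) : ℝ) : ℂ) • cl e α (x - y) (ψ y)) := by
    simp only [add_mul, Complex.ofReal_add, add_smul]
    exact K0.1.add K1.1
  have b1 : ‖Gop g V₀ ψ x - Gop g V₀ ψ 0‖ ≤ lip * ω₀ * M := by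
    unfold Gop
    rw [← integral_sub (G0 x).1 (G0 0).1]
    refine (norm_integral_le_of_norm_le (h₀.integrable.mul_const (lip * M))
      (Filter.Eventually.of_forall fun y => ?_)).trans ?_
    · rw [← sub_smul, ← Complex.ofReal_sub, ← mul_sub, norm_smul, Complex.norm_real, norm_mul,
        Real.norm_of_nonneg (h₀.nonneg y), mul_assoc]
      by_cases hy : V₀ y = 0
      · simp [hy]
      · exact mul_le_mul_of_nonneg_left (mul_le_mul (hlip y hy) (hM y) (norm_nonneg _) hlip0)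
          (h₀.nonneg y)
    · rw [integral_mul_const]
      nlinarith [mul_nonneg hlip0 hM0]
  have b2 : ‖Kop e α q V₁ ψ x - Kop e α a V₁ ψ x‖ ≤ η₂ * M := by
    unfold Kop
    rw [← integral_sub K1.1 Ka.1]
    refine (hη₂.bound x (K1.1.sub Ka.1).aestronglyMeasurable hM0
      (Filter.Eventually.of_forall fun y => ?_)).2
    rw [Pi.sub_apply, ← sub_smul, ← Complex.ofReal_sub, ← mul_sub, norm_smul, Complex.norm_real,
      norm_mul, Real.norm_of_nonneg (h₁.nonneg y), norm_cl_apply h, Real.norm_eq_abs]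
    have := h₁.nonneg y
    calc _ ≤ V₁ y * |q (x - y) - a (x - y)| * (‖x - y‖ * M) := by gcongr; exact hM y
      _ = _ := by ring
  have e1 : ψ x - (((m + l) / 2 : ℝ) : ℂ) • (Gop g V₀ ψ 0 + β (Gop g V₀ ψ 0)) -
      Complex.I • Kop e α a V₁ ψ x =
      (((m - l) / 2 : ℝ) : ℂ) • (β (Gop g V₀ ψ 0) - Gop g V₀ ψ 0) +
      ((m : ℂ) • β (Gop g V₀ ψ x - Gop g V₀ ψ 0) + (l : ℂ) • (Gop g V₀ ψ x - Gop g V₀ ψ 0)) +
      ((m : ℂ) • β (Gop g V₁ ψ x) + (l : ℂ) • Gop g V₁ ψ x) + Complex.I • Kop e α q V₀ ψ x +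
      Complex.I • (Kop e α q V₁ ψ x - Kop e α a V₁ ψ x) := by
    conv_lhs => rw [hfix x, Rop_eq hk iG iK, eG, eK]
    simp only [map_add, map_sub]
    push_cast
    module
  have mass : ∀ y : S, ‖(m : ℂ) • β y + (l : ℂ) • y‖ ≤ 2 * m * ‖y‖ := fun y => by
    refine (norm_add_le _ _).trans ?_
    rw [norm_smul, norm_smul, Complex.norm_real, Complex.norm_real, norm_β_apply h,
      Real.norm_of_nonneg hl, Real.norm_of_nonneg (hl.trans hlm)]
    nlinarith [norm_nonneg y]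
  have c1 : ‖(((m - l) / 2 : ℝ) : ℂ) • (β (Gop g V₀ ψ 0) - Gop g V₀ ψ 0)‖ ≤ (m - l) * (γ₀ * M) := by
    rw [norm_smul, Complex.norm_real, Real.norm_of_nonneg (by linarith)]
    have e2 := norm_sub_le (β (Gop g V₀ ψ 0)) (Gop g V₀ ψ 0)
    rw [norm_β_apply h] at e2
    have := (G0 0).2
    nlinarith
  have hm : 0 ≤ m := hl.trans hlm
  have c2 := (mass (Gop g V₀ ψ x - Gop g V₀ ψ 0)).trans
    (mul_le_mul_of_nonneg_left b1 (by positivity))
  have c3 := (mass (Gop g V₁ ψ x)).trans (mul_le_mul_of_nonneg_left G1.2 (by positivity))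
  have c4 : ‖Complex.I • Kop e α q V₀ ψ x‖ ≤ η₀ * M := by
    rw [norm_smul, Complex.norm_I, one_mul]; exact K0.2
  have c5 : ‖Complex.I • (Kop e α q V₁ ψ x - Kop e α a V₁ ψ x)‖ ≤ η₂ * M := by
    rw [norm_smul, Complex.norm_I, one_mul]; exact b2
  rw [e1]
  refine (norm_add_le _ _).trans ((add_le_add ((norm_add_le _ _).trans (add_le_add
    ((norm_add₃_le).trans (add_le_add (add_le_add c1 c2) c3)) c4)) c5).trans (le_of_eq ?_))
  ring

/-- The massless kernel. -/
noncomputable def a0 (c : ℝ) (z : E) : ℝ := c * (‖z‖ ^ Module.finrank ℝ E)⁻¹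

lemma nm_a0 {c : ℝ} (hc : 0 ≤ c) : NM (a0 c : E → ℝ) :=
  ⟨by unfold a0; fun_prop, fun z => by unfold a0; positivity⟩

lemma measurable_kN : Measurable (kN : E → E) := by unfold kN; fun_prop

lemma integrable_fld {c τ : ℝ} (hc : 0 < c) {U : E → ℝ} (hU : NM U)
    (hτ : Adm U (fun z => a0 c z * ‖z‖) τ) (x : E) : Integrable (fun y => U y • kN (x - y)) := by
  refine (hτ.bound x (M := c⁻¹) (f := fun y => U y • kN (x - y)) (hU.meas.smul
    (measurable_kN.comp (measurable_const.sub measurable_id))).aestronglyMeasurable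
    (by positivity) (Filter.Eventually.of_forall fun y => le_of_eq ?_)).1
  rw [norm_smul, Real.norm_of_nonneg (hU.nonneg y), kN, norm_smul,
    Real.norm_of_nonneg (by positivity), a0]
  field_simp

lemma Kop_const (e : Fin d → E) {c τ : ℝ} (hc : 0 < c) {U : E → ℝ} (hU : NM U)
    (hτ : Adm U (fun z => a0 c z * ‖z‖) τ) (ξ : S) (x : E) :
    Kop e α (a0 c) U (fun _ => ξ) x = (c : ℂ) • cl e α (Fld U x) ξ := by
  have h1 := ((ContinuousLinearMap.apply ℂ S ξ).restrictScalars ℝ ∘L clL e α).integral_comp_comm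
    (integrable_fld hc hU hτ x)
  simp only [ContinuousLinearMap.comp_apply, clL_apply, ContinuousLinearMap.coe_restrictScalars',
    ContinuousLinearMap.apply_apply] at h1
  unfold Kop Fld
  rw [← h1, ← integral_smul]
  refine integral_congr_ae (Filter.Eventually.of_forall fun y => ?_)
  simp only [kN, cl_smul, a0, smul_apply, smul_smul]
  congr 1
  push_cast
  ring

lemma re_inner_second (h : IsDiracRep α β) (e : OrthonormalBasis (Fin d) ℝ E) {c τ : ℝ}
    (hc : 0 < c) {U : E → ℝ} (hU : NM U) (hτ : Adm U (fun z => a0 c z * ‖z‖) τ) (ξ : S) (x : E) :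
    (inner ℂ ξ (Complex.I • Kop e α (a0 c) U
      (fun y => Complex.I • Kop e α (a0 c) U (fun _ => ξ) y) x)).re =
      -(c ^ 2 * ‖ξ‖ ^ 2 * Trc U x) := by
  have hτ0 : 0 ≤ τ := le_trans (integral_nonneg fun y => mul_nonneg (hU.nonneg y)
    (mul_nonneg ((nm_a0 hc.le).nonneg _) (norm_nonneg _))) (hτ.le 0)
  have K1 := Kop_bound h e (nm_a0 hc.le) hU hτ (f := fun _ => ξ) stronglyMeasurable_const
    (norm_nonneg ξ) (fun _ _ => le_rfl)
  have K2 := Kop_bound h e (nm_a0 hc.le) hU hτ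
    (f := fun y => Complex.I • Kop e α (a0 c) U (fun _ => ξ) y)
    ((sm_Kop e α (nm_a0 hc.le).meas hU.meas stronglyMeasurable_const).const_smul _)
    (mul_nonneg hτ0 (norm_nonneg ξ))
    (fun y _ => by rw [norm_smul, Complex.norm_I, one_mul]; exact (K1 y).2) x
  have K3 : Integrable (fun y => Complex.I • (((U y * a0 c (x - y) : ℝ) : ℂ) • cl e α (x - y)
      (Complex.I • Kop e α (a0 c) U (fun _ => ξ) y))) := K2.1.smul Complex.I
  conv_lhs => rw [Kop]
  rw [← integral_smul, re_inner_integral K3, Trc, ← integral_const_mul, ← integral_neg]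
  refine integral_congr_ae (Filter.Eventually.of_forall fun y => ?_)
  simp only [Kop_const e hc hU hτ]
  have e1 : Complex.I • (((U y * a0 c (x - y) : ℝ) : ℂ) • cl e α (x - y)
      (Complex.I • (c : ℂ) • cl e α (Fld U y) ξ)) =
      ((-(U y * a0 c (x - y) * c) : ℝ) : ℂ) • cl e α (x - y) (cl e α (Fld U y) ξ) := by
    simp only [map_smul, smul_smul]
    congr 1
    push_cast
    linear_combination (U y * a0 c (x - y) * c : ℂ) * Complex.I_mul_I
  rw [e1, re_inner_real_smul, ← inner_cl h, re_inner_cl_cl h, kN, real_inner_smul_left, a0]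
  ring

lemma second_order (h : IsDiracRep α β) (e : OrthonormalBasis (Fin d) ℝ E) {c τ η ρ M : ℝ}
    (hc : 0 < c) {U : E → ℝ} (hU : NM U) (hτ : Adm U (fun z => a0 c z * ‖z‖) τ) (hτ1 : τ ≤ 1)
    (hη0 : 0 ≤ η) (hη : η ≤ τ ^ 2) (hρ : 0 < ρ) (hs : ∀ y, U y ≠ 0 → ‖y‖ < ρ) {ψ : E → S}
    (hψ : StronglyMeasurable ψ) (hM : ∀ x, ‖ψ x‖ ≤ M) {ξ : S} (hξ : β ξ = ξ)
    (H : ∀ x, ‖x‖ < ρ → ‖ψ x - ξ - Complex.I • Kop e α (a0 c) U ψ x‖ ≤ η * M) {P : Set E}
    (hP : MeasurableSet P) (hPρ : P ⊆ Metric.ball 0 ρ) :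
    -(c ^ 2 * ‖ξ‖ ^ 2 * Icub U P) - volume.real P * ((188 * τ ^ 3 + 18 * η) * M ^ 2) ≤
      ∫ x in P, ((inner ℂ (ψ x) (β (ψ (-x)))).re - ‖ψ x‖ ^ 2) := by
  have hM0 : 0 ≤ M := (norm_nonneg _).trans (hM 0)
  have hτ0 : 0 ≤ τ := le_trans (integral_nonneg fun y => mul_nonneg (hU.nonneg y)
    (mul_nonneg ((nm_a0 hc.le).nonneg _) (norm_nonneg _))) (hτ.le 0)
  have ha := nm_a0 (E := E) hc.le
  set X := ‖ξ‖ with hX
  have hX0 : 0 ≤ X := norm_nonneg _
  set a : E → S := fun y => Complex.I • Kop e α (a0 c) U (fun _ => ξ) y with ha'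
  have ham : StronglyMeasurable a :=
    (sm_Kop e α ha.meas hU.meas stronglyMeasurable_const).const_smul _
  set t : E → S := fun y => Complex.I • Kop e α (a0 c) U a y with ht'
  have htm : StronglyMeasurable t := (sm_Kop e α ha.meas hU.meas ham).const_smul _
  have Kψ := Kop_bound h e ha hU hτ hψ hM0 (fun y _ => hM y)
  have Kξ := Kop_bound h e ha hU hτ (f := fun _ => ξ) stronglyMeasurable_const hX0
    (fun _ _ => le_rfl)
  have nI : ∀ y : S, ‖Complex.I • y‖ = ‖y‖ := fun y => by rw [norm_smul, Complex.norm_I, one_mul]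
  have hab : ∀ y, ‖a y‖ ≤ τ * X := fun y => by rw [ha', nI]; exact (Kξ y).2
  have Ka := Kop_bound h e ha hU hτ ham (mul_nonneg hτ0 hX0) (fun y _ => hab y)
  have htb : ∀ y, ‖t y‖ ≤ τ * (τ * X) := fun y => by rw [ht', nI]; exact (Ka y).2
  have hη1 : η ≤ 1 := hη.trans (pow_le_one₀ hτ0 hτ1)
  have s1 : ∀ x, ‖x‖ < ρ → ‖ψ x - ξ‖ ≤ τ * M + η * M := fun x hx => by
    have e1 : ψ x - ξ = Complex.I • Kop e α (a0 c) U ψ x +
        (ψ x - ξ - Complex.I • Kop e α (a0 c) U ψ x) := by abel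
    rw [e1]
    exact (norm_add_le _ _).trans (add_le_add (by rw [nI]; exact (Kψ x).2) (H x hx))
  have hX3 : X ≤ 3 * M := by
    have e1 := s1 0 (by simpa using hρ)
    have e2 := norm_sub_norm_le ξ (ψ 0)
    rw [norm_sub_rev] at e2
    nlinarith [hM 0]
  have s2 : ∀ x, ‖x‖ < ρ → ‖ψ x - ξ - a x‖ ≤ τ * (τ * M + η * M) + η * M := fun x hx => by
    have K1 := Kop_bound h e ha hU hτ (f := fun y => ψ y - ξ) (hψ.sub stronglyMeasurable_const)
      (by positivity) (fun y hy => s1 y (hs y hy)) x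
    have e1 : ψ x - ξ - a x = Complex.I • Kop e α (a0 c) U (fun y => ψ y - ξ) x +
        (ψ x - ξ - Complex.I • Kop e α (a0 c) U ψ x) := by
      have : Kop e α (a0 c) U (fun y => ψ y - ξ) x =
          Kop e α (a0 c) U ψ x - Kop e α (a0 c) U (fun _ => ξ) x := by
        unfold Kop
        rw [← integral_sub (Kψ x).1 (Kξ x).1]
        simp only [map_sub, smul_sub]
      rw [this, ha', smul_sub]
      abel
    rw [e1]
    exact (norm_add_le _ _).trans (add_le_add (by rw [nI]; exact K1.2) (H x hx))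
  have s3 : ∀ x, ‖x‖ < ρ → ‖ψ x - ξ - a x - t x‖ ≤ (τ ^ 3 + 3 * η) * M := fun x hx => by
    have K1 := Kop_bound h e ha hU hτ (f := fun y => ψ y - ξ - a y)
      ((hψ.sub stronglyMeasurable_const).sub ham) (by positivity) (fun y hy => s2 y (hs y hy)) x
    have e1 : ψ x - ξ - a x - t x = Complex.I • Kop e α (a0 c) U (fun y => ψ y - ξ - a y) x +
        (ψ x - ξ - Complex.I • Kop e α (a0 c) U ψ x) := by
      have : Kop e α (a0 c) U (fun y => ψ y - ξ - a y) x =
          Kop e α (a0 c) U ψ x - Kop e α (a0 c) U (fun _ => ξ) x - Kop e α (a0 c) U a x := by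
        have i1 : Integrable (fun y => ((U y * a0 c (x - y) : ℝ) : ℂ) • cl e α (x - y) (ψ y) -
            ((U y * a0 c (x - y) : ℝ) : ℂ) • cl e α (x - y) ξ) := (Kψ x).1.sub (Kξ x).1
        unfold Kop
        rw [← integral_sub (Kψ x).1 (Kξ x).1, ← integral_sub i1 (Ka x).1]
        simp only [map_sub, smul_sub]
      rw [this, smul_sub, smul_sub]
      simp only [ha', ht']
      abel
    rw [e1]
    refine (norm_add_le _ _).trans ((add_le_add ((nI _).le.trans K1.2) (H x hx)).trans ?_)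
    have e2 : 0 ≤ η * M := mul_nonneg hη0 hM0
    have e3 : τ * (η * M) ≤ η * M := mul_le_of_le_one_left e2 hτ1
    have e4 : τ * (τ * (η * M)) ≤ η * M := (mul_le_of_le_one_left (by positivity) hτ1).trans e3
    nlinarith
  have haξ : ∀ y, (inner ℂ ξ (a y)).re = 0 := fun y => by
    simp only [ha', Kop_const e hc hU hτ, inner_smul_right, inner_cl_upper h _ _ hξ, mul_zero,
      Complex.zero_re]
  have haβ : ∀ y, β (a y) = -a y := fun y => by
    have := cl_β_apply h e (Fld U y) ξ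
    rw [hξ] at this
    simp only [ha', Kop_const e hc hU hτ, map_smul]
    rw [← smul_neg, ← smul_neg, ← neg_neg (β _), ← this]
  have haa : ∀ y y', (inner ℂ (a y) (a y')).re = c ^ 2 * X ^ 2 * inner ℝ (Fld U y) (Fld U y') := by
    intro y y'
    simp only [ha', Kop_const e hc hU hτ]
    rw [inner_smul_left, inner_smul_right, ← mul_assoc, Complex.conj_I, neg_mul, Complex.I_mul_I,
      neg_neg, one_mul, re_inner_real_smul, re_inner_real_smul_left, re_inner_cl_cl h]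
    ring
  have hξt : ∀ y, (inner ℂ ξ (t y)).re = -(c ^ 2 * X ^ 2 * Trc U y) := fun y =>
    re_inner_second h e hc hU hτ ξ y
  set J : E → ℝ := fun x => (inner ℂ (a x) (a x)).re + (inner ℂ (a x) (a (-x))).re +
    (inner ℂ ξ (t x)).re - (inner ℂ ξ (t (-x))).re with hJ
  have hJI : ∫ x in P, J x = c ^ 2 * X ^ 2 * Icub U P := by
    rw [Icub, ← integral_const_mul]
    refine integral_congr_ae (Filter.Eventually.of_forall fun x => ?_)
    simp only [hJ, haa, hξt, real_inner_self_eq_norm_sq]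
    ring
  have hfin : volume P ≠ ⊤ := ((measure_mono hPρ).trans_lt measure_ball_lt_top).ne
  have hneg : ∀ {f : E → S}, StronglyMeasurable f → StronglyMeasurable fun x => f (-x) :=
    fun hf => hf.comp_measurable measurable_neg
  have iJ : IntegrableOn J P := by
    refine Measure.integrableOn_of_bounded (M := τ * X * (τ * X) + τ * X * (τ * X) +
      X * (τ * (τ * X)) + X * (τ * (τ * X))) hfin ((((sm_re_inner ham ham).add
      (sm_re_inner ham (hneg ham))).add (sm_re_inner stronglyMeasurable_const htm)).sub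
      (sm_re_inner stronglyMeasurable_const (hneg htm))).aestronglyMeasurable
      (Filter.Eventually.of_forall fun x => ?_)
    have hp : 0 ≤ τ * X := by positivity
    refine (norm_sub_le _ _).trans (add_le_add ((norm_add₃_le).trans
      (add_le_add (add_le_add ?_ ?_) ?_)) ?_)
    · exact (abs_re_inner_le _ _).trans (mul_le_mul (hab _) (hab _) (norm_nonneg _) hp)
    · exact (abs_re_inner_le _ _).trans (mul_le_mul (hab _) (hab _) (norm_nonneg _) hp)
    · exact (abs_re_inner_le _ _).trans (mul_le_mul_of_nonneg_left (htb _) hX0)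
    · exact (abs_re_inner_le _ _).trans (mul_le_mul_of_nonneg_left (htb _) hX0)
  have iD : IntegrableOn (fun x => (inner ℂ (ψ x) (β (ψ (-x)))).re - ‖ψ x‖ ^ 2) P := by
    refine Measure.integrableOn_of_bounded (M := M * M + M ^ 2) hfin
      ((sm_re_inner hψ (sm_β (hneg hψ))).sub (hψ.norm.pow 2)).aestronglyMeasurable
      (Filter.Eventually.of_forall fun x => (norm_sub_le _ _).trans (add_le_add ?_ ?_))
    · refine (abs_re_inner_le _ _).trans ?_
      rw [norm_β_apply h]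
      exact mul_le_mul (hM _) (hM _) (norm_nonneg _) hM0
    · rw [Real.norm_of_nonneg (sq_nonneg _)]
      exact pow_le_pow_left₀ (norm_nonneg _) (hM x) 2
  rw [← hJI, ← smul_eq_mul, ← setIntegral_const, ← integral_neg,
    ← integral_sub iJ.neg' (integrableOn_const hfin)]
  refine setIntegral_mono_on (iJ.neg'.sub (integrableOn_const hfin)) iD hP fun x hx => ?_
  have hx1 : ‖x‖ < ρ := by simpa using hPρ hx
  have hx2 : ‖-x‖ < ρ := by rwa [norm_neg]
  set u := ψ x - ξ - a x - t x with hu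
  set u' := ψ (-x) - ξ - a (-x) - t (-x) with hu'
  have b1 := s3 x hx1
  have b2 := s3 (-x) hx2
  rw [← hu] at b1
  rw [← hu'] at b2
  have hτ3 : τ ^ 3 ≤ τ ^ 2 := pow_le_pow_of_le_one hτ0 hτ1 (by norm_num)
  have hσ : ∀ y, ∀ w : S, ‖w‖ ≤ (τ ^ 3 + 3 * η) * M → ‖t y + w‖ ≤ 7 * τ ^ 2 * M := by
    intro y w hw
    have e1 := norm_add_le (t y) w
    have e2 := htb y
    have e3 : τ * (τ * X) ≤ τ ^ 2 * (3 * M) := by rw [← mul_assoc, ← sq]; gcongr
    have e4 : (τ ^ 3 + 3 * η) * M ≤ (4 * τ ^ 2) * M :=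
      mul_le_mul_of_nonneg_right (by linarith) hM0
    linarith
  have haM : ∀ y, ‖a y‖ ≤ 3 * τ * M := fun y => (hab y).trans (by nlinarith)
  have f1 : ψ x = ξ + a x + (t x + u) := by rw [hu]; abel
  have f2 : β (ψ (-x)) = ξ - a (-x) + β (t (-x) + u') := by
    have : ψ (-x) = ξ + a (-x) + (t (-x) + u') := by rw [hu']; abel
    rw [this, map_add, map_add, hξ, haβ]
    abel
  have g1 := hσ x u b1
  have g2 := hσ (-x) u' b2
  set s := t x + u with hs'
  set s' := t (-x) + u' with hs''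
  have f3 : (inner ℂ (ψ x) (β (ψ (-x)))).re - ‖ψ x‖ ^ 2 =
      (inner ℂ ξ s').re - (inner ℂ ξ s).re - (inner ℂ (a x) (a x)).re -
      (inner ℂ (a x) (a (-x))).re + (inner ℂ (a x) (β s' - s)).re +
      (inner ℂ s (β s' - s - a x - a (-x))).re := by
    rw [← re_inner_self, ← Complex.sub_re, ← inner_sub_right, f2]
    nth_rewrite 2 [f1]
    have e1 : ξ - a (-x) + β s' - (ξ + a x + s) = β s' - s - a x - a (-x) := by abel
    rw [e1]
    nth_rewrite 1 [f1]
    have e2 : inner ℂ ξ (β s') = inner ℂ ξ s' := by rw [← inner_β h, hξ]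
    rw [inner_add_left, inner_add_left, inner_sub_right ξ, inner_sub_right ξ, inner_sub_right ξ, e2,
      inner_sub_right (a x), inner_sub_right (a x)]
    simp only [Complex.add_re, Complex.sub_re, haξ]
    ring
  have n1 : ‖β s' - s‖ ≤ 14 * τ ^ 2 * M := by
    have := norm_sub_le (β s') s
    rw [norm_β_apply h] at this
    linarith
  have n2 : ‖β s' - s - a x - a (-x)‖ ≤ 14 * τ ^ 2 * M + 6 * τ * M := by
    have e1 := norm_sub_le (β s' - s - a x) (a (-x))
    have e2 := norm_sub_le (β s' - s) (a x)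
    linarith [haM x, haM (-x)]
  have m1 := (abs_le.1 ((abs_re_inner_le (a x) (β s' - s)).trans
    (mul_le_mul (haM x) n1 (norm_nonneg _) (by positivity)))).1
  have m2 := (abs_le.1 ((abs_re_inner_le s (β s' - s - a x - a (-x))).trans
    (mul_le_mul g1 n2 (norm_nonneg _) (by positivity)))).1
  have m3 := (abs_le.1 ((abs_re_inner_le ξ u').trans
    (mul_le_mul hX3 b2 (norm_nonneg _) (by positivity)))).1
  have m4 := (abs_le.1 ((abs_re_inner_le ξ u).trans
    (mul_le_mul hX3 b1 (norm_nonneg _) (by positivity)))).2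
  have m5 : τ ^ 4 * M ^ 2 ≤ τ ^ 3 * M ^ 2 :=
    mul_le_mul_of_nonneg_right (pow_le_pow_of_le_one hτ0 hτ1 (by norm_num)) (sq_nonneg M)
  rw [f3, hs', hs'', inner_add_right ξ, inner_add_right ξ, Complex.add_re, Complex.add_re]
  simp only [hJ]
  nlinarith

end Pool.Agent.MP_0b7119_mp.G
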