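import Pool.Agent.MP_0b7119_mp.JobA3

/-! Job A: small `L^p` potentials have no Dirac eigenvalue in `(-m, 0]`. -/

open Set MeasureTheory FourierTransform Real
open scoped ENNReal SchwartzMap ContDiff LineDeriv

namespace Pool.Agent.MP_0b7119_mp.G

namespace JA

variable {E S : Type} [NormedAddCommGroup E] [InnerProductSpace ℝ E] [FiniteDimensional ℝ E]
  [MeasurableSpace E] [BorelSpace E] [NormedAddCommGroup S] [InnerProductSpace ℂ S]
  [CompleteSpace S] [FiniteDimensional ℂ S] {d : ℕ} {α : Fin d → S →L[ℂ] S} {β : S →L[ℂ] S}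

omit [FiniteDimensional ℂ S] in
lemma locInt_sym (h : IsDiracRep α β) (e : OrthonormalBasis (Fin d) ℝ E) {m l : ℝ} (hm : 0 < m)
    (hl : l ∈ Ioc (-m) 0) (P : Lp S 2 (volume : Measure E)) :
    LocallyIntegrable (fun ξ => (uw ξ : ℂ) • sym e α β m l ξ (P ξ)) volume := by
  have hc : Continuous fun z : E × S => (uw z.1 : ℂ) • sym e α β m l z.1 z.2 :=
    (Complex.continuous_ofReal.comp (continuous_uw.comp continuous_fst)).smul
      (continuous_sym e m l)
  have hms : AEStronglyMeasurable (fun ξ => (uw ξ : ℂ) • sym e α β m l ξ (P ξ)) volume :=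
    hc.comp_aestronglyMeasurable (f := fun ξ => (ξ, P ξ))
      (aestronglyMeasurable_id.prodMk (Lp.aestronglyMeasurable P))
  rw [locallyIntegrable_iff]
  intro K hK
  obtain ⟨R, hR0, hR⟩ := hK.isBounded.exists_pos_norm_le
  have hP : IntegrableOn (P : E → S) K volume :=
    ((Lp.memLp P).locallyIntegrable (by norm_num)).integrableOn_isCompact hK
  refine Integrable.mono' (hP.norm.const_mul (Real.sqrt (4 * π ^ 2 * R ^ 2 + m ^ 2) + m))
    hms.restrict ?_
  filter_upwards [ae_restrict_mem hK.measurableSet] with ξ hξ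
  rw [norm_smul, Complex.norm_real, Real.norm_of_nonneg (uw_pos ξ).le]
  have h1 := (sym_ineq h e hm hl ξ (P ξ)).2.2
  have h2 : uw ξ ≤ 1 := by nlinarith [(uw_sq_le ξ).1, uw_pos ξ]
  have h3 := hR ξ hξ
  calc _ ≤ 1 * ((Real.sqrt (4 * π ^ 2 * ‖ξ‖ ^ 2 + m ^ 2) + m) * ‖P ξ‖) := by gcongr
    _ ≤ _ := by rw [one_mul]; gcongr

/-- The weak equation on the Fourier side. -/
lemma fourier_side (h : IsDiracRep α β) (e : OrthonormalBasis (Fin d) ℝ E) {m l : ℝ}
    (hm : 0 < m) (hl : l ∈ Ioc (-m) 0) {V : E → ℝ} (hV0 : ∀ x, 0 ≤ V x)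
    (U B : Lp S 2 (volume : Measure E) →L[ℂ] Lp S 2 (volume : Measure E))
    (hU : ∀ g, U g =ᵐ[volume] fun ξ => (uw ξ : ℂ) • g ξ)
    (hB : ∀ g, B g =ᵐ[volume] fun x => (Real.sqrt (V x) : ℂ) •
      (𝓕⁻ (U g) : Lp S 2 (volume : Measure E)) x)
    (Ψ v : Lp S 2 (volume : Measure E))
    (hv : v =ᵐ[volume] fun x => (Real.sqrt (V x) : ℂ) • Ψ x)
    (hw : ∀ φ : 𝓢(E, S),
      ∫ x, inner ℂ (dirac e α β m φ x - ((V x + l : ℝ) : ℂ) • φ x) (Ψ x) = 0) :
    ∀ᵐ ξ, (uw ξ : ℂ) • sym e α β m l ξ ((𝓕 Ψ : Lp S 2 (volume : Measure E)) ξ) =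
      ContinuousLinearMap.adjoint B v ξ := by
  set P : Lp S 2 (volume : Measure E) := 𝓕 Ψ with hP
  set H := ContinuousLinearMap.adjoint B v with hH
  have hF := locInt_sym h e hm hl P
  have hHl : LocallyIntegrable (H : E → S) volume := (Lp.memLp H).locallyIntegrable (by norm_num)
  refine ae_eq_of_integral_contDiff_smul_eq hF hHl fun φ₀ h₁ h₂ => ?_
  refine ext_inner_left ℂ fun y => ?_
  rw [← integral_inner (hF.integrable_smul_left_of_hasCompactSupport h₁.continuous h₂),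
    ← integral_inner (hHl.integrable_smul_left_of_hasCompactSupport h₁.continuous h₂)]
  set g : 𝓢(E, S) := (toS φ₀ h₁ h₂).postcompCLM (ContinuousLinearMap.toSpanSingleton ℂ y)
    with hg
  have hgx : ∀ ξ, g ξ = (φ₀ ξ : ℂ) • y := fun ξ => by simp [hg]
  have hT : (uw : E → ℝ).HasTemperateGrowth :=
    Function.hasTemperateGrowth_one_add_norm_sq_rpow E _
  set G : 𝓢(E, S) := SchwartzMap.smulLeftCLM S uw g with hG
  have hGx : ∀ ξ, G ξ = (uw ξ : ℂ) • g ξ := fun ξ => by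
    rw [hG, SchwartzMap.smulLeftCLM_apply_apply hT, Complex.coe_smul]
  set φ : 𝓢(E, S) := 𝓕⁻ G with hφ
  have hφG : 𝓕 φ = G := fourier_fourierInv_eq G
  have hUg : U (g.toLp 2) = G.toLp 2 := by
    apply Lp.ext
    filter_upwards [hU (g.toLp 2), g.coeFn_toLp 2 volume, G.coeFn_toLp 2 volume] with ξ a b c
    rw [a, b, c, hGx]
  have hBg : B (g.toLp 2) =ᵐ[volume] fun x => (Real.sqrt (V x) : ℂ) • φ x := by
    have := hB (g.toLp 2)
    rw [hUg, SchwartzMap.toLp_fourierInv_eq] at this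
    filter_upwards [this, φ.coeFn_toLp 2 volume] with x a b
    rw [a, ← hφ, b]
  obtain ⟨Φ, hΦ, hΦF⟩ := exists_dirac e α β m l φ
  have key : inner ℂ (Φ.toLp 2) Ψ = inner ℂ (B (g.toLp 2)) v := by
    rw [← sub_eq_zero, L2.inner_def, L2.inner_def,
      ← integral_sub (L2.integrable_inner _ _) (L2.integrable_inner _ _), ← hw φ]
    apply integral_congr_ae
    filter_upwards [hBg, hv, Φ.coeFn_toLp 2 volume] with x a b c
    rw [a, b, c, hΦ]
    simp only [inner_sub_left, inner_smul_left, inner_smul_right, Complex.conj_ofReal]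
    rw [← mul_assoc, ← Complex.ofReal_mul, Real.mul_self_sqrt (hV0 x)]
    push_cast
    ring
  rw [← ContinuousLinearMap.adjoint_inner_right, ← hH, ← Lp.inner_fourier_eq,
    SchwartzMap.toLp_fourier_eq, ← hP, L2.inner_def, L2.inner_def] at key
  calc _ = ∫ ξ, inner ℂ ((𝓕 Φ).toLp 2 volume ξ) (P ξ) := by
        apply integral_congr_ae
        filter_upwards [(𝓕 Φ).coeFn_toLp 2 volume] with ξ a
        rw [a, hΦF, hφG, hGx, hgx, inner_sym h, ← Complex.coe_smul]
        simp only [inner_smul_left, inner_smul_right, Complex.conj_ofReal]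
        ring
    _ = _ := key
    _ = _ := by
        apply integral_congr_ae
        filter_upwards [g.coeFn_toLp 2 volume] with ξ a
        rw [a, hgx, ← Complex.coe_smul (φ₀ ξ) (H ξ)]
        simp only [inner_smul_left, inner_smul_right, Complex.conj_ofReal]

omit [InnerProductSpace ℝ E] [FiniteDimensional ℝ E] [BorelSpace E] [CompleteSpace S]
  [NormedAddCommGroup E] [InnerProductSpace ℂ S] [FiniteDimensional ℂ S] in
lemma integral_sq_eq {μ : Measure E} (g : Lp S 2 μ) : ∫ ξ, ‖g ξ‖ ^ 2 ∂μ = ‖g‖ ^ 2 := by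
  have hi0 : Integrable (fun ξ => ‖g ξ‖ ^ 2) μ :=
    (memLp_two_iff_integrable_sq_norm (Lp.aestronglyMeasurable g)).mp (Lp.memLp g)
  have := lintegral_sq_eq g
  rwa [← ofReal_integral_eq_lintegral_ofReal hi0 (ae_of_all _ fun _ => by positivity),
    ENNReal.ofReal_eq_ofReal_iff (integral_nonneg fun _ => by positivity) (by positivity)]
    at this

end JA

open JA in
theorem stmtA : StmtA := by
  intro E S _ _ _ _ _ _ _ _ _ d e α β h hd m p hm hp
  have hfin : Module.finrank ℝ E = (d - 1) + 1 := by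
    rw [Module.finrank_eq_card_basis e.toBasis, Fintype.card_fin]; omega
  have hp' : ((d - 1 : ℕ) : ℝ) + 1 ≤ p := by
    rw [Nat.cast_sub (by omega)]; push_cast; linarith
  obtain ⟨U, hU, hops⟩ := exists_ops (S := S) hfin (by omega) hp'
  set μ := min m 1 with hμ
  have hμ0 : 0 < μ := lt_min hm one_pos
  have hμ1 : μ ≤ 1 := min_le_right _ _
  obtain ⟨c, hc, hB⟩ := hops (μ / 2) (by positivity)
  refine ⟨c, hc, fun V hV hVc l hl ⟨ψ, hψ, hψ0, hVψ, hw⟩ => hψ0 ?_⟩
  obtain ⟨B, hB, hBn⟩ := hB V hV.1 hV.2.1 hVc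
  set Ψ := hψ.toLp ψ with hΨ
  have hΨψ : Ψ =ᵐ[volume] ψ := hψ.coeFn_toLp
  have hvm : MemLp (fun x => (Real.sqrt (V x) : ℂ) • ψ x) 2 volume := by
    refine (memLp_two_iff_integrable_sq_norm ((Complex.continuous_ofReal.comp_aestronglyMeasurable
      (Real.continuous_sqrt.comp_aestronglyMeasurable hV.2.1)).smul hψ.1)).mpr ?_
    refine hVψ.congr (ae_of_all _ fun x => ?_)
    simp [norm_smul, mul_pow, Real.sq_sqrt (hV.1 x)]
  set v := hvm.toLp _ with hvdef
  have hv : v =ᵐ[volume] fun x => (Real.sqrt (V x) : ℂ) • Ψ x := by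
    filter_upwards [hvm.coeFn_toLp, hΨψ] with x a b
    rw [a, b]
  have hF := fourier_side h e hm hl hV.1 U B hU hB Ψ v hv (fun φ => by
    rw [← hw φ]
    apply integral_congr_ae
    filter_upwards [hΨψ] with x a
    rw [a])
  set P : Lp S 2 (volume : Measure E) := 𝓕 Ψ with hP
  set H := ContinuousLinearMap.adjoint B v with hH
  have hHv : ‖H‖ ≤ μ / 2 * ‖v‖ := by
    have h1 : ‖H‖ ^ 2 ≤ μ / 2 * ‖v‖ * ‖H‖ := by
      have h2 : (inner ℂ H H).re = ‖H‖ ^ 2 := inner_self_eq_norm_sq (𝕜 := ℂ) H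
      rw [← h2]
      nth_rewrite 2 [hH]
      rw [ContinuousLinearMap.adjoint_inner_right]
      calc _ ≤ ‖B H‖ * ‖v‖ := (Complex.re_le_norm _).trans (norm_inner_le_norm (𝕜 := ℂ) _ _)
        _ ≤ μ / 2 * ‖H‖ * ‖v‖ := by gcongr; exact hBn H
        _ = _ := by ring
    rcases (norm_nonneg H).eq_or_lt with h0 | h0
    · rw [← h0]; positivity
    · rw [sq] at h1; exact le_of_mul_le_mul_right h1 h0
  set κ := (1 + l / m) * μ with hκ
  have hκ0 : 0 < κ := by
    have : -1 < l / m := by rw [lt_div_iff₀ hm]; linarith [hl.1]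
    exact mul_pos (by linarith) hμ0
  have hpt : ∀ᵐ ξ, κ * ‖((uw ξ)⁻¹ : ℂ) • P ξ‖ ≤ ‖H ξ‖ ∧
      μ * (inner ℂ (((uw ξ)⁻¹ : ℂ) • P ξ) (H ξ)).re ≤ ‖H ξ‖ ^ 2 := by
    filter_upwards [hF] with ξ a
    obtain ⟨b1, b2, -⟩ := sym_ineq h e hm hl ξ (P ξ)
    have hu := uw_pos ξ
    rw [← a, norm_smul, norm_smul, norm_inv, Complex.norm_real, Real.norm_of_nonneg hu.le]
    constructor
    · rw [mul_left_comm, ← div_eq_inv_mul, div_le_iff₀ hu]
      refine b1.trans (le_of_eq (by ring))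
    · rw [inner_smul_left, inner_smul_right, map_inv₀, Complex.conj_ofReal, ← mul_assoc,
        inv_mul_cancel₀ (by exact_mod_cast hu.ne'), one_mul, mul_pow]
      exact b2
  have hgm : MemLp (fun ξ => ((uw ξ)⁻¹ : ℂ) • P ξ) 2 volume := by
    refine ((Lp.memLp H).norm.const_mul κ⁻¹).of_le ?_ ?_
    · exact ((Complex.continuous_ofReal.comp continuous_uw).inv₀
        (fun ξ => Complex.ofReal_ne_zero.mpr (uw_pos ξ).ne')).aestronglyMeasurable.smul
        (Lp.aestronglyMeasurable P)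
    · filter_upwards [hpt] with ξ a
      rw [Real.norm_of_nonneg (by positivity), ← div_eq_inv_mul, le_div_iff₀ hκ0, mul_comm]
      exact a.1
  set g := hgm.toLp _ with hg
  have hUg : U g = P := by
    apply Lp.ext
    filter_upwards [hU g, hgm.coeFn_toLp] with ξ a b
    rw [a, b, smul_smul, mul_inv_cancel₀ (by exact_mod_cast (uw_pos ξ).ne'), one_smul]
  have hBg : B g = v := by
    apply Lp.ext
    have := hB g
    rw [hUg, hP, fourierInv_fourier_eq] at this
    exact this.trans hv.symm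
  have hvH : μ * ‖v‖ ^ 2 ≤ ‖H‖ ^ 2 := by
    have h2 : (inner ℂ v v).re = ‖v‖ ^ 2 := inner_self_eq_norm_sq (𝕜 := ℂ) v
    rw [← h2]
    nth_rewrite 1 [← hBg]
    rw [← ContinuousLinearMap.adjoint_inner_right, ← hH, L2.inner_def, ← integral_sq_eq]
    have hi := L2.integrable_inner (𝕜 := ℂ) g H
    have h3 := integral_re hi
    simp only [RCLike.re_to_complex] at h3
    rw [← h3, ← integral_const_mul]
    refine integral_mono_ae (hi.re.const_mul μ)
      ((memLp_two_iff_integrable_sq_norm (Lp.aestronglyMeasurable H)).mp (Lp.memLp H)) ?_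
    filter_upwards [hpt, hgm.coeFn_toLp] with ξ a b
    rw [b]; exact a.2
  have hv0 : ‖v‖ = 0 := by
    have h1 : ‖H‖ ^ 2 ≤ (μ / 2 * ‖v‖) ^ 2 := by gcongr
    have h2 : μ * (1 - μ / 4) * ‖v‖ ^ 2 ≤ 0 := by nlinarith
    have h3 : 0 < μ * (1 - μ / 4) := mul_pos hμ0 (by linarith)
    have h4 : ‖v‖ ^ 2 ≤ 0 := by
      by_contra h5
      exact absurd h2 (not_le.mpr (mul_pos h3 (not_le.mp h5)))
    exact pow_eq_zero_iff (two_ne_zero) |>.mp (le_antisymm h4 (sq_nonneg _))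
  have hH0 : H = 0 := by
    rw [hv0, mul_zero] at hHv
    exact norm_le_zero_iff.mp hHv
  have hP0 : P = 0 := by
    apply Lp.ext
    filter_upwards [hpt, Lp.coeFn_zero S 2 (volume : Measure E)] with ξ a b
    have a1 := a.1
    rw [hH0, b, Pi.zero_apply, norm_zero] at a1
    have a2 : ‖((uw ξ)⁻¹ : ℂ) • P ξ‖ ≤ 0 := by
      by_contra h5
      exact absurd a1 (not_le.mpr (mul_pos hκ0 (not_le.mp h5)))
    rw [norm_le_zero_iff, smul_eq_zero] at a2
    rw [b]
    exact a2.resolve_left (inv_ne_zero (by exact_mod_cast (uw_pos ξ).ne'))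
  have hΨ0 : Ψ = 0 := by
    rw [← norm_eq_zero, ← Lp.norm_fourier_eq, ← hP, hP0, norm_zero]
  exact hΨψ.symm.trans (hΨ0 ▸ Lp.coeFn_zero S 2 (volume : Measure E))

end Pool.Agent.MP_0b7119_mp.G
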