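import Pool.Agent.MP_0b7119_mp.ACD

/-! One-dimensional calculus tools for job B: integrals of derivatives over the line and the
du Bois-Reymond lemma. -/

open Set MeasureTheory Filter Topology
open scoped ContDiff

namespace Pool.Agent.MP_0b7119_mp

namespace ACD

variable {f f' : ℝ → ℝ}

theorem sub_eq_integral (h : ACD f f') (a b : ℝ) : ∫ x in a..b, f' x = f b - f a := by
  rw [← (h.ac a b).integral_deriv_eq_sub]
  apply intervalIntegral.integral_congr_ae
  filter_upwards [h.der] with x hx _
  exact hx.deriv.symm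

theorem tendsto_atTop_zero (h : ACD f f') (hf : Integrable f) (hf' : Integrable f') :
    Tendsto f atTop (𝓝 0) := by
  have h1 : Tendsto (fun b => ∫ x in (0 : ℝ)..b, f' x) atTop (𝓝 (∫ x in Ioi (0 : ℝ), f' x)) :=
    intervalIntegral_tendsto_integral_Ioi 0 hf'.integrableOn tendsto_id
  have h2 : Tendsto f atTop (𝓝 ((∫ x in Ioi (0 : ℝ), f' x) + f 0)) := by
    refine (h1.add_const (f 0)).congr fun b => ?_
    rw [h.sub_eq_integral]; ring
  have h3 : (∫ x in Ioi (0 : ℝ), f' x) + f 0 = 0 := by
    refine IntegrableAtFilter.eq_zero_of_tendsto (μ := volume) (hf.integrableAtFilter atTop) ?_ h2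
    intro s hs
    rcases mem_atTop_sets.1 hs with ⟨b, hb⟩
    rw [← top_le_iff, ← Real.volume_Ici (a := b)]
    exact measure_mono hb
  rwa [h3] at h2

theorem tendsto_atBot_zero (h : ACD f f') (hf : Integrable f) (hf' : Integrable f') :
    Tendsto f atBot (𝓝 0) := by
  have h1 := h.reflect.tendsto_atTop_zero hf.comp_neg hf'.comp_neg.neg
  have h2 := h1.comp tendsto_neg_atBot_atTop
  refine h2.congr fun x => ?_
  simp

theorem integral_eq_zero (h : ACD f f') (hf : Integrable f) (hf' : Integrable f') :
    ∫ x, f' x = 0 := by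
  have h1 : Tendsto (fun b : ℝ => ∫ x in (-b)..b, f' x) atTop (𝓝 (∫ x, f' x)) :=
    intervalIntegral_tendsto_integral hf' tendsto_neg_atTop_atBot tendsto_id
  have h2 : Tendsto (fun b : ℝ => ∫ x in (-b)..b, f' x) atTop (𝓝 (0 - 0)) := by
    refine ((h.tendsto_atTop_zero hf hf').sub
      ((h.tendsto_atBot_zero hf hf').comp tendsto_neg_atTop_atBot)).congr fun b => ?_
    rw [h.sub_eq_integral]; rfl
  simpa using tendsto_nhds_unique h1 h2

theorem bdd (h : ACD f f') (hf : Integrable f) (hf' : Integrable f') (x : ℝ) :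
    |f x| ≤ ∫ x, |f' x| := by
  have h1 : Tendsto (fun b => |f b - f x|) atTop (𝓝 |0 - f x|) :=
    ((h.tendsto_atTop_zero hf hf').sub_const _).abs
  rw [zero_sub, abs_neg] at h1
  refine le_of_tendsto h1 ?_
  filter_upwards [eventually_ge_atTop x] with b hb
  rw [← h.sub_eq_integral]
  refine (intervalIntegral.abs_integral_le_integral_abs hb).trans ?_
  rw [intervalIntegral.integral_of_le hb]
  exact setIntegral_le_integral hf'.abs (Eventually.of_forall fun _ => abs_nonneg _)

end ACD

section vec

variable {S : Type*} [NormedAddCommGroup S] [NormedSpace ℝ S]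

/-- Vector valued version of `ACD`. -/
structure ACV (f f' : ℝ → S) : Prop where
  ac : ∀ a b, AbsolutelyContinuousOnInterval f a b
  der : ∀ᵐ x, HasDerivAt f (f' x) x

theorem ac_of_dist_le {X Y : Type*} [PseudoMetricSpace X] [PseudoMetricSpace Y] {f : ℝ → X}
    {g : ℝ → Y} {a b : ℝ} (hf : AbsolutelyContinuousOnInterval f a b)
    (h : ∀ x y, dist (g x) (g y) ≤ dist (f x) (f y)) : AbsolutelyContinuousOnInterval g a b := by
  rw [absolutelyContinuousOnInterval_iff] at hf ⊢
  intro ε hε
  obtain ⟨δ, hδ, h1⟩ := hf ε hε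
  exact ⟨δ, hδ, fun E hE hE2 => (Finset.sum_le_sum fun i _ => h _ _).trans_lt (h1 E hE hE2)⟩

theorem ac_clm {T : Type*} [NormedAddCommGroup T] [NormedSpace ℝ T] {f : ℝ → S} {a b : ℝ}
    (hf : AbsolutelyContinuousOnInterval f a b) (L : S →L[ℝ] T) :
    AbsolutelyContinuousOnInterval (fun x => L (f x)) a b :=
  ac_comp_lipschitzOn (s := univ) hf L.lipschitz.lipschitzOnWith (mapsTo_univ _ _)

theorem ac_prod {T : Type*} [NormedAddCommGroup T] [NormedSpace ℝ T] {f : ℝ → S} {g : ℝ → T}
    {a b : ℝ} (hf : AbsolutelyContinuousOnInterval f a b)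
    (hg : AbsolutelyContinuousOnInterval g a b) :
    AbsolutelyContinuousOnInterval (fun x => (f x, g x)) a b := by
  have := (ac_clm hf (ContinuousLinearMap.inl ℝ S T)).add
    (ac_clm hg (ContinuousLinearMap.inr ℝ S T))
  refine ac_of_dist_le this fun x y => le_of_eq ?_
  simp

theorem ACV.continuous {f f' : ℝ → S} (h : ACV f f') : Continuous f := by
  rw [continuous_iff_continuousAt]
  intro x
  have := (h.ac (x - 1) (x + 1)).continuousOn
  rw [uIcc_of_le (by linarith)] at this
  exact this.continuousAt (Icc_mem_nhds (by linarith) (by linarith))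

theorem ACV.clm {T : Type*} [NormedAddCommGroup T] [NormedSpace ℝ T] {f f' : ℝ → S}
    (h : ACV f f') (L : S →L[ℝ] T) : ACV (fun x => L (f x)) (fun x => L (f' x)) :=
  ⟨fun a b => ac_clm (h.ac a b) L, by
    filter_upwards [h.der] with x hx
    exact L.hasFDerivAt.comp_hasDerivAt x hx⟩

theorem ACV.toACD {f f' : ℝ → ℝ} (h : ACV f f') : ACD f f' := ⟨h.ac, h.der⟩

theorem ACV.const_add {f f' : ℝ → S} (h : ACV f f') (c : S) : ACV (fun x => c + f x) f' :=
  ⟨fun a b => ac_of_dist_le (h.ac a b) fun x y => by simp, by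
    filter_upwards [h.der] with x hx
    exact hx.const_add c⟩

theorem ACV.of_contDiff {f : ℝ → S} (hf : ContDiff ℝ 1 f) : ACV f (deriv f) :=
  ⟨fun _ _ => hf.contDiffOn.absolutelyContinuousOnInterval,
    Eventually.of_forall fun x => (hf.differentiable (by decide) x).hasDerivAt⟩

variable [CompleteSpace S]

theorem ACV.primitive {u : ℝ → S} (hu : LocallyIntegrable u volume) :
    ACV (fun x => ∫ t in (0 : ℝ)..x, u t) u := by
  have hi : ∀ a b, IntervalIntegrable u volume a b := fun a b =>
    (hu.integrableOn_isCompact isCompact_uIcc).intervalIntegrable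
  have hn : LocallyIntegrable (fun x => ‖u x‖) volume := fun x => (hu x).norm
  refine ⟨fun a b => ac_of_dist_le ((ACD.primitive hn 0).ac a b) fun x y => ?_, ?_⟩
  · rw [dist_eq_norm, Real.dist_eq, intervalIntegral.integral_interval_sub_left (hi _ _) (hi _ _),
      intervalIntegral.integral_interval_sub_left (hi _ _).norm (hi _ _).norm]
    exact intervalIntegral.norm_integral_le_abs_integral_norm
  · filter_upwards [LocallyIntegrable.ae_hasDerivAt_integral hu] with x hx
    exact hx 0

omit [CompleteSpace S] in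
theorem integrable_test_smul {ζ : ℝ → ℝ} (hζ : Continuous ζ) (hc : HasCompactSupport ζ)
    {u : ℝ → S} (hu : LocallyIntegrable u volume) : Integrable (fun x => ζ x • u x) :=
  hu.integrable_smul_left_of_hasCompactSupport hζ hc

theorem ACV.integral_test {G u : ℝ → S} (h : ACV G u) (hu : LocallyIntegrable u volume)
    {ζ : ℝ → ℝ} (hζ : ContDiff ℝ ∞ ζ) (hc : HasCompactSupport ζ) :
    ∫ x, (deriv ζ x • G x + ζ x • u x) = 0 := by
  have hG : LocallyIntegrable G volume := h.continuous.locallyIntegrable
  have hζ' : Continuous (deriv ζ) := hζ.continuous_deriv (by decide)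
  have i1 := integrable_test_smul hζ' hc.deriv hG
  have i2 := integrable_test_smul hζ.continuous hc hu
  have i3 := integrable_test_smul hζ.continuous hc hG
  apply SeparatingDual.eq_zero_of_forall_dual_eq_zero (R := ℝ)
  intro L
  have i4 : Integrable (fun x => deriv ζ x • G x + ζ x • u x) := i1.add i2
  rw [← L.integral_comp_comm i4]
  have h1 := ((ACV.of_contDiff (hζ.of_le (by decide))).toACD).mul (h.clm L).toACD
  have h2 := h1.integral_eq_zero (by simpa using L.integrable_comp i3)
    (by simpa using L.integrable_comp i4)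
  simpa using h2

theorem exists_primitive_test {k : ℝ → ℝ} (hk : ContDiff ℝ ∞ k) (hc : HasCompactSupport k)
    (h0 : ∫ x, k x = 0) : ∃ ζ : ℝ → ℝ, ContDiff ℝ ∞ ζ ∧ HasCompactSupport ζ ∧ deriv ζ = k := by
  obtain ⟨R, hR⟩ := hc.isCompact.isBounded.subset_ball (0 : ℝ)
  have hs : Function.support k ⊆ Ioo (-R) R := by
    refine (subset_tsupport k).trans (hR.trans ?_)
    rw [Real.ball_eq_Ioo]; simp
  have hd : ∀ x, HasDerivAt (fun x => ∫ t in (-R)..x, k t) (k x) x := fun x =>
    (hk.continuous.integral_hasStrictDerivAt _ _).hasDerivAt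
  have hd' : deriv (fun x => ∫ t in (-R)..x, k t) = k := funext fun x => (hd x).deriv
  refine ⟨fun x => ∫ t in (-R)..x, k t, ?_, ?_, hd'⟩
  · rw [contDiff_infty_iff_deriv, hd']
    exact ⟨fun x => (hd x).differentiableAt, hk⟩
  · refine HasCompactSupport.intro (isCompact_Icc (a := -R) (b := R)) fun x hx => ?_
    rw [mem_Icc, not_and_or, not_le, not_le] at hx
    rcases hx with hx | hx
    · apply intervalIntegral.integral_zero_ae
      refine Eventually.of_forall fun t ht => ?_
      by_contra hne
      have h1 := hs hne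
      rw [uIoc_of_ge hx.le] at ht
      linarith [h1.1, ht.2]
    · rw [intervalIntegral.integral_eq_integral_of_support_subset, h0]
      intro t ht
      have h1 := hs ht
      exact ⟨h1.1, by linarith [h1.2]⟩

/-- du Bois-Reymond: a locally integrable function with a locally integrable weak derivative
has an absolutely continuous representative. -/
theorem duBois {f u : ℝ → S} (hf : LocallyIntegrable f volume) (hu : LocallyIntegrable u volume)
    (h : ∀ ζ : ℝ → ℝ, ContDiff ℝ ∞ ζ → HasCompactSupport ζ →
      ∫ x, (deriv ζ x • f x + ζ x • u x) = 0) :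
    ∃ g : ℝ → S, ACV g u ∧ f =ᵐ[volume] g := by
  set G : ℝ → S := fun x => ∫ t in (0 : ℝ)..x, u t with hGdef
  have hG : ACV G u := ACV.primitive hu
  have hGl : LocallyIntegrable G volume := hG.continuous.locallyIntegrable
  have hw : LocallyIntegrable (fun x => f x - G x) volume := hf.sub hGl
  have key : ∀ ζ : ℝ → ℝ, ContDiff ℝ ∞ ζ → HasCompactSupport ζ →
      ∫ x, deriv ζ x • (f x - G x) = 0 := by
    intro ζ hζ hc
    have hζ' : Continuous (deriv ζ) := hζ.continuous_deriv (by decide)
    have i1 := integrable_test_smul hζ' hc.deriv hGl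
    have i2 := integrable_test_smul hζ.continuous hc hu
    have i3 := integrable_test_smul hζ' hc.deriv hf
    have e := integral_sub (i3.add i2) (i1.add i2)
    simp only [Pi.add_apply] at e
    rw [h ζ hζ hc, hG.integral_test hu hζ hc, sub_zero] at e
    rw [← e]
    congr 1
    funext x
    rw [smul_sub]; abel
  let b : ContDiffBump (0 : ℝ) := ⟨1, 2, by norm_num, by norm_num⟩
  have hρ : ContDiff ℝ ∞ (b.normed volume) := b.contDiff_normed
  have hρc : HasCompactSupport (b.normed volume) := b.hasCompactSupport_normed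
  have hρ1 : ∫ x, b.normed volume x = 1 := b.integral_normed
  set c : S := ∫ x, b.normed volume x • (f x - G x) with hc
  refine ⟨fun x => c + G x, hG.const_add c, ?_⟩
  have main : ∀ᵐ x, f x - G x = c := by
    refine ae_eq_of_integral_contDiff_smul_eq hw (locallyIntegrable_const c) fun g hg hgc => ?_
    have ig : Integrable g := hg.continuous.integrable_of_hasCompactSupport hgc
    have iρ : Integrable (b.normed volume) := hρ.continuous.integrable_of_hasCompactSupport hρc
    obtain ⟨ζ, h1, h2, h3⟩ := exists_primitive_test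
      (k := fun x => g x - (∫ y, g y) * b.normed volume x) (hg.sub (contDiff_const.mul hρ))
      (hgc.sub hρc.mul_left) (by
        rw [integral_sub ig (iρ.const_mul _), integral_const_mul, hρ1]; ring)
    have h4 := key ζ h1 h2
    rw [h3] at h4
    simp only [sub_smul, mul_smul] at h4
    have i5 : Integrable (fun x => (∫ y, g y) • b.normed volume x • (f x - G x)) :=
      (integrable_test_smul hρ.continuous hρc hw).smul (∫ y, g y)
    rw [integral_sub (integrable_test_smul hg.continuous hgc hw) i5, integral_smul, ← hc] at h4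
    rw [integral_smul_const]
    exact sub_eq_zero.1 h4
  filter_upwards [main] with x hx
  rw [← hx]; abel

end vec

end Pool.Agent.MP_0b7119_mp
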