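import Pool.Agent.MP_0b7119_mp.Construct

open Set MeasureTheory Matrix Filter Topology
open scoped ENNReal

namespace Pool.Agent.MP_0b7119_mp

theorem pot_facts {p : ℝ} (hp : 1 ≤ p) {V : ℝ → ℝ} (hV : V ∈ Pot p) :
    LocallyIntegrable V volume ∧ Integrable (fun x => V x ^ p) volume ∧
      eLpNorm V (ENNReal.ofReal p) volume = ENNReal.ofReal ((∫ x, V x ^ p) ^ p⁻¹) := by
  have h0 : ENNReal.ofReal p ≠ 0 := by simp; linarith
  have h1 : (ENNReal.ofReal p).toReal = p := ENNReal.toReal_ofReal (by linarith)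
  have e : (fun x => ‖V x‖ ^ p) = fun x => V x ^ p := by
    funext x; rw [Real.norm_eq_abs, abs_of_nonneg (hV.1 x)]
  refine ⟨hV.2.locallyIntegrable (by simpa using hp), ?_, ?_⟩
  · have := hV.2.integrable_norm_rpow h0 ENNReal.ofReal_ne_top
    rwa [h1, e] at this
  · rw [hV.2.eLpNorm_eq_integral_rpow_norm h0 ENNReal.ofReal_ne_top, h1, e]

theorem mem_pot {p : ℝ} (hp : 1 ≤ p) {V : ℝ → ℝ} (hm : Measurable V) (h0 : ∀ x, 0 ≤ V x)
    (hi : Integrable (fun x => V x ^ p) volume) : V ∈ Pot p := by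
  refine ⟨h0, ?_⟩
  have h1 : ENNReal.ofReal p ≠ 0 := by simp; linarith
  rw [← integrable_norm_rpow_iff hm.aestronglyMeasurable h1 ENNReal.ofReal_ne_top,
    ENNReal.toReal_ofReal (by linarith)]
  have e : (fun x => ‖V x‖ ^ p) = fun x => V x ^ p := by
    funext x; rw [Real.norm_eq_abs, abs_of_nonneg (h0 x)]
  rwa [e]

theorem lam_bdd (α β : Matrix (Fin 2) (Fin 2) ℂ) {m : ℝ} (hm : 0 < m) (V : ℝ → ℝ) :
    BddBelow ({l | l ∈ Ioo (-m) m ∧ IsEig α β m V l} ∪ {m}) := by
  refine ⟨-m, ?_⟩
  rintro l (hl | hl)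
  · exact hl.1.1.le
  · rw [mem_singleton_iff.1 hl]; linarith

theorem lt_alphaStar {α β : Matrix (Fin 2) (Fin 2) ℂ} (C : Cliff α β) {m p : ℝ} (hm : 0 < m)
    (hp : 1 ≤ p) {V : ℝ → ℝ} (hV : V ∈ Pot p)
    (h : 2 * cp p * ∫ x, V x ^ p < HH m p 3 - HH m p (-3)) :
    eLpNorm V (ENNReal.ofReal p) volume < alphaStar α β m p := by
  have hcp := cp_pos hp
  set A := (HH m p 3 - HH m p (-3)) / (2 * cp p) with hA
  have hnn : ∀ W ∈ Pot p, 0 ≤ ∫ x, W x ^ p := fun W hW =>
    integral_nonneg fun x => Real.rpow_nonneg (hW.1 x) _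
  have h1 : ∫ x, V x ^ p < A := by rw [hA, lt_div_iff₀ (by positivity)]; linarith
  have hA0 : 0 < A := (hnn V hV).trans_lt h1
  have hpi : 0 < p⁻¹ := by positivity
  refine lt_of_lt_of_le (b := ENNReal.ofReal (A ^ p⁻¹)) ?_ ?_
  · rw [(pot_facts hp hV).2.2, ENNReal.ofReal_lt_ofReal_iff (by positivity)]
    exact Real.rpow_lt_rpow (hnn V hV) h1 hpi
  · apply le_sInf
    intro a ha
    obtain ⟨W, hW, hWa, hlam⟩ := ha (m * Real.cos 3 + m) (by nlinarith [cos3_gt])
    refine le_trans ?_ hWa
    obtain ⟨l, hl, hl2⟩ := exists_lt_of_csInf_lt ⟨m, Or.inr rfl⟩ hlam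
    have hl3 : l < m * Real.cos 3 := by linarith
    rcases hl with hl | hl
    · obtain ⟨f1, f2, f3⟩ := pot_facts hp hW
      obtain ⟨φ, ρ, P, h0⟩ := eig_to_pruefer C f1 hl.2 0
      have hk := keller P hm hl.1.1.le hl3 hW.1 hp f2 h0
      rw [f3]
      apply ENNReal.ofReal_le_ofReal
      apply Real.rpow_le_rpow hA0.le _ hpi.le
      rw [hA, div_le_iff₀ (by positivity)]
      linarith
    · rw [mem_singleton_iff.1 hl] at hl3
      nlinarith [Real.cos_le_one 3]

theorem main {α β : Matrix (Fin 2) (Fin 2) ℂ} (C : Cliff α β) {m p : ℝ} (hm : 0 < m)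
    (hp : 1 ≤ p) : ∃ V ∈ Pot p, ∃ W ∈ Pot p,
      eLpNorm V (ENNReal.ofReal p) volume < alphaStar α β m p ∧
      eLpNorm W (ENNReal.ofReal p) volume < alphaStar α β m p ∧
      ∃ t ∈ Ioo (0 : ℝ) 1, lamD α β m (t • V + (1 - t) • W) <
        t * lamD α β m V + (1 - t) * lamD α β m W := by
  obtain ⟨M, φ, ρ, a, a', b, g, B, haa', ha'b, hg, hMm, hM0, hMB, hMout, hMg, P, hφa, hφb, hcos,
    hcos', hN⟩ := exists_base hm hp
  have hab : a ≤ b := haa'.le.trans ha'b
  have hcp := cp_pos hp
  -- slack in the norm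
  obtain ⟨e, he0, he1, he2⟩ : ∃ e : ℝ, 0 < e ∧ e ≤ 1 ∧
      2 * cp p * ((1 + e) ^ p * ∫ x, M x ^ p) < HH m p 3 - HH m p (-3) := by
    have hc : ContinuousAt (fun e : ℝ => 2 * cp p * ((1 + e) ^ p * ∫ x, M x ^ p)) 0 := by
      have : ContinuousAt (fun e : ℝ => (1 + e) ^ p) 0 :=
        ContinuousAt.rpow_const (by fun_prop) (Or.inl (by norm_num))
      exact continuousAt_const.mul (this.mul continuousAt_const)
    have h1 : ∀ᶠ e in 𝓝 (0 : ℝ),
        2 * cp p * ((1 + e) ^ p * ∫ x, M x ^ p) < HH m p 3 - HH m p (-3) :=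
      hc.eventually_lt continuousAt_const (by simpa using hN)
    have h2 : ∀ᶠ e in 𝓝[>] (0 : ℝ), e ∈ Ioc (0 : ℝ) 1 := Ioc_mem_nhdsGT one_pos
    obtain ⟨e, h3, h4⟩ := ((h1.filter_mono nhdsWithin_le_nhds).and h2).exists
    exact ⟨e, h4.1, h4.2, h3⟩
  set L := a' - a with hL
  have hL0 : 0 < L := by linarith
  set ε := min (1 / L ^ 2) (e * g / (L + m * L ^ 2)) with hε
  have hε0 : 0 < ε := lt_min (by positivity) (by positivity)
  have hε1 : ε * L ^ 2 ≤ 1 := by
    rw [← le_div_iff₀ (by positivity)]; exact min_le_left _ _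
  have hε2 : ε * (L + m * L ^ 2) ≤ e * g := by
    rw [← le_div_iff₀ (by positivity)]; exact min_le_right _ _
  set η : ℝ → ℝ := fun x => ε * max 0 ((x - a) * (a' - x)) with hη
  set η' : ℝ → ℝ := (Icc a a').indicator fun x => ε * (a + a' - 2 * x) with hη'
  have hηout : ∀ x, x ∉ Ioo a a' → η x = 0 := by
    intro x hx
    have : (x - a) * (a' - x) ≤ 0 := by
      rcases le_or_gt x a with h | h
      · exact mul_nonpos_of_nonpos_of_nonneg (by linarith) (by linarith)
      · have : a' ≤ x := by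
          by_contra hh
          exact hx ⟨h, not_le.1 hh⟩
        exact mul_nonpos_of_nonneg_of_nonpos (by linarith) (by linarith)
    simp only [hη]; rw [max_eq_left this, mul_zero]
  have hηin : ∀ x ∈ Icc a a', η x = ε * ((x - a) * (a' - x)) := fun x hx => by
    simp only [hη]; rw [max_eq_right (mul_nonneg (by linarith [hx.1]) (by linarith [hx.2]))]
  have hηb : ∀ x ∈ Icc a a', 0 ≤ η x ∧ η x ≤ ε * L ^ 2 := fun x hx => by
    rw [hηin x hx]
    have h1 : 0 ≤ x - a := by linarith [hx.1]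
    have h2 : 0 ≤ a' - x := by linarith [hx.2]
    refine ⟨by positivity, mul_le_mul_of_nonneg_left ?_ hε0.le⟩
    nlinarith
  have hq : ∀ x, HasDerivAt (fun x => (x - a) * (a' - x)) (a + a' - 2 * x) x := fun x =>
    (((hasDerivAt_id x).sub_const a).mul ((hasDerivAt_id x).const_sub a')).congr_deriv (by
      simp only [id]; ring)
  have hηD : ACD η η' := by
    refine ⟨fun c d => ?_, ?_⟩
    · have h1 := (ACD.of_hasDerivAt hq (by fun_prop)).ac c d
      have hl : LipschitzWith 1 (fun y : ℝ => max 0 y) := LipschitzWith.id.const_max 0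
      exact (ac_comp_lipschitzOn (g := fun y : ℝ => max 0 y) h1
        (hl.lipschitzOnWith (s := univ)) (mapsTo_univ _ _)).const_mul ε
    · filter_upwards [Measure.ae_ne volume a, Measure.ae_ne volume a'] with x hxa hxb
      rcases lt_or_gt_of_ne hxa with h1 | h1
      · rw [hη', indicator_of_notMem (fun h => absurd h.1 (not_le.2 h1))]
        refine (hasDerivAt_const x (0 : ℝ)).congr_of_eventuallyEq ?_
        filter_upwards [Iio_mem_nhds h1] with y hy
        exact hηout y (fun h => absurd h.1 (not_lt.2 (le_of_lt hy)))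
      rcases lt_or_gt_of_ne hxb with h2 | h2
      · rw [hη', indicator_of_mem (show x ∈ Icc a a' from ⟨h1.le, h2.le⟩)]
        refine ((hq x).const_mul ε).congr_of_eventuallyEq ?_
        filter_upwards [Icc_mem_nhds h1 h2] with y hy
        exact hηin y hy
      · rw [hη', indicator_of_notMem (fun h => absurd h.2 (not_le.2 h2))]
        refine (hasDerivAt_const x (0 : ℝ)).congr_of_eventuallyEq ?_
        filter_upwards [Ioi_mem_nhds h2] with y hy
        exact hηout y (fun h => absurd h.2 (not_lt.2 (le_of_lt hy)))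
  have hφc := P.hφ.continuous
  have hηc := hηD.continuous
  set Y : ℝ → ℝ := fun x => (η' x - 2 * m * Real.sin (φ x) * Real.sin (η x)) / 2 with hY
  have hYm : Measurable Y := by
    have h1 : Measurable η' :=
      (show Continuous fun x => ε * (a + a' - 2 * x) by fun_prop).measurable.indicator
        measurableSet_Icc
    have h2 : Continuous fun x => 2 * m * Real.sin (φ x) * Real.sin (η x) := by fun_prop
    exact (h1.sub h2.measurable).div_const 2
  have hYM : ∀ x, |Y x| ≤ e * M x := by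
    intro x
    by_cases hx : x ∈ Icc a a'
    · have h1 : |η' x| ≤ ε * L := by
        rw [hη', indicator_of_mem hx, abs_mul, abs_of_pos hε0]
        apply mul_le_mul_of_nonneg_left _ hε0.le
        rw [abs_le]; constructor <;> linarith [hx.1, hx.2]
      have h2 : |Real.sin (φ x) * Real.sin (η x)| ≤ ε * L ^ 2 := by
        rw [abs_mul]
        have h3 : |Real.sin (η x)| ≤ ε * L ^ 2 := Real.abs_sin_le_abs.trans (by
          rw [abs_of_nonneg (hηb x hx).1]; exact (hηb x hx).2)
        calc _ ≤ 1 * (ε * L ^ 2) :=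
              mul_le_mul (Real.abs_sin_le_one _) h3 (abs_nonneg _) zero_le_one
          _ = _ := one_mul _
      have h3 := hMg x ⟨hx.1, hx.2.trans ha'b⟩
      have h4 : e * g ≤ e * M x := by gcongr
      have h5 := abs_le.1 h1
      have h6 := abs_le.1 h2
      have h7 : 0 < ε * L := by positivity
      simp only [hY]
      rw [abs_le]; constructor <;> nlinarith [h5.1, h5.2, h6.1, h6.2]
    · have h1 : η x = 0 := hηout x (fun h => hx ⟨h.1.le, h.2.le⟩)
      simp only [hY]
      rw [h1, hη', indicator_of_notMem hx]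
      simp only [Real.sin_zero, mul_zero, sub_zero, zero_div, abs_zero]
      exact mul_nonneg he0.le (hM0 x)
  set S : ℝ → ℝ := fun x => -2 * m * Real.cos (φ x) * (1 - Real.cos (η x)) with hS
  have hSc : Continuous S := by fun_prop
  have hS0 : ∀ x, 0 ≤ S x := by
    intro x
    by_cases hx : x ∈ Icc a a'
    · have h1 := hcos x hx
      have h2 := Real.cos_le_one (η x)
      have h3 : 0 ≤ -2 * m * Real.cos (φ x) := by nlinarith
      exact mul_nonneg h3 (by linarith)
    · simp only [hS]; rw [hηout x (fun h => hx ⟨h.1.le, h.2.le⟩)]; simp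
  have hSp : 0 < ∫ x in a..b, S x := by
    have h1 : 0 < ∫ x in a..a', S x := by
      apply intervalIntegral.intervalIntegral_pos_of_pos_on (hSc.intervalIntegrable _ _) _ haa'
      intro x hx
      have h2 := hcos' x hx
      have hx' : x ∈ Icc a a' := ⟨hx.1.le, hx.2.le⟩
      have h3 : 0 < η x := by
        rw [hηin x hx']
        have : 0 < x - a := by linarith [hx.1]
        have : 0 < a' - x := by linarith [hx.2]
        positivity
      have h4 := cos_lt le_rfl h3 (by linarith [(hηb x hx').2, three_lt_pi])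
      rw [Real.cos_zero] at h4
      have h5 : 0 < -2 * m * Real.cos (φ x) := by nlinarith
      exact mul_pos h5 (by linarith)
    have h2 : 0 ≤ ∫ x in a'..b, S x := intervalIntegral.integral_nonneg ha'b (fun x _ => hS0 x)
    rw [← intervalIntegral.integral_add_adjacent_intervals (b := a') (hSc.intervalIntegrable _ _)
      (hSc.intervalIntegrable _ _)]
    linarith
  have hMp : Integrable (fun x => M x ^ p) volume := by
    refine integrable_of_bdd (a := a) (b := b) (B := B ^ p)
      (hMm.pow_const p) (fun x => ?_) (fun x hx => ?_)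
    · rw [abs_of_nonneg (Real.rpow_nonneg (hM0 x) _)]
      exact Real.rpow_le_rpow (hM0 x) (hMB x) (by linarith)
    · rw [hMout x hx, Real.zero_rpow (by linarith)]
  have key : ∀ σ : ℝ, (σ = 1 ∨ σ = -1) → (fun x => M x + σ * Y x) ∈ Pot p ∧
      eLpNorm (fun x => M x + σ * Y x) (ENNReal.ofReal p) volume < alphaStar α β m p ∧
      m * Real.cos 2 < lamD α β m (fun x => M x + σ * Y x) := by
    intro σ hσ
    have hσY : ∀ x, |σ * Y x| ≤ e * M x := fun x => by
      rcases hσ with rfl | rfl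
      · simpa using hYM x
      · simpa using hYM x
    have h0 : ∀ x, 0 ≤ M x + σ * Y x := fun x => by
      have := (abs_le.1 (hσY x)).1
      nlinarith [hM0 x]
    have h1 : ∀ x, (M x + σ * Y x) ^ p ≤ (1 + e) ^ p * M x ^ p := fun x => by
      rw [← Real.mul_rpow (by linarith) (hM0 x)]
      apply Real.rpow_le_rpow (h0 x) _ (by linarith)
      have := (abs_le.1 (hσY x)).2
      linarith
    have hmeas : Measurable fun x => M x + σ * Y x := hMm.add (hYm.const_mul σ)
    have hint : Integrable (fun x => (M x + σ * Y x) ^ p) volume :=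
      (hMp.const_mul ((1 + e) ^ p)).mono' (hmeas.pow_const p).aestronglyMeasurable
        (Eventually.of_forall fun x => by
          rw [Real.norm_eq_abs, abs_of_nonneg (Real.rpow_nonneg (h0 x) _)]; exact h1 x)
    have hpot := mem_pot hp hmeas h0 hint
    refine ⟨hpot, lt_alphaStar C hm hp hpot ?_, ?_⟩
    · have h2 : ∫ x, (M x + σ * Y x) ^ p ≤ (1 + e) ^ p * ∫ x, M x ^ p := by
        rw [← integral_const_mul]
        exact integral_mono hint (hMp.const_mul _) h1
      have h3 : 2 * cp p * ∫ x, (M x + σ * Y x) ^ p ≤ 2 * cp p * ((1 + e) ^ p * ∫ x, M x ^ p) := by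
        gcongr
      linarith
    · have hΘ : ACD (fun x => φ x + σ * η x) (fun x => 2 * (m * Real.cos 2 + (M x + σ * Y x)) -
          2 * m * Real.cos (φ x + σ * η x) + S x) :=
        (P.hφ.add (hηD.const_mul σ)).congr_deriv' (fun x => by
          simp only [hY, hS]
          rcases hσ with rfl | rfl
          · rw [one_mul (η x), Real.cos_add]; ring
          · rw [neg_one_mul (η x), ← sub_eq_add_neg, Real.cos_sub]; ring)
      obtain ⟨l', h2, h3, h4⟩ := gap C hm hp hab h0 (pot_facts hp hpot).1 hint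
        (fun x hx => by
          have := hσY x
          rw [hMout x hx, mul_zero, abs_nonpos_iff] at this
          rw [hMout x hx, this, add_zero]) hΘ hSc hS0 hSp
        (by rw [hηout a (fun h => lt_irrefl _ h.1), hφa]; ring)
        (by rw [hηout b (fun h => absurd h.2 (not_lt.2 ha'b)), hφb]; ring)
      refine h2.trans_le (le_csInf ⟨m, Or.inr rfl⟩ ?_)
      rintro l (hl | hl)
      · exact h4 l hl.1 hl.2
      · rw [mem_singleton_iff.1 hl]; exact h3
  obtain ⟨p1, n1, l1⟩ := key 1 (Or.inl rfl)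
  obtain ⟨p2, n2, l2⟩ := key (-1) (Or.inr rfl)
  refine ⟨_, p1, _, p2, n1, n2, 1 / 2, by norm_num, ?_⟩
  have e1 : ((1 / 2 : ℝ) • fun x => M x + 1 * Y x) + ((1 - 1 / 2 : ℝ) • fun x => M x + -1 * Y x) =
      M := by
    funext x
    simp only [Pi.add_apply, Pi.smul_apply, smul_eq_mul]
    ring
  have h5 : lamD α β m M ≤ m * Real.cos 2 := by
    apply csInf_le (lam_bdd α β hm M)
    refine Or.inl ⟨⟨?_, ?_⟩, pruefer_to_eig C P⟩
    · have := cos_lt (x := 2) (y := 3) (by norm_num) (by norm_num) three_lt_pi.le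
      nlinarith [cos3_gt]
    · have := cos_lt (x := 0) (y := 2) le_rfl (by norm_num) (by linarith [three_lt_pi])
      rw [Real.cos_zero] at this
      nlinarith
  rw [e1]
  linarith

end Pool.Agent.MP_0b7119_mp
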