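import Pool.Agent.MP_0b7119_mp.JobC3

/-! Job C: a configuration with negative cubic functional (far field of an anisotropic dipole). -/

open Set MeasureTheory Module Filter Topology
open scoped ENNReal RealInnerProductSpace

namespace Pool.Agent.MP_0b7119_mp.G.C

variable {E : Type} [NormedAddCommGroup E] [InnerProductSpace ℝ E] [FiniteDimensional ℝ E]
  [MeasurableSpace E] [BorelSpace E]

lemma pos_of_ball {f : E → ℝ} (hf : Integrable f volume) (h0 : ∀ x, 0 ≤ f x) {c : E} {r : ℝ}
    (hr : 0 < r) (hp : ∀ x ∈ Metric.ball c r, 0 < f x) : 0 < ∫ x, f x := by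
  rw [integral_pos_iff_support_of_nonneg h0 hf]
  exact (Metric.measure_ball_pos volume c hr).trans_le
    (measure_mono fun x hx => (hp x hx).ne')

/-- Directional second moments. -/
noncomputable def mu (v : E) (A C : E → ℝ) : ℝ := ∫ x, A x * ⟪v, x⟫ * ⟪v, Fld C x⟫

lemma integrable_mu (hd : 2 ≤ finrank ℝ E) (v : E) {A C : E → ℝ} (hA : Nb A) (hC : Nb C) :
    Integrable (fun x => A x * ⟪v, x⟫ * ⟪v, Fld C x⟫) volume := by
  obtain ⟨M, hM0, hM⟩ := hC.fld_bdd hd
  refine (hA.mul_inner v).integrable_mul (measurable_const.inner hC.fld_meas) (M := ‖v‖ * M)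
    fun x => ?_
  exact (abs_real_inner_le_norm _ _).trans (mul_le_mul_of_nonneg_left (hM x) (norm_nonneg _))

lemma mu_refl (v : E) (A C : E → ℝ) : mu v (fun x => A (-x)) (fun x => C (-x)) = mu v A C := by
  unfold mu
  rw [← integral_neg_eq_self (fun x => A x * ⟪v, x⟫ * ⟪v, Fld C x⟫)]
  congr 1; ext x
  rw [fld_refl, inner_neg_right, inner_neg_right]; ring

lemma mu_sub (hd : 2 ≤ finrank ℝ E) (v : E) {A : E → ℝ} (hA : Nb A) :
    mu v (fun x => A x - A (-x)) (fun x => A x - A (-x)) =
      2 * mu v A A - 2 * mu v A (fun x => A (-x)) := by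
  have r1 := mu_refl v A A
  have r2 := mu_refl v A (fun x => A (-x))
  simp only [neg_neg] at r2
  have i1 := integrable_mu hd v hA hA
  have i2 := integrable_mu hd v hA hA.refl
  have i3 := integrable_mu hd v hA.refl hA
  have i4 := integrable_mu hd v hA.refl hA.refl
  have i12 : Integrable (fun x => A x * ⟪v, x⟫ * ⟪v, Fld A x⟫ -
    A x * ⟪v, x⟫ * ⟪v, Fld (fun x => A (-x)) x⟫) volume := i1.sub i2
  have i34 : Integrable (fun x => A (-x) * ⟪v, x⟫ * ⟪v, Fld A x⟫ -
    A (-x) * ⟪v, x⟫ * ⟪v, Fld (fun x => A (-x)) x⟫) volume := i3.sub i4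
  have : mu v (fun x => A x - A (-x)) (fun x => A x - A (-x)) =
      (mu v A A - mu v A (fun x => A (-x))) -
        (mu v (fun x => A (-x)) A - mu v (fun x => A (-x)) (fun x => A (-x))) := by
    unfold mu
    rw [← integral_sub i1 i2, ← integral_sub i3 i4, ← integral_sub i12 i34]
    congr 1; ext x
    rw [fld_sub hd hA hA.refl, inner_sub_right]; ring
  rw [this, r1]
  have r3 : mu v (fun x => A (-x)) A = mu v A (fun x => A (-x)) := r2
  rw [r3]; ring

lemma mu_shift (hd : 2 ≤ finrank ℝ E) (v a : E) {A : E → ℝ} (hA : Nb A)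
    (he : ∀ x, A (-x) = A x) :
    mu v (fun x => A (x - a)) (fun x => A (x - a)) = mu v A A := by
  have hF : ∀ x, Fld (fun y => A (y - a)) (x + a) = Fld A x := fun x => by
    unfold Fld
    rw [← integral_add_right_eq_self _ a]
    congr 1; ext y
    simp only [add_sub_cancel_right, add_sub_add_right_eq_sub]
  obtain ⟨M, hM0, hM⟩ := hA.fld_bdd hd
  have i2 : Integrable (fun x => A x * ⟪v, Fld A x⟫) volume :=
    hA.integrable_mul (measurable_const.inner hA.fld_meas) (M := ‖v‖ * M) fun x =>
      (abs_real_inner_le_norm _ _).trans (mul_le_mul_of_nonneg_left (hM x) (norm_nonneg _))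
  have z : ∫ x, ⟪v, a⟫ * (A x * ⟪v, Fld A x⟫) = 0 :=
    integral_odd fun x => by rw [he, fld_odd he, inner_neg_right]; ring
  unfold mu
  rw [← integral_add_right_eq_self _ a, ← add_zero (∫ x, A x * ⟪v, x⟫ * ⟪v, Fld A x⟫), ← z,
    ← integral_add (integrable_mu hd v hA hA) (i2.const_mul _)]
  congr 1; ext x
  simp only [add_sub_cancel_right, hF, inner_add_right]; ring

/-- Indicator of a unit ball. -/
noncomputable def chi (a : E) : E → ℝ := (Metric.ball a 1).indicator fun _ => 1

omit [InnerProductSpace ℝ E] [FiniteDimensional ℝ E] in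
lemma nb_chi (a : E) : Nb (chi a) :=
  nb_indicator Metric.isOpen_ball.measurableSet (R := 1 + ‖a‖)
    (Metric.ball_subset_ball' (by simp))

omit [InnerProductSpace ℝ E] [FiniteDimensional ℝ E] [MeasurableSpace E] [BorelSpace E] in
lemma chi_eq (a : E) : chi a = fun x => chi 0 (x - a) := by
  ext x
  simp [chi, indicator, dist_eq_norm]

omit [InnerProductSpace ℝ E] [FiniteDimensional ℝ E] [MeasurableSpace E] [BorelSpace E] in
lemma chi_even (x : E) : chi 0 (-x) = chi 0 x := by
  simp [chi, indicator]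

lemma mu_cross (hd : 2 ≤ finrank ℝ E) {u w : E} (hu : ‖u‖ = 1) (hw : ‖w‖ = 1)
    (huw : ⟪w, u⟫ = 0) :
    mu w (chi ((3 : ℝ) • u)) (fun x => chi ((3 : ℝ) • u) (-x)) <
      mu u (chi ((3 : ℝ) • u)) (fun x => chi ((3 : ℝ) • u) (-x)) := by
  set a := (3 : ℝ) • u with ha
  have hn := nb_chi a
  have hco : ∀ x ∈ Metric.ball a 1, 2 < ⟪u, x⟫ ∧ |⟪w, x⟫| < 1 := fun x hx => by
    rw [mem_ball_iff_norm] at hx
    have h1 := abs_real_inner_le_norm u (x - a)
    have h2 := abs_real_inner_le_norm w (x - a)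
    rw [inner_sub_right, ha, inner_smul_right, real_inner_self_eq_norm_sq, hu] at h1
    rw [inner_sub_right, ha, inner_smul_right, huw, hw] at h2
    rw [← ha] at h1 h2
    have := neg_abs_le (⟪u, x⟫ - 3 * 1 ^ 2)
    constructor
    · linarith
    · simp only [mul_zero, sub_zero] at h2; linarith
  have hG : ∀ x ∈ Metric.ball a 1, 0 < ⟪u, x⟫ * ⟪u, Fld (fun x => chi a (-x)) x⟫ -
      ⟪w, x⟫ * ⟪w, Fld (fun x => chi a (-x)) x⟫ := fun x hx => by
    have e : ⟪u, x⟫ * ⟪u, Fld (fun x => chi a (-x)) x⟫ -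
        ⟪w, x⟫ * ⟪w, Fld (fun x => chi a (-x)) x⟫ =
        ⟪⟪u, x⟫ • u - ⟪w, x⟫ • w, Fld (fun x => chi a (-x)) x⟫ := by
      simp only [inner_sub_left, inner_smul_left, conj_trivial]
    have hi := hn.refl.integrable_fld hd x
    rw [e, Fld, ← integral_inner hi]
    have key : ∀ y, -y ∈ Metric.ball a 1 →
        0 < ⟪⟪u, x⟫ • u - ⟪w, x⟫ • w, chi a (-y) • kN (x - y)⟫ := fun y hy => by
      obtain ⟨x1, x2⟩ := hco x hx
      obtain ⟨y1, y2⟩ := hco _ hy
      rw [inner_neg_right] at y1 y2
      rw [abs_neg] at y2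
      have hne : x - y ≠ 0 := fun h => by
        rw [sub_eq_zero] at h; rw [h] at x1; linarith
      rw [chi, indicator_of_mem hy, one_smul, kN, inner_smul_right]
      refine mul_pos (inv_pos.2 (pow_pos (norm_pos_iff.2 hne) _)) ?_
      simp only [inner_sub_left, inner_smul_left, conj_trivial, inner_sub_right]
      obtain ⟨x3, x4⟩ := abs_lt.1 x2
      obtain ⟨y3, y4⟩ := abs_lt.1 y2
      nlinarith
    refine pos_of_ball (hi.const_inner _) (fun y => ?_) (c := -a) one_pos fun y hy => key y ?_
    · by_cases hy : -y ∈ Metric.ball a 1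
      · exact (key y hy).le
      · rw [chi, indicator_of_notMem hy]; simp
    · rw [mem_ball_iff_norm] at hy ⊢
      have : -y - a = -(y - -a) := by abel
      rwa [this, norm_neg]
  have i1 := integrable_mu hd u hn hn.refl
  have i2 := integrable_mu hd w hn hn.refl
  rw [← sub_pos, mu, mu, ← integral_sub i1 i2]
  refine pos_of_ball (i1.sub i2) (fun x => ?_) (c := a) one_pos fun x hx => ?_
  · by_cases hx : x ∈ Metric.ball a 1
    · have := hG x hx
      rw [show chi a x = 1 from indicator_of_mem hx _]; linarith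
    · rw [show chi a x = 0 from indicator_of_notMem hx _]; simp
  · have := hG x hx
    rw [show chi a x = 1 from indicator_of_mem hx _]; linarith

lemma qq_eq (hd : 2 ≤ finrank ℝ E) {W : E → ℝ} (hW : Nb W)
    (b : OrthonormalBasis (Fin (finrank ℝ E)) ℝ E) (v : E) :
    qq W v = ∑ j, mu (b j) W W - finrank ℝ E * mu v W W := by
  unfold qq mu
  rw [← integral_finset_sum _ fun j _ => integrable_mu hd (b j) hW hW, ← integral_const_mul,
    ← integral_sub (integrable_finset_sum _ fun j _ => integrable_mu hd (b j) hW hW)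
      ((integrable_mu hd v hW hW).const_mul _)]
  congr 1; ext x
  rw [DN_apply, inner_sub_left, inner_smul_left, ← b.sum_inner_mul_inner x (Fld W x), mul_sub,
    Finset.mul_sum]
  simp only [conj_trivial, real_inner_comm x]
  congr 1
  · exact Finset.sum_congr rfl fun j _ => by ring
  · ring

lemma exists_qq_neg (hd : 2 ≤ finrank ℝ E) : ∃ a v : E, ‖a‖ = 3 ∧ ‖v‖ = 1 ∧
    qq (fun x => chi a x - chi a (-x)) v < 0 := by
  set b := stdOrthonormalBasis ℝ E
  by_contra hcon
  push Not at hcon
  set i : Fin (finrank ℝ E) := ⟨0, by omega⟩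
  set j : Fin (finrank ℝ E) := ⟨1, by omega⟩
  have hij : i ≠ j := by simp [i, j, Fin.ext_iff]
  have key : ∀ a : E, ‖a‖ = 3 →
      mu (b i) (chi 0) (chi 0) - mu (b i) (chi a) (fun x => chi a (-x)) =
      mu (b j) (chi 0) (chi 0) - mu (b j) (chi a) (fun x => chi a (-x)) := fun a ha => by
    have hW : Nb (fun x => chi a x - chi a (-x)) := (nb_chi a).sub (nb_chi a).refl
    have hs : ∑ k, qq (fun x => chi a x - chi a (-x)) (b k) = 0 := by
      simp only [qq_eq hd hW b, Finset.sum_sub_distrib, Finset.sum_const, Finset.card_univ,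
        Fintype.card_fin, nsmul_eq_mul, ← Finset.mul_sum, sub_self]
    have hz := (Finset.sum_eq_zero_iff_of_nonneg
      fun k _ => hcon a (b k) ha (b.orthonormal.1 k)).1 hs
    have h1 := hz i (Finset.mem_univ _)
    have h2 := hz j (Finset.mem_univ _)
    rw [qq_eq hd hW b, mu_sub hd _ (nb_chi a)] at h1 h2
    have s1 := mu_shift hd (b i) a (nb_chi 0) chi_even
    have s2 := mu_shift hd (b j) a (nb_chi 0) chi_even
    rw [← chi_eq] at s1 s2
    rw [s1] at h1
    rw [s2] at h2
    have hp : (0 : ℝ) < finrank ℝ E := by exact_mod_cast (by omega : 0 < finrank ℝ E)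
    have := mul_left_cancel₀ hp.ne' ((sub_eq_zero.1 h1).symm.trans (sub_eq_zero.1 h2))
    linarith
  have n3 : ∀ k, ‖(3 : ℝ) • b k‖ = 3 := fun k => by
    rw [norm_smul, b.orthonormal.1 k]; norm_num
  have k1 := key _ (n3 i)
  have k2 := key _ (n3 j)
  have c1 := mu_cross hd (b.orthonormal.1 i) (b.orthonormal.1 j) (b.orthonormal.2 hij.symm)
  have c2 := mu_cross hd (b.orthonormal.1 j) (b.orthonormal.1 i) (b.orthonormal.2 hij)
  linarith

end Pool.Agent.MP_0b7119_mp.G.C

namespace Pool.Agent.MP_0b7119_mp.G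

open C

theorem stmtC : StmtC := by
  intro E _ _ _ _ _ hd
  obtain ⟨a, v, ha, hv, hq⟩ := exists_qq_neg hd
  set W : E → ℝ := fun x => chi a x - chi a (-x) with hWdef
  have hW : Nb W := (nb_chi a).sub (nb_chi a).refl
  have ho : ∀ x, W (-x) = -W x := fun x => by simp [hWdef]
  obtain ⟨r0, T, hr0, hfar⟩ := far_neg hd hW ho hv hq
  set t := max T 10 with ht
  have ht10 : 10 ≤ t := le_max_right _ _
  set r := min r0 (1 / 2) with hr
  have hr1 : 0 < r := lt_min hr0 (by norm_num)
  have hr2 : t * r ≤ t * r0 := mul_le_mul_of_nonneg_left (min_le_left _ _) (by linarith)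
  have hr3 : t * r ≤ t * (1 / 2) := mul_le_mul_of_nonneg_left (min_le_right _ _) (by linarith)
  set S : Set E := Metric.ball (t • v) (t * r) ∪ Metric.ball (-(t • v)) (t * r) with hS
  have hSm : MeasurableSet S :=
    Metric.isOpen_ball.measurableSet.union Metric.isOpen_ball.measurableSet
  have htv : ‖t • v‖ = t := by
    rw [norm_smul, hv, mul_one, Real.norm_eq_abs, abs_of_pos (by linarith)]
  have hmem : ∀ y, y ∈ S ↔ ‖y - t • v‖ < t * r ∨ ‖-y - t • v‖ < t * r := fun y => by
    have : -y - t • v = -(y - -(t • v)) := by abel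
    rw [hS, mem_union, mem_ball_iff_norm, mem_ball_iff_norm, this, norm_neg]
  have hnorm : ∀ y ∈ S, 5 ≤ ‖y‖ ∧ ‖y‖ < 2 * t := fun y hy => by
    rcases (hmem y).1 hy with h | h
    · have h1 := norm_sub_norm_le y (t • v)
      have h2 := norm_sub_norm_le (t • v) y
      rw [norm_sub_rev] at h2
      constructor <;> linarith
    · have h1 := norm_sub_norm_le (-y) (t • v)
      have h2 := norm_sub_norm_le (t • v) (-y)
      rw [norm_sub_rev] at h2
      rw [norm_neg] at h1 h2
      constructor <;> linarith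
  have hPhi : ∀ y ∈ S, Phi W y < 0 := fun y hy => by
    rcases (hmem y).1 hy with h | h
    · exact hfar t (le_max_left _ _) y (h.trans_le hr2)
    · have := hfar t (le_max_left _ _) (-y) (h.trans_le hr2)
      rwa [Phi, fld_even ho, tt_even ho] at this
  set B : E → ℝ := S.indicator fun _ => 1 with hBdef
  have hSb : S ⊆ Metric.ball 0 (2 * t) := fun y hy => by simpa using (hnorm y hy).2
  have hB : Nb B := nb_indicator hSm hSb
  have hBe : ∀ x, B (-x) = B x := fun x => by
    have : -x ∈ S ↔ x ∈ S := by rw [hmem, hmem, neg_neg, or_comm]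
    by_cases h : x ∈ S
    · rw [hBdef, indicator_of_mem h, indicator_of_mem (this.2 h)]
    · rw [hBdef, indicator_of_notMem h, indicator_of_notMem (fun h' => h (this.1 h'))]
  set J := Lam W B W + 1 / 2 * Lam B W W with hJ
  have hJ0 : J < 0 := by
    have i1 := integrable_tt hd hB hW hW
    have i2 := (integrable_lam hd hB hW hW).const_mul (1 / 2)
    have e : -J = ∫ y, (B y * TT W W y - 1 / 2 * (B y * inner ℝ (Fld W y) (Fld W y))) := by
      rw [integral_sub i1 i2, integral_tt hd hB hW hW, integral_const_mul, hJ, Lam, Lam]; ring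
    have : 0 < -J := by
      rw [e]
      refine pos_of_ball (i1.sub i2) (fun y => ?_) (c := t • v) (r := t * r) (by positivity)
        fun y hy => ?_
      · by_cases hy : y ∈ S
        · have := hPhi y hy
          rw [show B y = 1 from indicator_of_mem hy _]; unfold Phi at this; linarith
        · rw [show B y = 0 from indicator_of_notMem hy _]; simp
      · have hy' : y ∈ S := Or.inl hy
        have := hPhi y hy'
        rw [show B y = 1 from indicator_of_mem hy' _]; unfold Phi at this; linarith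
    linarith
  set K := 2 * Lam (chi a) (chi a) W with hK
  set s := min 1 (-J / (|K| + 1)) with hs
  have hs0 : 0 < s := lt_min one_pos (div_pos (by linarith) (by positivity))
  have hneg : s * J + s ^ 2 * K < 0 := by
    have h1 : s * (|K| + 1) ≤ -J := by
      rw [← le_div_iff₀ (by positivity)]; exact min_le_right _ _
    have h2 := le_abs_self K
    have h3 : J + s * K < 0 := by nlinarith
    nlinarith
  have hP : ∀ x ∈ Metric.ball a 1, ‖x‖ < 4 := fun x hx => by
    rw [mem_ball_iff_norm] at hx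
    linarith [norm_sub_norm_le x a]
  refine ⟨B, Metric.ball a 1, s, 2 * t, -(s * J + s ^ 2 * K), hB.meas, fun x => ?_, hBe,
    fun x hx => ?_, Metric.isOpen_ball.measurableSet, fun x hx => ?_, fun x hx => ⟨?_, fun h => ?_⟩,
    hs0, min_le_left _ _, by linarith, fun ε hε => ?_⟩
  · by_cases h : x ∈ S <;> simp [hBdef, h]
  · exact indicator_of_notMem (fun h => by linarith [(hnorm x h).2]) _
  · have := hP x hx
    simp only [Metric.mem_ball, dist_zero_right]; linarith
  · exact indicator_of_notMem (fun h => by linarith [(hnorm x h).1, hP x hx]) _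
  · rw [mem_ball_iff_norm] at hx h
    have e : (2 : ℝ) • a = -((x - a) + (-x - a)) := by rw [two_smul]; abel
    have h1 := norm_add_le (x - a) (-x - a)
    have h2 : ‖(2 : ℝ) • a‖ = 6 := by rw [norm_smul, ha]; norm_num
    rw [e, norm_neg] at h2
    linarith
  · have h1 := icub_scale (fun x => B x + s * chi a x) (P := Metric.ball a 1)
      Metric.isOpen_ball.measurableSet hε
    rw [icub_expand hd hB hBe (χ := chi a) Metric.isOpen_ball.measurableSet rfl (nb_chi a)
      hWdef s] at h1
    have e : (fun x => B (ε⁻¹ • x) + (Metric.ball a 1).indicator (fun _ => s) (ε⁻¹ • x)) =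
        fun y => B (ε⁻¹ • y) + s * chi a (ε⁻¹ • y) := by
      ext x
      by_cases h : ε⁻¹ • x ∈ Metric.ball a 1 <;> simp [chi, indicator, h]
    rw [e, h1, neg_neg, mul_comm]

end Pool.Agent.MP_0b7119_mp.G
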