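import Pool.Agent.MP_0b7119_mp.JobD2

/-! The Birman-Schwinger principle for a continuous family of integrable kernels. -/

open Set MeasureTheory Filter Topology

namespace Pool.Agent.MP_0b7119_mp.G

namespace JD

variable {E S : Type} [NormedAddCommGroup E] [InnerProductSpace ℝ E] [FiniteDimensional ℝ E]
  [MeasurableSpace E] [BorelSpace E] [NormedAddCommGroup S] [InnerProductSpace ℂ S]
  [CompleteSpace S] [FiniteDimensional ℂ S]

variable {w V : E → ℝ} {M : ℝ} {r r' : E → S →L[ℂ] S} {f g : E → S}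

theorem nice_wt (hV : Nice V) : ∃ M, Wt (fun x => √(V x)) M := by
  obtain ⟨C, hC⟩ := hV.bdd
  obtain ⟨R, hR⟩ := hV.supp
  refine ⟨√C, hV.meas.sqrt, fun _ => Real.sqrt_nonneg _, fun x => Real.sqrt_le_sqrt (hC x), ?_⟩
  rw [memLp_two_iff_integrable_sq hV.meas.sqrt.aestronglyMeasurable]
  have h1 : Integrable ((Metric.ball (0 : E) R).indicator fun _ => C) volume :=
    (integrable_indicator_iff measurableSet_ball).mpr
      (integrableOn_const measure_ball_lt_top.ne)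
  refine h1.mono' (hV.meas.sqrt.pow_const 2).aestronglyMeasurable
    (Eventually.of_forall fun x => ?_)
  rw [Real.sq_sqrt (hV.nonneg x), Real.norm_of_nonneg (hV.nonneg x)]
  by_cases hx : x ∈ Metric.ball (0 : E) R
  · rw [indicator_of_mem hx]
    exact hC x
  · rw [indicator_of_notMem hx, hR x (by simpa using hx)]

omit [CompleteSpace S] [FiniteDimensional ℂ S] in
theorem T_sqrt (hV : Nice V) (r : E → S →L[ℂ] S) (f : E → S) :
    T (fun x => √(V x)) r (fun x => ((√(V x) : ℝ) : ℂ) • f x) = Rop r V f := by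
  ext x
  unfold T Rop
  congr 1
  ext y
  rw [map_smul, smul_smul, ← Complex.ofReal_mul, Real.mul_self_sqrt (hV.nonneg y)]

omit [CompleteSpace S] [FiniteDimensional ℂ S] in
theorem I2_sqrt (hV : Nice V) (f : E → S) :
    I2 (fun x => ((√(V x) : ℝ) : ℂ) • f x) = Nf V f := by
  unfold I2 Nf
  congr 1
  ext x
  rw [norm_smul, mul_pow, Complex.norm_real, Real.norm_eq_abs, sq_abs, Real.sq_sqrt (hV.nonneg x)]

omit [FiniteDimensional ℂ S] in
theorem Q_sqrt (hV : Nice V) (hw : Wt (fun x => √(V x)) M) (hr : Kr r)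
    (hf : MemLp (fun x => ((√(V x) : ℝ) : ℂ) • f x) 2 volume) :
    Q (fun x => √(V x)) r (fun x => ((√(V x) : ℝ) : ℂ) • f x)
      (fun x => ((√(V x) : ℝ) : ℂ) • f x) = Qf r V f := by
  rw [Q_eq hw hr hf hf, T_sqrt hV]
  unfold Qf
  congr 1
  ext x
  rw [inner_smul_left, inner_smul_right, Complex.conj_ofReal, Complex.re_ofReal_mul,
    Complex.re_ofReal_mul, ← mul_assoc, Real.mul_self_sqrt (hV.nonneg x)]

omit [CompleteSpace S] [FiniteDimensional ℂ S] in
theorem memLp_test (hw : Wt w M) (hf : Test f) : MemLp (fun x => (w x : ℂ) • f x) 2 volume := by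
  obtain ⟨hm, C, hC⟩ := hf
  refine MemLp.of_le_mul (c := C) hw.l2
    ((Complex.measurable_ofReal.comp hw.meas).aestronglyMeasurable.smul hm.aestronglyMeasurable)
    (Eventually.of_forall fun x => ?_)
  rw [norm_smul, Complex.norm_real, mul_comm]
  exact mul_le_mul_of_nonneg_right (hC x) (norm_nonneg _)

omit [CompleteSpace S] [FiniteDimensional ℂ S] in
theorem T_congr (w : E → ℝ) (r : E → S →L[ℂ] S) (h : f =ᵐ[volume] g) : T w r f = T w r g := by
  ext x
  refine integral_congr_ae ?_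
  filter_upwards [h] with y hy
  rw [hy]

omit [CompleteSpace S] [FiniteDimensional ℂ S] in
theorem I2_pos (hw : Wt w M) (hr : Kr r) (hf : MemLp f 2 volume) (h : 0 < Q w r f f) :
    0 < I2 f := by
  refine (I2_nonneg f).lt_of_ne fun h0 => ?_
  have := Q_bound hw hr hf hf
  rw [← h0, add_zero, mul_zero, zero_mul, abs_le] at this
  linarith [this.2]

omit [CompleteSpace S] [FiniteDimensional ℂ S] in
theorem normalize (hf : MemLp f 2 volume) (h0 : 0 < I2 f) (h : I2 f ≤ Q w r f f) :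
    ∃ g : E → S, MemLp g 2 volume ∧ I2 g ≤ 1 ∧ 1 ≤ Q w r g g := by
  have e : (√(I2 f))⁻¹ ^ 2 * I2 f = 1 := by
    rw [inv_pow, Real.sq_sqrt h0.le, inv_mul_cancel₀ h0.ne']
  refine ⟨fun x => (((√(I2 f))⁻¹ : ℝ) : ℂ) • f x, hf.const_smul _, ?_, ?_⟩
  · rw [I2_smul, e]
  · rw [Q_smul, ← e]
    exact mul_le_mul_of_nonneg_left h (sq_nonneg _)

omit [FiniteDimensional ℂ S] in
theorem of_sol (hV : Nice V) (hw : Wt (fun x => √(V x)) M) (hr : Kr r) {ψ : E → S}
    (hψ : Sol r V ψ) :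
    ∃ g : E → S, MemLp g 2 volume ∧ I2 g ≤ 1 ∧ 1 ≤ Q (fun x => √(V x)) r g g := by
  obtain ⟨h1, h2, h3⟩ := hψ
  have hf := memLp_w hw h1
  refine normalize hf ((I2_nonneg _).lt_of_ne fun h0 => h2 ?_) (le_of_eq ?_)
  · refine h3.trans (Eventually.of_forall fun x => ?_)
    rw [← T_sqrt hV, T_congr _ _ (I2_eq_zero hf h0.symm)]
    simp [T]
  · rw [Q_eq hw hr hf hf, T_sqrt hV]
    refine integral_congr_ae ?_
    filter_upwards [h3] with x hx
    rw [← hx]
    exact (inner_self_eq_norm_sq (𝕜 := ℂ) _).symm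

omit [CompleteSpace S] [FiniteDimensional ℂ S] in
theorem I2_add (hf : MemLp f 2 volume) (hg : MemLp g 2 volume) (t : ℝ) :
    I2 (fun x => f x + (t : ℂ) • g x) =
      I2 f + 2 * t * (∫ x, (inner ℂ (g x) (f x)).re) + t ^ 2 * I2 g := by
  have h1 : Integrable (fun x => (inner ℂ (g x) (f x)).re) volume := (int_inner hg hf).re
  have h2 : Integrable (fun x => ‖f x‖ ^ 2 + 2 * t * (inner ℂ (g x) (f x)).re) volume :=
    (int_sq hf).add (h1.const_mul _)
  unfold I2
  rw [← integral_const_mul, ← integral_const_mul, ← integral_add (int_sq hf) (h1.const_mul _),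
    ← integral_add h2 ((int_sq hg).const_mul _)]
  congr 1
  ext x
  beta_reduce
  rw [add_comm (f x), norm_add_sq (𝕜 := ℂ), norm_smul, inner_smul_left, Complex.conj_ofReal,
    mul_pow, Complex.norm_real, Real.norm_eq_abs, sq_abs]
  simp only [RCLike.re_to_complex, Complex.re_ofReal_mul]
  ring

omit [FiniteDimensional ℂ S] in
theorem variation (hw : Wt w M) (hr : Kr r) (hs : ∀ z, r (-z) = star (r z))
    (hall : ∀ g : E → S, MemLp g 2 volume → Q w r g g ≤ I2 g) (hf : MemLp f 2 volume)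
    (h : I2 f ≤ Q w r f f) : f =ᵐ[volume] fun x => (w x : ℂ) • T w r f x := by
  have hG := memLp_w hw (memLp_T hw hr hf)
  set g : E → S := fun x => f x - (w x : ℂ) • T w r f x with hgdef
  have hg : MemLp g 2 volume := hf.sub hG
  have e : (∫ x, (inner ℂ (g x) (f x)).re) - Q w r g f = I2 g := by
    have i1 : Integrable (fun x => (inner ℂ (g x) (f x)).re) volume := (int_inner hg hf).re
    have i2 : Integrable (fun x => (inner ℂ (g x) ((w x : ℂ) • T w r f x)).re) volume :=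
      (int_inner hg hG).re
    rw [Q_eq hw hr hg hf, ← integral_sub i1 i2]
    unfold I2
    congr 1
    ext x
    rw [← Complex.sub_re, ← inner_sub_right]
    exact inner_self_eq_norm_sq (𝕜 := ℂ) _
  have key : ∀ t : ℝ, 0 ≤ 2 * t * I2 g + t ^ 2 * (I2 g - Q w r g g) := by
    intro t
    have hft : MemLp (fun x => f x + (t : ℂ) • g x) 2 volume := hf.add (hg.const_smul _)
    have h1 := hall _ hft
    rw [I2_add hf hg, Q_add_left hw hr hf hg hft, Q_add_right hw hr hf hf hg,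
      Q_add_right hw hr hg hf hg, Q_symm hs f g] at h1
    rw [← e] at *
    nlinarith
  have hc : 0 ≤ I2 g - Q w r g g := sub_nonneg.mpr (hall g hg)
  have h0 : I2 g = 0 := by
    by_contra hne
    have hp : 0 < I2 g := (I2_nonneg g).lt_of_ne (Ne.symm hne)
    set c := I2 g - Q w r g g
    have h2 := key (-(I2 g / (c + 1)))
    have h3 : 2 * -(I2 g / (c + 1)) * I2 g + (-(I2 g / (c + 1))) ^ 2 * c =
        -(I2 g ^ 2 * (c + 2) / (c + 1) ^ 2) := by
      field_simp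
      ring
    have h4 : 0 < I2 g ^ 2 * (c + 2) / (c + 1) ^ 2 := by positivity
    linarith
  filter_upwards [I2_eq_zero hg h0] with x hx
  exact sub_eq_zero.mp hx

omit [CompleteSpace S] [FiniteDimensional ℂ S] in
theorem to_sol (hV : Nice V) (hw : Wt (fun x => √(V x)) M) (hr : Kr r) (hf : MemLp f 2 volume)
    (h0 : 0 < I2 f)
    (h : f =ᵐ[volume] fun x => ((√(V x) : ℝ) : ℂ) • T (fun x => √(V x)) r f x) :
    Sol r V (T (fun x => √(V x)) r f) := by
  refine ⟨memLp_T hw hr hf, fun h1 => h0.ne' ?_, Eventually.of_forall fun x => ?_⟩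
  · have : f =ᵐ[volume] fun _ => 0 := by
      filter_upwards [h, h1] with x hx hx1
      rw [hx, hx1]
      simp
    rw [I2_congr this]
    simp [I2]
  · rw [← T_sqrt hV, ← T_congr _ _ h]

end JD

open JD in
theorem stmtD : StmtD := by
  intro E S _ _ _ _ _ _ _ _ _ r a b hab hr hc V hV ⟨θ, hθ1, hθ⟩ ⟨f₁, hf₁, hlt⟩
  obtain ⟨M, hw⟩ := nice_wt hV
  set w : E → ℝ := fun x => √(V x) with hwdef
  have hk : ∀ l ∈ Icc a b, Kr (r l) := fun l hl => ⟨(hr l hl).1, (hr l hl).2.1⟩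
  have hcont : ∀ l ∈ Icc a b, ∀ η > 0, ∃ δ > 0, ∀ l' ∈ Icc a b, |l' - l| < δ →
      ∀ g : E → S, MemLp g 2 volume → |Q w (r l') g g - Q w (r l) g g| ≤ η * I2 g := by
    intro l hl η hη
    obtain ⟨δ, hδ, h⟩ := hc l hl (η / (M ^ 2 + 1)) (by positivity)
    refine ⟨δ, hδ, fun l' hl' hd g hg => (Q_sub_ker hw (hk l' hl') (hk l hl) hg hg).trans ?_⟩
    have h1 : M ^ 2 / 2 * (I2 g + I2 g) ≤ (M ^ 2 + 1) * I2 g := by nlinarith [I2_nonneg g]
    calc _ ≤ (M ^ 2 + 1) * I2 g * (η / (M ^ 2 + 1)) :=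
          mul_le_mul h1 (h l' hl' hd).le (integral_nonneg fun _ => norm_nonneg _)
            (mul_nonneg (by positivity) (I2_nonneg g))
      _ = η * I2 g := by field_simp
  have hb : b ∈ Icc a b := ⟨hab, le_rfl⟩
  have ha : a ∈ Icc a b := ⟨le_rfl, hab⟩
  have hg₁ := memLp_test hw hf₁
  have hlt' : I2 (fun x => (w x : ℂ) • f₁ x) <
      Q w (r b) (fun x => (w x : ℂ) • f₁ x) (fun x => (w x : ℂ) • f₁ x) := by
    rw [I2_sqrt hV, Q_sqrt hV hw (hk b hb) hg₁]
    exact hlt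
  set L : Set ℝ := {l | l ∈ Icc a b ∧
    ∃ g : E → S, MemLp g 2 volume ∧ I2 g ≤ 1 ∧ 1 ≤ Q w (r l) g g} with hL
  have hmem : ∀ l ∈ Icc a b, ∀ g : E → S, MemLp g 2 volume → I2 g < Q w (r l) g g → l ∈ L :=
    fun l hl g hg h => ⟨hl, normalize hg
      (I2_pos hw (hk l hl) hg ((I2_nonneg g).trans_lt h)) h.le⟩
  have hbL : b ∈ L := hmem b hb _ hg₁ hlt'
  have hbdd : BddBelow L := ⟨a, fun l hl => hl.1.1⟩
  set l₀ := sInf L with hl₀
  have hl₀m : l₀ ∈ Icc a b := ⟨le_csInf ⟨b, hbL⟩ fun l hl => hl.1.1, csInf_le hbdd hbL⟩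
  obtain ⟨u, -, hu, huL⟩ := exists_seq_tendsto_sInf ⟨b, hbL⟩ hbdd
  choose f hf hf1 hfQ using fun n => (huL n).2
  obtain ⟨φ, hφ, F, hF, hF1, hlim⟩ := weak_subseq f hf hf1
  have hQ := Q_tendsto hw (hk l₀ hl₀m) (fun n => hf (φ n)) (fun n => hf1 (φ n)) hF hF1 hlim
  have hFQ : 1 ≤ Q w (r l₀) F F := by
    refine le_of_forall_pos_le_add fun η hη => ?_
    obtain ⟨δ, hδ, h⟩ := hcont l₀ hl₀m η hη
    have h1 : 1 - η ≤ Q w (r l₀) F F := by
      refine ge_of_tendsto hQ ?_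
      filter_upwards [(hu.comp hφ.tendsto_atTop).eventually (Metric.ball_mem_nhds l₀ hδ)]
        with n hn
      have h2 := h (u (φ n)) (huL _).1 hn _ (hf (φ n))
      have h3 : η * I2 (f (φ n)) ≤ η := by nlinarith [hf1 (φ n)]
      linarith [hfQ (φ n), (abs_le.mp h2).2]
    linarith
  have hF0 : 0 < I2 F := I2_pos hw (hk l₀ hl₀m) hF (by linarith)
  have hal : a < l₀ := by
    refine hl₀m.1.lt_of_ne fun h => ?_
    have := Q_schur hw (hk a ha) (hr a ha).2.2 (θ := θ)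
      (fun x => by simpa only [hwdef, Real.sq_sqrt (hV.nonneg _)] using hθ x) hF
    rw [← h] at hFQ
    nlinarith
  have hall : ∀ g : E → S, MemLp g 2 volume → Q w (r l₀) g g ≤ I2 g := by
    intro g hg
    by_contra hn
    rw [not_le] at hn
    have hg0 : 0 < I2 g := I2_pos hw (hk l₀ hl₀m) hg ((I2_nonneg g).trans_lt hn)
    obtain ⟨δ, hδ, h⟩ := hcont l₀ hl₀m ((Q w (r l₀) g g - I2 g) / (2 * I2 g))
      (div_pos (sub_pos.mpr hn) (by positivity))
    have h1 : max a (l₀ - δ / 2) < l₀ := max_lt hal (by linarith)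
    have h2 : max a (l₀ - δ / 2) ∈ Icc a b := ⟨le_max_left _ _, h1.le.trans hl₀m.2⟩
    have h3 := h _ h2 (by
      rw [abs_lt]
      constructor <;> linarith [le_max_right a (l₀ - δ / 2)]) g hg
    have h4 : (Q w (r l₀) g g - I2 g) / (2 * I2 g) * I2 g = (Q w (r l₀) g g - I2 g) / 2 := by
      field_simp
    rw [h4] at h3
    exact absurd (csInf_le hbdd (hmem _ h2 g hg (by linarith [(abs_le.mp h3).1]))) (not_le.mpr h1)
  refine ⟨l₀, ⟨hal.le, hl₀m.2.lt_of_ne fun h => ?_⟩, ⟨_, to_sol hV hw (hk l₀ hl₀m) hF hF0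
    (variation hw (hk l₀ hl₀m) (hr l₀ hl₀m).2.2 hall hF (hF1.trans hFQ))⟩, fun g hg => ?_, ?_⟩
  · have := hall _ hg₁
    rw [h] at this
    linarith
  · have hg' := memLp_test hw hg
    rw [← I2_sqrt hV, ← Q_sqrt hV hw (hk l₀ hl₀m) hg']
    exact hall _ hg'
  · rintro l' hl' ⟨ψ, hψ⟩
    have h2 : l' ∈ Icc a b := ⟨hl'.1, hl'.2.le.trans hl₀m.2⟩
    exact absurd (csInf_le hbdd (⟨h2, of_sol hV hw (hk l' h2) hψ⟩ : l' ∈ L)) (not_le.mpr hl'.2)

end Pool.Agent.MP_0b7119_mp.G
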