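import Pool.Agent.MP_0b7119_mp.Iface

/-! Job K, part 1: the Dirac operator on Schwartz functions and its symbol. -/

open Set MeasureTheory FourierTransform LineDeriv
open scoped ENNReal SchwartzMap Convolution Real ContDiff

namespace Pool.Agent.MP_0b7119_mp.G.JK

variable {E S : Type} [NormedAddCommGroup E] [InnerProductSpace ℝ E] [FiniteDimensional ℝ E]
  [MeasurableSpace E] [BorelSpace E] [NormedAddCommGroup S] [InnerProductSpace ℂ S]
  [CompleteSpace S] {d : ℕ}

/-- The operator `D_m + c` on Schwartz functions. -/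
noncomputable def Dop (e : Fin d → E) (α : Fin d → S →L[ℂ] S) (β : S →L[ℂ] S) (m : ℝ) (c : ℂ)
    (φ : 𝓢(E, S)) : 𝓢(E, S) :=
  ∑ j, SchwartzMap.postcompCLM (α j) ((-Complex.I) • ∂_{e j} φ) +
    (m : ℂ) • SchwartzMap.postcompCLM β φ + c • φ

/-- The symbol of `D_m + c`. -/
noncomputable def sym (e : Fin d → E) (α : Fin d → S →L[ℂ] S) (β : S →L[ℂ] S) (m : ℝ) (c : ℂ)
    (ξ : E) : S →L[ℂ] S :=
  ((2 * π : ℝ) : ℂ) • cl e α ξ + (m : ℂ) • β + c • (1 : S →L[ℂ] S)

omit [FiniteDimensional ℝ E] [MeasurableSpace E] [BorelSpace E] [CompleteSpace S] in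
theorem Dop_apply (e : Fin d → E) (α : Fin d → S →L[ℂ] S) (β : S →L[ℂ] S) (m : ℝ) (c : ℂ)
    (φ : 𝓢(E, S)) (x : E) : Dop e α β m c φ x = dirac e α β m φ x + c • φ x := by
  simp [Dop, dirac, SchwartzMap.lineDerivOp_apply_eq_fderiv]

theorem fourier_postcomp (L : S →L[ℂ] S) (φ : 𝓢(E, S)) (ξ : E) :
    𝓕 (SchwartzMap.postcompCLM L φ) ξ = L (𝓕 φ ξ) := by
  rw [SchwartzMap.fourier_coe, SchwartzMap.fourier_coe, Real.fourier_eq, Real.fourier_eq,
    ← L.integral_comp_comm ((Real.fourierIntegral_convergent_iff ξ).2 φ.integrable)]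
  simp [Circle.smul_def]

theorem fourier_Dop (e : Fin d → E) (α : Fin d → S →L[ℂ] S) (β : S →L[ℂ] S) (m : ℝ) (c : ℂ)
    (φ : 𝓢(E, S)) (ξ : E) : 𝓕 (Dop e α β m c φ) ξ = sym e α β m c ξ (𝓕 φ ξ) := by
  have h1 : ∀ j, 𝓕 (SchwartzMap.postcompCLM (α j) ((-Complex.I) • ∂_{e j} φ)) ξ =
      ((2 * π : ℝ) : ℂ) • ((inner ℝ (e j) ξ : ℝ) : ℂ) • α j (𝓕 φ ξ) := by
    intro j
    have : (inner ℝ · (e j)).HasTemperateGrowth := by fun_prop
    rw [fourier_postcomp, FourierTransform.fourier_smul, SchwartzMap.fourier_lineDerivOp_eq]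
    simp only [SchwartzMap.smul_apply, SchwartzMap.smulLeftCLM_apply_apply this, map_smul,
      smul_smul]
    rw [ContinuousLinearMap.map_smul_of_tower, real_inner_comm, ← Complex.coe_smul, smul_smul]
    congr 1
    push_cast
    linear_combination (-2 * π * (inner ℝ (e j) ξ : ℝ) : ℂ) * Complex.I_mul_I
  unfold Dop sym cl
  rw [FourierTransform.fourier_add, FourierTransform.fourier_add, FourierTransform.fourier_sum,
    FourierTransform.fourier_smul, FourierTransform.fourier_smul]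
  simp only [SchwartzMap.add_apply, SchwartzMap.smul_apply, SchwartzMap.sum_apply, h1,
    fourier_postcomp]
  simp [Finset.smul_sum]

omit [FiniteDimensional ℝ E] [MeasurableSpace E] [BorelSpace E] in
theorem cl_mul_self (e : OrthonormalBasis (Fin d) ℝ E) {α : Fin d → S →L[ℂ] S} {β : S →L[ℂ] S}
    (h : IsDiracRep α β) (v : E) :
    cl e α v * cl e α v = ((‖v‖ ^ 2 : ℝ) : ℂ) • (1 : S →L[ℂ] S) := by
  have h2 : (2 : ℂ) • (cl e α v * cl e α v) = (2 : ℂ) • ((‖v‖ ^ 2 : ℝ) : ℂ) • (1 : S →L[ℂ] S) := by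
    have e1 : cl e α v * cl e α v = ∑ j, ∑ k, (((inner ℝ (e j) v : ℝ) : ℂ) *
        ((inner ℝ (e k) v : ℝ) : ℂ)) • (α j * α k) := by
      simp only [cl, Finset.sum_mul, Finset.mul_sum, smul_mul_smul_comm]
      exact Finset.sum_comm
    have e2 : cl e α v * cl e α v = ∑ j, ∑ k, (((inner ℝ (e j) v : ℝ) : ℂ) *
        ((inner ℝ (e k) v : ℝ) : ℂ)) • (α k * α j) := by
      rw [e1, Finset.sum_comm]
      simp only [mul_comm]
    rw [two_smul]
    nth_rewrite 1 [e1]
    rw [e2, ← Finset.sum_add_distrib]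
    simp only [← Finset.sum_add_distrib, ← smul_add, h.αα]
    simp only [smul_ite, smul_zero, Finset.sum_ite_eq, Finset.mem_univ, if_true]
    rw [← Finset.sum_smul, ← e.sum_sq_inner_right v, smul_comm]
    push_cast
    simp only [sq]
    congr 1
    rw [two_smul, one_add_one_eq_two]
  exact smul_right_injective _ (two_ne_zero) h2

omit [FiniteDimensional ℝ E] [MeasurableSpace E] [BorelSpace E] in
theorem cl_anti (e : Fin d → E) {α : Fin d → S →L[ℂ] S} {β : S →L[ℂ] S}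
    (h : IsDiracRep α β) (v : E) : cl e α v * β + β * cl e α v = 0 := by
  simp only [cl, Finset.sum_mul, Finset.mul_sum, smul_mul_assoc, mul_smul_comm,
    ← Finset.sum_add_distrib, ← smul_add, h.αβ, smul_zero, Finset.sum_const_zero]

omit [FiniteDimensional ℝ E] [MeasurableSpace E] [BorelSpace E] in
theorem sym_mul (e : OrthonormalBasis (Fin d) ℝ E) {α : Fin d → S →L[ℂ] S} {β : S →L[ℂ] S}
    (h : IsDiracRep α β) (m : ℝ) (c : ℂ) (ξ : E) :
    sym e α β m c ξ * sym e α β m (-c) ξ =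
      (((4 * π ^ 2 * ‖ξ‖ ^ 2 + m ^ 2 : ℝ) : ℂ) - c ^ 2) • (1 : S →L[ℂ] S) := by
  have h1 := cl_mul_self e h ξ
  have h2 : β * cl e α ξ = -(cl e α ξ * β) := eq_neg_of_add_eq_zero_right (cl_anti e h ξ)
  have h3 := h.ββ
  simp only [sym, add_mul, mul_add, smul_mul_assoc, mul_smul_comm, h1, h2, h3, mul_one, one_mul]
  push_cast
  module

theorem fourier_inj {φ ψ : 𝓢(E, S)} (h : ∀ ξ, 𝓕 φ ξ = 𝓕 ψ ξ) : φ = ψ := by
  have : 𝓕 φ = 𝓕 ψ := by ext ξ; exact h ξ
  rw [← FourierTransform.fourierInv_fourier_eq (F := 𝓢(E, S)) φ, this,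
    FourierTransform.fourierInv_fourier_eq]

omit [FiniteDimensional ℝ E] [MeasurableSpace E] [BorelSpace E] in
theorem temperate_inv {b : ℝ} (hb : 0 < b) :
    (fun ξ : E => (4 * π ^ 2 * ‖ξ‖ ^ 2 + b)⁻¹).HasTemperateGrowth := by
  have h1 := (Function.hasTemperateGrowth_one_add_norm_sq_rpow E (-1)).comp
    (((2 * π / √b) • ContinuousLinearMap.id ℝ E).hasTemperateGrowth)
  have h2 := (Function.HasTemperateGrowth.const (E := E) b⁻¹).mul h1
  refine (congrArg Function.HasTemperateGrowth (funext fun ξ => ?_)).mp h2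
  have hs : √b ^ 2 = b := Real.sq_sqrt hb.le
  have hs' : 0 < √b := Real.sqrt_pos.2 hb
  simp only [Pi.mul_apply, Function.comp_apply, ContinuousLinearMap.smul_apply,
    ContinuousLinearMap.id_apply, norm_smul, mul_pow, Real.norm_eq_abs, sq_abs, div_pow, hs,
    Real.rpow_neg_one]
  field_simp
  ring

theorem Dop_surj (e : OrthonormalBasis (Fin d) ℝ E) {α : Fin d → S →L[ℂ] S} {β : S →L[ℂ] S}
    (h : IsDiracRep α β) {m l : ℝ} (hb : 0 < m ^ 2 - l ^ 2) (g : 𝓢(E, S)) :
    ∃ φ : 𝓢(E, S), Dop e α β m (-(l : ℂ)) φ = g := by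
  have ht := temperate_inv (E := E) hb
  refine ⟨Dop e α β m (l : ℂ) (SchwartzMap.fourierMultiplierCLM S
    (fun ξ : E => (4 * π ^ 2 * ‖ξ‖ ^ 2 + (m ^ 2 - l ^ 2))⁻¹) g), fourier_inj fun ξ => ?_⟩
  have h1 := sym_mul e h m (-(l : ℂ)) ξ
  rw [neg_neg] at h1
  rw [fourier_Dop, fourier_Dop, ← ContinuousLinearMap.mul_apply, h1,
    SchwartzMap.fourierMultiplierCLM_apply, FourierTransform.fourier_fourierInv_eq,
    SchwartzMap.smulLeftCLM_apply_apply ht]
  have hne : (4 * π ^ 2 * ‖ξ‖ ^ 2 + (m ^ 2 - l ^ 2) : ℝ) ≠ 0 := by positivity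
  simp only [ContinuousLinearMap.smul_apply, ContinuousLinearMap.one_apply]
  rw [← Complex.coe_smul, smul_smul]
  have : (((4 * π ^ 2 * ‖ξ‖ ^ 2 + m ^ 2 : ℝ) : ℂ) - (-(l : ℂ)) ^ 2) =
      ((4 * π ^ 2 * ‖ξ‖ ^ 2 + (m ^ 2 - l ^ 2) : ℝ) : ℂ) := by push_cast; ring
  rw [this, ← Complex.ofReal_mul, mul_inv_cancel₀ hne]
  simp

/-- Convolution of an operator kernel with a function. -/
noncomputable def cv (r : E → S →L[ℂ] S) (u : E → S) (x : E) : S := ∫ y, r (x - y) (u y)

theorem cv_eq (r : E → S →L[ℂ] S) (u : E → S) :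
    cv r u = r ⋆[ContinuousLinearMap.id ℂ (S →L[ℂ] S)] u := by
  ext x
  rw [convolution_eq_swap]
  rfl

theorem cv_Dop (e : OrthonormalBasis (Fin d) ℝ E) {α : Fin d → S →L[ℂ] S} {β : S →L[ℂ] S}
    (h : IsDiracRep α β) {m l : ℝ} (hb : 0 < m ^ 2 - l ^ 2) {r : E → S →L[ℂ] S}
    (hr : Integrable r)
    (hF : ∀ ξ, 𝓕 r ξ = (((4 * π ^ 2 * ‖ξ‖ ^ 2 + (m ^ 2 - l ^ 2))⁻¹ : ℝ) : ℂ) • sym e α β m l ξ)
    (φ : 𝓢(E, S)) : cv r (Dop e α β m (-(l : ℂ)) φ) = φ := by
  set g := Dop e α β m (-(l : ℂ)) φ with hg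
  have hF' : 𝓕 (cv r g) = 𝓕 (φ : E → S) := by
    ext ξ
    have hne : (4 * π ^ 2 * ‖ξ‖ ^ 2 + (m ^ 2 - l ^ 2) : ℝ) ≠ 0 := by positivity
    rw [cv_eq, Real.fourier_bilin_convolution_eq _ hr g.integrable, ← SchwartzMap.fourier_coe g,
      hg, fourier_Dop, hF, ← SchwartzMap.fourier_coe φ]
    simp only [ContinuousLinearMap.id_apply, ContinuousLinearMap.smul_apply]
    rw [← ContinuousLinearMap.mul_apply, sym_mul e h]
    simp only [ContinuousLinearMap.smul_apply, ContinuousLinearMap.one_apply, smul_smul]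
    have : (((4 * π ^ 2 * ‖ξ‖ ^ 2 + m ^ 2 : ℝ) : ℂ) - ((l : ℂ)) ^ 2) =
      ((4 * π ^ 2 * ‖ξ‖ ^ 2 + (m ^ 2 - l ^ 2) : ℝ) : ℂ) := by push_cast; ring
    rw [this, ← Complex.ofReal_mul, inv_mul_cancel₀ hne]
    simp
  have hc : Continuous (cv r g) := by
    rw [cv_eq]
    refine BddAbove.continuous_convolution_right_of_integrable _ ?_ hr g.continuous
    exact ⟨_, by rintro _ ⟨x, rfl⟩; exact g.norm_le_seminorm ℝ x⟩
  have hi : Integrable (cv r g) := by
    rw [cv_eq]; exact hr.integrable_convolution _ g.integrable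
  have hφ : Integrable (𝓕 (φ : E → S)) := (𝓕 φ).integrable
  rw [← hc.fourierInv_fourier_eq hi (hF' ▸ hφ), hF', φ.continuous.fourierInv_fourier_eq
    φ.integrable hφ]

theorem inner_cv {r : E → S →L[ℂ] S} (hr : Integrable r) (hs : ∀ z, r (-z) = star (r z))
    (g : 𝓢(E, S)) {u : E → S} (hu : Integrable u) :
    ∫ x, inner ℂ (g x) (cv r u x) = ∫ y, inner ℂ (cv r g y) (u y) := by
  have h0 : Integrable (fun p : E × E => r (p.1 - p.2) (u p.2)) (volume.prod volume) :=
    hu.convolution_integrand (ContinuousLinearMap.id ℂ (S →L[ℂ] S)).flip hr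
  have h1 : Integrable (fun p : E × E => inner ℂ (g p.1) (r (p.1 - p.2) (u p.2)))
      (volume.prod volume) := by
    refine (h0.norm.const_mul (SchwartzMap.seminorm ℝ 0 0 g)).mono' ?_ ?_
    · exact (g.continuous.comp continuous_fst).aestronglyMeasurable.inner h0.1
    · filter_upwards with p
      exact (norm_inner_le_norm _ _).trans
        (mul_le_mul_of_nonneg_right (g.norm_le_seminorm ℝ _) (norm_nonneg _))
  calc ∫ x, inner ℂ (g x) (cv r u x) = ∫ x, ∫ y, inner ℂ (g x) (r (x - y) (u y)) := by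
        refine integral_congr_ae ?_
        filter_upwards [h0.prod_right_ae] with x hx
        exact (integral_inner hx (g x)).symm
    _ = ∫ y, ∫ x, inner ℂ (g x) (r (x - y) (u y)) := integral_integral_swap h1
    _ = ∫ y, inner ℂ (cv r g y) (u y) := by
        congr 1 with y
        have h2 : Integrable (fun x => r (y - x) (g x)) := by
          refine ((hr.comp_sub_left y).norm.mul_const (SchwartzMap.seminorm ℝ 0 0 g)).mono' ?_ ?_
          · exact (ContinuousLinearMap.id ℂ (S →L[ℂ] S)).aestronglyMeasurable_comp₂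
              (hr.comp_sub_left y).1 g.continuous.aestronglyMeasurable
          · filter_upwards with x
            exact ((r (y - x)).le_opNorm _).trans
              (mul_le_mul_of_nonneg_left (g.norm_le_seminorm ℝ _) (norm_nonneg _))
        rw [← inner_conj_symm, cv, ← integral_inner h2, ← integral_conj]
        congr 1 with x
        rw [inner_conj_symm, ← neg_sub y x, hs, ContinuousLinearMap.star_eq_adjoint,
          ContinuousLinearMap.adjoint_inner_right]

theorem iff_of_kernel (e : OrthonormalBasis (Fin d) ℝ E) {α : Fin d → S →L[ℂ] S}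
    {β : S →L[ℂ] S} (h : IsDiracRep α β) {m l : ℝ} (hb : 0 < m ^ 2 - l ^ 2)
    {r : E → S →L[ℂ] S} (hr : Integrable r) (hs : ∀ z, r (-z) = star (r z))
    (hF : ∀ ξ, 𝓕 r ξ = (((4 * π ^ 2 * ‖ξ‖ ^ 2 + (m ^ 2 - l ^ 2))⁻¹ : ℝ) : ℂ) • sym e α β m l ξ)
    {V : E → ℝ} (hV : Nice V) : IsEig e α β m V l ↔ ∃ ψ, Sol r V ψ := by
  obtain ⟨C, hC⟩ := hV.bdd
  obtain ⟨R, hR⟩ := hV.supp
  have hV2 : MemLp (fun x => (V x : ℂ)) 2 volume := by
    refine MemLp.of_le (memLp_indicator_const 2 (measurableSet_ball (x := (0 : E)) (ε := R)) C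
      (Or.inr measure_ball_lt_top.ne))
      (Complex.measurable_ofReal.comp hV.meas).aestronglyMeasurable ?_
    filter_upwards with x
    by_cases hx : x ∈ Metric.ball (0 : E) R
    · simp only [indicator_of_mem hx, Complex.norm_real, Real.norm_eq_abs]
      rw [abs_of_nonneg (hV.nonneg x)]
      exact (hC x).trans (le_abs_self _)
    · have : V x = 0 := hR x (by simpa using hx)
      simp [this]
  have hu : ∀ ψ : E → S, MemLp ψ 2 volume → Integrable (fun x => (V x : ℂ) • ψ x) := by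
    intro ψ hψ
    exact memLp_one_iff_integrable.1 (hψ.smul hV2)
  have hR' : ∀ ψ : E → S, Rop r V ψ = cv r (fun x => (V x : ℂ) • ψ x) := by
    intro ψ
    ext x
    simp [Rop, cv]
  have key : ∀ ψ : E → S, MemLp ψ 2 volume → ∀ φ : 𝓢(E, S),
      ∫ x, inner ℂ (dirac e α β m φ x - ((V x + l : ℝ) : ℂ) • φ x) (ψ x) =
        (∫ x, inner ℂ (Dop e α β m (-(l : ℂ)) φ x) (ψ x)) -
          ∫ x, inner ℂ (Dop e α β m (-(l : ℂ)) φ x) (Rop r V ψ x) := by
    intro ψ hψ φ
    rw [hR', inner_cv hr hs _ (hu ψ hψ), cv_Dop e h hb hr hF, ← integral_sub]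
    · congr 1 with x
      rw [Dop_apply, inner_smul_right]
      simp only [inner_sub_left, inner_add_left, inner_smul_left, Complex.conj_ofReal, map_neg]
      push_cast
      ring
    · exact memLp_one_iff_integrable.1 (MemLp.of_bilin (fun a b => inner ℂ a b) 1
        ((Dop e α β m (-(l : ℂ)) φ).memLp 2) hψ
        ((Dop e α β m (-(l : ℂ)) φ).continuous.aestronglyMeasurable.inner hψ.1)
        (.of_forall fun x => by simpa using nnnorm_inner_le_nnnorm _ _))
    · refine ((hu ψ hψ).norm.const_mul (SchwartzMap.seminorm ℝ 0 0 φ)).mono'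
        (φ.continuous.aestronglyMeasurable.inner (hu ψ hψ).1) ?_
      filter_upwards with p
      exact (norm_inner_le_norm _ _).trans
        (mul_le_mul_of_nonneg_right (φ.norm_le_seminorm ℝ _) (norm_nonneg _))
  constructor
  · rintro ⟨ψ, hψ, hne, -, hw⟩
    refine ⟨ψ, hψ, hne, ?_⟩
    have hi : Integrable (Rop r V ψ) := by
      rw [hR', cv_eq]; exact hr.integrable_convolution _ (hu ψ hψ)
    have hl1 : LocallyIntegrable ψ := hψ.locallyIntegrable (by norm_num)
    refine ae_eq_of_integral_contDiff_smul_eq hl1 hi.locallyIntegrable fun g hg hgc => ?_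
    refine ext_inner_left ℂ fun s => ?_
    have hgs : HasCompactSupport (fun x => g x • s) := hgc.smul_right (f' := fun _ => s)
    obtain ⟨φ, hφ⟩ := Dop_surj e h hb (hgs.toSchwartzMap (hg.smul contDiff_const))
    have h1 := key ψ hψ φ
    rw [hw φ, hφ] at h1
    rw [← integral_inner (hl1.integrable_smul_left_of_hasCompactSupport hg.continuous hgc),
      ← integral_inner (hi.locallyIntegrable.integrable_smul_left_of_hasCompactSupport
        hg.continuous hgc)]
    have h2 : ∀ (f : E → S) (x : E), inner ℂ s (g x • f x) = inner ℂ (g x • s) (f x) := by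
      intro f x
      rw [← Complex.coe_smul, ← Complex.coe_smul, inner_smul_left, inner_smul_right,
        Complex.conj_ofReal]
    simp only [h2]
    exact sub_eq_zero.1 h1.symm
  · rintro ⟨ψ, hψ, hne, hs⟩
    refine ⟨ψ, hψ, hne, ?_, fun φ => ?_⟩
    · refine ((hψ.norm.integrable_sq).const_mul C).mono'
        (hV.meas.aestronglyMeasurable.mul (hψ.1.norm.pow 2)) ?_
      filter_upwards with x
      rw [Real.norm_of_nonneg (mul_nonneg (hV.nonneg x) (sq_nonneg _))]
      exact mul_le_mul_of_nonneg_right (hC x) (sq_nonneg _)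
    · rw [key ψ hψ φ, sub_eq_zero]
      refine integral_congr_ae ?_
      filter_upwards [hs] with x hx
      rw [← hx]

end Pool.Agent.MP_0b7119_mp.G.JK
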