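import Pool.Agent.MP_0b7119_mp.Kern
import Pool.Agent.MP_0b7119_mp.JobK1

/-! Job K: the Fourier transform of the resolvent kernel, and the equivalence of the weak
eigenvalue equation with the integral equation. -/

open Set MeasureTheory FourierTransform
open scoped ENNReal SchwartzMap Real

namespace Pool.Agent.MP_0b7119_mp.G

namespace JK

variable {E S : Type} [NormedAddCommGroup E] [InnerProductSpace ℝ E] [FiniteDimensional ℝ E]
  [MeasurableSpace E] [BorelSpace E] [NormedAddCommGroup S] [InnerProductSpace ℂ S]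
  [CompleteSpace S] {d : ℕ}

theorem fourier_cmul (c : ℂ) (f : E → ℂ) (ξ : E) : 𝓕 (fun z => c * f z) ξ = c * 𝓕 f ξ := by
  rw [Real.fourier_eq, Real.fourier_eq, ← integral_const_mul]
  congr 1 with z
  simp only [Circle.smul_def, smul_eq_mul]
  ring

theorem fourier_heat {t : ℝ} (ht : 0 < t) (ξ : E) :
    𝓕 (fun z : E => (heat t z : ℂ)) ξ = (Real.exp (-(4 * π ^ 2 * t) * ‖ξ‖ ^ 2) : ℝ) := by
  have h1 : (fun z : E => (heat t z : ℂ)) = fun z =>
      (((4 * π * t) ^ (-(Module.finrank ℝ E : ℝ) / 2) : ℝ) : ℂ) *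
        Complex.exp (-((1 / (4 * t) : ℝ) : ℂ) * ‖z‖ ^ 2) := by
    ext z
    rw [heat_eq]
    push_cast
    rfl
  rw [h1, fourier_cmul, fourier_gaussian_innerProductSpace (by simpa using ht)]
  have h2 : ((π : ℂ) / ((1 / (4 * t) : ℝ) : ℂ)) ^ ((Module.finrank ℝ E : ℂ) / 2) =
      (((4 * π * t) ^ ((Module.finrank ℝ E : ℝ) / 2) : ℝ) : ℂ) := by
    rw [← Complex.ofReal_div, Complex.ofReal_cpow (by positivity)]
    congr 1
    · congr 1
      field_simp
    · push_cast
      rfl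
  rw [h2, ← mul_assoc, ← Complex.ofReal_mul, ← Real.rpow_add (by positivity)]
  have h3 : -(Module.finrank ℝ E : ℝ) / 2 + (Module.finrank ℝ E : ℝ) / 2 = 0 := by ring
  rw [h3, Real.rpow_zero]
  push_cast
  rw [one_mul]
  congr 1
  have : (t : ℂ) ≠ 0 := by exact_mod_cast ht.ne'
  field_simp

theorem fourier_heat_lin {t : ℝ} (ht : 0 < t) (v ξ : E) :
    𝓕 (fun z : E => ((heat t z / (2 * t) * inner ℝ v z : ℝ) : ℂ)) ξ =
      -(2 * π * Complex.I) * (inner ℝ v ξ : ℝ) *
        (Real.exp (-(4 * π ^ 2 * t) * ‖ξ‖ ^ 2) : ℝ) := by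
  have hi : Integrable (fun z : E => (heat t z : ℂ)) := (integrable_heat ht).ofReal
  have hi' : Integrable (fun z : E => ‖z‖ * ‖(heat t z : ℂ)‖) := by
    refine (integrable_heat_mul_norm ht).congr (.of_forall fun z => ?_)
    simp [abs_of_nonneg (heat_nonneg ht.le z), mul_comm]
  have h1 := Real.hasFDerivAt_fourier hi hi' ξ
  have h2 : 𝓕 (fun z : E => (heat t z : ℂ)) =
      fun ξ => ((Real.exp (-(4 * π ^ 2 * t) * ‖ξ‖ ^ 2) : ℝ) : ℂ) := funext (fourier_heat ht)
  rw [h2] at h1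
  have h3 := Complex.ofRealCLM.hasFDerivAt.comp ξ
    (((hasStrictFDerivAt_norm_sq ξ).hasFDerivAt.const_mul (-(4 * π ^ 2 * t))).exp)
  have h4 := congrArg (fun L => L v) (h1.unique h3)
  have hi2 : Integrable (VectorFourier.fourierSMulRight (innerSL ℝ)
      (fun z : E => (heat t z : ℂ))) := by
    refine (hi'.const_mul (2 * π * ‖(innerSL ℝ : E →L[ℝ] E →L[ℝ] ℝ)‖)).mono'
      hi.1.fourierSMulRight (.of_forall fun z => ?_)
    exact (VectorFourier.norm_fourierSMulRight_le _ _ z).trans (le_of_eq (by ring))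
  simp only [Real.fourier_continuousLinearMap_apply hi2] at h4
  have h5 : (fun z : E => ((heat t z / (2 * t) * inner ℝ v z : ℝ) : ℂ)) = fun z =>
      (Complex.I / (4 * π * t)) * VectorFourier.fourierSMulRight (innerSL ℝ)
        (fun z : E => (heat t z : ℂ)) z v := by
    ext z
    have h6 : (t : ℂ) ≠ 0 := by exact_mod_cast ht.ne'
    have h7 : (π : ℂ) ≠ 0 := by exact_mod_cast Real.pi_ne_zero
    have h8 : innerSL ℝ z v = inner ℝ v z := real_inner_comm v z
    simp only [VectorFourier.fourierSMulRight_apply, h8, smul_eq_mul, Complex.real_smul]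
    push_cast
    field_simp
    linear_combination (2 * (heat t z : ℂ) * (inner ℝ v z : ℝ) * 2) * Complex.I_mul_I
  rw [h5, fourier_cmul, h4]
  have h6 : (t : ℂ) ≠ 0 := by exact_mod_cast ht.ne'
  have h7 : (π : ℂ) ≠ 0 := by exact_mod_cast Real.pi_ne_zero
  simp only [ContinuousLinearMap.comp_apply, ContinuousLinearMap.smul_apply, innerSL_apply_apply,
    Complex.ofRealCLM_apply, smul_eq_mul, nsmul_eq_mul, real_inner_comm v ξ]
  push_cast
  field_simp

theorem fourier_int {F : ℝ × E → ℝ}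
    (hF : Integrable F ((volume.restrict (Ioi 0)).prod volume)) (ξ : E) :
    𝓕 (fun z : E => ((∫ t in Ioi (0 : ℝ), F (t, z) : ℝ) : ℂ)) ξ =
      ∫ t in Ioi (0 : ℝ), 𝓕 (fun z : E => (F (t, z) : ℂ)) ξ := by
  simp only [Real.fourier_eq]
  have h1 : Integrable (Function.uncurry fun (t : ℝ) (z : E) =>
      Real.fourierChar (-inner ℝ z ξ) • (F (t, z) : ℂ))
      ((volume.restrict (Ioi 0)).prod volume) := by
    refine hF.norm.mono' ?_ (.of_forall fun p => by simp [Function.uncurry])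
    exact (Real.continuous_fourierChar.comp (by fun_prop :
      Continuous fun p : ℝ × E => -inner ℝ p.2 ξ)).aestronglyMeasurable.smul hF.ofReal.1
  rw [integral_integral_swap h1]
  congr 1 with z
  simp only [Circle.smul_def, integral_smul, integral_complex_ofReal]

theorem int_exp {b : ℝ} (hb : 0 < b) (ξ : E) :
    ∫ t in Ioi (0 : ℝ), ((Real.exp (-b * t) : ℝ) : ℂ) *
      (Real.exp (-(4 * π ^ 2 * t) * ‖ξ‖ ^ 2) : ℝ) =
      (((4 * π ^ 2 * ‖ξ‖ ^ 2 + b)⁻¹ : ℝ) : ℂ) := by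
  have hpos : 0 < 4 * π ^ 2 * ‖ξ‖ ^ 2 + b := by positivity
  have h1 := integral_exp_mul_Ioi (neg_neg_of_pos hpos) 0
  simp only [← Complex.ofReal_mul, ← Real.exp_add]
  rw [integral_complex_ofReal]
  congr 1
  have h2 : ∀ t : ℝ, -b * t + -(4 * π ^ 2 * t) * ‖ξ‖ ^ 2 = -(4 * π ^ 2 * ‖ξ‖ ^ 2 + b) * t :=
    fun t => by ring
  simp only [h2, h1]
  rw [mul_zero, Real.exp_zero, neg_div_neg_eq, one_div]

theorem fourier_gk {b : ℝ} (hb : 0 < b) (ξ : E) :
    𝓕 (fun z : E => (gk b z : ℂ)) ξ = (((4 * π ^ 2 * ‖ξ‖ ^ 2 + b)⁻¹ : ℝ) : ℂ) := by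
  rw [← int_exp hb ξ]
  refine (fourier_int (integrable_prod_g hb) ξ).trans
    (setIntegral_congr_fun measurableSet_Ioi fun t ht => ?_)
  simp only [Complex.ofReal_mul]
  rw [fourier_cmul, fourier_heat ht]

theorem fourier_qk {b : ℝ} (hb : 0 < b) (v ξ : E) :
    𝓕 (fun z : E => ((qk b z * inner ℝ v z : ℝ) : ℂ)) ξ =
      -(2 * π * Complex.I) * (inner ℝ v ξ : ℝ) * (((4 * π ^ 2 * ‖ξ‖ ^ 2 + b)⁻¹ : ℝ) : ℂ) := by
  rw [← int_exp hb ξ, ← integral_const_mul]
  have hF : Integrable (fun p : ℝ × E => Real.exp (-b * p.1) *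
      (heat p.1 p.2 / (2 * p.1) * inner ℝ v p.2)) ((volume.restrict (Ioi 0)).prod volume) := by
    refine ((integrable_prod_q hb).norm.const_mul ‖v‖).mono' ?_ (.of_forall fun p => ?_)
    · exact ((by fun_prop : Measurable fun p : ℝ × E => Real.exp (-b * p.1)).mul
        ((measurable_heat.div (by fun_prop)).mul (by fun_prop))).aestronglyMeasurable
    · rw [← mul_assoc, norm_mul, norm_mul _ ‖p.2‖, norm_norm, mul_left_comm]
      exact mul_le_mul_of_nonneg_left (norm_inner_le_norm _ _) (norm_nonneg _)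
  have h1 : (fun z : E => ((qk b z * inner ℝ v z : ℝ) : ℂ)) = fun z =>
      ((∫ t in Ioi (0 : ℝ), Real.exp (-b * t) * (heat t z / (2 * t) * inner ℝ v z) : ℝ) : ℂ) := by
    ext z
    rw [qk, ← integral_mul_const]
    simp only [mul_assoc]
  rw [h1]
  refine (fourier_int hF ξ).trans (setIntegral_congr_fun measurableSet_Ioi fun t ht => ?_)
  simp only [Complex.ofReal_mul (Real.exp (-b * t))]
  rw [fourier_cmul, fourier_heat_lin ht]
  ring

theorem fourier_rk (e : Fin d → E) (α : Fin d → S →L[ℂ] S) (β : S →L[ℂ] S) {m l : ℝ}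
    (hb : 0 < m ^ 2 - l ^ 2) (ξ : E) :
    𝓕 (rk e α β m l) ξ =
      (((4 * π ^ 2 * ‖ξ‖ ^ 2 + (m ^ 2 - l ^ 2))⁻¹ : ℝ) : ℂ) • sym e α β m l ξ := by
  set b := m ^ 2 - l ^ 2
  have hg : Integrable (fun z : E => (gk b z : ℂ)) := (integrable_gk hb).ofReal
  have hq : ∀ v : E, Integrable (fun z : E => ((qk b z * inner ℝ v z : ℝ) : ℂ)) := by
    intro v
    suffices h : Integrable (fun z : E => qk b z * inner ℝ v z) from h.ofReal
    refine ((integrable_qk hb).const_mul ‖v‖).mono' ?_ (.of_forall fun z => ?_)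
    · exact ((measurable_qk b).mul (by fun_prop)).aestronglyMeasurable
    · rw [norm_mul, Real.norm_of_nonneg (qk_nonneg b z), mul_left_comm]
      exact mul_le_mul_of_nonneg_left (norm_inner_le_norm _ _) (qk_nonneg b z)
  have h1 : ∀ z : E, Real.fourierChar (-inner ℝ z ξ) • rk e α β m l z =
      (Real.fourierChar (-inner ℝ z ξ) • (gk b z : ℂ)) •
        ((m : ℂ) • β + (l : ℂ) • (1 : S →L[ℂ] S)) +
      ∑ j, (Real.fourierChar (-inner ℝ z ξ) • ((qk b z * inner ℝ (e j) z : ℝ) : ℂ)) •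
        (Complex.I • α j) := by
    intro z
    simp only [rk, cl, Circle.smul_def, smul_add, Finset.smul_sum, smul_smul, smul_eq_mul]
    congr 1
    · simp only [mul_assoc, b]
    · refine Finset.sum_congr rfl fun j _ => ?_
      congr 1
      push_cast
      ring
  rw [Real.fourier_eq]
  simp only [h1]
  rw [integral_add (((Real.fourierIntegral_convergent_iff ξ).2 hg).smul_const _)
    (integrable_finset_sum _ fun j _ =>
      ((Real.fourierIntegral_convergent_iff ξ).2 (hq (e j))).smul_const _),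
    integral_finset_sum _ fun j _ =>
      ((Real.fourierIntegral_convergent_iff ξ).2 (hq (e j))).smul_const _]
  simp only [integral_smul_const, ← Real.fourier_eq, fourier_gk hb, fourier_qk hb]
  simp only [sym, cl, smul_add, Finset.smul_sum, smul_smul]
  rw [add_comm, add_assoc]
  congr 1
  refine Finset.sum_congr rfl fun j _ => ?_
  congr 1
  push_cast
  linear_combination (-2 * π * (inner ℝ (e j) ξ : ℝ) *
    (4 * (π : ℂ) ^ 2 * (‖ξ‖ : ℂ) ^ 2 + (b : ℂ))⁻¹) * Complex.I_mul_I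

end JK

theorem stmtK : StmtK := by
  intro E S _ _ _ _ _ _ _ _ _ d e α β h _ m l hl V hV
  exact JK.iff_of_kernel e h (gap_pos hl) (integrable_rk h e hl) (rk_neg h e m l)
    (JK.fourier_rk e α β (gap_pos hl)) hV

end Pool.Agent.MP_0b7119_mp.G
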