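import Pool.Agent.MP_0b7119_mp.Params
import Pool.Agent.MP_0b7119_mp.JobA
import Pool.Agent.MP_0b7119_mp.JobB
import Pool.Agent.MP_0b7119_mp.JobC
import Pool.Agent.MP_0b7119_mp.JobD
import Pool.Agent.MP_0b7119_mp.JobK

/-! Assembly: the lowest gap eigenvalue is not concave in any dimension. -/

open Set MeasureTheory Real
open scoped ENNReal

namespace Pool.Agent.MP_0b7119_mp.G

set_option linter.unusedSectionVars false

variable {E S : Type} [NormedAddCommGroup E] [InnerProductSpace ℝ E] [FiniteDimensional ℝ E]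
  [MeasurableSpace E] [BorelSpace E] [NormedAddCommGroup S] [InnerProductSpace ℂ S]
  [CompleteSpace S] [FiniteDimensional ℂ S] {d : ℕ} {α : Fin d → S →L[ℂ] S} {β : S →L[ℂ] S}

lemma exists_upper (h : IsDiracRep α β) (hd : 1 ≤ d) [Nontrivial S] :
    ∃ ξ : S, β ξ = ξ ∧ ‖ξ‖ = 1 := by
  have key : ∃ w : S, w ≠ 0 ∧ β w = w := by
    obtain ⟨v, hv⟩ := exists_ne (0 : S)
    by_cases h0 : v + β v = 0
    · let j : Fin d := ⟨0, hd⟩
      have h1 : β v = -v := eq_neg_of_add_eq_zero_right h0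
      have h2 := congrArg (fun T : S →L[ℂ] S => T v) (h.αβ j)
      have h3 := congrArg (fun T : S →L[ℂ] S => T v) (h.αα j j)
      simp only [ContinuousLinearMap.add_apply, ContinuousLinearMap.mul_apply, h1, map_neg,
        ContinuousLinearMap.zero_apply, if_true] at h2 h3
      refine ⟨α j v, fun h4 => hv ?_, (neg_add_eq_zero.1 h2).symm⟩
      rw [h4, map_zero, add_zero, ← one_add_one_eq_two, ContinuousLinearMap.add_apply,
        ContinuousLinearMap.one_apply, ← two_smul ℂ v] at h3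
      exact (smul_eq_zero.1 h3.symm).resolve_left two_ne_zero
    · exact ⟨v + β v, h0, by rw [map_add, β_β h, add_comm]⟩
  obtain ⟨w, hw, hβ⟩ := key
  refine ⟨((‖w‖⁻¹ : ℝ) : ℂ) • w, by rw [map_smul, hβ], ?_⟩
  rw [norm_smul, Complex.norm_real, norm_inv, norm_norm, inv_mul_cancel₀ (norm_ne_zero_iff.2 hw)]

lemma Adm.neg {V a : E → ℝ} {γ : ℝ} (h : Adm V a γ) (ha : ∀ z, a (-z) = a z) :
    Adm (fun y => V (-y)) a γ := by
  have e : ∀ x y, V (-y) * a (x - y) = (fun y => V y * a (-x - y)) (-y) := fun x y => by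
    simp only
    rw [← ha (x - y)]
    congr 2
    abel
  refine ⟨fun x => ?_, fun x => ?_⟩
  · simp only [e]
    exact (h.int (-x)).comp_neg
  · simp only [e]
    rw [integral_neg_eq_self (fun y => V y * a (-x - y))]
    exact h.le _

lemma Adm.smul_left {V a : E → ℝ} {γ : ℝ} (h : Adm V a γ) {c : ℝ} (hc : 0 ≤ c) :
    Adm (fun y => c * V y) a (c * γ) := by
  refine ⟨fun x => ?_, fun x => ?_⟩
  · simp only [mul_assoc]; exact (h.int x).const_mul c
  · simp only [mul_assoc]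
    rw [integral_const_mul]
    exact mul_le_mul_of_nonneg_left (h.le x) hc

lemma norm_rk_le' (h : IsDiracRep α β) (e : OrthonormalBasis (Fin d) ℝ E) {m l : ℝ}
    (hl : 0 ≤ l) (hlm : l ≤ m) (z : E) :
    ‖rk e α β m l z‖ ≤ 2 * m * gk (m ^ 2 - l ^ 2) z + qk (m ^ 2 - l ^ 2) z * ‖z‖ := by
  refine (norm_rk_le h e m l z).trans ?_
  rw [abs_of_nonneg hl, abs_of_nonneg (hl.trans hlm)]
  have := gk_nonneg (m ^ 2 - l ^ 2) z
  nlinarith

lemma bind_const (h : IsDiracRep α β) (e : OrthonormalBasis (Fin d) ℝ E) {m l g₁ : ℝ}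
    (hl : 0 ≤ l) (hlm : l < m) {V : E → ℝ} (hV : Nice V) {ξ : S} (hξ : β ξ = ξ) (hξ1 : ‖ξ‖ = 1)
    (hg : 0 ≤ g₁) (h1 : 1 < m * g₁ * ∫ y, V y)
    (hlow : ∀ x, V x ≠ 0 → ∀ᵐ y, V y ≠ 0 → g₁ ≤ gk (m ^ 2 - l ^ 2) (x - y)) :
    Nf V (fun _ => ξ) < Qf (rk e α β m l) V (fun _ => ξ) := by
  have hb : 0 < m ^ 2 - l ^ 2 := gap_pos ⟨by linarith, hlm⟩
  obtain ⟨C, hC⟩ := hV.bdd
  have hk := ker_rk e α β m l
  have hA := adm_of_integrable hV.meas hV.nonneg hC (integrable_gk hb) (gk_nonneg _)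
  have hB := adm_of_integrable hV.meas hV.nonneg hC (integrable_qk hb)
    (fun z => mul_nonneg (qk_nonneg _ z) (norm_nonneg z))
  have hR : ∀ x, (inner ℂ ξ (Rop (rk e α β m l) V (fun _ => ξ) x)).re =
      (m + l) * ∫ y, V y * gk (m ^ 2 - l ^ 2) (x - y) := fun x => by
    have i1 := (Gop_bound hk.gnm hV.nm hA (f := fun _ => ξ) stronglyMeasurable_const
      (norm_nonneg ξ) (fun _ _ => le_rfl) x).1
    have i2 := (Kop_bound h e hk.qnm hV.nm hB (f := fun _ => ξ) stronglyMeasurable_const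
      (norm_nonneg ξ) (fun _ _ => le_rfl) x).1
    have e1 : Gop (gk (m ^ 2 - l ^ 2)) V (fun _ => ξ) x =
        ((∫ y, V y * gk (m ^ 2 - l ^ 2) (x - y) : ℝ) : ℂ) • ξ := by
      unfold Gop
      rw [integral_smul_const, integral_complex_ofReal]
    have e2 : inner ℂ ξ (Kop e α (qk (m ^ 2 - l ^ 2)) V (fun _ => ξ) x) = 0 := by
      unfold Kop
      rw [← integral_inner i2]
      simp only [inner_smul_right, inner_cl_upper h e _ hξ, mul_zero, integral_zero]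
    rw [Rop_eq hk i1 i2, e1, map_smul, hξ, inner_add_right, inner_add_right, inner_smul_right,
      inner_smul_right, inner_smul_right, inner_smul_right, inner_smul_right, e2, inner_self_eq_norm_sq_to_K, hξ1]
    simp only [mul_zero, add_zero, Complex.coe_algebraMap, Complex.ofReal_one, one_pow, mul_one,
      ← Complex.ofReal_mul, ← Complex.ofReal_add, Complex.ofReal_re]
    ring
  have hI : 0 ≤ ∫ y, V y := integral_nonneg hV.nonneg
  have hI0 : 0 < ∫ y, V y := by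
    rcases hI.eq_or_lt with h0 | h0
    · rw [← h0] at h1; linarith
    · exact h0
  have hm : 0 < m := by linarith
  unfold Nf Qf
  simp only [hR, hξ1, one_pow, mul_one]
  have hmeas : StronglyMeasurable fun x => ∫ y, V y * gk (m ^ 2 - l ^ 2) (x - y) :=
    (((hV.meas.comp measurable_snd).mul ((measurable_gk _).comp
      (measurable_fst.sub measurable_snd))).stronglyMeasurable (f := fun p : E × E =>
        V p.2 * gk (m ^ 2 - l ^ 2) (p.1 - p.2))).integral_prod_right'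
  have hnn : ∀ x, 0 ≤ ∫ y, V y * gk (m ^ 2 - l ^ 2) (x - y) := fun x =>
    integral_nonneg fun y => mul_nonneg (hV.nonneg y) (gk_nonneg _ _)
  calc ∫ x, V x < ∫ x, V x * (m * g₁ * ∫ y, V y) := by
        rw [integral_mul_const]; nlinarith
    _ ≤ _ := by
        refine integral_mono (hV.integrable.mul_const _)
          (hV.integrable_mul (hmeas.const_mul _).aestronglyMeasurable
            (M := (m + l) * (C * ∫ z : E, gk (m ^ 2 - l ^ 2) z)) fun x => ?_) fun x => ?_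
        · rw [abs_of_nonneg (mul_nonneg (by linarith) (hnn x))]
          exact mul_le_mul_of_nonneg_left (hA.le x) (by linarith)
        · by_cases hx : V x = 0
          · simp only [hx, zero_mul, le_refl]
          refine mul_le_mul_of_nonneg_left ?_ (hV.nonneg x)
          have e1 : g₁ * ∫ y, V y ≤ ∫ y, V y * gk (m ^ 2 - l ^ 2) (x - y) := by
            rw [← integral_const_mul]
            refine integral_mono_ae (hV.integrable.const_mul _) (hA.int x) ?_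
            filter_upwards [hlow x hx] with y hy
            by_cases hy0 : V y = 0
            · simp only [hy0, zero_mul, mul_zero, le_refl]
            · rw [mul_comm]
              exact mul_le_mul_of_nonneg_left (hy hy0) (hV.nonneg y)
          nlinarith [mul_le_mul_of_nonneg_left e1 hm.le, mul_nonneg hl (hnn x)]

lemma exists_first (hn : 2 ≤ Module.finrank ℝ E) (h : IsDiracRep α β)
    (e : OrthonormalBasis (Fin d) ℝ E) {m a b : ℝ} (ha : 0 ≤ a) (hab : a ≤ b) (hb : b < m)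
    {V : E → ℝ} (hV : Nice V)
    (hS : Adm V (fun z => 2 * m * gk (m ^ 2 - a ^ 2) z + qk (m ^ 2 - a ^ 2) z * ‖z‖) (1 / 2))
    (hf : ∃ f, Test f ∧ Nf V f < Qf (rk e α β m b) V f) :
    ∃ l ∈ Ico a b, (∃ ψ, Sol (rk e α β m l) V ψ) ∧
      (∀ f, Test f → Qf (rk e α β m l) V f ≤ Nf V f) ∧
      ∀ l' ∈ Ico a l, ¬ ∃ ψ, Sol (rk e α β m l') V ψ := by
  refine stmtD E S (rk e α β m) a b hab (fun l hl => ⟨stronglyMeasurable_rk e α β m l,
    integrable_rk h e ⟨by linarith [hl.1], by linarith [hl.2]⟩, rk_neg h e m l⟩)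
    (fun l hl η hη => ?_) V hV ⟨1 / 2, by norm_num, ?_⟩ hf
  · obtain ⟨δ, hδ, H⟩ := rk_cont hn h e hb l ⟨ha.trans hl.1, hl.2⟩ η hη
    exact ⟨δ, hδ, fun l' hl' => H l' ⟨ha.trans hl'.1, hl'.2⟩⟩
  · exact (hS.of_le hV.meas hV.nonneg (stronglyMeasurable_rk e α β m a).norm.measurable
      (fun z => norm_nonneg _) fun x => Filter.Eventually.of_forall fun y =>
        norm_rk_le' h e ha (by linarith) _).le

lemma no_sol_rk (h : IsDiracRep α β) (e : OrthonormalBasis (Fin d) ℝ E) {m l : ℝ} (hl : 0 ≤ l)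
    (hlm : l < m) {V : E → ℝ} (hV : Nice V)
    (hS : Adm V (fun z => 2 * m * gk (m ^ 2 - l ^ 2) z + qk (m ^ 2 - l ^ 2) z * ‖z‖) (1 / 2)) :
    ¬ ∃ ψ, Sol (rk e α β m l) V ψ := by
  have hb : 0 < m ^ 2 - l ^ 2 := gap_pos ⟨by linarith, hlm⟩
  exact no_sol (stronglyMeasurable_rk e α β m l)
    (ϱ := fun z => 2 * m * gk (m ^ 2 - l ^ 2) z + qk (m ^ 2 - l ^ 2) z * ‖z‖)
    (((measurable_gk _).const_mul _).add ((measurable_qk _).mul measurable_norm))
    (((integrable_gk hb).const_mul _).add (integrable_qk hb))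
    (fun z => by rw [gk_neg, qk_neg, norm_neg]) (norm_rk_le' h e hl hlm.le) hV hS

lemma lamD_le (e : Fin d → E) {m l : ℝ} {V : E → ℝ} (hl : l ∈ Ioo (-m) m)
    (hE : IsEig e α β m V l) : lamD e α β m V ≤ l := by
  refine csInf_le ⟨-m, ?_⟩ (Or.inl ⟨hl, hE⟩)
  rintro x (hx | hx)
  · exact hx.1.1.le
  · rw [mem_singleton_iff.1 hx]; linarith [hl.1, hl.2]

lemma le_lamD (e : Fin d → E) {m l : ℝ} {V : E → ℝ} (hl : l ≤ m)
    (hE : ∀ x ∈ Ioo (-m) l, ¬ IsEig e α β m V x) : l ≤ lamD e α β m V := by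
  refine le_csInf ⟨m, Or.inr rfl⟩ ?_
  rintro x (hx | hx)
  · by_contra hlt
    exact hE x ⟨hx.1.1, not_le.1 hlt⟩ hx.2
  · rw [mem_singleton_iff.1 hx]; exact hl

theorem notConcave_two (hd : 2 ≤ d) (e : OrthonormalBasis (Fin d) ℝ E) [Nontrivial S]
    (h : IsDiracRep α β) {m p : ℝ} (hm : 0 < m) (hp : (d : ℝ) ≤ p) : NotConcave e α β m p := by
  have hfin : Module.finrank ℝ E = d := by
    rw [Module.finrank_eq_card_basis e.toBasis, Fintype.card_fin]
  have hn : 2 ≤ Module.finrank ℝ E := hfin ▸ hd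
  obtain ⟨ξ, hξ, hξ1⟩ := exists_upper h (by omega)
  obtain ⟨c, hc, hA⟩ := stmtA E S d e α β h hd m p hm hp
  have hstar : ENNReal.ofReal (c / 2) < alphaStar e α β m p := by
    refine lt_of_lt_of_le ((ENNReal.ofReal_lt_ofReal_iff hc).2 (half_lt_self hc))
      (le_sInf fun a ha => ?_)
    by_contra hlt
    obtain ⟨V, hV, h1, h2⟩ := ha m hm
    have := le_lamD (α := α) (β := β) e (V := V) hm.le fun x hx =>
      hA V hV (h1.trans (not_le.1 hlt).le) x ⟨hx.1, hx.2.le⟩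
    linarith
  have hc2 : ENNReal.ofReal (c / 2) ≤ ENNReal.ofReal c :=
    ENNReal.ofReal_le_ofReal (half_le_self hc.le)
  obtain ⟨γ₀, hγ, c₂, hc₂, C₃, hC₃, C₄, hC₄, C₅, hC₅, ι, hι, H⟩ :=
    exists_config stmtC hn hm (hfin ▸ hp) (half_pos hc)
  obtain ⟨τs, hτs, σ, hσ, Hc⟩ := core h e hξ hξ1 hm hγ (cq_pos hn) hc₂ hC₃ hC₄ hC₅ hι
  obtain ⟨V₀, V₁, b₁, b₂, C⟩ := H τs hτs σ hσ
  have hV : Nice fun y => V₀ y + V₁ y := C.n₀.add C.n₁
  have hb₂ : 0 < m ^ 2 - b₂ := sub_pos.2 C.bm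
  have hb₁ : 0 < m ^ 2 - b₁ := by linarith [C.b12]
  obtain ⟨a, ha0, ha⟩ : ∃ a : ℝ, 0 ≤ a ∧ m ^ 2 - a ^ 2 = b₂ :=
    ⟨√(m ^ 2 - b₂), Real.sqrt_nonneg _, by rw [Real.sq_sqrt hb₂.le]; ring⟩
  obtain ⟨b, hb0, hb⟩ : ∃ b : ℝ, 0 ≤ b ∧ m ^ 2 - b ^ 2 = b₁ :=
    ⟨√(m ^ 2 - b₁), Real.sqrt_nonneg _, by rw [Real.sq_sqrt hb₁.le]; ring⟩
  have hab : a ≤ b := abs_le_of_sq_le_sq' (by linarith [C.b12]) hb0 |>.2
  have hbm : b < m := lt_of_pow_lt_pow_left₀ 2 hm.le (by linarith [C.b0])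
  obtain ⟨g₁, hg₁, hg₂, hg₃⟩ := C.bind
  obtain ⟨l₁, hl₁, hS₁, hQ₁, hN₁⟩ := exists_first hn h e ha0 hab hbm hV
    (C.schur _ ha.ge) ⟨fun _ => ξ, Test.const ξ,
      bind_const h e hb0 hbm hV hξ hξ1 hg₁ hg₂ (hb ▸ hg₃)⟩
  have hl0 : 0 ≤ l₁ := ha0.trans hl₁.1
  have hlm : l₁ < m := hl₁.2.trans hbm
  have hno : ∀ x ∈ Ico 0 l₁, ¬ ∃ ψ, Sol (rk e α β m x) (fun y => V₀ y + V₁ y) ψ := by
    intro x hx
    rcases le_total a x with hax | hax
    · exact hN₁ x ⟨hax, hx.2⟩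
    · exact no_sol_rk h e hx.1 (hx.2.trans hlm) hV (C.schur _ (by nlinarith [hx.1]))
  have hq := Measure.measurePreserving_neg (volume : Measure E)
  have hVP : (fun y => V₀ y + V₁ y) ∈ Pot E p := ⟨hV.nonneg, C.mem⟩
  have hWP : (fun y => V₀ (-y) + V₁ (-y)) ∈ Pot E p :=
    ⟨hV.neg.nonneg, C.mem.comp_measurePreserving hq⟩
  have hWn : eLpNorm (fun y => V₀ (-y) + V₁ (-y)) (ENNReal.ofReal p) volume ≤
      ENNReal.ofReal (c / 2) :=
    (eLpNorm_comp_measurePreserving C.mem.1 hq).le.trans C.norm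
  have h1 : l₁ ≤ lamD e α β m fun y => V₀ y + V₁ y := le_lamD e hlm.le fun x hx hE => by
    rcases le_total x 0 with h0 | h0
    · exact hA _ hVP (C.norm.trans hc2) x ⟨hx.1, h0⟩ hE
    · exact hno x ⟨h0, hx.2⟩ ((stmtK E S d e α β h hd m x ⟨hx.1, hx.2.trans hlm⟩ _ hV).1 hE)
  have h2 : l₁ ≤ lamD e α β m fun y => V₀ (-y) + V₁ (-y) := le_lamD e hlm.le fun x hx hE => by
    rcases le_total x 0 with h0 | h0
    · exact hA _ hWP (hWn.trans hc2) x ⟨hx.1, h0⟩ hE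
    · obtain ⟨ψ, hψ⟩ := (stmtK E S d e α β h hd m x ⟨hx.1, hx.2.trans hlm⟩ _ hV.neg).1 hE
      have := hψ.parity h (β_rk_neg h e m x)
      simp only [neg_neg] at this
      exact hno x ⟨h0, hx.2⟩ ⟨_, this⟩
  have hgap : 0 < m ^ 2 - l₁ ^ 2 := gap_pos ⟨by linarith, hlm⟩
  obtain ⟨N, P, τ, ζ, lam, ρ, s, p', lip, ω₀, HS, hτ, hζ⟩ :=
    C.setup l₁ hl0 hlm.le (by nlinarith [hl₁.2]) (by nlinarith [hl₁.1])
  have hf := Hc l₁ (rk e α β m l₁) _ _ V₀ V₁ N P τ ζ lam ρ s p' lip ω₀ (ker_rk e α β m l₁)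
    (stronglyMeasurable_rk e α β m l₁) (integrable_gk hgap) (integrable_qk hgap) (gk_neg _)
    (qk_neg _) (β_rk_neg h e m l₁) HS hτ hζ hS₁ hQ₁
  have hM : Nice fun x => 1 / 2 * (V₀ x + V₁ x) + 1 / 2 * (V₀ (-x) + V₁ (-x)) :=
    (hV.const_mul (by norm_num)).add (hV.neg.const_mul (by norm_num))
  obtain ⟨l₂, hl₂, hS₂, -, -⟩ := exists_first hn h e ha0 hl₁.1 hlm hM
    ((((C.schur _ ha.ge).smul_left (c := 1 / 2) (by norm_num)).add_left
      (((C.schur _ ha.ge).neg fun z => by rw [gk_neg, qk_neg, norm_neg]).smul_left (c := 1 / 2)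
        (by norm_num))).mono (by norm_num)) hf
  have hl₂' : l₂ ∈ Ioo (-m) m := ⟨by linarith [hl₂.1], hl₂.2.trans hlm⟩
  have h3 := lamD_le e hl₂' ((stmtK E S d e α β h hd m l₂ hl₂' _ hM).2 hS₂)
  refine ⟨_, hVP, _, hWP, C.norm.trans_lt hstar, hWn.trans_lt hstar, 1 / 2,
    ⟨by norm_num, by norm_num⟩, ?_⟩
  have e1 : ((1 / 2 : ℝ) • fun y => V₀ y + V₁ y) + (1 - 1 / 2 : ℝ) • (fun y => V₀ (-y) + V₁ (-y)) =
      fun x => 1 / 2 * (V₀ x + V₁ x) + 1 / 2 * (V₀ (-x) + V₁ (-x)) := by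
    funext x
    simp only [Pi.add_apply, Pi.smul_apply, smul_eq_mul]
    ring
  rw [e1]
  linarith [hl₂.2]

theorem notConcave (hd : 1 ≤ d) (e : OrthonormalBasis (Fin d) ℝ E)
    (hS : Module.finrank ℂ S = 2 ^ ((d + 1) / 2)) (h : IsDiracRep α β) {m p : ℝ} (hm : 0 < m)
    (hp : (d : ℝ) ≤ p) : NotConcave e α β m p := by
  rcases hd.eq_or_lt with h1 | h1
  · subst h1
    exact stmtB E S e α β h (by simpa using hS) m p hm (by simpa using hp)
  · haveI : Nontrivial S := Module.nontrivial_of_finrank_pos (R := ℂ) (by rw [hS]; positivity)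
    exact notConcave_two h1 e h hm hp

end Pool.Agent.MP_0b7119_mp.G
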