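import Mathlib

/-! Dirac operators `D_m - V` on a Euclidean space `E` of any dimension, spinors in `S`. -/

open Set MeasureTheory
open scoped ENNReal SchwartzMap

namespace Pool.Agent.MP_0b7119_mp.G

variable {E S : Type} [NormedAddCommGroup E] [InnerProductSpace ℝ E] [FiniteDimensional ℝ E]
  [MeasurableSpace E] [BorelSpace E] [NormedAddCommGroup S] [InnerProductSpace ℂ S]
  [CompleteSpace S] {d : ℕ}

/-- Dirac matrices: Hermitian, with the anticommutation relations. -/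
structure IsDiracRep {A : Type} [Ring A] [Star A] (α : Fin d → A) (β : A) : Prop where
  sa_α : ∀ j, IsSelfAdjoint (α j)
  sa_β : IsSelfAdjoint β
  αα : ∀ j k, α j * α k + α k * α j = if j = k then 2 else 0
  αβ : ∀ j, α j * β + β * α j = 0
  ββ : β * β = 1

/-- The free Dirac operator `∑ α_j (-i ∂_j) + m β` applied to a smooth function. -/
noncomputable def dirac (e : Fin d → E) (α : Fin d → S →L[ℂ] S) (β : S →L[ℂ] S) (m : ℝ)
    (φ : E → S) (x : E) : S :=
  ∑ j, α j ((-Complex.I) • fderiv ℝ φ x (e j)) + (m : ℂ) • β (φ x)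

/-- `l` is an eigenvalue of `D_m - V`: a nonzero `ψ ∈ L²` with `√V ψ ∈ L²` solves
`(D_m - V) ψ = l ψ` in the sense of distributions. -/
def IsEig (e : Fin d → E) (α : Fin d → S →L[ℂ] S) (β : S →L[ℂ] S) (m : ℝ) (V : E → ℝ)
    (l : ℝ) : Prop :=
  ∃ ψ : E → S, MemLp ψ 2 volume ∧ ¬ ψ =ᵐ[volume] 0 ∧
    Integrable (fun x => V x * ‖ψ x‖ ^ 2) volume ∧
    ∀ φ : 𝓢(E, S), ∫ x, inner ℂ (dirac e α β m φ x - ((V x + l : ℝ) : ℂ) • φ x) (ψ x) = 0

/-- The lowest eigenvalue in the gap `(-m, m)`, and `m` if there is none. -/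
noncomputable def lamD (e : Fin d → E) (α : Fin d → S →L[ℂ] S) (β : S →L[ℂ] S) (m : ℝ)
    (V : E → ℝ) : ℝ :=
  sInf ({l | l ∈ Ioo (-m) m ∧ IsEig e α β m V l} ∪ {m})

variable (E) in
/-- Nonnegative potentials in `L^p`. -/
def Pot (p : ℝ) : Set (E → ℝ) := {V | (∀ x, 0 ≤ V x) ∧ MemLp V (ENNReal.ofReal p) volume}

/-- The critical norm: the infimum of the `a` such that potentials of norm at most `a` bring the
lowest gap eigenvalue arbitrarily close to `-m`. -/
noncomputable def alphaStar (e : Fin d → E) (α : Fin d → S →L[ℂ] S) (β : S →L[ℂ] S)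
    (m p : ℝ) : ℝ≥0∞ :=
  sInf {a | ∀ δ > 0, ∃ V ∈ Pot E p,
    eLpNorm V (ENNReal.ofReal p) volume ≤ a ∧ lamD e α β m V < -m + δ}

end Pool.Agent.MP_0b7119_mp.G
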