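import Pool.Agent.MP_0b7119_mp.GDefs

/-! Interfaces for the proof that the lowest gap eigenvalue is not concave in any dimension. -/

open Set MeasureTheory
open scoped ENNReal SchwartzMap

namespace Pool.Agent.MP_0b7119_mp.G

section defs

variable {E S : Type} [NormedAddCommGroup E] [InnerProductSpace ℝ E] [FiniteDimensional ℝ E]
  [MeasurableSpace E] [BorelSpace E] [NormedAddCommGroup S] [InnerProductSpace ℂ S]
  [CompleteSpace S] {d : ℕ}

/-- The conclusion of the main theorem. -/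
def NotConcave (e : Fin d → E) (α : Fin d → S →L[ℂ] S) (β : S →L[ℂ] S) (m p : ℝ) : Prop :=
  ∃ V ∈ Pot E p, ∃ W ∈ Pot E p,
    eLpNorm V (ENNReal.ofReal p) volume < alphaStar e α β m p ∧
    eLpNorm W (ENNReal.ofReal p) volume < alphaStar e α β m p ∧
    ∃ t ∈ Ioo (0 : ℝ) 1, lamD e α β m (t • V + (1 - t) • W) <
      t * lamD e α β m V + (1 - t) * lamD e α β m W

/-- Clifford multiplication `v ↦ ∑ ⟪e j, v⟫ α j`. -/
noncomputable def cl (e : Fin d → E) (α : Fin d → S →L[ℂ] S) (v : E) : S →L[ℂ] S :=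
  ∑ j, ((inner ℝ (e j) v : ℝ) : ℂ) • α j

/-- The heat kernel of `E`. -/
noncomputable def heat (t : ℝ) (z : E) : ℝ :=
  (4 * Real.pi * t) ^ (-(Module.finrank ℝ E : ℝ) / 2) * Real.exp (-‖z‖ ^ 2 / (4 * t))

/-- The Green function of `-Δ + b`. -/
noncomputable def gk (b : ℝ) (z : E) : ℝ :=
  ∫ t in Ioi (0 : ℝ), Real.exp (-b * t) * heat t z

/-- `∇ (gk b) z = - qk b z • z`. -/
noncomputable def qk (b : ℝ) (z : E) : ℝ :=
  ∫ t in Ioi (0 : ℝ), Real.exp (-b * t) * (heat t z / (2 * t))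

/-- The integral kernel of the resolvent `(D_m - l)⁻¹`, for `l ∈ (-m, m)`. -/
noncomputable def rk (e : Fin d → E) (α : Fin d → S →L[ℂ] S) (β : S →L[ℂ] S) (m l : ℝ)
    (z : E) : S →L[ℂ] S :=
  (gk (m ^ 2 - l ^ 2) z : ℂ) • ((m : ℂ) • β + (l : ℂ) • (1 : S →L[ℂ] S)) +
    (Complex.I * (qk (m ^ 2 - l ^ 2) z : ℂ)) • cl e α z

/-- The integral operator `f ↦ r * (V f)`. -/
noncomputable def Rop (r : E → S →L[ℂ] S) (V : E → ℝ) (f : E → S) (x : E) : S :=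
  ∫ y, (V y : ℂ) • r (x - y) (f y)

/-- The Birman-Schwinger quadratic form. -/
noncomputable def Qf (r : E → S →L[ℂ] S) (V : E → ℝ) (f : E → S) : ℝ :=
  ∫ x, V x * (inner ℂ (f x) (Rop r V f x)).re

/-- The squared norm in `L²(V dx)`. -/
noncomputable def Nf (V : E → ℝ) (f : E → S) : ℝ := ∫ x, V x * ‖f x‖ ^ 2

/-- Bounded measurable nonnegative potentials with bounded support. -/
structure Nice (V : E → ℝ) : Prop where
  meas : Measurable V
  nonneg : ∀ x, 0 ≤ V x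
  bdd : ∃ C, ∀ x, V x ≤ C
  supp : ∃ R, ∀ x, R ≤ ‖x‖ → V x = 0

/-- Bounded measurable test functions. -/
def Test (f : E → S) : Prop := StronglyMeasurable f ∧ ∃ C, ∀ x, ‖f x‖ ≤ C

/-- Nonzero `L²` solutions of the integral equation. -/
def Sol (r : E → S →L[ℂ] S) (V : E → ℝ) (ψ : E → S) : Prop :=
  MemLp ψ 2 volume ∧ ¬ ψ =ᵐ[volume] 0 ∧ ψ =ᵐ[volume] Rop r V ψ

/-- The Newton field kernel `z / |z|^d`. -/
noncomputable def kN (z : E) : E := (‖z‖ ^ Module.finrank ℝ E)⁻¹ • z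

/-- The field of the density `U`. -/
noncomputable def Fld (U : E → ℝ) (x : E) : E := ∫ y, U y • kN (x - y)

/-- The second order trace term. -/
noncomputable def Trc (U : E → ℝ) (x : E) : ℝ := ∫ y, U y * inner ℝ (kN (x - y)) (Fld U y)

/-- The cubic functional whose sign decides concavity. -/
noncomputable def Icub (U : E → ℝ) (P : Set E) : ℝ :=
  ∫ x in P, (‖Fld U x‖ ^ 2 + inner ℝ (Fld U x) (Fld U (-x)) - Trc U x + Trc U (-x))

end defs

/-- Job A: small potentials have no eigenvalue in `(-m, 0]`. -/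
def StmtA : Prop :=
  ∀ (E S : Type) [NormedAddCommGroup E] [InnerProductSpace ℝ E] [FiniteDimensional ℝ E]
    [MeasurableSpace E] [BorelSpace E] [NormedAddCommGroup S] [InnerProductSpace ℂ S]
    [CompleteSpace S] [FiniteDimensional ℂ S] (d : ℕ) (e : OrthonormalBasis (Fin d) ℝ E)
    (α : Fin d → S →L[ℂ] S) (β : S →L[ℂ] S), IsDiracRep α β → 2 ≤ d →
    ∀ m p : ℝ, 0 < m → (d : ℝ) ≤ p → ∃ c : ℝ, 0 < c ∧ ∀ V ∈ Pot E p,
      eLpNorm V (ENNReal.ofReal p) volume ≤ ENNReal.ofReal c →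
      ∀ l ∈ Ioc (-m) 0, ¬ IsEig e α β m V l

/-- Job B: dimension one, transferred from `Pool.Agent.MP_0b7119_mp.main`. -/
def StmtB : Prop :=
  ∀ (E S : Type) [NormedAddCommGroup E] [InnerProductSpace ℝ E] [FiniteDimensional ℝ E]
    [MeasurableSpace E] [BorelSpace E] [NormedAddCommGroup S] [InnerProductSpace ℂ S]
    [CompleteSpace S] [FiniteDimensional ℂ S] (e : OrthonormalBasis (Fin 1) ℝ E)
    (α : Fin 1 → S →L[ℂ] S) (β : S →L[ℂ] S), IsDiracRep α β → Module.finrank ℂ S = 2 →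
    ∀ m p : ℝ, 0 < m → 1 ≤ p → NotConcave e α β m p

/-- Job C: a configuration with negative cubic functional, at every scale. -/
def StmtC : Prop :=
  ∀ (E : Type) [NormedAddCommGroup E] [InnerProductSpace ℝ E] [FiniteDimensional ℝ E]
    [MeasurableSpace E] [BorelSpace E], 2 ≤ Module.finrank ℝ E →
    ∃ (B : E → ℝ) (P : Set E) (s R ι : ℝ), Measurable B ∧ (∀ x, 0 ≤ B x ∧ B x ≤ 1) ∧
      (∀ x, B (-x) = B x) ∧ (∀ x, R ≤ ‖x‖ → B x = 0) ∧ MeasurableSet P ∧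
      P ⊆ Metric.ball 0 R ∧ (∀ x ∈ P, B x = 0 ∧ -x ∉ P) ∧ 0 < s ∧ s ≤ 1 ∧ 0 < ι ∧
      ∀ ε : ℝ, 0 < ε →
        Icub (fun x => B (ε⁻¹ • x) + P.indicator (fun _ => s) (ε⁻¹ • x)) {x | ε⁻¹ • x ∈ P} ≤
          -ι * ε ^ (Module.finrank ℝ E + 2)

/-- Job D: the Birman-Schwinger principle for a continuous family of integrable kernels. -/
def StmtD : Prop :=
  ∀ (E S : Type) [NormedAddCommGroup E] [InnerProductSpace ℝ E] [FiniteDimensional ℝ E]
    [MeasurableSpace E] [BorelSpace E] [NormedAddCommGroup S] [InnerProductSpace ℂ S]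
    [CompleteSpace S] [FiniteDimensional ℂ S] (r : ℝ → E → S →L[ℂ] S) (a b : ℝ), a ≤ b →
    (∀ l ∈ Icc a b, StronglyMeasurable (r l) ∧ Integrable (r l) volume ∧
      ∀ z, r l (-z) = star (r l z)) →
    (∀ l ∈ Icc a b, ∀ η > 0, ∃ δ > 0, ∀ l' ∈ Icc a b, |l' - l| < δ →
      ∫ z, ‖r l' z - r l z‖ < η) →
    ∀ V : E → ℝ, Nice V → (∃ θ < 1, ∀ x, ∫ y, V y * ‖r a (x - y)‖ ≤ θ) →
    (∃ f, Test f ∧ Nf V f < Qf (r b) V f) →
    ∃ l ∈ Ico a b, (∃ ψ, Sol (r l) V ψ) ∧ (∀ f, Test f → Qf (r l) V f ≤ Nf V f) ∧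
      ∀ l' ∈ Ico a l, ¬ ∃ ψ, Sol (r l') V ψ

/-- Job K: eigenvalues of nice potentials are given by the integral equation. -/
def StmtK : Prop :=
  ∀ (E S : Type) [NormedAddCommGroup E] [InnerProductSpace ℝ E] [FiniteDimensional ℝ E]
    [MeasurableSpace E] [BorelSpace E] [NormedAddCommGroup S] [InnerProductSpace ℂ S]
    [CompleteSpace S] [FiniteDimensional ℂ S] (d : ℕ) (e : OrthonormalBasis (Fin d) ℝ E)
    (α : Fin d → S →L[ℂ] S) (β : S →L[ℂ] S), IsDiracRep α β → 2 ≤ d →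
    ∀ m : ℝ, ∀ l ∈ Ioo (-m) m, ∀ V : E → ℝ, Nice V →
      (IsEig e α β m V l ↔ ∃ ψ, Sol (rk e α β m l) V ψ)

end Pool.Agent.MP_0b7119_mp.G
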