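import Mathlib

/-! Job A, part 1: the Sobolev inequality `H^{1/2} ⊆ L^{2d/(d-1)}` on the Fourier side. -/

open Set MeasureTheory FourierTransform
open scoped ENNReal SchwartzMap ContDiff

namespace Pool.Agent.MP_0b7119_mp.G.JA

variable {E S : Type} [NormedAddCommGroup E] [InnerProductSpace ℝ E] [FiniteDimensional ℝ E]
  [MeasurableSpace E] [BorelSpace E] [NormedAddCommGroup S] [InnerProductSpace ℂ S]
  [CompleteSpace S]

/-- A real test function as a complex Schwartz function. -/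
noncomputable def toS (φ : E → ℝ) (h₁ : ContDiff ℝ ∞ φ) (h₂ : HasCompactSupport φ) : 𝓢(E, ℂ) :=
  HasCompactSupport.toSchwartzMap (f := fun x => (φ x : ℂ))
    (h₂.comp_left (g := fun r : ℝ => (r : ℂ)) (by simp)) (Complex.ofRealCLM.contDiff.comp h₁)

omit [MeasurableSpace E] [BorelSpace E] [FiniteDimensional ℝ E] in
@[simp] lemma toS_apply (φ : E → ℝ) (h₁ : ContDiff ℝ ∞ φ) (h₂ : HasCompactSupport φ) (x : E) :
    toS φ h₁ h₂ x = (φ x : ℂ) := rfl

/-- On `L¹ ∩ L²` the `L²` inverse Fourier transform is given by the integral. -/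
lemma fourierInv_ae_eq (g : Lp S 2 (volume : Measure E)) (hg : Integrable (g : E → S) volume) :
    ((𝓕⁻ g : Lp S 2 (volume : Measure E)) : E → S) =ᵐ[volume] 𝓕⁻ (g : E → S) := by
  have hc : Continuous (𝓕⁻ (g : E → S)) := by
    have := VectorFourier.fourierIntegral_continuous (e := Real.fourierChar) (μ := volume)
      (L := -innerₗ E) Real.continuous_fourierChar (by
        simp only [LinearMap.neg_apply, innerₗ_apply_apply]; fun_prop) hg
    exact this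
  refine ae_eq_of_integral_contDiff_smul_eq
    ((Lp.memLp _).locallyIntegrable (by norm_num)) hc.locallyIntegrable ?_
  intro φ h₁ h₂
  have key := Lp.fourierInv_toTemperedDistribution_eq g
  have k2 := congrArg (fun T : 𝓢'(E, S) => T (toS φ h₁ h₂)) key
  simp only [TemperedDistribution.fourierInv_apply, Lp.toTemperedDistribution_apply,
    toS_apply] at k2
  have k3 := VectorFourier.integral_fourierIntegral_smul_eq_flip (e := Real.fourierChar)
    (μ := volume) (ν := volume) (L := -innerₗ E) (f := (toS φ h₁ h₂ : E → ℂ)) (g := (g : E → S))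
    Real.continuous_fourierChar (by
        simp only [LinearMap.neg_apply, innerₗ_apply_apply]; fun_prop)
    (toS φ h₁ h₂).integrable hg
  have hflip : (-innerₗ E).flip = -innerₗ E := by
    ext x y; simp [real_inner_comm]
  rw [hflip] at k3
  have e1 : ∀ x, φ x • (𝓕⁻ g : Lp S 2 (volume : Measure E)) x =
      (φ x : ℂ) • (𝓕⁻ g : Lp S 2 (volume : Measure E)) x := fun x => by simp
  have e2 : ∀ x, φ x • 𝓕⁻ (g : E → S) x = (φ x : ℂ) • 𝓕⁻ (g : E → S) x := fun x => by simp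
  simp_rw [e1, e2]
  rw [← k2, SchwartzMap.fourierInv_coe]
  exact k3

lemma norm_fourierInv_ae_le (g : Lp S 2 (volume : Measure E))
    (hg : Integrable (g : E → S) volume) :
    ∀ᵐ x, ‖(𝓕⁻ g : Lp S 2 (volume : Measure E)) x‖ ≤ ∫ ξ, ‖g ξ‖ := by
  filter_upwards [fourierInv_ae_eq g hg] with x hx
  rw [hx]
  exact VectorFourier.norm_fourierIntegral_le_integral_norm _ _ _ _ _

omit [InnerProductSpace ℝ E] [FiniteDimensional ℝ E] [BorelSpace E] [CompleteSpace S]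
  [NormedAddCommGroup E] [InnerProductSpace ℂ S] in
lemma lintegral_sq_eq {μ : Measure E} (F : Lp S 2 μ) :
    ∫⁻ x, ENNReal.ofReal (‖F x‖ ^ 2) ∂μ = ENNReal.ofReal (‖F‖ ^ 2) := by
  have h := eLpNorm_nnreal_pow_eq_lintegral (μ := μ) (f := (F : E → S)) (p := 2) (by norm_num)
  have h2 : ((2 : NNReal) : ℝ≥0∞) = 2 := rfl
  rw [h2, ← Lp.enorm_def] at h
  simp only [NNReal.coe_ofNat, ENNReal.rpow_ofNat] at h
  rw [ENNReal.ofReal_pow (norm_nonneg _), ofReal_norm, h]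
  congr 1; ext x
  rw [ENNReal.ofReal_pow (norm_nonneg _), ofReal_norm]

lemma integrableOn_inv_norm {n : ℕ} (hn : Module.finrank ℝ E = n + 1) (hn0 : n ≠ 0) (A : ℝ) :
    IntegrableOn (fun ξ : E => ‖ξ‖⁻¹) (Metric.ball 0 A) volume := by
  refine integrableOn_ball_of_norm_le_rpow (C := 1) (α := 1) (by omega) ?_ ?_ ?_
  · rw [hn]; push_cast
    have : (1 : ℝ) ≤ n := by exact_mod_cast Nat.one_le_iff_ne_zero.mpr hn0
    linarith
  · filter_upwards with x
    simp [Real.rpow_neg_one]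
  · exact (measurable_norm.inv).aestronglyMeasurable

lemma integral_inv_norm {n : ℕ} (hn : Module.finrank ℝ E = n + 1) {A : ℝ} (hA : 0 < A) :
    ∫ ξ in Metric.ball (0 : E) A, ‖ξ‖⁻¹ = A ^ n * ∫ ξ in Metric.ball (0 : E) 1, ‖ξ‖⁻¹ := by
  have h := Measure.setIntegral_comp_smul_of_pos (volume : Measure E) (fun ξ : E => ‖ξ‖⁻¹)
    (Metric.ball 0 1) hA
  rw [smul_unitBall_of_pos hA, hn] at h
  simp only [norm_smul, Real.norm_of_nonneg hA.le, mul_inv, integral_const_mul, smul_eq_mul] at h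
  have hA' : A ^ (n + 1) ≠ 0 := by positivity
  field_simp at h
  rw [← mul_right_inj' hA.ne']
  simp only [one_div] at h
  rw [← h]; ring

/-- The distribution function estimate at height `s`. -/
lemma meas_lt_le {n : ℕ} (hn : Module.finrank ℝ E = n + 1) (hn0 : n ≠ 0) {K N : ℝ}
    (hK : ∫ ξ in Metric.ball (0 : E) 1, ‖ξ‖⁻¹ ≤ K) (hK0 : 0 < K) (hN : 0 < N)
    (g : Lp S 2 (volume : Measure E)) (hi : Integrable (fun ξ : E => ‖ξ‖ * ‖g ξ‖ ^ 2) volume)
    (hg : ∫ ξ : E, ‖ξ‖ * ‖g ξ‖ ^ 2 ≤ N ^ 2) {s : ℝ} (hs : 0 < s) :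
    ENNReal.ofReal (s ^ 2 / 4) *
        volume {x | s < ‖(𝓕⁻ g : Lp S 2 (volume : Measure E)) x‖} ≤
      ∫⁻ ξ, {ξ : E | s ^ 2 ≤ 4 * K * N ^ 2 * ‖ξ‖ ^ n}.indicator
        (fun ξ => ENNReal.ofReal (‖g ξ‖ ^ 2)) ξ := by
  set H : Set E := {ξ : E | s ^ 2 ≤ 4 * K * N ^ 2 * ‖ξ‖ ^ n} with hH
  have hHm : MeasurableSet H := measurableSet_le measurable_const (by fun_prop)
  set A : ℝ := (s ^ 2 / (4 * K * N ^ 2)) ^ ((n : ℝ)⁻¹) with hA
  have hA0 : 0 < A := by positivity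
  have hAn : A ^ n = s ^ 2 / (4 * K * N ^ 2) := Real.rpow_inv_natCast_pow (by positivity) hn0
  have hsub : Hᶜ ⊆ Metric.ball 0 A := by
    intro ξ hξ
    simp only [hH, mem_compl_iff, mem_ofPred_eq, not_le] at hξ
    rw [mem_ball_zero_iff]
    refine lt_of_pow_lt_pow_left₀ n hA0.le ?_
    rw [hAn, lt_div_iff₀ (by positivity)]
    linarith
  have ml : MemLp (Hᶜ.indicator (g : E → S)) 2 volume := (Lp.memLp g).indicator hHm.compl
  have mh : MemLp (H.indicator (g : E → S)) 2 volume := (Lp.memLp g).indicator hHm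
  set gl := ml.toLp _ with hgl
  set gh := mh.toLp _ with hgh
  have hsum : g = gl + gh := by
    apply Lp.ext
    filter_upwards [Lp.coeFn_add gl gh, ml.coeFn_toLp, mh.coeFn_toLp] with x h1 h2 h3
    rw [h1, Pi.add_apply, h2, h3]
    by_cases hx : x ∈ H <;> simp [hx]
  -- the low part
  set lam : ℝ := s / (2 * N ^ 2) with hlam
  have hlam0 : 0 < lam := by positivity
  have hI := integrableOn_inv_norm hn hn0 A
  have hdom : Integrable (fun ξ : E => lam / 2 * (‖ξ‖ * ‖g ξ‖ ^ 2) +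
      (2 * lam)⁻¹ * (Metric.ball (0 : E) A).indicator (fun ξ => ‖ξ‖⁻¹) ξ) volume :=
    (hi.const_mul _).add
      (((integrable_indicator_iff Metric.isOpen_ball.measurableSet).mpr hI).const_mul _)
  have : Nontrivial E := Module.nontrivial_of_finrank_pos (R := ℝ) (by omega)
  have hne : ∀ᵐ ξ : E, ξ ≠ 0 := by
    simp [ae_iff]
  have hpt : ∀ᵐ ξ : E, ‖gl ξ‖ ≤ lam / 2 * (‖ξ‖ * ‖g ξ‖ ^ 2) +
      (2 * lam)⁻¹ * (Metric.ball (0 : E) A).indicator (fun ξ => ‖ξ‖⁻¹) ξ := by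
    filter_upwards [ml.coeFn_toLp, hne] with ξ h1 h0
    rw [h1]
    have hξ : 0 < ‖ξ‖ := norm_pos_iff.mpr h0
    by_cases hx : ξ ∈ Hᶜ
    · rw [indicator_of_mem hx, indicator_of_mem (hsub hx)]
      have e : lam / 2 * (‖ξ‖ * ‖g ξ‖ ^ 2) + (2 * lam)⁻¹ * ‖ξ‖⁻¹ - ‖g ξ‖ =
          (lam * ‖ξ‖ * ‖g ξ‖ - 1) ^ 2 / (2 * lam * ‖ξ‖) := by
        field_simp; ring
      have : 0 ≤ (lam * ‖ξ‖ * ‖g ξ‖ - 1) ^ 2 / (2 * lam * ‖ξ‖) := by positivity
      linarith
    · rw [indicator_of_notMem hx, norm_zero]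
      have : 0 ≤ (Metric.ball (0 : E) A).indicator (fun ξ => ‖ξ‖⁻¹) ξ :=
        indicator_nonneg (fun _ _ => by positivity) _
      positivity
  have hgli : Integrable (gl : E → S) volume :=
    hdom.mono' (Lp.aestronglyMeasurable gl) hpt
  have hlow : ∫ ξ, ‖gl ξ‖ ≤ s / 2 := by
    calc ∫ ξ, ‖gl ξ‖ ≤ _ := integral_mono_ae hgli.norm hdom hpt
      _ = lam / 2 * (∫ ξ : E, ‖ξ‖ * ‖g ξ‖ ^ 2) +
          (2 * lam)⁻¹ * (A ^ n * ∫ ξ in Metric.ball (0 : E) 1, ‖ξ‖⁻¹) := by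
        rw [integral_add (hi.const_mul _)
          (((integrable_indicator_iff Metric.isOpen_ball.measurableSet).mpr hI).const_mul _),
          integral_const_mul, integral_const_mul,
          integral_indicator Metric.isOpen_ball.measurableSet, integral_inv_norm hn hA0]
      _ ≤ lam / 2 * N ^ 2 + (2 * lam)⁻¹ * (A ^ n * K) := by gcongr
      _ = s / 2 := by rw [hAn, hlam]; field_simp; ring
  -- the high part
  have hF : (𝓕⁻ g : Lp S 2 (volume : Measure E)) = 𝓕⁻ gl + 𝓕⁻ gh := by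
    conv_lhs => rw [hsum]
    exact fourierInv_add _ _
  have hincl : {x | s < ‖(𝓕⁻ g : Lp S 2 (volume : Measure E)) x‖} ≤ᵐ[volume]
      {x | ENNReal.ofReal (s ^ 2 / 4) ≤
        ENNReal.ofReal (‖(𝓕⁻ gh : Lp S 2 (volume : Measure E)) x‖ ^ 2)} := by
    rw [hF]
    filter_upwards [Lp.coeFn_add (𝓕⁻ gl : Lp S 2 (volume : Measure E)) (𝓕⁻ gh),
      norm_fourierInv_ae_le gl hgli] with x h1 h2 hx
    change s < _ at hx
    rw [h1, Pi.add_apply] at hx
    have h3 := norm_add_le ((𝓕⁻ gl : Lp S 2 (volume : Measure E)) x)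
      ((𝓕⁻ gh : Lp S 2 (volume : Measure E)) x)
    change ENNReal.ofReal _ ≤ ENNReal.ofReal _
    apply ENNReal.ofReal_le_ofReal
    have h4 : s / 2 ≤ ‖(𝓕⁻ gh : Lp S 2 (volume : Measure E)) x‖ := by linarith
    calc s ^ 2 / 4 = (s / 2) ^ 2 := by ring
      _ ≤ _ := by gcongr
  calc _ ≤ ENNReal.ofReal (s ^ 2 / 4) * volume {x | ENNReal.ofReal (s ^ 2 / 4) ≤
        ENNReal.ofReal (‖(𝓕⁻ gh : Lp S 2 (volume : Measure E)) x‖ ^ 2)} := by
        exact mul_le_mul' le_rfl (measure_mono_ae hincl)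
    _ ≤ ∫⁻ x, ENNReal.ofReal (‖(𝓕⁻ gh : Lp S 2 (volume : Measure E)) x‖ ^ 2) := by
        apply mul_meas_ge_le_lintegral₀
        exact ((Lp.stronglyMeasurable _).norm.measurable.pow_const 2).ennreal_ofReal.aemeasurable
    _ = ∫⁻ x, ENNReal.ofReal (‖gh x‖ ^ 2) := by
        rw [lintegral_sq_eq, lintegral_sq_eq]
        congr 2
        exact (Lp.fourierTransformₗᵢ E S).symm.norm_map gh
    _ = _ := by
        apply lintegral_congr_ae
        filter_upwards [mh.coeFn_toLp] with ξ h1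
        rw [h1]
        by_cases hx : ξ ∈ H <;> simp [hx]

lemma lintegral_Ioi_indicator {a σ : ℝ} (ha : 0 < a) (hσ : 0 ≤ σ) :
    ∫⁻ s in Ioi (0 : ℝ), {s : ℝ | s ^ 2 ≤ σ ^ 2}.indicator
      (fun s => ENNReal.ofReal (s ^ (a - 1))) s = ENNReal.ofReal (σ ^ a / a) := by
  have hm : MeasurableSet {s : ℝ | s ^ 2 ≤ σ ^ 2} :=
    measurableSet_le (by fun_prop) measurable_const
  rw [lintegral_indicator hm, Measure.restrict_restrict hm]
  have hset : {s : ℝ | s ^ 2 ≤ σ ^ 2} ∩ Ioi 0 = Ioc 0 σ := by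
    ext s
    simp only [mem_inter_iff, mem_ofPred_eq, mem_Ioi, mem_Ioc]
    constructor
    · rintro ⟨h1, h2⟩
      exact ⟨h2, by nlinarith [abs_le_abs (le_refl s) (by linarith : -s ≤ s)]⟩
    · rintro ⟨h1, h2⟩
      exact ⟨by gcongr, h1⟩
  have hint : IntervalIntegrable (fun s : ℝ => s ^ (a - 1)) volume 0 σ :=
    intervalIntegral.intervalIntegrable_rpow' (by linarith)
  rw [hset, ← ofReal_integral_eq_lintegral_ofReal hint.1, ← intervalIntegral.integral_of_le hσ,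
    integral_rpow (Or.inl (by linarith))]
  · simp [Real.zero_rpow ha.ne']
  · filter_upwards [self_mem_ae_restrict measurableSet_Ioc] with s hs
    exact Real.rpow_nonneg hs.1.le _

/-- The critical Sobolev inequality for `H^{1/2}`, exponent `2 + 2/n = 2d/(d-1)`, `d = n+1`. -/
theorem sobolev {n : ℕ} (hn : Module.finrank ℝ E = n + 1) (hn0 : n ≠ 0) :
    ∃ C : ℝ, 0 < C ∧ ∀ (g : Lp S 2 (volume : Measure E)) (N : ℝ), 0 < N →
      Integrable (fun ξ : E => ‖ξ‖ * ‖g ξ‖ ^ 2) volume → ∫ ξ : E, ‖ξ‖ * ‖g ξ‖ ^ 2 ≤ N ^ 2 →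
      ∫⁻ x, ENNReal.ofReal (‖(𝓕⁻ g : Lp S 2 (volume : Measure E)) x‖ ^ (2 + 2 / (n : ℝ))) ≤
        ENNReal.ofReal ((C * N) ^ (2 + 2 / (n : ℝ))) := by
  set K : ℝ := (∫ ξ in Metric.ball (0 : E) 1, ‖ξ‖⁻¹) + 1 with hKdef
  have hK0 : 0 < K := by
    have : 0 ≤ ∫ ξ in Metric.ball (0 : E) 1, ‖ξ‖⁻¹ := integral_nonneg fun _ => by positivity
    linarith
  have hK : ∫ ξ in Metric.ball (0 : E) 1, ‖ξ‖⁻¹ ≤ K := by linarith
  have hnp : (0 : ℝ) < n := by exact_mod_cast Nat.pos_of_ne_zero hn0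
  set a : ℝ := 2 / (n : ℝ) with ha
  have ha0 : 0 < a := by positivity
  set C0 : ℝ := (2 + a) * (4 * (4 * K) ^ ((n : ℝ)⁻¹) / a) with hC0
  have hC00 : 0 < C0 := by positivity
  refine ⟨C0 ^ (2 + a)⁻¹, by positivity, fun g N hN hi hg => ?_⟩
  set f : Lp S 2 (volume : Measure E) := 𝓕⁻ g with hf
  rw [lintegral_rpow_eq_lintegral_meas_lt_mul volume (f := fun x => ‖f x‖)
    (ae_of_all _ fun _ => norm_nonneg _) (Lp.stronglyMeasurable _).norm.measurable.aemeasurable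
    (by positivity)]
  set σ : E → ℝ := fun ξ => Real.sqrt (4 * K * N ^ 2 * ‖ξ‖ ^ n) with hσ
  have hσ2 : ∀ ξ, σ ξ ^ 2 = 4 * K * N ^ 2 * ‖ξ‖ ^ n := fun ξ => Real.sq_sqrt (by positivity)
  have hσa : ∀ ξ, σ ξ ^ a = (4 * K) ^ ((n : ℝ)⁻¹) * N ^ a * ‖ξ‖ := by
    intro ξ
    have h0 : 0 ≤ σ ξ := Real.sqrt_nonneg _
    have e1 : σ ξ ^ a = (σ ξ ^ 2) ^ ((n : ℝ)⁻¹) := by
      rw [← Real.rpow_natCast_mul h0]; congr 1
    have e2 : N ^ a = (N ^ 2) ^ ((n : ℝ)⁻¹) := by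
      rw [← Real.rpow_natCast_mul hN.le]; congr 1
    rw [e1, e2, hσ2, Real.mul_rpow (by positivity) (by positivity),
      Real.mul_rpow (by positivity) (by positivity),
      Real.pow_rpow_inv_natCast (norm_nonneg _) hn0]
  set F : ℝ → E → ℝ≥0∞ := fun s ξ => ENNReal.ofReal (4 * ‖g ξ‖ ^ 2) *
    {s : ℝ | s ^ 2 ≤ σ ξ ^ 2}.indicator (fun s => ENNReal.ofReal (s ^ (a - 1))) s with hF
  have hgm : Measurable fun ξ => ‖g ξ‖ := (Lp.stronglyMeasurable g).norm.measurable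
  have hFm : Measurable (Function.uncurry F) := by
    have h1 : MeasurableSet {z : ℝ × E | z.1 ^ 2 ≤ σ z.2 ^ 2} :=
      measurableSet_le (by fun_prop) (by simp only [hσ]; fun_prop)
    have : Function.uncurry F = fun z : ℝ × E => ENNReal.ofReal (4 * ‖g z.2‖ ^ 2) *
        {z : ℝ × E | z.1 ^ 2 ≤ σ z.2 ^ 2}.indicator
          (fun z => ENNReal.ofReal (z.1 ^ (a - 1))) z := by
      ext z; rfl
    rw [this]
    refine Measurable.mul ?_ (Measurable.indicator (by fun_prop) h1)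
    exact (((hgm.comp measurable_snd).pow_const 2).const_mul 4).ennreal_ofReal
  have step1 : ∫⁻ t in Ioi (0 : ℝ), volume {x | t < ‖f x‖} * ENNReal.ofReal (t ^ (2 + a - 1)) ≤
      ∫⁻ s in Ioi (0 : ℝ), ∫⁻ ξ, F s ξ := by
    refine setLIntegral_mono' measurableSet_Ioi fun s hs => ?_
    have hs0 : 0 < s := hs
    have h1 := meas_lt_le hn hn0 hK hK0 hN g hi hg hs0
    have e : ENNReal.ofReal (s ^ (2 + a - 1)) =
        ENNReal.ofReal (s ^ 2 / 4) * ENNReal.ofReal (4 * s ^ (a - 1)) := by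
      rw [← ENNReal.ofReal_mul (by positivity)]
      congr 1
      rw [show 2 + a - 1 = (2 : ℕ) + (a - 1) by push_cast; ring, Real.rpow_add hs0,
        Real.rpow_natCast]
      ring
    rw [e, ← mul_assoc, mul_comm (volume _)]
    refine (mul_le_mul' h1 le_rfl).trans ?_
    rw [← lintegral_mul_const' _ _ ENNReal.ofReal_ne_top]
    refine lintegral_mono fun ξ => ?_
    simp only [hF, hσ2]
    by_cases hx : s ^ 2 ≤ 4 * K * N ^ 2 * ‖ξ‖ ^ n
    · rw [indicator_of_mem (by exact hx), indicator_of_mem (by exact hx),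
        ← ENNReal.ofReal_mul (by positivity), ← ENNReal.ofReal_mul (by positivity)]
      apply le_of_eq; congr 1; ring
    · rw [indicator_of_notMem (by exact hx)]; simp
  have step2 : ∫⁻ s in Ioi (0 : ℝ), ∫⁻ ξ, F s ξ =
      ENNReal.ofReal (4 * (4 * K) ^ ((n : ℝ)⁻¹) / a * N ^ a * ∫ ξ : E, ‖ξ‖ * ‖g ξ‖ ^ 2) := by
    rw [lintegral_lintegral_swap hFm.aemeasurable, ← integral_const_mul,
      ofReal_integral_eq_lintegral_ofReal (hi.const_mul _)
        (ae_of_all _ fun ξ => by positivity)]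
    refine lintegral_congr fun ξ => ?_
    simp only [hF]
    rw [lintegral_const_mul' _ _ ENNReal.ofReal_ne_top,
      lintegral_Ioi_indicator ha0 (Real.sqrt_nonneg _), ← ENNReal.ofReal_mul (by positivity)]
    congr 1
    change 4 * ‖g ξ‖ ^ 2 * (σ ξ ^ a / a) = _
    rw [hσa]; ring
  refine (mul_le_mul' le_rfl (step1.trans step2.le)).trans ?_
  rw [← ENNReal.ofReal_mul (by positivity)]
  apply ENNReal.ofReal_le_ofReal
  rw [Real.mul_rpow (by positivity) hN.le, Real.rpow_inv_rpow hC00.le (by positivity),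
    show N ^ (2 + a) = N ^ a * N ^ 2 by
      rw [add_comm, Real.rpow_add hN]; norm_num]
  calc _ ≤ (2 + a) * (4 * (4 * K) ^ ((n : ℝ)⁻¹) / a * N ^ a * N ^ 2) := by gcongr
    _ = _ := by rw [hC0]; ring

end Pool.Agent.MP_0b7119_mp.G.JA
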