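import Pool.Agent.MP_0b7119_mp.JobA1

/-! Job A, part 2: the form bound `∫ V |f|² ≤ C ‖V‖_p ‖f‖²_{H^{1/2}}` and the operator `√V J`. -/

open Set MeasureTheory FourierTransform
open scoped ENNReal SchwartzMap ContDiff

namespace Pool.Agent.MP_0b7119_mp.G.JA

variable {E S : Type} [NormedAddCommGroup E] [InnerProductSpace ℝ E] [FiniteDimensional ℝ E]
  [MeasurableSpace E] [BorelSpace E] [NormedAddCommGroup S] [InnerProductSpace ℂ S]
  [CompleteSpace S]

lemma young_pt {a b p : ℝ} {n : ℕ} (hn0 : n ≠ 0) (hp : (n : ℝ) + 1 ≤ p) (ha : 0 ≤ a)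
    (hb : 0 ≤ b) : a * b ≤ b + a ^ p + b ^ (1 + (n : ℝ)⁻¹) := by
  have h1 : 0 ≤ a ^ p := Real.rpow_nonneg ha _
  have h2 : 0 ≤ b ^ (1 + (n : ℝ)⁻¹) := Real.rpow_nonneg hb _
  have hnp : (0 : ℝ) < n := by exact_mod_cast Nat.pos_of_ne_zero hn0
  rcases le_total a 1 with h | h
  · nlinarith
  rcases le_total a (b ^ ((n : ℝ)⁻¹)) with h' | h'
  · have : b ^ (1 + (n : ℝ)⁻¹) = b * b ^ ((n : ℝ)⁻¹) := by
      rw [Real.rpow_add' hb (by positivity), Real.rpow_one]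
    nlinarith
  · have h3 : b ≤ a ^ n := by
      rw [← Real.rpow_inv_natCast_pow hb hn0]
      exact pow_le_pow_left₀ (Real.rpow_nonneg hb _) h' n
    have h4 : a * a ^ n ≤ a ^ p := by
      rw [← pow_succ', ← Real.rpow_natCast]
      exact Real.rpow_le_rpow_of_exponent_le h (by push_cast; linarith)
    nlinarith

theorem form_bound {n : ℕ} (hn : Module.finrank ℝ E = n + 1) (hn0 : n ≠ 0) {p : ℝ}
    (hp : (n : ℝ) + 1 ≤ p) :
    ∃ C : ℝ, 0 < C ∧ ∀ (c : ℝ) (V : E → ℝ), 0 < c → (∀ x, 0 ≤ V x) →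
      AEStronglyMeasurable V volume →
      eLpNorm V (ENNReal.ofReal p) volume ≤ ENNReal.ofReal c →
      ∀ (g : Lp S 2 (volume : Measure E)) (N : ℝ), 0 < N → ‖g‖ ≤ N →
      Integrable (fun ξ : E => ‖ξ‖ * ‖g ξ‖ ^ 2) volume → ∫ ξ : E, ‖ξ‖ * ‖g ξ‖ ^ 2 ≤ N ^ 2 →
      ∫⁻ x, ENNReal.ofReal (V x * ‖(𝓕⁻ g : Lp S 2 (volume : Measure E)) x‖ ^ 2) ≤
        ENNReal.ofReal (C * c * N ^ 2) := by
  obtain ⟨C, hC, hS⟩ := sobolev (S := S) hn hn0
  refine ⟨1 + 2 * C ^ 2, by positivity, fun c V hc hV0 hVm hV g N hN hgN hi hg => ?_⟩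
  have hnp : (0 : ℝ) < n := by exact_mod_cast Nat.pos_of_ne_zero hn0
  have hp0 : 0 < p := by linarith
  have h1 := hS g N hN hi hg
  set f : Lp S 2 (volume : Measure E) := 𝓕⁻ g with hf
  have hfg : ‖f‖ = ‖g‖ := (Lp.fourierTransformₗᵢ E S).symm.norm_map g
  have hfm : Measurable fun x => ‖f x‖ := (Lp.stronglyMeasurable f).norm.measurable
  have h2 : ∫⁻ x, ENNReal.ofReal (V x ^ p) ≤ ENNReal.ofReal (c ^ p) := by
    rw [eLpNorm_eq_lintegral_rpow_enorm_toReal (by simpa using hp0) ENNReal.ofReal_ne_top,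
      ENNReal.toReal_ofReal hp0.le, one_div] at hV
    have := ENNReal.rpow_le_rpow hV hp0.le
    rw [ENNReal.rpow_inv_rpow hp0.ne', ENNReal.ofReal_rpow_of_pos hc] at this
    refine le_trans (le_of_eq ?_) this
    refine lintegral_congr fun x => ?_
    rw [← ofReal_norm, Real.norm_of_nonneg (hV0 x), ENNReal.ofReal_rpow_of_nonneg (hV0 x) hp0.le]
  set q : ℝ := 2 + 2 / (n : ℝ) with hq
  have hM : 0 < C * N := by positivity
  have hpt : ∀ x, ENNReal.ofReal (V x * ‖f x‖ ^ 2) ≤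
      ENNReal.ofReal c * ENNReal.ofReal (‖f x‖ ^ 2) +
      ENNReal.ofReal (c * (C * N) ^ 2 / c ^ p) * ENNReal.ofReal (V x ^ p) +
      ENNReal.ofReal (c * (C * N) ^ 2 / (C * N) ^ q) * ENNReal.ofReal (‖f x‖ ^ q) := by
    intro x
    have hx := hV0 x
    rw [← ENNReal.ofReal_mul hc.le, ← ENNReal.ofReal_mul (by positivity),
      ← ENNReal.ofReal_mul (by positivity), ← ENNReal.ofReal_add (by positivity) (by positivity),
      ← ENNReal.ofReal_add (by positivity) (by positivity)]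
    apply ENNReal.ofReal_le_ofReal
    have hy := young_pt (a := V x / c) (b := (‖f x‖ / (C * N)) ^ 2) hn0 hp (by positivity)
      (by positivity)
    have e1 : ((‖f x‖ / (C * N)) ^ 2) ^ (1 + (n : ℝ)⁻¹) = ‖f x‖ ^ q / (C * N) ^ q := by
      rw [← Real.rpow_natCast_mul (by positivity), ← Real.div_rpow (norm_nonneg _) hM.le]
      congr 1
      rw [hq]; push_cast; ring
    rw [e1, Real.div_rpow hx hc.le] at hy
    have hy' := mul_le_mul_of_nonneg_left hy (show 0 ≤ c * (C * N) ^ 2 by positivity)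
    calc V x * ‖f x‖ ^ 2 = c * (C * N) ^ 2 * (V x / c * (‖f x‖ / (C * N)) ^ 2) := by field_simp
      _ ≤ _ := hy'
      _ = _ := by field_simp
  refine (lintegral_mono hpt).trans ?_
  have m1 : AEMeasurable (fun x => ENNReal.ofReal c * ENNReal.ofReal (‖f x‖ ^ 2)) volume :=
    (((hfm.pow_const 2).ennreal_ofReal).const_mul _).aemeasurable
  have m2 : AEMeasurable (fun x => ENNReal.ofReal (c * (C * N) ^ 2 / c ^ p) *
      ENNReal.ofReal (V x ^ p)) volume :=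
    ((hVm.aemeasurable.pow_const p).ennreal_ofReal).const_mul _
  rw [lintegral_add_left' (m1.fun_add m2), lintegral_add_left' m1,
    lintegral_const_mul' _ _ ENNReal.ofReal_ne_top, lintegral_const_mul' _ _ ENNReal.ofReal_ne_top,
    lintegral_const_mul' _ _ ENNReal.ofReal_ne_top, lintegral_sq_eq]
  calc _ ≤ ENNReal.ofReal c * ENNReal.ofReal (N ^ 2) +
      ENNReal.ofReal (c * (C * N) ^ 2 / c ^ p) * ENNReal.ofReal (c ^ p) +
      ENNReal.ofReal (c * (C * N) ^ 2 / (C * N) ^ q) * ENNReal.ofReal ((C * N) ^ q) := by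
        gcongr
        rw [hfg]; exact hgN
    _ = _ := by
      rw [← ENNReal.ofReal_mul hc.le, ← ENNReal.ofReal_mul (by positivity),
        ← ENNReal.ofReal_mul (by positivity), ← ENNReal.ofReal_add (by positivity) (by positivity),
        ← ENNReal.ofReal_add (by positivity) (by positivity)]
      congr 1
      field_simp
      ring

omit [InnerProductSpace ℝ E] [FiniteDimensional ℝ E] [BorelSpace E] [CompleteSpace S]
  [NormedAddCommGroup E] [InnerProductSpace ℂ S] in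
lemma memLp_of_lintegral {μ : Measure E} {F : E → S} (hF : AEStronglyMeasurable F μ) {M : ℝ}
    (h : ∫⁻ x, ENNReal.ofReal (‖F x‖ ^ 2) ∂μ ≤ ENNReal.ofReal M) : MemLp F 2 μ := by
  rw [memLp_two_iff_integrable_sq_norm hF]
  exact ⟨hF.norm.pow 2, (hasFiniteIntegral_iff_ofReal (ae_of_all _ fun _ => by positivity)).mpr
    (h.trans_lt ENNReal.ofReal_lt_top)⟩

omit [InnerProductSpace ℝ E] [FiniteDimensional ℝ E] [BorelSpace E] [CompleteSpace S]
  [NormedAddCommGroup E] in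
/-- Multiplication by a function after a bounded operator. -/
lemma exists_mul {μ : Measure E} (a : E → ℝ) (ha : AEStronglyMeasurable a μ)
    (L : Lp S 2 μ →L[ℂ] Lp S 2 μ) {C : ℝ} (hC : 0 ≤ C)
    (hb : ∀ g, ∫⁻ x, ENNReal.ofReal (a x ^ 2 * ‖L g x‖ ^ 2) ∂μ ≤
      ENNReal.ofReal ((C * ‖g‖) ^ 2)) :
    ∃ B : Lp S 2 μ →L[ℂ] Lp S 2 μ, (∀ g, B g =ᵐ[μ] fun x => (a x : ℂ) • L g x) ∧
      ∀ g, ‖B g‖ ≤ C * ‖g‖ := by
  have hb' : ∀ g, ∫⁻ x, ENNReal.ofReal (‖(a x : ℂ) • L g x‖ ^ 2) ∂μ ≤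
      ENNReal.ofReal ((C * ‖g‖) ^ 2) := by
    intro g
    simpa [norm_smul, mul_pow] using hb g
  have hm : ∀ g, MemLp (fun x => (a x : ℂ) • L g x) 2 μ := fun g =>
    memLp_of_lintegral ((Complex.continuous_ofReal.comp_aestronglyMeasurable ha).smul
      (Lp.aestronglyMeasurable _)) (hb' g)
  let B0 : Lp S 2 μ →ₗ[ℂ] Lp S 2 μ :=
    { toFun := fun g => (hm g).toLp _
      map_add' := fun g₁ g₂ => by
        apply Lp.ext
        filter_upwards [(hm (g₁ + g₂)).coeFn_toLp, (hm g₁).coeFn_toLp, (hm g₂).coeFn_toLp,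
          Lp.coeFn_add ((hm g₁).toLp _) ((hm g₂).toLp _), Lp.coeFn_add (L g₁) (L g₂)]
          with x h1 h2 h3 h4 h5
        rw [h1, h4, Pi.add_apply, h2, h3, map_add, h5, Pi.add_apply, smul_add]
      map_smul' := fun z g => by
        apply Lp.ext
        filter_upwards [(hm (z • g)).coeFn_toLp, (hm g).coeFn_toLp,
          Lp.coeFn_smul z ((hm g).toLp _), Lp.coeFn_smul z (L g)] with x h1 h2 h4 h5
        rw [RingHom.id_apply, h1, h4, Pi.smul_apply, h2, map_smul, h5, Pi.smul_apply, smul_comm] }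
  have hB : ∀ g, ‖B0 g‖ ≤ C * ‖g‖ := by
    intro g
    have h1 := lintegral_sq_eq (B0 g)
    have h2 : ∫⁻ x, ENNReal.ofReal (‖B0 g x‖ ^ 2) ∂μ =
        ∫⁻ x, ENNReal.ofReal (‖(a x : ℂ) • L g x‖ ^ 2) ∂μ := by
      apply lintegral_congr_ae
      filter_upwards [(hm g).coeFn_toLp] with x hx
      rw [← hx]; rfl
    have h3 := (h1.symm.trans h2).le.trans (hb' g)
    rw [ENNReal.ofReal_le_ofReal_iff (by positivity)] at h3
    exact le_of_sq_le_sq h3 (by positivity)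
  exact ⟨B0.mkContinuous C hB, fun g => (hm g).coeFn_toLp, hB⟩

/-- The weight `(1 + |ξ|²)^{-1/4}`. -/
noncomputable def uw (ξ : E) : ℝ := (1 + ‖ξ‖ ^ 2) ^ (-(1 / 4) : ℝ)

omit [InnerProductSpace ℝ E] [FiniteDimensional ℝ E] [BorelSpace E] [MeasurableSpace E] in
lemma uw_pos (ξ : E) : 0 < uw ξ := by unfold uw; positivity

omit [InnerProductSpace ℝ E] [FiniteDimensional ℝ E] [BorelSpace E] [MeasurableSpace E] in
lemma uw_sq (ξ : E) : uw ξ ^ 2 = (Real.sqrt (1 + ‖ξ‖ ^ 2))⁻¹ := by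
  unfold uw
  rw [← Real.rpow_mul_natCast (by positivity), Real.sqrt_eq_rpow,
    ← Real.rpow_neg (by positivity)]
  norm_num

omit [InnerProductSpace ℝ E] [FiniteDimensional ℝ E] [BorelSpace E] [MeasurableSpace E] in
lemma uw_sq_le (ξ : E) : uw ξ ^ 2 ≤ 1 ∧ ‖ξ‖ * uw ξ ^ 2 ≤ 1 := by
  rw [uw_sq]
  have h1 : 1 ≤ Real.sqrt (1 + ‖ξ‖ ^ 2) := Real.le_sqrt_of_sq_le (by nlinarith [sq_nonneg ‖ξ‖])
  have h2 : ‖ξ‖ ≤ Real.sqrt (1 + ‖ξ‖ ^ 2) := Real.le_sqrt_of_sq_le (by linarith)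
  exact ⟨inv_le_one_of_one_le₀ h1, by rw [← div_eq_mul_inv, div_le_one (by linarith)]; exact h2⟩

omit [InnerProductSpace ℝ E] [FiniteDimensional ℝ E] [BorelSpace E] [MeasurableSpace E] in
lemma continuous_uw : Continuous (uw : E → ℝ) := by
  unfold uw
  exact Continuous.rpow_const (by fun_prop) fun ξ => Or.inl (by positivity)

/-- The operators `U g = uw • g` and `B g = √V 𝓕⁻ (U g)`. -/
theorem exists_ops {n : ℕ} (hn : Module.finrank ℝ E = n + 1) (hn0 : n ≠ 0) {p : ℝ}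
    (hp : (n : ℝ) + 1 ≤ p) :
    ∃ U : Lp S 2 (volume : Measure E) →L[ℂ] Lp S 2 (volume : Measure E),
      (∀ g, U g =ᵐ[volume] fun ξ => (uw ξ : ℂ) • g ξ) ∧
      ∀ ε : ℝ, 0 < ε → ∃ c : ℝ, 0 < c ∧ ∀ V : E → ℝ, (∀ x, 0 ≤ V x) →
        AEStronglyMeasurable V volume →
        eLpNorm V (ENNReal.ofReal p) volume ≤ ENNReal.ofReal c →
        ∃ B : Lp S 2 (volume : Measure E) →L[ℂ] Lp S 2 (volume : Measure E),
          (∀ g, B g =ᵐ[volume] fun x => (Real.sqrt (V x) : ℂ) •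
            (𝓕⁻ (U g) : Lp S 2 (volume : Measure E)) x) ∧ ∀ g, ‖B g‖ ≤ ε * ‖g‖ := by
  obtain ⟨U, hU, hUn⟩ := exists_mul (μ := (volume : Measure E)) (S := S) uw
    continuous_uw.aestronglyMeasurable (ContinuousLinearMap.id ℂ _) zero_le_one (fun g => by
      rw [one_mul, ← lintegral_sq_eq]
      refine lintegral_mono fun ξ => ENNReal.ofReal_le_ofReal ?_
      exact mul_le_of_le_one_left (by positivity) (uw_sq_le ξ).1)
  refine ⟨U, hU, fun ε hε => ?_⟩
  obtain ⟨C, hC, hform⟩ := form_bound (S := S) hn hn0 hp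
  refine ⟨ε ^ 2 / C, by positivity, fun V hV0 hVm hV => ?_⟩
  obtain ⟨L, hL⟩ : ∃ L : Lp S 2 (volume : Measure E) →L[ℂ] Lp S 2 (volume : Measure E),
      ∀ g, L g = 𝓕⁻ (U g) := ⟨fourierInvCLM ℂ _ ∘L U, fun _ => rfl⟩
  simp only [← hL]
  refine exists_mul (fun x => Real.sqrt (V x))
    (Real.continuous_sqrt.comp_aestronglyMeasurable hVm) L hε.le fun g => ?_
  rcases eq_or_ne g 0 with rfl | hg0
  · rw [map_zero]
    refine le_trans (le_of_eq ?_) zero_le
    rw [← lintegral_zero (μ := (volume : Measure E))]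
    apply lintegral_congr_ae
    filter_upwards [Lp.coeFn_zero S 2 (volume : Measure E)] with x hx
    simp [hx]
  have hN : 0 < ‖g‖ := norm_pos_iff.mpr hg0
  have hi0 : Integrable (fun ξ => ‖g ξ‖ ^ 2) volume :=
    (memLp_two_iff_integrable_sq_norm (Lp.aestronglyMeasurable g)).mp (Lp.memLp g)
  have hpt : ∀ᵐ ξ : E, ‖ξ‖ * ‖U g ξ‖ ^ 2 ≤ ‖g ξ‖ ^ 2 := by
    filter_upwards [hU g] with ξ hξ
    rw [hξ, norm_smul, mul_pow, Complex.norm_real, Real.norm_of_nonneg (uw_pos ξ).le,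
      ← mul_assoc]
    exact mul_le_of_le_one_left (by positivity) (uw_sq_le ξ).2
  have hi : Integrable (fun ξ : E => ‖ξ‖ * ‖U g ξ‖ ^ 2) volume := by
    refine hi0.mono' (continuous_norm.aestronglyMeasurable.mul
      ((Lp.aestronglyMeasurable _).norm.pow 2)) ?_
    filter_upwards [hpt] with ξ hξ
    rwa [Real.norm_of_nonneg (by positivity)]
  have hle : ∫ ξ : E, ‖ξ‖ * ‖U g ξ‖ ^ 2 ≤ ‖g‖ ^ 2 := by
    refine (integral_mono_ae hi hi0 hpt).trans (le_of_eq ?_)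
    have := lintegral_sq_eq g
    rw [← ofReal_integral_eq_lintegral_ofReal hi0 (ae_of_all _ fun _ => by positivity),
      ENNReal.ofReal_eq_ofReal_iff (integral_nonneg fun _ => by positivity) (by positivity)]
      at this
    exact this
  have := hform (ε ^ 2 / C) V (by positivity) hV0 hVm hV (U g) ‖g‖ hN (by simpa using hUn g) hi hle
  simp only [Real.sq_sqrt (hV0 _), hL]
  refine le_trans this (le_of_eq ?_)
  congr 1
  field_simp

end Pool.Agent.MP_0b7119_mp.G.JA
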