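import Pool.Agent.MP_0b7119_mp.Iface

/-! Clifford multiplication, the heat kernel and the resolvent kernel: basic facts. -/

open Set MeasureTheory Real
open scoped ENNReal

namespace Pool.Agent.MP_0b7119_mp.G

set_option linter.unusedSectionVars false

variable {E S : Type} [NormedAddCommGroup E] [InnerProductSpace ℝ E] [FiniteDimensional ℝ E]
  [MeasurableSpace E] [BorelSpace E] [NormedAddCommGroup S] [InnerProductSpace ℂ S]
  [CompleteSpace S] {d : ℕ}

section Clifford

variable {α : Fin d → S →L[ℂ] S} {β : S →L[ℂ] S}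

lemma cl_add (e : Fin d → E) (α : Fin d → S →L[ℂ] S) (v w : E) :
    cl e α (v + w) = cl e α v + cl e α w := by
  simp only [cl, inner_add_right, Complex.ofReal_add, add_smul, Finset.sum_add_distrib]

lemma cl_smul (e : Fin d → E) (α : Fin d → S →L[ℂ] S) (c : ℝ) (v : E) :
    cl e α (c • v) = (c : ℂ) • cl e α v := by
  simp only [cl, inner_smul_right, Complex.ofReal_mul, Finset.smul_sum, smul_smul]

lemma cl_neg (e : Fin d → E) (α : Fin d → S →L[ℂ] S) (v : E) : cl e α (-v) = -cl e α v := by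
  have := cl_smul e α (-1) v
  simpa using this

lemma cl_zero (e : Fin d → E) (α : Fin d → S →L[ℂ] S) : cl e α (0 : E) = 0 := by
  simp [cl]

lemma continuous_cl (e : Fin d → E) (α : Fin d → S →L[ℂ] S) : Continuous (cl e α) := by
  unfold cl
  fun_prop

/-- Clifford multiplication as a real continuous linear map. -/
noncomputable def clL (e : Fin d → E) (α : Fin d → S →L[ℂ] S) : E →L[ℝ] (S →L[ℂ] S) where
  toFun := cl e α
  map_add' := cl_add e α
  map_smul' c v := by rw [cl_smul]; rfl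
  cont := continuous_cl e α

@[simp] lemma clL_apply (e : Fin d → E) (α : Fin d → S →L[ℂ] S) (v : E) :
    clL e α v = cl e α v := rfl

lemma cl_basis (e : OrthonormalBasis (Fin d) ℝ E) (α : Fin d → S →L[ℂ] S) (j : Fin d) :
    cl e α (e j) = α j := by
  unfold cl
  rw [Finset.sum_eq_single j]
  · simp
  · intro k _ hk
    simp [e.orthonormal.2 hk]
  · simp

lemma cl_sa (h : IsDiracRep α β) (e : Fin d → E) (v : E) : star (cl e α v) = cl e α v := by
  unfold cl
  rw [star_sum]
  refine Finset.sum_congr rfl fun j _ => ?_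
  rw [star_smul, (h.sa_α j).star_eq]
  simp

lemma cl_anti (h : IsDiracRep α β) (e : OrthonormalBasis (Fin d) ℝ E) (v w : E) :
    cl e α v * cl e α w + cl e α w * cl e α v = ((2 * inner ℝ v w : ℝ) : ℂ) • 1 := by
  have h1 : cl e α v * cl e α w + cl e α w * cl e α v =
      ∑ j, ∑ k, (((inner ℝ (e j) v : ℝ) : ℂ) * ((inner ℝ (e k) w : ℝ) : ℂ)) •
        (α j * α k + α k * α j) := by
    unfold cl
    rw [Finset.sum_mul_sum, Finset.sum_mul_sum, Finset.sum_comm (s := Finset.univ) (t := Finset.univ)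
      (f := fun k j => (((inner ℝ (e k) w : ℝ) : ℂ) • α k) * (((inner ℝ (e j) v : ℝ) : ℂ) • α j)),
      ← Finset.sum_add_distrib]
    refine Finset.sum_congr rfl fun j _ => ?_
    rw [← Finset.sum_add_distrib]
    refine Finset.sum_congr rfl fun k _ => ?_
    simp only [smul_mul_smul_comm, smul_add]
    rw [mul_comm ((inner ℝ (e k) w : ℝ) : ℂ)]
  rw [h1]
  simp only [h.αα]
  have h2 : ∀ j : Fin d, ∑ k, (((inner ℝ (e j) v : ℝ) : ℂ) * ((inner ℝ (e k) w : ℝ) : ℂ)) •
      (if j = k then (2 : S →L[ℂ] S) else 0) =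
      ((2 * (inner ℝ v (e j) * inner ℝ (e j) w) : ℝ) : ℂ) • (1 : S →L[ℂ] S) := by
    intro j
    rw [Finset.sum_eq_single j]
    · rw [if_pos rfl, real_inner_comm v (e j), ← one_add_one_eq_two (R := S →L[ℂ] S), ← two_smul ℂ,
        smul_smul]
      congr 1
      push_cast
      ring
    · intro k _ hk
      simp [hk.symm]
    · simp
  simp only [h2]
  rw [← Finset.sum_smul, ← e.sum_inner_mul_inner v w]
  congr 1
  push_cast
  rw [Finset.mul_sum]

lemma cl_β (h : IsDiracRep α β) (e : Fin d → E) (v : E) : cl e α v * β = -(β * cl e α v) := by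
  unfold cl
  rw [Finset.sum_mul, Finset.mul_sum, ← Finset.sum_neg_distrib]
  refine Finset.sum_congr rfl fun j _ => ?_
  rw [smul_mul_assoc, mul_smul_comm, eq_neg_of_add_eq_zero_left (h.αβ j), smul_neg]

lemma cl_β_apply (h : IsDiracRep α β) (e : Fin d → E) (v : E) (ξ : S) :
    cl e α v (β ξ) = -β (cl e α v ξ) := by
  have := congrArg (fun T : S →L[ℂ] S => T ξ) (cl_β h e v)
  simpa using this

lemma β_β (h : IsDiracRep α β) (ξ : S) : β (β ξ) = ξ := by
  have := congrArg (fun T : S →L[ℂ] S => T ξ) h.ββ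
  simpa using this

lemma inner_star_left (T : S →L[ℂ] S) (x y : S) : inner ℂ (star T x) y = inner ℂ x (T y) := by
  rw [ContinuousLinearMap.star_eq_adjoint, ContinuousLinearMap.adjoint_inner_left]

lemma inner_cl (h : IsDiracRep α β) (e : Fin d → E) (v : E) (x y : S) :
    inner ℂ (cl e α v x) y = inner ℂ x (cl e α v y) := by
  rw [← inner_star_left, cl_sa h]

lemma inner_β (h : IsDiracRep α β) (x y : S) : inner ℂ (β x) y = inner ℂ x (β y) := by
  rw [← inner_star_left, h.sa_β.star_eq]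

lemma re_inner_cl_cl (h : IsDiracRep α β) (e : OrthonormalBasis (Fin d) ℝ E) (v w : E) (ξ : S) :
    (inner ℂ (cl e α v ξ) (cl e α w ξ)).re = inner ℝ v w * ‖ξ‖ ^ 2 := by
  have h1 := congrArg (fun T : S →L[ℂ] S => (inner ℂ ξ (T ξ)).re) (cl_anti h e v w)
  simp only [ContinuousLinearMap.add_apply, ContinuousLinearMap.mul_apply, inner_add_right,
    Complex.add_re, ContinuousLinearMap.smul_apply, ContinuousLinearMap.one_apply,
    inner_smul_right] at h1
  rw [← inner_cl h e v ξ, ← inner_cl h e w ξ] at h1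
  have h2 : (inner ℂ (cl e α w ξ) (cl e α v ξ)).re = (inner ℂ (cl e α v ξ) (cl e α w ξ)).re :=
    inner_re_symm (𝕜 := ℂ) _ _
  have h3 : (inner ℂ ξ ξ).re = ‖ξ‖ ^ 2 := inner_self_eq_norm_sq (𝕜 := ℂ) ξ
  rw [h2, Complex.re_ofReal_mul, h3] at h1
  linarith

lemma norm_cl_apply (h : IsDiracRep α β) (e : OrthonormalBasis (Fin d) ℝ E) (v : E) (ξ : S) :
    ‖cl e α v ξ‖ = ‖v‖ * ‖ξ‖ := by
  have h1 := re_inner_cl_cl h e v v ξ
  have h3 : (inner ℂ (cl e α v ξ) (cl e α v ξ)).re = ‖cl e α v ξ‖ ^ 2 :=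
    inner_self_eq_norm_sq (𝕜 := ℂ) _
  rw [h3, real_inner_self_eq_norm_sq, ← mul_pow] at h1
  exact (pow_left_inj₀ (norm_nonneg _) (by positivity) two_ne_zero).1 h1

lemma norm_cl_le (h : IsDiracRep α β) (e : OrthonormalBasis (Fin d) ℝ E) (v : E) :
    ‖cl e α v‖ ≤ ‖v‖ :=
  ContinuousLinearMap.opNorm_le_bound _ (norm_nonneg _) fun ξ => (norm_cl_apply h e v ξ).le

lemma norm_β_apply (h : IsDiracRep α β) (ξ : S) : ‖β ξ‖ = ‖ξ‖ := by
  have h1 : inner ℂ (β ξ) (β ξ) = inner ℂ ξ ξ := by rw [inner_β h, β_β h]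
  have h2 := congrArg Complex.re h1
  have h3 : ∀ x : S, (inner ℂ x x).re = ‖x‖ ^ 2 := fun x => inner_self_eq_norm_sq (𝕜 := ℂ) x
  rw [h3, h3] at h2
  exact (pow_left_inj₀ (norm_nonneg _) (norm_nonneg _) two_ne_zero).1 h2

lemma norm_β_le (h : IsDiracRep α β) : ‖β‖ ≤ 1 :=
  ContinuousLinearMap.opNorm_le_bound _ zero_le_one fun ξ => by rw [norm_β_apply h, one_mul]

/-- An upper spinor is orthogonal to its Clifford multiples. -/
lemma inner_cl_upper (h : IsDiracRep α β) (e : Fin d → E) (v : E) {ξ : S} (hξ : β ξ = ξ) :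
    inner ℂ ξ (cl e α v ξ) = 0 := by
  have h1 : inner ℂ ξ (cl e α v ξ) = -inner ℂ ξ (cl e α v ξ) := by
    have h2 := cl_β_apply h e v ξ
    rw [hξ] at h2
    conv_lhs => rw [h2, inner_neg_right, ← inner_β h, hξ]
  linear_combination h1 / 2

end Clifford

section Heat

lemma heat_nonneg {t : ℝ} (ht : 0 ≤ t) (z : E) : 0 ≤ heat t z := by
  unfold heat
  have : 0 ≤ 4 * π * t := by positivity
  positivity

lemma heat_neg (t : ℝ) (z : E) : heat t (-z) = heat t z := by simp [heat]

lemma measurable_heat : Measurable (fun p : ℝ × E => heat p.1 p.2) := by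
  unfold heat
  fun_prop

lemma integrable_gauss {b : ℝ} (hb : 0 < b) : Integrable (fun z : E => rexp (-b * ‖z‖ ^ 2)) := by
  have h := (GaussianFourier.integrable_cexp_neg_mul_sq_norm_add (V := E) (b := (b : ℂ))
    (by simpa using hb) 0 0).norm
  refine h.congr (Filter.Eventually.of_forall fun z => ?_)
  simp only [zero_mul, add_zero, Complex.norm_exp]
  congr 1
  rw [← Complex.ofReal_pow, ← Complex.ofReal_neg, ← Complex.ofReal_mul, Complex.ofReal_re]

lemma heat_eq {t : ℝ} (z : E) : heat t z =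
    (4 * π * t) ^ (-(Module.finrank ℝ E : ℝ) / 2) * rexp (-(1 / (4 * t)) * ‖z‖ ^ 2) := by
  unfold heat
  congr 2
  ring

lemma integrable_heat {t : ℝ} (ht : 0 < t) : Integrable (fun z : E => heat t z) := by
  simp only [heat_eq]
  exact (integrable_gauss (by positivity)).const_mul _

lemma integral_heat {t : ℝ} (ht : 0 < t) : ∫ z : E, heat t z = 1 := by
  simp only [heat_eq]
  rw [integral_const_mul, GaussianFourier.integral_rexp_neg_mul_sq_norm (by positivity)]
  have h1 : π / (1 / (4 * t)) = 4 * π * t := by field_simp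
  rw [h1, ← Real.rpow_add (by positivity)]
  have : -(Module.finrank ℝ E : ℝ) / 2 + (Module.finrank ℝ E : ℝ) / 2 = 0 := by ring
  rw [this, Real.rpow_zero]

/-- The constant in `heat t z * ‖z‖ ≤ C √t heat (2t) z`. -/
noncomputable def cH (E : Type) [NormedAddCommGroup E] [InnerProductSpace ℝ E] : ℝ :=
  2 * (2 : ℝ) ^ ((Module.finrank ℝ E : ℝ) / 2)

lemma cH_pos : 0 < cH E := by unfold cH; positivity

lemma heat_mul_norm_le {t : ℝ} (ht : 0 < t) (z : E) :
    heat t z * ‖z‖ ≤ cH E * √t * heat (2 * t) z := by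
  set n : ℝ := (Module.finrank ℝ E : ℝ)
  have hs : 0 < √t := Real.sqrt_pos.2 ht
  have h1 : (4 * π * t) ^ (-n / 2) = (2 : ℝ) ^ (n / 2) * (4 * π * (2 * t)) ^ (-n / 2) := by
    rw [show 4 * π * (2 * t) = 2 * (4 * π * t) by ring,
      Real.mul_rpow (x := 2) (by norm_num) (by positivity), ← mul_assoc,
      ← Real.rpow_add (by norm_num)]
    rw [show n / 2 + -n / 2 = 0 by ring, Real.rpow_zero, one_mul]
  have h2 : rexp (-‖z‖ ^ 2 / (4 * t)) * ‖z‖ ≤ 2 * √t * rexp (-‖z‖ ^ 2 / (4 * (2 * t))) := by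
    have h3 : rexp (-‖z‖ ^ 2 / (4 * (2 * t))) =
        rexp (-‖z‖ ^ 2 / (4 * t)) * rexp (‖z‖ ^ 2 / (8 * t)) := by
      rw [← Real.exp_add]; congr 1; field_simp; ring
    have h4 : ‖z‖ ≤ 2 * √t * rexp (‖z‖ ^ 2 / (8 * t)) := by
      have h5 := Real.add_one_le_exp (‖z‖ ^ 2 / (8 * t))
      have h6 : ‖z‖ ≤ 2 * √t * (‖z‖ ^ 2 / (8 * t) + 1) := by
        have h7 : 2 * √t * (‖z‖ ^ 2 / (8 * t) + 1) - ‖z‖ =
            ((‖z‖ - 2 * √t) ^ 2 + 4 * √t ^ 2) / (4 * √t) := by
          conv_lhs => rw [← Real.sq_sqrt ht.le]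
          rw [Real.sqrt_sq hs.le]
          field_simp
          ring
        have h8 : 0 ≤ ((‖z‖ - 2 * √t) ^ 2 + 4 * √t ^ 2) / (4 * √t) := by positivity
        linarith
      exact h6.trans (by gcongr)
    rw [h3]
    calc rexp (-‖z‖ ^ 2 / (4 * t)) * ‖z‖
        ≤ rexp (-‖z‖ ^ 2 / (4 * t)) * (2 * √t * rexp (‖z‖ ^ 2 / (8 * t))) := by gcongr
      _ = _ := by ring
  unfold heat cH
  rw [h1]
  have h9 : 0 ≤ (2 : ℝ) ^ (n / 2) * (4 * π * (2 * t)) ^ (-n / 2) := by positivity
  calc _ = (2 : ℝ) ^ (n / 2) * (4 * π * (2 * t)) ^ (-n / 2) *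
        (rexp (-‖z‖ ^ 2 / (4 * t)) * ‖z‖) := by ring
    _ ≤ (2 : ℝ) ^ (n / 2) * (4 * π * (2 * t)) ^ (-n / 2) *
        (2 * √t * rexp (-‖z‖ ^ 2 / (4 * (2 * t)))) := by gcongr
    _ = _ := by ring

lemma integrable_heat_mul_norm {t : ℝ} (ht : 0 < t) :
    Integrable (fun z : E => heat t z * ‖z‖) := by
  refine ((integrable_heat (E := E) (by linarith : 0 < 2 * t)).const_mul (cH E * √t)).mono' ?_
    (Filter.Eventually.of_forall fun z => ?_)
  · exact ((measurable_heat.comp (measurable_prodMk_left (x := t))).mul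
      measurable_norm).aestronglyMeasurable
  · rw [Real.norm_of_nonneg (mul_nonneg (heat_nonneg ht.le z) (norm_nonneg z))]
    exact heat_mul_norm_le ht z

lemma integral_heat_mul_norm_le {t : ℝ} (ht : 0 < t) :
    ∫ z : E, heat t z * ‖z‖ ≤ cH E * √t := by
  calc _ ≤ ∫ z : E, cH E * √t * heat (2 * t) z :=
        integral_mono (integrable_heat_mul_norm ht)
          ((integrable_heat (by linarith)).const_mul _) fun z => heat_mul_norm_le ht z
    _ = _ := by rw [integral_const_mul, integral_heat (by linarith), mul_one]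

lemma integrableOn_exp_rpow {b s : ℝ} (hb : 0 < b) (hs : -1 < s) :
    IntegrableOn (fun t : ℝ => t ^ s * rexp (-(b * t))) (Ioi 0) := by
  have := integrableOn_rpow_mul_exp_neg_mul_rpow hs one_pos hb
  simpa using this

lemma integrable_prod_g {b : ℝ} (hb : 0 < b) :
    Integrable (fun p : ℝ × E => rexp (-b * p.1) * heat p.1 p.2)
      ((volume.restrict (Ioi 0)).prod volume) := by
  have hm : Measurable (fun p : ℝ × E => rexp (-b * p.1) * heat p.1 p.2) :=
    (by fun_prop : Measurable fun p : ℝ × E => rexp (-b * p.1)).mul measurable_heat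
  rw [integrable_prod_iff hm.aestronglyMeasurable]
  refine ⟨(ae_restrict_iff' measurableSet_Ioi).2 (Filter.Eventually.of_forall fun t ht =>
    (integrable_heat (E := E) ht).const_mul (rexp (-b * t))), ?_⟩
  refine (exp_neg_integrableOn_Ioi 0 hb).congr_fun (fun t ht => ?_) measurableSet_Ioi
  have : ∀ z : E, ‖rexp (-b * t) * heat t z‖ = rexp (-b * t) * heat t z := fun z =>
    Real.norm_of_nonneg (mul_nonneg (Real.exp_pos _).le (heat_nonneg (le_of_lt ht) z))
  simp only [this]
  rw [integral_const_mul, integral_heat ht, mul_one]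

lemma integral_q_le {b t : ℝ} (ht : 0 < t) :
    ∫ z : E, rexp (-b * t) * (heat t z / (2 * t)) * ‖z‖ ≤
      cH E / 2 * (t ^ (-(1 / 2) : ℝ) * rexp (-(b * t))) := by
  have h1 : ∀ z : E, rexp (-b * t) * (heat t z / (2 * t)) * ‖z‖ =
      rexp (-b * t) / (2 * t) * (heat t z * ‖z‖) := fun z => by ring
  simp only [h1]
  rw [integral_const_mul]
  calc _ ≤ rexp (-b * t) / (2 * t) * (cH E * √t) := by
        gcongr
        exact integral_heat_mul_norm_le ht
    _ = _ := by
        rw [Real.rpow_neg ht.le, ← Real.sqrt_eq_rpow, neg_mul]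
        have hs : 0 < √t := Real.sqrt_pos.2 ht
        field_simp
        rw [Real.sq_sqrt ht.le, mul_comm]

lemma integrable_prod_q {b : ℝ} (hb : 0 < b) :
    Integrable (fun p : ℝ × E => rexp (-b * p.1) * (heat p.1 p.2 / (2 * p.1)) * ‖p.2‖)
      ((volume.restrict (Ioi 0)).prod volume) := by
  have hm : Measurable (fun p : ℝ × E => rexp (-b * p.1) * (heat p.1 p.2 / (2 * p.1)) * ‖p.2‖) :=
    ((by fun_prop : Measurable fun p : ℝ × E => rexp (-b * p.1)).mul
      (measurable_heat.div (by fun_prop))).mul (by fun_prop)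
  rw [integrable_prod_iff hm.aestronglyMeasurable]
  refine ⟨(ae_restrict_iff' measurableSet_Ioi).2 (Filter.Eventually.of_forall fun t ht => ?_), ?_⟩
  · refine ((integrable_heat_mul_norm (E := E) ht).const_mul (rexp (-b * t) / (2 * t))).congr
      (Filter.Eventually.of_forall fun z => ?_)
    simp only
    ring
  · refine ((integrableOn_exp_rpow hb (by norm_num : (-1 : ℝ) < -(1 / 2))).const_mul
      (cH E / 2)).mono' hm.norm.stronglyMeasurable.integral_prod_right'.aestronglyMeasurable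
      ((ae_restrict_iff' measurableSet_Ioi).2 (Filter.Eventually.of_forall fun t ht => ?_))
    have ht' : 0 < t := ht
    have h0 : ∀ z : E, 0 ≤ rexp (-b * t) * (heat t z / (2 * t)) * ‖z‖ := fun z => by
      have := heat_nonneg ht'.le z
      positivity
    rw [Real.norm_of_nonneg (integral_nonneg fun z => norm_nonneg _)]
    simp only [Real.norm_of_nonneg (h0 _)]
    exact integral_q_le ht'

lemma gk_nonneg (b : ℝ) (z : E) : 0 ≤ gk b z :=
  setIntegral_nonneg measurableSet_Ioi fun _ ht =>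
    mul_nonneg (Real.exp_pos _).le (heat_nonneg (le_of_lt ht) z)

lemma qk_nonneg (b : ℝ) (z : E) : 0 ≤ qk b z :=
  setIntegral_nonneg measurableSet_Ioi fun t ht => by
    have ht' : 0 < t := ht
    have := heat_nonneg ht'.le z
    positivity

lemma gk_neg (b : ℝ) (z : E) : gk b (-z) = gk b z := by simp only [gk, heat_neg]

lemma qk_neg (b : ℝ) (z : E) : qk b (-z) = qk b z := by simp only [qk, heat_neg]

lemma measurable_gk (b : ℝ) : Measurable (gk b : E → ℝ) := by
  have hm : Measurable (fun p : ℝ × E => rexp (-b * p.1) * heat p.1 p.2) :=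
    (by fun_prop : Measurable fun p : ℝ × E => rexp (-b * p.1)).mul measurable_heat
  exact (hm.stronglyMeasurable.integral_prod_left' (μ := volume.restrict (Ioi 0))).measurable

lemma measurable_qk (b : ℝ) : Measurable (qk b : E → ℝ) := by
  have hm : Measurable (fun p : ℝ × E => rexp (-b * p.1) * (heat p.1 p.2 / (2 * p.1))) :=
    (by fun_prop : Measurable fun p : ℝ × E => rexp (-b * p.1)).mul
      (measurable_heat.div (by fun_prop))
  exact (hm.stronglyMeasurable.integral_prod_left' (μ := volume.restrict (Ioi 0))).measurable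

lemma integrable_gk {b : ℝ} (hb : 0 < b) : Integrable (gk b : E → ℝ) :=
  (integrable_prod_g hb).integral_prod_right

lemma integral_gk {b : ℝ} (hb : 0 < b) : ∫ z : E, gk b z = 1 / b := by
  unfold gk
  rw [← integral_integral_swap (f := fun t z => rexp (-b * t) * heat t z) (integrable_prod_g hb)]
  rw [setIntegral_congr_fun measurableSet_Ioi (g := fun t => rexp (-b * t)) fun t ht => by
    simp only
    rw [integral_const_mul, integral_heat ht, mul_one]]
  rw [integral_exp_mul_Ioi (by linarith)]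
  simp

lemma qk_mul_norm (b : ℝ) (z : E) : qk b z * ‖z‖ =
    ∫ t in Ioi (0 : ℝ), rexp (-b * t) * (heat t z / (2 * t)) * ‖z‖ := by
  rw [integral_mul_const]; rfl

lemma integrable_qk {b : ℝ} (hb : 0 < b) : Integrable (fun z : E => qk b z * ‖z‖) := by
  simp only [qk_mul_norm]
  exact (integrable_prod_q hb).integral_prod_right

lemma integral_qk_le {b : ℝ} (hb : 0 < b) : ∫ z : E, qk b z * ‖z‖ ≤ cH E / √b := by
  simp only [qk_mul_norm]
  rw [← integral_integral_swap (f := fun t z => rexp (-b * t) * (heat t z / (2 * t)) * ‖z‖)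
    (integrable_prod_q hb)]
  calc _ ≤ ∫ t in Ioi (0 : ℝ), cH E / 2 * (t ^ (-(1 / 2) : ℝ) * rexp (-(b * t))) := by
        refine setIntegral_mono_on (integrable_prod_q hb).integral_prod_left
          ((integrableOn_exp_rpow hb (by norm_num)).const_mul _) measurableSet_Ioi
          fun t ht => integral_q_le ht
    _ = cH E / 2 * ((1 / b) ^ (1 / 2 : ℝ) * Real.Gamma (1 / 2)) := by
        rw [integral_const_mul, ← Real.integral_rpow_mul_exp_neg_mul_Ioi (by norm_num) hb]
        norm_num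
    _ ≤ _ := by
        rw [Real.Gamma_one_half_eq, ← Real.sqrt_eq_rpow, Real.sqrt_div zero_le_one, Real.sqrt_one]
        have h1 : √π ≤ 2 := by
          rw [Real.sqrt_le_left (by norm_num)]
          linarith [Real.pi_le_four]
        have h2 := cH_pos (E := E)
        have hs : 0 < √b := Real.sqrt_pos.2 hb
        calc cH E / 2 * (1 / √b * √π) ≤ cH E / 2 * (1 / √b * 2) := by gcongr
          _ = _ := by ring

end Heat

section Resolvent

variable {α : Fin d → S →L[ℂ] S} {β : S →L[ℂ] S}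

lemma stronglyMeasurable_rk (e : Fin d → E) (α : Fin d → S →L[ℂ] S) (β : S →L[ℂ] S) (m l : ℝ) :
    StronglyMeasurable (rk e α β m l) := by
  unfold rk
  refine StronglyMeasurable.add ?_ ?_
  · exact (Complex.continuous_ofReal.measurable.comp
      (measurable_gk _)).stronglyMeasurable.smul_const _
  · exact (measurable_const.mul (Complex.continuous_ofReal.measurable.comp
      (measurable_qk _))).stronglyMeasurable.smul (continuous_cl e α).stronglyMeasurable

lemma norm_mass_le (h : IsDiracRep α β) (m l : ℝ) :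
    ‖(m : ℂ) • β + (l : ℂ) • (1 : S →L[ℂ] S)‖ ≤ |m| + |l| := by
  refine (norm_add_le _ _).trans (add_le_add ?_ ?_)
  · rw [norm_smul, Complex.norm_real, Real.norm_eq_abs]
    exact mul_le_of_le_one_right (abs_nonneg _) (norm_β_le h)
  · rw [norm_smul, Complex.norm_real, Real.norm_eq_abs]
    exact mul_le_of_le_one_right (abs_nonneg _) ContinuousLinearMap.norm_id_le

lemma norm_rk_le (h : IsDiracRep α β) (e : OrthonormalBasis (Fin d) ℝ E) (m l : ℝ) (z : E) :
    ‖rk e α β m l z‖ ≤ (|m| + |l|) * gk (m ^ 2 - l ^ 2) z + qk (m ^ 2 - l ^ 2) z * ‖z‖ := by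
  unfold rk
  refine (norm_add_le _ _).trans (add_le_add ?_ ?_)
  · rw [norm_smul, Complex.norm_real, Real.norm_of_nonneg (gk_nonneg _ _), mul_comm]
    exact mul_le_mul_of_nonneg_right (norm_mass_le h m l) (gk_nonneg _ _)
  · rw [norm_smul, norm_mul, Complex.norm_I, one_mul, Complex.norm_real,
      Real.norm_of_nonneg (qk_nonneg _ _)]
    exact mul_le_mul_of_nonneg_left (norm_cl_le h e z) (qk_nonneg _ _)

lemma gap_pos {m l : ℝ} (hl : l ∈ Ioo (-m) m) : 0 < m ^ 2 - l ^ 2 := by
  nlinarith [hl.1, hl.2]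

lemma integrable_rk (h : IsDiracRep α β) (e : OrthonormalBasis (Fin d) ℝ E) {m l : ℝ}
    (hl : l ∈ Ioo (-m) m) : Integrable (rk e α β m l) :=
  (((integrable_gk (gap_pos hl)).const_mul (|m| + |l|)).add (integrable_qk (gap_pos hl))).mono'
    (stronglyMeasurable_rk e α β m l).aestronglyMeasurable
    (Filter.Eventually.of_forall fun z => norm_rk_le h e m l z)

lemma rk_neg (h : IsDiracRep α β) (e : Fin d → E) (m l : ℝ) (z : E) :
    rk e α β m l (-z) = star (rk e α β m l z) := by
  unfold rk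
  rw [gk_neg, qk_neg, cl_neg]
  simp only [star_add, star_smul, cl_sa h, h.sa_β.star_eq, star_one, Complex.star_def,
    Complex.conj_ofReal, map_mul, Complex.conj_I, smul_neg, neg_mul, neg_smul]

lemma rk_apply (e : Fin d → E) (α : Fin d → S →L[ℂ] S) (β : S →L[ℂ] S) (m l : ℝ) (z : E) (ξ : S) :
    rk e α β m l z ξ = (gk (m ^ 2 - l ^ 2) z : ℂ) • ((m : ℂ) • β ξ + (l : ℂ) • ξ) +
      (Complex.I * (qk (m ^ 2 - l ^ 2) z : ℂ)) • cl e α z ξ := by
  simp [rk]

lemma β_rk_neg (h : IsDiracRep α β) (e : Fin d → E) (m l : ℝ) (z : E) (ξ : S) :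
    β (rk e α β m l (-z) ξ) = rk e α β m l z (β ξ) := by
  rw [rk_apply, rk_apply, gk_neg, qk_neg, cl_neg, cl_β_apply h]
  simp

end Resolvent

end Pool.Agent.MP_0b7119_mp.G
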