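import Pool.Agent.MP_0b7119_mp.JobA2
import Pool.Agent.MP_0b7119_mp.Kern

/-! Job A, part 3: the symbol of the Dirac operator. -/

open Set MeasureTheory FourierTransform Real
open scoped ENNReal SchwartzMap ContDiff LineDeriv

namespace Pool.Agent.MP_0b7119_mp.G.JA

set_option linter.unusedSectionVars false

variable {E S : Type} [NormedAddCommGroup E] [InnerProductSpace ℝ E] [FiniteDimensional ℝ E]
  [MeasurableSpace E] [BorelSpace E] [NormedAddCommGroup S] [InnerProductSpace ℂ S]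
  [CompleteSpace S] {d : ℕ} {α : Fin d → S →L[ℂ] S} {β : S →L[ℂ] S}

/-- The symbol of `D_m - l`. -/
noncomputable def sym (e : Fin d → E) (α : Fin d → S →L[ℂ] S) (β : S →L[ℂ] S) (m l : ℝ)
    (ξ : E) (y : S) : S :=
  ((2 * π : ℝ) : ℂ) • cl e α ξ y + (m : ℂ) • β y - (l : ℂ) • y

lemma fourier_postcomp (L : S →L[ℂ] S) (f : 𝓢(E, S)) (ξ : E) :
    𝓕 (f.postcompCLM L) ξ = L (𝓕 f ξ) := by
  rw [SchwartzMap.fourier_coe, SchwartzMap.fourier_coe, Real.fourier_eq, Real.fourier_eq,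
    ← L.integral_comp_comm ((Real.fourierIntegral_convergent_iff ξ).mpr f.integrable)]
  congr 1; ext x
  simp [Circle.smul_def]

lemma exists_dirac (e : Fin d → E) (α : Fin d → S →L[ℂ] S) (β : S →L[ℂ] S) (m l : ℝ)
    (φ : 𝓢(E, S)) : ∃ Φ : 𝓢(E, S), (∀ x, Φ x = dirac e α β m φ x - (l : ℂ) • φ x) ∧
      ∀ ξ, 𝓕 Φ ξ = sym e α β m l ξ (𝓕 φ ξ) := by
  refine ⟨∑ j, (-Complex.I) • (∂_{e j} φ).postcompCLM (α j) + (m : ℂ) • φ.postcompCLM β +
    (-(l : ℂ)) • φ, fun x => ?_, fun ξ => ?_⟩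
  · simp [dirac, SchwartzMap.lineDerivOp_apply_eq_fderiv, sub_eq_add_neg]
  · rw [FourierTransform.fourier_add, FourierTransform.fourier_add, FourierTransform.fourier_sum]
    simp only [FourierTransform.fourier_smul, add_apply, sum_apply, smul_apply, fourier_postcomp,
      SchwartzMap.fourier_lineDerivOp_eq]
    unfold sym cl
    rw [sub_eq_add_neg, neg_smul]
    congr 2
    rw [sum_apply, Finset.smul_sum]
    refine Finset.sum_congr rfl fun j _ => ?_
    have : (fun x : E => inner ℝ x (e j)).HasTemperateGrowth := by fun_prop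
    rw [SchwartzMap.smulLeftCLM_apply_apply this, map_smul, ← Complex.coe_smul, map_smul,
      smul_apply, smul_smul, smul_smul, smul_smul, real_inner_comm]
    congr 1
    push_cast
    linear_combination (-2 * π * (inner ℝ (e j) ξ : ℝ) : ℂ) * Complex.I_sq

lemma inner_sym (h : IsDiracRep α β) (e : Fin d → E) (m l : ℝ) (ξ : E) (x y : S) :
    inner ℂ (sym e α β m l ξ x) y = inner ℂ x (sym e α β m l ξ y) := by
  simp only [sym, inner_sub_left, inner_sub_right, inner_add_left, inner_add_right,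
    inner_smul_left, inner_smul_right, Complex.conj_ofReal, inner_cl h, inner_β h]

lemma sym_smul (e : Fin d → E) (m l : ℝ) (ξ : E) (z : ℂ) (x : S) :
    sym e α β m l ξ (z • x) = z • sym e α β m l ξ x := by
  simp only [sym, map_smul, smul_add, smul_sub, smul_comm z]

lemma continuous_sym (e : Fin d → E) (m l : ℝ) :
    Continuous fun z : E × S => sym e α β m l z.1 z.2 := by
  unfold sym
  have := (continuous_cl e α).comp (continuous_fst (X := E) (Y := S))
  have h2 : Continuous fun z : E × S => cl e α z.1 z.2 := this.clm_apply continuous_snd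
  fun_prop

lemma norm_sym_zero (h : IsDiracRep α β) (e : OrthonormalBasis (Fin d) ℝ E) (m : ℝ) (ξ : E)
    (y : S) : ‖sym e α β m 0 ξ y‖ = Real.sqrt (4 * π ^ 2 * ‖ξ‖ ^ 2 + m ^ 2) * ‖y‖ := by
  have h0 : (inner ℂ (cl e α ξ y) (β y)).re = 0 := by
    have h1 : inner ℂ (cl e α ξ y) (β y) = -inner ℂ (β y) (cl e α ξ y) := by
      rw [inner_cl h, cl_β_apply h, inner_neg_right, inner_β h]
    have h2 := congrArg Complex.re h1
    have h3 : (inner ℂ (β y) (cl e α ξ y)).re = (inner ℂ (cl e α ξ y) (β y)).re := by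
      rw [← inner_conj_symm, Complex.conj_re]
    rw [Complex.neg_re, h3] at h2
    linarith
  have h1 : ‖sym e α β m 0 ξ y‖ ^ 2 = (4 * π ^ 2 * ‖ξ‖ ^ 2 + m ^ 2) * ‖y‖ ^ 2 := by
    simp only [sym, Complex.ofReal_zero, zero_smul, sub_zero]
    rw [@norm_add_sq ℂ, norm_smul, norm_smul, norm_cl_apply h, norm_β_apply h, inner_smul_left,
      inner_smul_right, Complex.conj_ofReal]
    simp only [RCLike.re_to_complex, Complex.re_ofReal_mul, h0, Complex.norm_real,
      Real.norm_eq_abs, mul_pow, sq_abs]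
    ring
  rw [← Real.sqrt_sq (norm_nonneg (sym e α β m 0 ξ y)), h1, Real.sqrt_mul (by positivity),
    Real.sqrt_sq (norm_nonneg _)]

/-- The two pointwise inequalities for the symbol. -/
lemma sym_ineq (h : IsDiracRep α β) (e : OrthonormalBasis (Fin d) ℝ E) {m l : ℝ} (hm : 0 < m)
    (hl : l ∈ Ioc (-m) 0) (ξ : E) (y : S) :
    (1 + l / m) * min m 1 * ‖y‖ ≤ uw ξ ^ 2 * ‖sym e α β m l ξ y‖ ∧
    min m 1 * (inner ℂ y (sym e α β m l ξ y)).re ≤ uw ξ ^ 2 * ‖sym e α β m l ξ y‖ ^ 2 ∧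
    ‖sym e α β m l ξ y‖ ≤ (Real.sqrt (4 * π ^ 2 * ‖ξ‖ ^ 2 + m ^ 2) + m) * ‖y‖ := by
  set En := Real.sqrt (4 * π ^ 2 * ‖ξ‖ ^ 2 + m ^ 2) with hEn
  set D := sym e α β m 0 ξ y with hD
  have hDn : ‖D‖ = En * ‖y‖ := norm_sym_zero h e m ξ y
  have hA : sym e α β m l ξ y = D - (l : ℂ) • y := by simp [hD, sym]
  have hEm : m ≤ En := Real.le_sqrt_of_sq_le (by
    have : 0 ≤ 4 * π ^ 2 * ‖ξ‖ ^ 2 := by positivity
    linarith)
  set μ := min m 1 with hμ
  have hμ0 : 0 < μ := lt_min hm one_pos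
  have hμ1 : μ ≤ 1 := min_le_right _ _
  have hμm : μ ≤ m := min_le_left _ _
  set W := Real.sqrt (1 + ‖ξ‖ ^ 2) with hW
  have hW0 : 0 < W := Real.sqrt_pos.mpr (by positivity)
  have hEW : μ * W ≤ En := Real.le_sqrt_of_sq_le (by
    rw [mul_pow, hW, Real.sq_sqrt (by positivity)]
    have h1 : μ ^ 2 ≤ m ^ 2 := by gcongr
    have h2 : μ ^ 2 ≤ 4 * π ^ 2 := by nlinarith [Real.pi_gt_three]
    nlinarith [sq_nonneg ‖ξ‖])
  have hly : ‖(l : ℂ) • y‖ = -l * ‖y‖ := by
    rw [norm_smul, Complex.norm_real, Real.norm_of_nonpos hl.2]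
  have hy := norm_nonneg y
  have hlm : 0 < 1 + l / m := by
    have : -1 < l / m := by rw [lt_div_iff₀ hm]; linarith [hl.1]
    linarith
  rw [uw_sq, ← hW, hA]
  refine ⟨?_, ?_, ?_⟩
  · have h1 := norm_sub_norm_le D ((l : ℂ) • y)
    rw [hDn, hly] at h1
    have h2 : (1 + l / m) * En ≤ En + l := by
      have : l / m * En ≤ l / m * m :=
        mul_le_mul_of_nonpos_left hEm (div_nonpos_of_nonpos_of_nonneg hl.2 hm.le)
      rw [div_mul_cancel₀ _ hm.ne'] at this
      linarith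
    rw [← div_eq_inv_mul, le_div_iff₀ hW0]
    calc (1 + l / m) * μ * ‖y‖ * W = (1 + l / m) * (μ * W) * ‖y‖ := by ring
      _ ≤ (1 + l / m) * En * ‖y‖ := by gcongr
      _ ≤ (En + l) * ‖y‖ := by gcongr
      _ ≤ _ := by linarith
  · set s := (inner ℂ y D).re with hs
    have hsle : s ≤ En * ‖y‖ ^ 2 := by
      have := (Complex.re_le_norm (inner ℂ y D)).trans (norm_inner_le_norm (𝕜 := ℂ) y D)
      rw [hDn] at this
      nlinarith
    have hyy : (inner ℂ y y).re = ‖y‖ ^ 2 := inner_self_eq_norm_sq (𝕜 := ℂ) y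
    have e1 : (inner ℂ y (D - (l : ℂ) • y)).re = s - l * ‖y‖ ^ 2 := by
      rw [inner_sub_right, inner_smul_right, Complex.sub_re, Complex.re_ofReal_mul, hyy]
    have e2 : ‖D - (l : ℂ) • y‖ ^ 2 = En ^ 2 * ‖y‖ ^ 2 - 2 * l * s + l ^ 2 * ‖y‖ ^ 2 := by
      rw [@norm_sub_sq ℂ, hDn, hly, inner_smul_right]
      simp only [RCLike.re_to_complex, Complex.re_ofReal_mul]
      rw [← inner_conj_symm, Complex.conj_re, ← hs]
      ring
    rw [e1, ← div_eq_inv_mul, le_div_iff₀ hW0]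
    rcases le_total (s - l * ‖y‖ ^ 2) 0 with h0 | h0
    · have : μ * (s - l * ‖y‖ ^ 2) * W ≤ 0 :=
        mul_nonpos_of_nonpos_of_nonneg (mul_nonpos_of_nonneg_of_nonpos hμ0.le h0) hW0.le
      exact this.trans (by positivity)
    · calc μ * (s - l * ‖y‖ ^ 2) * W = μ * W * (s - l * ‖y‖ ^ 2) := by ring
        _ ≤ En * (s - l * ‖y‖ ^ 2) := by gcongr
        _ ≤ _ := by
          rw [e2]
          have h1 : 0 ≤ (En + l) * (En * ‖y‖ ^ 2 - s) :=
            mul_nonneg (by linarith [hl.1]) (by linarith)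
          have h2 : 0 ≤ -l * (s - l * ‖y‖ ^ 2) := mul_nonneg (by linarith [hl.2]) h0
          nlinarith
  · have h1 := norm_sub_le D ((l : ℂ) • y)
    rw [hDn, hly] at h1
    nlinarith [hl.1]

end Pool.Agent.MP_0b7119_mp.G.JA
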