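import Pool.Agent.MP_0b7119_mp.Iface

/-! Job C, part 1: the Newton field of bounded densities and the trilinear form. -/

open Set MeasureTheory Module
open scoped ENNReal RealInnerProductSpace

namespace Pool.Agent.MP_0b7119_mp.G.C

variable {E : Type} [NormedAddCommGroup E] [InnerProductSpace ℝ E] [FiniteDimensional ℝ E]
  [MeasurableSpace E] [BorelSpace E]

omit [FiniteDimensional ℝ E] [MeasurableSpace E] [BorelSpace E] in
lemma kN_neg (z : E) : kN (-z) = -kN z := by simp [kN]

omit [FiniteDimensional ℝ E] [MeasurableSpace E] [BorelSpace E] in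
lemma kN_smul {t : ℝ} (ht : 0 < t) (z : E) :
    kN (t • z) = (t * (t ^ finrank ℝ E)⁻¹) • kN z := by
  simp only [kN, norm_smul, Real.norm_eq_abs, abs_of_pos ht, mul_pow, smul_smul, mul_inv]
  congr 1; ring

lemma measurable_kN : Measurable (kN : E → E) := by
  unfold kN
  exact ((measurable_norm.pow_const _).inv).smul measurable_id

omit [FiniteDimensional ℝ E] [MeasurableSpace E] [BorelSpace E] in
lemma norm_kN (z : E) : ‖kN z‖ = (‖z‖ ^ finrank ℝ E)⁻¹ * ‖z‖ := by
  simp [kN, norm_smul]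

/-- The singular part of the kernel norm. -/
noncomputable def hN (z : E) : ℝ := (Metric.ball (0 : E) 1).indicator (fun z => ‖kN z‖) z

omit [FiniteDimensional ℝ E] [MeasurableSpace E] [BorelSpace E] in
lemma hN_nonneg (z : E) : 0 ≤ hN z := indicator_nonneg (fun _ _ => norm_nonneg _) z

lemma integrable_hN (hd : 2 ≤ finrank ℝ E) : Integrable (hN : E → ℝ) volume := by
  unfold hN
  rw [integrable_indicator_iff Metric.isOpen_ball.measurableSet]
  refine integrableOn_ball_of_norm_le_rpow (C := 1) (α := (finrank ℝ E : ℝ) - 1) (by omega)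
    (by linarith) (Filter.Eventually.of_forall fun z => ?_)
    measurable_kN.norm.aestronglyMeasurable
  rw [norm_norm, norm_kN, one_mul]
  rcases eq_or_lt_of_le (norm_nonneg z) with h | h
  · rw [← h, mul_zero]; exact Real.rpow_nonneg le_rfl _
  · rw [neg_sub, Real.rpow_sub h, Real.rpow_one, Real.rpow_natCast, div_eq_inv_mul]

omit [FiniteDimensional ℝ E] [MeasurableSpace E] [BorelSpace E] in
lemma norm_kN_le (hd : 2 ≤ finrank ℝ E) (z : E) : ‖kN z‖ ≤ hN z + 1 := by
  unfold hN
  by_cases hz : z ∈ Metric.ball (0 : E) 1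
  · rw [indicator_of_mem hz]; linarith
  · rw [indicator_of_notMem hz, zero_add, norm_kN]
    have h1 : 1 ≤ ‖z‖ := by simpa using hz
    have h2 : ‖z‖ ≤ ‖z‖ ^ finrank ℝ E := by
      calc ‖z‖ = ‖z‖ ^ 1 := (pow_one _).symm
        _ ≤ _ := pow_le_pow_right₀ h1 (by omega)
    rw [inv_mul_le_iff₀ (by positivity)]; linarith

/-- Bounded measurable densities with bounded support. -/
structure Nb (A : E → ℝ) : Prop where
  meas : Measurable A
  bdd : ∃ C, ∀ x, |A x| ≤ C
  supp : ∃ R, ∀ x, R ≤ ‖x‖ → A x = 0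

lemma Nb.integrable {A : E → ℝ} (h : Nb A) : Integrable A volume := by
  obtain ⟨C, hC⟩ := h.bdd
  obtain ⟨R, hR⟩ := h.supp
  have h1 : Integrable ((Metric.ball (0 : E) R).indicator fun _ => C) volume := by
    rw [integrable_indicator_iff Metric.isOpen_ball.measurableSet]
    exact integrableOn_const (measure_ball_lt_top.ne)
  refine h1.mono' h.meas.aestronglyMeasurable (Filter.Eventually.of_forall fun x => ?_)
  by_cases hx : x ∈ Metric.ball (0 : E) R
  · rw [indicator_of_mem hx]; exact hC x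
  · rw [indicator_of_notMem hx, hR x (by simpa using hx)]; simp

omit [InnerProductSpace ℝ E] [FiniteDimensional ℝ E] [BorelSpace E] in
lemma Nb.add {A C : E → ℝ} (hA : Nb A) (hC : Nb C) : Nb (fun x => A x + C x) := by
  obtain ⟨a, ha⟩ := hA.bdd
  obtain ⟨c, hc⟩ := hC.bdd
  obtain ⟨R, hR⟩ := hA.supp
  obtain ⟨S, hS⟩ := hC.supp
  refine ⟨hA.meas.add hC.meas, ⟨a + c, fun x => (abs_add_le _ _).trans (add_le_add (ha x) (hc x))⟩,
    ⟨max R S, fun x hx => ?_⟩⟩
  rw [hR x ((le_max_left _ _).trans hx), hS x ((le_max_right _ _).trans hx), add_zero]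

omit [InnerProductSpace ℝ E] [FiniteDimensional ℝ E] [BorelSpace E] in
lemma Nb.const_mul {A : E → ℝ} (hA : Nb A) (c : ℝ) : Nb (fun x => c * A x) := by
  obtain ⟨a, ha⟩ := hA.bdd
  obtain ⟨R, hR⟩ := hA.supp
  refine ⟨hA.meas.const_mul c, ⟨|c| * a, fun x => ?_⟩, ⟨R, fun x hx => by rw [hR x hx, mul_zero]⟩⟩
  rw [abs_mul]; exact mul_le_mul_of_nonneg_left (ha x) (abs_nonneg c)

omit [InnerProductSpace ℝ E] [FiniteDimensional ℝ E] in
lemma Nb.refl {A : E → ℝ} (hA : Nb A) : Nb (fun x => A (-x)) := by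
  obtain ⟨a, ha⟩ := hA.bdd
  obtain ⟨R, hR⟩ := hA.supp
  exact ⟨hA.meas.comp measurable_neg, ⟨a, fun x => ha _⟩, ⟨R, fun x hx => hR _ (by simpa)⟩⟩

omit [InnerProductSpace ℝ E] [FiniteDimensional ℝ E] [BorelSpace E] in
lemma Nb.sub {A C : E → ℝ} (hA : Nb A) (hC : Nb C) : Nb (fun x => A x - C x) := by
  have := hA.add (hC.const_mul (-1))
  simpa [sub_eq_add_neg] using this

omit [InnerProductSpace ℝ E] [FiniteDimensional ℝ E] [BorelSpace E] in
lemma nb_indicator {S : Set E} (hS : MeasurableSet S) {R : ℝ} (hR : S ⊆ Metric.ball 0 R) :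
    Nb (S.indicator fun _ => (1 : ℝ)) := by
  refine ⟨measurable_const.indicator hS, ⟨1, fun x => ?_⟩, ⟨R, fun x hx => ?_⟩⟩
  · by_cases h : x ∈ S <;> simp [h]
  · refine indicator_of_notMem (fun h => ?_) _
    have := hR h
    simp only [Metric.mem_ball, dist_zero_right] at this
    linarith

omit [FiniteDimensional ℝ E] [MeasurableSpace E] [BorelSpace E] in
lemma Nb.dom (hd : 2 ≤ finrank ℝ E) {A : E → ℝ} {C : ℝ} (hC : ∀ x, |A x| ≤ C) (x y : E) :
    ‖A y • kN (x - y)‖ ≤ C * hN (x - y) + |A y| := by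
  rw [norm_smul, Real.norm_eq_abs]
  have h1 := norm_kN_le hd (x - y)
  have h2 := hN_nonneg (x - y)
  have h3 := hC y
  have h4 := abs_nonneg (A y)
  nlinarith

lemma Nb.integrable_fld (hd : 2 ≤ finrank ℝ E) {A : E → ℝ} (hA : Nb A) (x : E) :
    Integrable (fun y => A y • kN (x - y)) volume := by
  obtain ⟨C, hC⟩ := hA.bdd
  refine Integrable.mono' ((((integrable_hN hd).comp_sub_left x).const_mul C).add
    hA.integrable.abs) ?_ (Filter.Eventually.of_forall fun y => Nb.dom hd hC x y)
  exact (hA.meas.smul (measurable_kN.comp (measurable_const.sub measurable_id))).aestronglyMeasurable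

lemma Nb.fld_bdd (hd : 2 ≤ finrank ℝ E) {A : E → ℝ} (hA : Nb A) :
    ∃ M, 0 ≤ M ∧ ∀ x, ‖Fld A x‖ ≤ M := by
  obtain ⟨C, hC⟩ := hA.bdd
  refine ⟨max 0 (C * (∫ z : E, hN z) + ∫ y, |A y|), le_max_left _ _, fun x => le_max_of_le_right ?_⟩
  have h1 := (((integrable_hN hd).comp_sub_left x).const_mul C)
  refine (norm_integral_le_of_norm_le (h1.add hA.integrable.abs)
    (Filter.Eventually.of_forall fun y => Nb.dom hd hC x y)).trans (le_of_eq ?_)
  have := integral_add h1 hA.integrable.abs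
  simp only [Pi.add_apply]
  rw [this, integral_const_mul, integral_sub_left_eq_self (hN : E → ℝ) volume x]

lemma Nb.fld_meas {A : E → ℝ} (hA : Nb A) : Measurable (Fld A) := by
  have : StronglyMeasurable (fun p : E × E => A p.2 • kN (p.1 - p.2)) :=
    ((hA.meas.comp measurable_snd).smul
      (measurable_kN.comp (measurable_fst.sub measurable_snd))).stronglyMeasurable
  exact (this.integral_prod_right' (ν := volume)).measurable

lemma fld_refl (A : E → ℝ) (x : E) : Fld (fun y => A (-y)) x = -Fld A (-x) := by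
  unfold Fld
  rw [← integral_neg, ← integral_neg_eq_self]
  congr 1; ext y
  simp only [neg_neg]
  rw [← smul_neg, ← kN_neg]; congr 2; abel

lemma fld_add (hd : 2 ≤ finrank ℝ E) {A C : E → ℝ} (hA : Nb A) (hC : Nb C) (x : E) :
    Fld (fun y => A y + C y) x = Fld A x + Fld C x := by
  unfold Fld
  rw [← integral_add (hA.integrable_fld hd x) (hC.integrable_fld hd x)]
  simp only [add_smul]

lemma fld_const_mul (c : ℝ) (A : E → ℝ) (x : E) :
    Fld (fun y => c * A y) x = c • Fld A x := by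
  unfold Fld
  rw [← integral_smul]
  simp only [mul_smul]

lemma fld_sub (hd : 2 ≤ finrank ℝ E) {A C : E → ℝ} (hA : Nb A) (hC : Nb C) (x : E) :
    Fld (fun y => A y - C y) x = Fld A x - Fld C x := by
  unfold Fld
  rw [← integral_sub (hA.integrable_fld hd x) (hC.integrable_fld hd x)]
  simp only [sub_smul]

/-- A bounded measurable function times a density is integrable. -/
lemma Nb.integrable_mul {A g : E → ℝ} (hA : Nb A) (hg : Measurable g) {M : ℝ}
    (hM : ∀ x, |g x| ≤ M) : Integrable (fun x => A x * g x) volume := by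
  refine Integrable.mono' (hA.integrable.abs.mul_const M) (hA.meas.mul hg).aestronglyMeasurable
    (Filter.Eventually.of_forall fun x => ?_)
  rw [Real.norm_eq_abs, abs_mul]
  exact mul_le_mul_of_nonneg_left (hM x) (abs_nonneg _)

/-- The trilinear form. -/
noncomputable def Lam (A C D : E → ℝ) : ℝ := ∫ x, A x * ⟪Fld C x, Fld D x⟫

/-- The bilinear trace term. -/
noncomputable def TT (A C : E → ℝ) (x : E) : ℝ := ∫ y, A y * ⟪kN (x - y), Fld C y⟫

lemma integrable_lam (hd : 2 ≤ finrank ℝ E) {A C D : E → ℝ} (hA : Nb A) (hC : Nb C) (hD : Nb D) :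
    Integrable (fun x => A x * ⟪Fld C x, Fld D x⟫) volume := by
  obtain ⟨M, hM0, hM⟩ := hC.fld_bdd hd
  obtain ⟨N, -, hN⟩ := hD.fld_bdd hd
  refine hA.integrable_mul (hC.fld_meas.inner hD.fld_meas) (M := M * N) fun x => ?_
  exact (abs_real_inner_le_norm _ _).trans (mul_le_mul (hM x) (hN x) (norm_nonneg _) hM0)

lemma integrable_prod (hd : 2 ≤ finrank ℝ E) {A C D : E → ℝ} (hA : Nb A) (hC : Nb C)
    (hD : Nb D) :
    Integrable (fun p : E × E => A p.1 * (C p.2 * ⟪kN (p.1 - p.2), Fld D p.2⟫))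
      (volume.prod volume) := by
  obtain ⟨M, hM0, hM⟩ := hD.fld_bdd hd
  obtain ⟨a, ha⟩ := hA.bdd
  have h1 := hC.integrable.abs.convolution_integrand (ContinuousLinearMap.mul ℝ ℝ)
    (integrable_hN hd)
  have h2 := hA.integrable.abs.mul_prod hC.integrable.abs
  refine Integrable.mono' (((h1.const_mul a).add h2).mul_const M) ?_
    (Filter.Eventually.of_forall fun p => ?_)
  · exact ((hA.meas.comp measurable_fst).mul ((hC.meas.comp measurable_snd).mul
      ((measurable_kN.comp (measurable_fst.sub measurable_snd)).inner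
        (hD.fld_meas.comp measurable_snd)))).aestronglyMeasurable
  · simp only [Real.norm_eq_abs, abs_mul, Pi.add_apply, ContinuousLinearMap.mul_apply']
    have e1 : |⟪kN (p.1 - p.2), Fld D p.2⟫| ≤ (hN (p.1 - p.2) + 1) * M :=
      (abs_real_inner_le_norm _ _).trans (mul_le_mul (norm_kN_le hd _) (hM _) (norm_nonneg _)
        (by linarith [hN_nonneg (p.1 - p.2)]))
    have e2 := ha p.1
    have e3 := abs_nonneg (A p.1)
    have e4 := abs_nonneg (C p.2)
    have e5 := hN_nonneg (p.1 - p.2)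
    calc |A p.1| * (|C p.2| * |⟪kN (p.1 - p.2), Fld D p.2⟫|)
        ≤ |A p.1| * (|C p.2| * ((hN (p.1 - p.2) + 1) * M)) := by gcongr
      _ = (|A p.1| * (|C p.2| * hN (p.1 - p.2)) + |A p.1| * |C p.2|) * M := by ring
      _ ≤ (a * (|C p.2| * hN (p.1 - p.2)) + |A p.1| * |C p.2|) * M := by gcongr

lemma integrable_tt (hd : 2 ≤ finrank ℝ E) {A C D : E → ℝ} (hA : Nb A) (hC : Nb C)
    (hD : Nb D) : Integrable (fun x => A x * TT C D x) volume := by
  have := (integrable_prod hd hA hC hD).integral_prod_left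
  refine this.congr (Filter.Eventually.of_forall fun x => ?_)
  simp only [TT]
  rw [integral_const_mul]

lemma integral_tt (hd : 2 ≤ finrank ℝ E) {A C D : E → ℝ} (hA : Nb A) (hC : Nb C)
    (hD : Nb D) : ∫ x, A x * TT C D x = -Lam C A D := by
  have h := integral_integral_swap (f := fun x y : E => A x * (C y * ⟪kN (x - y), Fld D y⟫))
    (integrable_prod hd hA hC hD)
  have h1 : ∫ x, A x * TT C D x = ∫ x, ∫ y, A x * (C y * ⟪kN (x - y), Fld D y⟫) := by
    congr 1; ext x; simp only [TT]; rw [integral_const_mul]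
  rw [h1, h, Lam, ← integral_neg]
  congr 1; ext y
  have h2 : Fld A y = ∫ x, A x • kN (y - x) := rfl
  rw [h2, real_inner_comm, ← integral_inner (hA.integrable_fld hd y), ← integral_const_mul,
    ← integral_neg]
  congr 1; ext x
  rw [inner_smul_right, ← neg_sub x y, kN_neg, inner_neg_right, real_inner_comm]; ring

lemma lam_refl (A C D : E → ℝ) :
    Lam (fun x => A (-x)) (fun x => C (-x)) (fun x => D (-x)) = Lam A C D := by
  unfold Lam
  rw [← integral_neg_eq_self (fun x => A x * ⟪Fld C x, Fld D x⟫)]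
  congr 1; ext x
  rw [fld_refl, fld_refl, inner_neg_neg]

lemma lam_comm (A C D : E → ℝ) : Lam A C D = Lam A D C := by
  unfold Lam; simp only [real_inner_comm]

lemma lam_add₁ (hd : 2 ≤ finrank ℝ E) {A A' C D : E → ℝ} (hA : Nb A) (hA' : Nb A') (hC : Nb C)
    (hD : Nb D) (c : ℝ) : Lam (fun x => A x + c * A' x) C D = Lam A C D + c * Lam A' C D := by
  unfold Lam
  rw [← integral_const_mul, ← integral_add (integrable_lam hd hA hC hD)
    ((integrable_lam hd hA' hC hD).const_mul c)]
  congr 1; ext x; ring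

lemma lam_add₃ (hd : 2 ≤ finrank ℝ E) {A C D D' : E → ℝ} (hA : Nb A) (hC : Nb C)
    (hD : Nb D) (hD' : Nb D') (c : ℝ) :
    Lam A C (fun x => D x + c * D' x) = Lam A C D + c * Lam A C D' := by
  unfold Lam
  rw [← integral_const_mul, ← integral_add (integrable_lam hd hA hC hD)
    ((integrable_lam hd hA hC hD').const_mul c)]
  congr 1; ext x
  rw [fld_add hd hD (hD'.const_mul c), fld_const_mul, inner_add_right, inner_smul_right]; ring

lemma lam_add₂ (hd : 2 ≤ finrank ℝ E) {A C C' D : E → ℝ} (hA : Nb A) (hC : Nb C)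
    (hC' : Nb C') (hD : Nb D) (c : ℝ) :
    Lam A (fun x => C x + c * C' x) D = Lam A C D + c * Lam A C' D := by
  rw [lam_comm, lam_add₃ hd hA hD hC hC', lam_comm A D, lam_comm A D]

lemma lam_neg₁ (A C D : E → ℝ) : Lam (fun x => -A x) C D = -Lam A C D := by
  unfold Lam; rw [← integral_neg]; simp

lemma lam_neg₃ (A C D : E → ℝ) : Lam A C (fun x => -D x) = -Lam A C D := by
  unfold Lam; rw [← integral_neg]
  congr 1; ext x
  have := fld_const_mul (-1) D x
  simp only [neg_mul, one_mul, neg_smul, one_smul] at this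
  rw [this, inner_neg_right]; ring

lemma lam_neg₂ (A C D : E → ℝ) : Lam A (fun x => -C x) D = -Lam A C D := by
  rw [lam_comm, lam_neg₃, lam_comm]

end Pool.Agent.MP_0b7119_mp.G.C
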