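import Pool.Agent.MP_0b7119_mp.JobC1

/-! Job C, part 2: scaling and expansion of the cubic functional. -/

open Set MeasureTheory Module
open scoped ENNReal RealInnerProductSpace

namespace Pool.Agent.MP_0b7119_mp.G.C

variable {E : Type} [NormedAddCommGroup E] [InnerProductSpace ℝ E] [FiniteDimensional ℝ E]
  [MeasurableSpace E] [BorelSpace E]

omit [FiniteDimensional ℝ E] [MeasurableSpace E] [BorelSpace E] in
lemma kN_sub_scale {ε : ℝ} (hε : 0 < ε) (x y : E) :
    kN (x - y) = (ε * (ε ^ finrank ℝ E)⁻¹) • kN (ε⁻¹ • x - ε⁻¹ • y) := by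
  rw [← kN_smul hε, smul_sub, smul_inv_smul₀ hε.ne', smul_inv_smul₀ hε.ne']

lemma fld_scale (U : E → ℝ) {ε : ℝ} (hε : 0 < ε) (x : E) :
    Fld (fun y => U (ε⁻¹ • y)) x = ε • Fld U (ε⁻¹ • x) := by
  unfold Fld
  have h := Measure.integral_comp_inv_smul_of_nonneg volume
    (fun w : E => U w • ((ε * (ε ^ finrank ℝ E)⁻¹) • kN (ε⁻¹ • x - w))) hε.le
  have h1 : ∀ y : E, U (ε⁻¹ • y) • kN (x - y) =
      U (ε⁻¹ • y) • ((ε * (ε ^ finrank ℝ E)⁻¹) • kN (ε⁻¹ • x - ε⁻¹ • y)) := fun y => by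
    rw [← kN_sub_scale hε]
  simp only [h1]
  rw [h]
  simp only [smul_comm (U _) (ε * (ε ^ finrank ℝ E)⁻¹)]
  rw [integral_smul, smul_smul]
  congr 1
  field_simp

lemma trc_scale (U : E → ℝ) {ε : ℝ} (hε : 0 < ε) (x : E) :
    Trc (fun y => U (ε⁻¹ • y)) x = ε ^ 2 * Trc U (ε⁻¹ • x) := by
  unfold Trc
  have h := Measure.integral_comp_inv_smul_of_nonneg volume
    (fun w : E => (ε * (ε ^ finrank ℝ E)⁻¹ * ε) * (U w * ⟪kN (ε⁻¹ • x - w), Fld U w⟫)) hε.le
  have h1 : ∀ y : E, U (ε⁻¹ • y) * ⟪kN (x - y), Fld (fun y => U (ε⁻¹ • y)) y⟫ =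
      (ε * (ε ^ finrank ℝ E)⁻¹ * ε) *
        (U (ε⁻¹ • y) * ⟪kN (ε⁻¹ • x - ε⁻¹ • y), Fld U (ε⁻¹ • y)⟫) := fun y => by
    rw [fld_scale U hε, kN_sub_scale hε x y, inner_smul_left, inner_smul_right]
    simp only [conj_trivial]; ring
  simp only [h1]
  rw [h, integral_const_mul, smul_eq_mul, ← mul_assoc]
  congr 1
  field_simp

lemma icub_scale (U : E → ℝ) {P : Set E} (hP : MeasurableSet P) {ε : ℝ} (hε : 0 < ε) :
    Icub (fun y => U (ε⁻¹ • y)) {x | ε⁻¹ • x ∈ P} = ε ^ (finrank ℝ E + 2) * Icub U P := by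
  unfold Icub
  have hP' : MeasurableSet {x : E | ε⁻¹ • x ∈ P} := (measurable_const_smul ε⁻¹) hP
  rw [← integral_indicator hP', ← integral_indicator hP]
  have h := Measure.integral_comp_inv_smul_of_nonneg volume
    (fun w : E => ε ^ 2 * P.indicator (fun x =>
      ‖Fld U x‖ ^ 2 + ⟪Fld U x, Fld U (-x)⟫ - Trc U x + Trc U (-x)) w) hε.le
  rw [pow_add, mul_assoc, ← integral_const_mul, ← smul_eq_mul, ← h]
  congr 1; ext x
  by_cases hx : ε⁻¹ • x ∈ P
  · rw [indicator_of_mem hx, indicator_of_mem (show x ∈ {x : E | ε⁻¹ • x ∈ P} from hx)]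
    simp only [fld_scale U hε, trc_scale U hε, smul_neg, norm_smul, inner_smul_left,
      inner_smul_right, conj_trivial, Real.norm_eq_abs, abs_of_pos hε]
    ring
  · rw [indicator_of_notMem hx, indicator_of_notMem (show x ∉ {x : E | ε⁻¹ • x ∈ P} from hx),
      mul_zero]

lemma icub_eq (hd : 2 ≤ finrank ℝ E) {U : E → ℝ} (hU : Nb U) {P : Set E}
    (hP : MeasurableSet P) {χ : E → ℝ} (hχ : χ = P.indicator fun _ => 1) (hn : Nb χ) :
    Icub U P = Lam χ U U - Lam χ U (fun x => U (-x)) + Lam U χ U -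
      Lam U (fun x => χ (-x)) U := by
  have i1 := integrable_lam hd hn hU hU
  have i2 := integrable_lam hd hn hU hU.refl
  have i3 := integrable_tt hd hn hU hU
  have i4 := (integrable_tt hd hn.refl hU hU).comp_neg
  have e3 := integral_tt hd hn hU hU
  have e4 := integral_tt hd hn.refl hU hU
  rw [← integral_neg_eq_self] at e4
  have : Icub U P = ∫ x, (((χ x * ⟪Fld U x, Fld U x⟫ - χ x * ⟪Fld U x, Fld (fun x => U (-x)) x⟫)
      - χ x * TT U U x) + χ (- -x) * TT U U (-x)) := by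
    unfold Icub
    rw [← integral_indicator hP]
    congr 1; ext x
    by_cases hx : x ∈ P
    · rw [indicator_of_mem hx, neg_neg, hχ, indicator_of_mem hx, fld_refl, inner_neg_right,
        real_inner_self_eq_norm_sq]
      simp only [TT, Trc]; ring
    · rw [indicator_of_notMem hx, neg_neg, hχ, indicator_of_notMem hx]; ring
  have i12 : Integrable (fun x => χ x * ⟪Fld U x, Fld U x⟫ -
      χ x * ⟪Fld U x, Fld (fun x => U (-x)) x⟫) volume := i1.sub i2
  have i123 : Integrable (fun x => χ x * ⟪Fld U x, Fld U x⟫ -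
      χ x * ⟪Fld U x, Fld (fun x => U (-x)) x⟫ - χ x * TT U U x) volume := i12.sub i3
  rw [this, integral_add i123 i4, integral_sub i12 i3, integral_sub i1 i2, e3, e4]
  simp only [Lam]; ring

/-- Expansion in the small parameter `s`. -/
lemma icub_expand (hd : 2 ≤ finrank ℝ E) {B : E → ℝ} (hB : Nb B) (hBe : ∀ x, B (-x) = B x)
    {P : Set E} (hP : MeasurableSet P) {χ W : E → ℝ} (hχ : χ = P.indicator fun _ => 1)
    (hn : Nb χ) (hW : W = fun x => χ x - χ (-x)) (s : ℝ) :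
    Icub (fun x => B x + s * χ x) P =
      s * (Lam W B W + 1 / 2 * Lam B W W) + s ^ 2 * (2 * Lam χ χ W) := by
  have hW' : Nb W := hW ▸ hn.sub hn.refl
  have hU : Nb (fun x => B x + s * χ x) := hB.add (hn.const_mul s)
  have hBr : (fun x => B (-x)) = B := funext hBe
  have hWr : (fun x => W (-x)) = fun x => -W x := by ext x; simp [hW]
  have hc : (fun x => χ (-x)) = fun x => χ x + (-1) * W x := by ext x; simp [hW]
  rw [icub_eq hd hU hP hχ hn]
  have u1 : (fun x => B (-x) + s * χ (-x)) = fun x => (B x + s * χ x) + (-s) * W x := by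
    ext x; rw [hBe, hW]; ring
  rw [u1, hc, lam_add₃ hd hn hU hU hW', lam_add₂ hd hU hn hW' hU, lam_add₂ hd hn hB hn hW',
    lam_add₁ hd hB hn hW' hU, lam_add₃ hd hB hW' hB hn, lam_add₃ hd hn hW' hB hn]
  have r1 : Lam B W B = 0 := by
    have := lam_refl B W B
    rw [hBr, hWr, lam_neg₂] at this; linarith
  have r2 : Lam W B W = 2 * Lam χ B W := by
    have := lam_refl χ B W
    rw [hBr, hWr, lam_neg₃, hc, lam_add₁ hd hn hW' hB hW'] at this; linarith
  have r3 : Lam B W W = 2 * Lam B W χ := by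
    have := lam_refl B W χ
    rw [hBr, hWr, lam_neg₂, hc, lam_add₃ hd hB hW' hn hW'] at this; linarith
  rw [r1, r2, r3, lam_comm χ W B, lam_comm χ W χ]
  ring

end Pool.Agent.MP_0b7119_mp.G.C
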