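import Pool.Agent.MP_0b7119_mp.JobC2

/-! Job C, part 3: the far field of an odd density. -/

open Set MeasureTheory Module Filter Topology
open scoped ENNReal RealInnerProductSpace

namespace Pool.Agent.MP_0b7119_mp.G.C

variable {E : Type} [NormedAddCommGroup E] [InnerProductSpace ℝ E] [FiniteDimensional ℝ E]
  [MeasurableSpace E] [BorelSpace E]

/-- The derivative of the Newton kernel at a unit vector. -/
noncomputable def DN (v : E) : E →L[ℝ] E :=
  ContinuousLinearMap.id ℝ E - (finrank ℝ E : ℝ) • (innerSL ℝ v).smulRight v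

omit [FiniteDimensional ℝ E] [MeasurableSpace E] [BorelSpace E] in
lemma DN_apply (v z : E) : DN v z = z - ((finrank ℝ E : ℝ) * ⟪v, z⟫) • v := by
  simp [DN, mul_smul]

omit [FiniteDimensional ℝ E] [MeasurableSpace E] [BorelSpace E] in
lemma hasStrict_kN {v : E} (hv : ‖v‖ = 1) : HasStrictFDerivAt kN (DN v) v := by
  have h1 : HasStrictFDerivAt (fun z : E => (‖z‖ ^ 2) ^ (-(finrank ℝ E : ℝ) / 2)) _ v :=
    (hasStrictFDerivAt_norm_sq v).rpow_const (p := -(finrank ℝ E : ℝ) / 2) (Or.inl (by simp [hv]))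
  have h2 := h1.smul (hasStrictFDerivAt_id v)
  have h3 : (kN : E → E) = fun z => (‖z‖ ^ 2) ^ (-(finrank ℝ E : ℝ) / 2) • z := by
    ext z
    unfold kN
    congr 1
    rw [← Real.rpow_natCast ‖z‖ 2, ← Real.rpow_mul (norm_nonneg _), ← Real.rpow_natCast,
      ← Real.rpow_neg (norm_nonneg _)]
    congr 1; push_cast; ring
  rw [h3]
  refine h2.congr_fderiv ?_
  ext z
  rw [DN_apply]
  simp only [hv, id, add_apply, smul_apply,
    ContinuousLinearMap.smulRight_apply, ContinuousLinearMap.id_apply, one_pow, Real.one_rpow,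
    one_smul, mul_one, smul_eq_mul, innerSL_apply_apply, nsmul_eq_mul, Nat.cast_ofNat]
  rw [sub_eq_add_neg, ← neg_smul]; congr 2; ring

omit [FiniteDimensional ℝ E] [MeasurableSpace E] [BorelSpace E] in
lemma far_kernel {v : E} (hv : ‖v‖ = 1) {ε : ℝ} (hε : 0 < ε) :
    ∃ r, 0 < r ∧ ∀ t, 0 < t → ∀ y x : E, ‖y - t • v‖ < t * r → ‖x‖ ≤ t * r →
      ‖kN (y - x) - kN y + (t ^ finrank ℝ E)⁻¹ • DN v x‖ ≤ ε * (t ^ finrank ℝ E)⁻¹ * ‖x‖ := by
  have h := (hasStrictFDerivAt_iff_isLittleO.1 (hasStrict_kN hv)).def hε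
  rw [nhds_prod_eq] at h
  obtain ⟨s, hs, s', hs', hss⟩ := Filter.mem_prod_iff.1 h
  obtain ⟨ρ, hρ, hb⟩ := Metric.mem_nhds_iff.1 (Filter.inter_mem hs hs')
  refine ⟨ρ / 2, by positivity, fun t ht y x hy hx => ?_⟩
  have hb1 : ‖t⁻¹ • y - v‖ < ρ / 2 := by
    have : t⁻¹ • y - v = t⁻¹ • (y - t • v) := by rw [smul_sub, inv_smul_smul₀ ht.ne']
    rw [this, norm_smul, Real.norm_eq_abs, abs_of_pos (inv_pos.2 ht), inv_mul_lt_iff₀ ht]
    exact hy
  have hb2 : ‖t⁻¹ • x‖ ≤ ρ / 2 := by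
    rw [norm_smul, Real.norm_eq_abs, abs_of_pos (inv_pos.2 ht), inv_mul_le_iff₀ ht]
    exact hx
  have ha : t⁻¹ • y - t⁻¹ • x ∈ Metric.ball v ρ := by
    rw [mem_ball_iff_norm]
    have : t⁻¹ • y - t⁻¹ • x - v = (t⁻¹ • y - v) - t⁻¹ • x := by abel
    rw [this]
    linarith [norm_sub_le (t⁻¹ • y - v) (t⁻¹ • x)]
  have hb' : t⁻¹ • y ∈ Metric.ball v ρ := by
    rw [mem_ball_iff_norm]; linarith
  have key := hss (Set.mk_mem_prod (hb ha).1 (hb hb').2)
  simp only [mem_setOf_eq] at key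
  have e1 : t⁻¹ • y - t⁻¹ • x - t⁻¹ • y = -(t⁻¹ • x) := by abel
  rw [e1, map_neg, norm_neg, map_smul, sub_neg_eq_add, norm_smul, Real.norm_eq_abs,
    abs_of_pos (inv_pos.2 ht)] at key
  have e2 : kN y = (t * (t ^ finrank ℝ E)⁻¹) • kN (t⁻¹ • y) := by
    rw [← kN_smul ht, smul_inv_smul₀ ht.ne']
  have e3 : kN (y - x) - kN y + (t ^ finrank ℝ E)⁻¹ • DN v x = (t * (t ^ finrank ℝ E)⁻¹) •
      (kN (t⁻¹ • y - t⁻¹ • x) - kN (t⁻¹ • y) + t⁻¹ • DN v x) := by
    rw [kN_sub_scale ht y x, e2, smul_add, smul_sub, smul_smul]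
    congr 2; field_simp
  rw [e3, norm_smul, Real.norm_eq_abs, abs_of_pos (by positivity)]
  calc t * (t ^ finrank ℝ E)⁻¹ * _ ≤ t * (t ^ finrank ℝ E)⁻¹ * (ε * (t⁻¹ * ‖x‖)) := by gcongr
    _ = _ := by field_simp

lemma integral_odd {F : Type} [NormedAddCommGroup F] [NormedSpace ℝ F] {f : E → F}
    (hf : ∀ x, f (-x) = -f x) : ∫ x, f x = 0 := by
  have h := integral_neg_eq_self f volume
  simp only [hf, integral_neg] at h
  have : (2 : ℝ) • ∫ x, f x = 0 := by rw [two_smul]; nth_rewrite 1 [← h]; simp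
  simpa using this

lemma fld_even {W : E → ℝ} (hW : ∀ x, W (-x) = -W x) (x : E) : Fld W (-x) = Fld W x := by
  have h1 := fld_refl W x
  have h2 := fld_const_mul (-1) W x
  simp only [hW] at h1
  simp only [neg_mul, one_mul, neg_smul, one_smul] at h2
  rw [h2] at h1
  exact (neg_inj.1 h1).symm

lemma fld_odd {A : E → ℝ} (hA : ∀ x, A (-x) = A x) (x : E) : Fld A (-x) = -Fld A x := by
  have h1 := fld_refl A x
  simp only [hA] at h1
  rw [h1, neg_neg]

lemma tt_even {W : E → ℝ} (hW : ∀ x, W (-x) = -W x) (y : E) : TT W W (-y) = TT W W y := by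
  unfold TT
  rw [← integral_neg_eq_self]
  congr 1; ext x
  have : -y - -x = -(y - x) := by abel
  rw [hW, fld_even hW, this, kN_neg, inner_neg_left]; ring

/-- The density of the first order coefficient. -/
noncomputable def Phi (W : E → ℝ) (y : E) : ℝ := 1 / 2 * ⟪Fld W y, Fld W y⟫ - TT W W y

/-- The quadrupole coefficient. -/
noncomputable def qq (W : E → ℝ) (v : E) : ℝ := ∫ x, W x * ⟪DN v x, Fld W x⟫

omit [FiniteDimensional ℝ E] in
lemma Nb.mul_inner {A : E → ℝ} (hA : Nb A) (v : E) : Nb (fun x => A x * ⟪v, x⟫) := by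
  obtain ⟨a, ha⟩ := hA.bdd
  obtain ⟨R, hR⟩ := hA.supp
  refine ⟨hA.meas.mul (continuous_const.inner continuous_id).measurable,
    ⟨a * (‖v‖ * |R|), fun x => ?_⟩, ⟨R, fun x hx => by rw [hR x hx, zero_mul]⟩⟩
  have h0 : 0 ≤ a := (abs_nonneg _).trans (ha 0)
  by_cases hx : R ≤ ‖x‖
  · rw [hR x hx, zero_mul, abs_zero]; positivity
  · rw [abs_mul]
    refine mul_le_mul (ha x) ((abs_real_inner_le_norm _ _).trans ?_) (abs_nonneg _) h0
    exact mul_le_mul_of_nonneg_left ((not_le.1 hx).le.trans (le_abs_self R)) (norm_nonneg _)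

lemma Nb.integrable_of_bound {F : Type} [NormedAddCommGroup F] [NormedSpace ℝ F]
    {A : E → ℝ} (hA : Nb A) {g : E → F} (hg : AEStronglyMeasurable g volume) {M : ℝ}
    (hM : ∀ x, A x ≠ 0 → ‖g x‖ ≤ M) :
    Integrable (fun x => A x • g x) volume ∧ ‖∫ x, A x • g x‖ ≤ M * ∫ x, |A x| := by
  have hb : ∀ x, ‖A x • g x‖ ≤ M * |A x| := fun x => by
    by_cases h : A x = 0
    · simp [h]
    · rw [norm_smul, Real.norm_eq_abs, mul_comm]
      exact mul_le_mul_of_nonneg_right (hM x h) (abs_nonneg _)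
  refine ⟨Integrable.mono' (hA.integrable.abs.const_mul M)
    (hA.meas.aestronglyMeasurable.smul hg) (Eventually.of_forall hb), ?_⟩
  rw [← integral_const_mul]
  exact norm_integral_le_of_norm_le (hA.integrable.abs.const_mul M) (Eventually.of_forall hb)

lemma far_neg (hd : 2 ≤ finrank ℝ E) {W : E → ℝ} (hW : Nb W) (ho : ∀ x, W (-x) = -W x)
    {v : E} (hv : ‖v‖ = 1) (hq : qq W v < 0) :
    ∃ r T, 0 < r ∧ ∀ t, T ≤ t → ∀ y : E, ‖y - t • v‖ < t * r → Phi W y < 0 := by
  obtain ⟨M, hM0, hM⟩ := hW.fld_bdd hd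
  obtain ⟨R0, hR0⟩ := hW.supp
  set R := max R0 1 with hR
  have hR1 : 0 < R := lt_max_of_lt_right one_pos
  have hsupp : ∀ x, W x ≠ 0 → ‖x‖ ≤ R := fun x hx => by
    by_contra h
    exact hx (hR0 x ((le_max_left _ _).trans (not_le.1 h).le))
  set L := ∫ x, |W x| with hL
  have hL0 : 0 ≤ L := integral_nonneg fun x => abs_nonneg _
  set c := -qq W v with hc
  have hc0 : 0 < c := by linarith
  set ε := c / (2 * (R * M * L + 1)) with hε
  have hε0 : 0 < ε := by positivity
  obtain ⟨r, hr, hk⟩ := far_kernel hv hε0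
  set C1 := (ε * R + ‖DN v‖ * R) * L with hC1
  have hC10 : 0 ≤ C1 := by positivity
  refine ⟨r, max (R / r) (max 1 (C1 ^ 2 / c + 1)), hr, fun t ht y hy => ?_⟩
  have ht1 : 1 ≤ t := (le_max_left _ _).trans ((le_max_right _ _).trans ht)
  have ht0 : 0 < t := by linarith
  have ht2 : R ≤ t * r := by
    have := (le_max_left _ _).trans ht
    rwa [div_le_iff₀ hr] at this
  have ht3 : C1 ^ 2 / c + 1 ≤ t := (le_max_right _ _).trans ((le_max_right _ _).trans ht)
  set τ := (t ^ finrank ℝ E)⁻¹ with hτ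
  have hτ0 : 0 < τ := by positivity
  have hτt : τ * t ≤ 1 := by
    rw [hτ, inv_mul_le_iff₀ (by positivity), mul_one]
    calc t = t ^ 1 := (pow_one _).symm
      _ ≤ _ := pow_le_pow_right₀ ht1 (by omega)
  set g : E → E := fun x => kN (y - x) - kN y + τ • DN v x with hg
  have hgm : Measurable g :=
    ((measurable_kN.comp (measurable_const.sub measurable_id)).sub measurable_const).add
      ((DN v).continuous.measurable.const_smul τ)
  have hgb : ∀ x, W x ≠ 0 → ‖g x‖ ≤ ε * τ * R := fun x hx =>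
    (hk t ht0 y x hy ((hsupp x hx).trans ht2)).trans
      (mul_le_mul_of_nonneg_left (hsupp x hx) (by positivity))
  have hDb : ∀ x, W x ≠ 0 → ‖DN v x‖ ≤ ‖DN v‖ * R := fun x hx =>
    ((DN v).le_opNorm x).trans (mul_le_mul_of_nonneg_left (hsupp x hx) (norm_nonneg _))
  -- the field
  have hF : ‖Fld W y‖ ≤ τ * C1 := by
    have h1 := hW.integrable_of_bound (g := fun x => kN (y - x) - kN y)
      ((measurable_kN.comp (measurable_const.sub measurable_id)).sub
        measurable_const).aestronglyMeasurable (M := τ * (ε * R + ‖DN v‖ * R)) (fun x hx => by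
        have e : kN (y - x) - kN y = g x - τ • DN v x := by simp [hg]
        rw [e]
        refine (norm_sub_le _ _).trans ?_
        rw [norm_smul, Real.norm_eq_abs, abs_of_pos hτ0]
        have := hgb x hx
        have := mul_le_mul_of_nonneg_left (hDb x hx) hτ0.le
        nlinarith)
    have h2 : ∫ x, W x • (kN (y - x) - kN y) = Fld W y := by
      simp only [smul_sub]
      rw [integral_sub (hW.integrable_fld hd y) (hW.integrable.smul_const _), integral_smul_const,
        integral_odd ho, zero_smul, sub_zero, Fld]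
    rw [← h2]
    refine h1.2.trans (le_of_eq ?_)
    rw [hC1]; ring
  -- the trace term
  have i1 := hW.integrable_of_bound (g := fun x => ⟪g x, Fld W x⟫)
    (hgm.inner hW.fld_meas).aestronglyMeasurable (M := ε * τ * R * M) (fun x hx =>
      (norm_inner_le_norm _ _).trans (mul_le_mul (hgb x hx) (hM x) (norm_nonneg _)
        (by positivity)))
  have i2 := hW.integrable_of_bound (g := fun x => ⟪DN v x, Fld W x⟫)
    ((DN v).continuous.measurable.inner hW.fld_meas).aestronglyMeasurable (M := ‖DN v‖ * R * M)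
    (fun x hx => (norm_inner_le_norm _ _).trans (mul_le_mul (hDb x hx) (hM x) (norm_nonneg _)
        (by positivity)))
  have i3 := hW.integrable_of_bound (g := fun x => ⟪kN y, Fld W x⟫)
    (measurable_const.inner hW.fld_meas).aestronglyMeasurable (M := ‖kN y‖ * M)
    (fun x hx => (norm_inner_le_norm _ _).trans (mul_le_mul_of_nonneg_left (hM x)
      (norm_nonneg _)))
  simp only [smul_eq_mul] at i1 i2 i3
  have hT : TT W W y = (∫ x, W x * ⟪g x, Fld W x⟫) - τ * qq W v := by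
    have z : ∫ x, W x * ⟪kN y, Fld W x⟫ = 0 :=
      integral_odd fun x => by rw [ho, fld_even ho]; ring
    have i12 : Integrable (fun x => W x * ⟪g x, Fld W x⟫ - τ * (W x * ⟪DN v x, Fld W x⟫))
      volume := i1.1.sub (i2.1.const_mul τ)
    rw [qq, ← integral_const_mul, ← integral_sub i1.1 (i2.1.const_mul τ), ← add_zero (integral _ _),
      ← z, ← integral_add i12 i3.1, TT]
    congr 1; ext x
    simp only [hg, inner_add_left, inner_sub_left, inner_smul_left, conj_trivial]; ring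
  have b1 : |∫ x, W x * ⟪g x, Fld W x⟫| ≤ τ * (c / 2) := by
    refine i1.2.trans ?_
    have : ε * (R * M * L) ≤ c / 2 := by
      rw [hε, div_mul_eq_mul_div, div_le_div_iff₀ (by positivity) (by positivity)]
      nlinarith [mul_nonneg (mul_nonneg hR1.le hM0) hL0]
    nlinarith
  have b2 : ⟪Fld W y, Fld W y⟫ < τ * c := by
    rw [real_inner_self_eq_norm_sq]
    have h1 : ‖Fld W y‖ ^ 2 ≤ (τ * C1) ^ 2 := by gcongr
    have h2 : C1 ^ 2 < c * t := by
      have : C1 ^ 2 / c < t := by linarith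
      rwa [div_lt_iff₀ hc0, mul_comm] at this
    have h3 : τ * C1 ^ 2 < c := by
      calc τ * C1 ^ 2 < τ * (c * t) := by gcongr
        _ = c * (τ * t) := by ring
        _ ≤ c * 1 := by gcongr
        _ = c := mul_one c
    calc _ ≤ (τ * C1) ^ 2 := h1
      _ = τ * (τ * C1 ^ 2) := by ring
      _ < τ * c := by gcongr
  rw [Phi, hT]
  have := neg_abs_le (∫ x, W x * ⟪g x, Fld W x⟫)
  have e : qq W v = -c := by rw [hc, neg_neg]
  rw [e]
  nlinarith

end Pool.Agent.MP_0b7119_mp.G.C
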