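import Pool.Agent.MP_0b7119_mp.Iface

/-! Birman-Schwinger forms: integrability, bounds, symmetry. -/

open Set MeasureTheory Filter Topology

namespace Pool.Agent.MP_0b7119_mp.G.JD

variable {E S : Type} [NormedAddCommGroup E] [InnerProductSpace ℝ E] [FiniteDimensional ℝ E]
  [MeasurableSpace E] [BorelSpace E] [NormedAddCommGroup S] [InnerProductSpace ℂ S]
  [CompleteSpace S] [FiniteDimensional ℂ S]

/-- Bounded square integrable weights. -/
structure Wt (w : E → ℝ) (M : ℝ) : Prop where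
  meas : Measurable w
  nonneg : ∀ x, 0 ≤ w x
  le : ∀ x, w x ≤ M
  l2 : MemLp w 2 volume

/-- Integrable kernels. -/
structure Kr (r : E → S →L[ℂ] S) : Prop where
  meas : StronglyMeasurable r
  int : Integrable r volume

/-- Squared norm in `L²`. -/
noncomputable def I2 (f : E → S) : ℝ := ∫ x, ‖f x‖ ^ 2

/-- Convolution of `r` with `w f`. -/
noncomputable def T (w : E → ℝ) (r : E → S →L[ℂ] S) (f : E → S) (x : E) : S :=
  ∫ y, (w y : ℂ) • r (x - y) (f y)

/-- Integrand of the form. -/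
noncomputable def kr (w : E → ℝ) (r : E → S →L[ℂ] S) (g f : E → S) (p : E × E) : ℝ :=
  w p.1 * w p.2 * (inner ℂ (g p.1) (r (p.1 - p.2) (f p.2))).re

/-- The real bilinear form of `w r w`. -/
noncomputable def Q (w : E → ℝ) (r : E → S →L[ℂ] S) (g f : E → S) : ℝ :=
  ∫ p, kr w r g f p ∂(volume.prod volume)

section scalar

variable {φ ρ : E → ℝ}

theorem int_snd (hφ : Integrable φ volume) (hρ : Integrable ρ volume) :
    Integrable (fun p : E × E => φ p.2 * ρ (p.1 - p.2)) (volume.prod volume) :=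
  hφ.convolution_integrand (ContinuousLinearMap.mul ℝ ℝ) hρ

theorem integral_snd (hφ : Integrable φ volume) (hρ : Integrable ρ volume) :
    ∫ p : E × E, φ p.2 * ρ (p.1 - p.2) ∂(volume.prod volume) = (∫ x, φ x) * ∫ x, ρ x := by
  rw [integral_prod_symm _ (int_snd hφ hρ)]
  simp only [integral_const_mul, integral_sub_right_eq_self ρ, integral_mul_const]

theorem int_fst (hφ : Integrable φ volume) (hρ : Integrable ρ volume) :
    Integrable (fun p : E × E => φ p.1 * ρ (p.1 - p.2)) (volume.prod volume) := by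
  have := (int_snd hφ hρ.comp_neg).swap
  refine this.congr (Eventually.of_forall fun p => ?_)
  simp

theorem integral_fst (hφ : Integrable φ volume) (hρ : Integrable ρ volume) :
    ∫ p : E × E, φ p.1 * ρ (p.1 - p.2) ∂(volume.prod volume) = (∫ x, φ x) * ∫ x, ρ x := by
  rw [integral_prod _ (int_fst hφ hρ)]
  simp only [integral_const_mul, integral_sub_left_eq_self ρ, integral_mul_const]

end scalar

variable {w : E → ℝ} {M : ℝ} {r r' : E → S →L[ℂ] S} {f g : E → S}

omit [InnerProductSpace ℂ S] [CompleteSpace S] [FiniteDimensional ℂ S] in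
theorem int_sq (hf : MemLp f 2 volume) : Integrable (fun x => ‖f x‖ ^ 2) volume :=
  (memLp_two_iff_integrable_sq_norm hf.1).mp hf

omit [InnerProductSpace ℂ S] [CompleteSpace S] [FiniteDimensional ℂ S] in
theorem I2_nonneg (f : E → S) : 0 ≤ I2 f := integral_nonneg fun _ => sq_nonneg _

omit [InnerProductSpace ℂ S] [CompleteSpace S] [FiniteDimensional ℂ S] in
theorem I2_eq_zero (hf : MemLp f 2 volume) (h : I2 f = 0) : f =ᵐ[volume] 0 := by
  have := (integral_eq_zero_iff_of_nonneg (fun _ => sq_nonneg _) (int_sq hf)).mp h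
  filter_upwards [this] with x hx
  simpa using hx

omit [CompleteSpace S] [FiniteDimensional ℂ S] in
theorem meas_app (hr : Kr r) (hf : AEStronglyMeasurable f volume) :
    AEStronglyMeasurable (fun p : E × E => r (p.1 - p.2) (f p.2)) (volume.prod volume) := by
  have h1 : AEStronglyMeasurable (fun p : E × E => r (p.1 - p.2)) (volume.prod volume) :=
    (hr.meas.comp_measurable measurable_sub).aestronglyMeasurable
  exact (isBoundedBilinearMap_apply (𝕜 := ℂ)).continuous.comp_aestronglyMeasurable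
    (h1.prodMk hf.comp_snd)

omit [CompleteSpace S] [FiniteDimensional ℂ S] in
theorem kr_bound (hw : Wt w M) (r : E → S →L[ℂ] S) (g f : E → S) (p : E × E) :
    |kr w r g f p| ≤ w p.1 * w p.2 * (‖g p.1‖ * (‖r (p.1 - p.2)‖ * ‖f p.2‖)) := by
  unfold kr
  rw [abs_mul, abs_of_nonneg (mul_nonneg (hw.nonneg _) (hw.nonneg _))]
  refine mul_le_mul_of_nonneg_left ?_ (mul_nonneg (hw.nonneg _) (hw.nonneg _))
  refine (Complex.abs_re_le_norm _).trans ((norm_inner_le_norm _ _).trans ?_)
  exact mul_le_mul_of_nonneg_left (ContinuousLinearMap.le_opNorm _ _) (norm_nonneg _)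

omit [CompleteSpace S] [FiniteDimensional ℂ S] in
theorem kr_bound' (hw : Wt w M) (r : E → S →L[ℂ] S) (g f : E → S) (p : E × E) :
    |kr w r g f p| ≤ M ^ 2 / 2 * (‖g p.1‖ ^ 2 * ‖r (p.1 - p.2)‖ + ‖f p.2‖ ^ 2 * ‖r (p.1 - p.2)‖) := by
  refine (kr_bound hw r g f p).trans ?_
  have h1 : w p.1 * w p.2 ≤ M ^ 2 := by
    rw [pow_two]
    exact mul_le_mul (hw.le _) (hw.le _) (hw.nonneg _) ((hw.nonneg p.1).trans (hw.le _))
  have h2 : ‖g p.1‖ * (‖r (p.1 - p.2)‖ * ‖f p.2‖) ≤
      (‖g p.1‖ ^ 2 * ‖r (p.1 - p.2)‖ + ‖f p.2‖ ^ 2 * ‖r (p.1 - p.2)‖) / 2 := by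
    nlinarith [mul_nonneg (norm_nonneg (r (p.1 - p.2))) (sq_nonneg (‖g p.1‖ - ‖f p.2‖))]
  calc _ ≤ M ^ 2 * ((‖g p.1‖ ^ 2 * ‖r (p.1 - p.2)‖ + ‖f p.2‖ ^ 2 * ‖r (p.1 - p.2)‖) / 2) :=
        mul_le_mul h1 h2 (by positivity) (sq_nonneg _)
    _ = _ := by ring

omit [CompleteSpace S] [FiniteDimensional ℂ S] in
theorem meas_kr (hw : Wt w M) (hr : Kr r) (hg : AEStronglyMeasurable g volume)
    (hf : AEStronglyMeasurable f volume) :
    AEStronglyMeasurable (kr w r g f) (volume.prod volume) := by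
  refine AEStronglyMeasurable.mul ?_ ?_
  · exact ((hw.meas.comp measurable_fst).mul (hw.meas.comp measurable_snd)).aestronglyMeasurable
  · exact Complex.continuous_re.comp_aestronglyMeasurable (hg.comp_fst.inner (meas_app hr hf))

omit [CompleteSpace S] [FiniteDimensional ℂ S] in
theorem int_kr (hw : Wt w M) (hr : Kr r) (hg : MemLp g 2 volume) (hf : MemLp f 2 volume) :
    Integrable (kr w r g f) (volume.prod volume) :=
  Integrable.mono' (((int_fst (int_sq hg) hr.int.norm).add
    (int_snd (int_sq hf) hr.int.norm)).const_mul (M ^ 2 / 2)) (meas_kr hw hr hg.1 hf.1)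
    (Eventually.of_forall fun p => kr_bound' hw r g f p)

omit [CompleteSpace S] [FiniteDimensional ℂ S] in
theorem Q_bound (hw : Wt w M) (hr : Kr r) (hg : MemLp g 2 volume) (hf : MemLp f 2 volume) :
    |Q w r g f| ≤ M ^ 2 / 2 * (I2 g + I2 f) * ∫ z, ‖r z‖ := by
  refine abs_integral_le_integral_abs.trans ?_
  refine (integral_mono (int_kr hw hr hg hf).abs (((int_fst (int_sq hg) hr.int.norm).add
    (int_snd (int_sq hf) hr.int.norm)).const_mul (M ^ 2 / 2)) (kr_bound' hw r g f)).trans ?_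
  simp only [Pi.add_apply]
  rw [integral_const_mul, integral_add (int_fst (int_sq hg) hr.int.norm)
    (int_snd (int_sq hf) hr.int.norm), integral_fst (int_sq hg) hr.int.norm,
    integral_snd (int_sq hf) hr.int.norm]
  unfold I2
  exact le_of_eq (by ring)

omit [CompleteSpace S] [FiniteDimensional ℂ S] in
theorem Kr.sub (hr : Kr r) (hr' : Kr r') : Kr (r - r') := ⟨hr.meas.sub hr'.meas, hr.int.sub hr'.int⟩

omit [CompleteSpace S] [FiniteDimensional ℂ S] in
theorem Q_sub_ker (hw : Wt w M) (hr : Kr r) (hr' : Kr r') (hg : MemLp g 2 volume)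
    (hf : MemLp f 2 volume) :
    |Q w r g f - Q w r' g f| ≤ M ^ 2 / 2 * (I2 g + I2 f) * ∫ z, ‖r z - r' z‖ := by
  have : Q w r g f - Q w r' g f = Q w (r - r') g f := by
    unfold Q
    rw [← integral_sub (int_kr hw hr hg hf) (int_kr hw hr' hg hf)]
    congr 1
    ext p
    simp only [kr, Pi.sub_apply, sub_apply, inner_sub_right, Complex.sub_re]
    ring
  rw [this]
  exact Q_bound hw (hr.sub hr') hg hf

omit [FiniteDimensional ℂ S] in
theorem Q_symm (hs : ∀ z, r (-z) = star (r z)) (g f : E → S) : Q w r g f = Q w r f g := by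
  unfold Q
  rw [← integral_prod_swap]
  congr 1
  ext p
  simp only [kr, Prod.fst_swap, Prod.snd_swap]
  rw [← neg_sub p.1 p.2, hs, ContinuousLinearMap.star_eq_adjoint,
    ContinuousLinearMap.adjoint_inner_right, ← inner_conj_symm, Complex.conj_re]
  ring

omit [FiniteDimensional ℂ S] in
/-- Schur test with a weight. -/
theorem Q_schur (hw : Wt w M) (hr : Kr r) (hs : ∀ z, r (-z) = star (r z)) {θ : ℝ}
    (hθ : ∀ x, ∫ y, w y ^ 2 * ‖r (x - y)‖ ≤ θ) (hf : MemLp f 2 volume) :
    Q w r f f ≤ θ * I2 f := by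
  have hb : ∀ x, w x ^ 2 ≤ M ^ 2 := fun x => pow_le_pow_left₀ (hw.nonneg x) (hw.le x) 2
  have h1 : Integrable (fun p : E × E => ‖f p.1‖ ^ 2 * (w p.2 ^ 2 * ‖r (p.1 - p.2)‖))
      (volume.prod volume) := by
    refine Integrable.mono' ((int_fst (int_sq hf) hr.int.norm).const_mul (M ^ 2)) ?_
      (Eventually.of_forall fun p => ?_)
    · refine (hf.1.comp_fst.norm.pow 2).mul (AEStronglyMeasurable.mul ?_ ?_)
      · exact ((hw.meas.comp measurable_snd).pow_const 2).aestronglyMeasurable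
      · exact (hr.meas.comp_measurable measurable_sub).aestronglyMeasurable.norm
    · rw [Real.norm_of_nonneg (by positivity)]
      have := mul_le_mul_of_nonneg_right (hb p.2)
        (mul_nonneg (sq_nonneg ‖f p.1‖) (norm_nonneg (r (p.1 - p.2))))
      linarith
  have h2 : ∫ p : E × E, ‖f p.1‖ ^ 2 * (w p.2 ^ 2 * ‖r (p.1 - p.2)‖) ∂(volume.prod volume) ≤
      θ * I2 f := by
    rw [integral_prod _ h1, I2, ← integral_const_mul]
    refine integral_mono h1.integral_prod_left ((int_sq hf).const_mul θ) fun x => ?_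
    simp only [integral_const_mul]
    rw [mul_comm θ]
    exact mul_le_mul_of_nonneg_left (hθ x) (sq_nonneg _)
  have h3 : ∫ p : E × E, ‖f p.2‖ ^ 2 * (w p.1 ^ 2 * ‖r (p.2 - p.1)‖) ∂(volume.prod volume) ≤
      θ * I2 f := by
    rw [← integral_prod_swap]
    exact h2
  have h4 : Q w r f f ≤ ∫ p : E × E, (‖f p.1‖ ^ 2 * (w p.2 ^ 2 * ‖r (p.1 - p.2)‖) +
      ‖f p.2‖ ^ 2 * (w p.1 ^ 2 * ‖r (p.2 - p.1)‖)) / 2 ∂(volume.prod volume) := by
    refine integral_mono (int_kr hw hr hf hf) ((h1.add h1.swap).div_const 2) fun p => ?_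
    refine (le_abs_self _).trans ((kr_bound hw r f f p).trans ?_)
    have : ‖r (p.2 - p.1)‖ = ‖r (p.1 - p.2)‖ := by rw [← neg_sub p.1 p.2, hs, norm_star]
    simp only [this]
    nlinarith [mul_nonneg (norm_nonneg (r (p.1 - p.2)))
      (sq_nonneg (‖f p.1‖ * w p.2 - ‖f p.2‖ * w p.1))]
  have h1' : Integrable (fun p : E × E => ‖f p.2‖ ^ 2 * (w p.1 ^ 2 * ‖r (p.2 - p.1)‖))
      (volume.prod volume) := h1.swap
  rw [integral_div, integral_add h1 h1'] at h4
  linarith

omit [CompleteSpace S] [FiniteDimensional ℂ S] in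
theorem Q_add_left {g' : E → S} (hw : Wt w M) (hr : Kr r) (hg : MemLp g 2 volume)
    (hg' : MemLp g' 2 volume) (hf : MemLp f 2 volume) (t : ℝ) :
    Q w r (fun x => g x + (t : ℂ) • g' x) f = Q w r g f + t * Q w r g' f := by
  unfold Q
  rw [← integral_const_mul, ← integral_add (int_kr hw hr hg hf)
    ((int_kr hw hr hg' hf).const_mul t)]
  congr 1
  ext p
  simp only [kr, inner_add_left, inner_smul_left, Complex.conj_ofReal, Complex.add_re,
    Complex.re_ofReal_mul]
  ring

omit [CompleteSpace S] [FiniteDimensional ℂ S] in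
theorem Q_add_right {f' : E → S} (hw : Wt w M) (hr : Kr r) (hg : MemLp g 2 volume)
    (hf : MemLp f 2 volume) (hf' : MemLp f' 2 volume) (t : ℝ) :
    Q w r g (fun x => f x + (t : ℂ) • f' x) = Q w r g f + t * Q w r g f' := by
  unfold Q
  rw [← integral_const_mul, ← integral_add (int_kr hw hr hg hf)
    ((int_kr hw hr hg hf').const_mul t)]
  congr 1
  ext p
  simp only [kr, map_add, map_smul, inner_add_right, inner_smul_right, Complex.add_re,
    Complex.re_ofReal_mul]
  ring

omit [CompleteSpace S] [FiniteDimensional ℂ S] in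
theorem Q_smul (w : E → ℝ) (r : E → S →L[ℂ] S) (f : E → S) (t : ℝ) :
    Q w r (fun x => (t : ℂ) • f x) (fun x => (t : ℂ) • f x) = t ^ 2 * Q w r f f := by
  unfold Q
  rw [← integral_const_mul]
  congr 1
  ext p
  simp only [kr, map_smul, inner_smul_left, inner_smul_right, Complex.conj_ofReal,
    Complex.re_ofReal_mul]
  ring

omit [CompleteSpace S] [FiniteDimensional ℂ S] in
theorem I2_smul (f : E → S) (t : ℝ) : I2 (fun x => (t : ℂ) • f x) = t ^ 2 * I2 f := by
  unfold I2
  rw [← integral_const_mul]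
  congr 1
  ext x
  rw [norm_smul, mul_pow, Complex.norm_real, Real.norm_eq_abs, sq_abs]

omit [InnerProductSpace ℂ S] [CompleteSpace S] [FiniteDimensional ℂ S] in
theorem int_wf (hw : Wt w M) (hf : MemLp f 2 volume) :
    Integrable (fun y => w y * ‖f y‖) volume :=
  hw.l2.integrable_mul hf.norm

omit [CompleteSpace S] [FiniteDimensional ℂ S] in
theorem int_Tker (hw : Wt w M) (hr : Kr r) (hf : MemLp f 2 volume) :
    Integrable (fun p : E × E => (w p.2 : ℂ) • r (p.1 - p.2) (f p.2)) (volume.prod volume) := by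
  refine Integrable.mono' (int_snd (int_wf hw hf) hr.int.norm) ?_ (Eventually.of_forall fun p => ?_)
  · exact (Complex.measurable_ofReal.comp
      (hw.meas.comp measurable_snd)).aestronglyMeasurable.smul (meas_app hr hf.1)
  · rw [norm_smul, Complex.norm_real, Real.norm_of_nonneg (hw.nonneg _), mul_assoc]
    refine mul_le_mul_of_nonneg_left ?_ (hw.nonneg _)
    rw [mul_comm]
    exact ContinuousLinearMap.le_opNorm _ _

omit [FiniteDimensional ℂ S] in
theorem Q_eq (hw : Wt w M) (hr : Kr r) (hg : MemLp g 2 volume) (hf : MemLp f 2 volume) :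
    Q w r g f = ∫ x, (inner ℂ (g x) ((w x : ℂ) • T w r f x)).re := by
  unfold Q
  rw [integral_prod _ (int_kr hw hr hg hf)]
  refine integral_congr_ae ?_
  filter_upwards [(int_Tker hw hr hf).prod_right_ae] with x hx
  have h1 : (inner ℂ (g x) (T w r f x)).re =
      ∫ y, (inner ℂ (g x) ((w y : ℂ) • r (x - y) (f y))).re := by
    rw [T, ← integral_inner (𝕜 := ℂ) hx]
    exact (integral_re (hx.const_inner (𝕜 := ℂ) (g x))).symm
  rw [inner_smul_right, Complex.re_ofReal_mul, h1, ← integral_const_mul]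
  congr 1
  ext y
  simp only [kr, inner_smul_right, Complex.re_ofReal_mul]
  ring

omit [CompleteSpace S] [FiniteDimensional ℂ S] in
theorem memLp_T (hw : Wt w M) (hr : Kr r) (hf : MemLp f 2 volume) : MemLp (T w r f) 2 volume := by
  have hm : AEStronglyMeasurable (T w r f) volume :=
    (int_Tker hw hr hf).integral_prod_left.aestronglyMeasurable
  rw [memLp_two_iff_integrable_sq_norm hm]
  set A : ℝ := ∫ z, ‖r z‖ with hA
  have hA0 : 0 ≤ A := integral_nonneg fun _ => norm_nonneg _
  have h1 := int_snd (int_sq hf) hr.int.norm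
  refine Integrable.mono' (h1.integral_prod_left.const_mul ((A + 1) * M ^ 2)) (hm.norm.pow 2) ?_
  filter_upwards [h1.prod_right_ae] with x hx
  set N : ℝ := ‖T w r f x‖ with hN
  set h : ℝ := ∫ y, ‖f y‖ ^ 2 * ‖r (x - y)‖ with hh
  have hh0 : 0 ≤ h := integral_nonneg fun _ => by positivity
  rw [Real.norm_of_nonneg (sq_nonneg _)]
  rcases (norm_nonneg (T w r f x)).eq_or_lt with h0 | h0
  · rw [hN, ← h0]
    have : 0 ≤ (A + 1) * M ^ 2 * h := by positivity
    simpa using this
  have hri : Integrable (fun y => ‖r (x - y)‖) volume := hr.int.norm.comp_sub_left x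
  have key : ∀ t : ℝ, 0 < t → N ≤ t / 2 * A + M ^ 2 / (2 * t) * h := by
    intro t ht
    have e1 : ∫ y, ‖r (x - y)‖ = A := integral_sub_left_eq_self (fun z => ‖r z‖) volume x
    rw [← e1, hh, ← integral_const_mul, ← integral_const_mul,
      ← integral_add (hri.const_mul _) (hx.const_mul _)]
    refine norm_integral_le_of_norm_le ((hri.const_mul _).add (hx.const_mul _))
      (Eventually.of_forall fun y => ?_)
    rw [norm_smul, Complex.norm_real, Real.norm_of_nonneg (hw.nonneg _)]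
    have h2 : w y * ‖r (x - y) (f y)‖ ≤ M * (‖r (x - y)‖ * ‖f y‖) :=
      mul_le_mul (hw.le y) (ContinuousLinearMap.le_opNorm _ _) (norm_nonneg _)
        ((hw.nonneg y).trans (hw.le y))
    refine h2.trans ?_
    have h3 : 0 ≤ ‖r (x - y)‖ * (t - M * ‖f y‖) ^ 2 / (2 * t) := by positivity
    have h4 : t / 2 * ‖r (x - y)‖ + M ^ 2 / (2 * t) * (‖f y‖ ^ 2 * ‖r (x - y)‖) -
        M * (‖r (x - y)‖ * ‖f y‖) = ‖r (x - y)‖ * (t - M * ‖f y‖) ^ 2 / (2 * t) := by
      field_simp
      ring
    linarith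
  have h5 := key (N / (A + 1)) (by positivity)
  have h6 : N / (A + 1) / 2 * A ≤ N / 2 := by
    rw [div_div, div_mul_eq_mul_div, div_le_div_iff₀ (by positivity) (by positivity)]
    nlinarith
  have h7 : M ^ 2 / (2 * (N / (A + 1))) * h = (A + 1) * M ^ 2 * h / (2 * N) := by
    field_simp
  have h8 : N / 2 ≤ (A + 1) * M ^ 2 * h / (2 * N) := by linarith
  rw [div_le_div_iff₀ (by positivity) (by positivity)] at h8
  nlinarith

omit [CompleteSpace S] [FiniteDimensional ℂ S] in
theorem memLp_w (hw : Wt w M) (hf : MemLp f 2 volume) :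
    MemLp (fun x => (w x : ℂ) • f x) 2 volume := by
  refine MemLp.of_le_mul (c := M) hf
    ((Complex.measurable_ofReal.comp hw.meas).aestronglyMeasurable.smul hf.1)
    (Eventually.of_forall fun x => ?_)
  rw [norm_smul, Complex.norm_real, Real.norm_of_nonneg (hw.nonneg _)]
  exact mul_le_mul_of_nonneg_right (hw.le x) (norm_nonneg _)

end Pool.Agent.MP_0b7119_mp.G.JD
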