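import Pool.Agent.MP_0b7119_mp.JobD1

/-! Birman-Schwinger forms: weak continuity. -/

open Set MeasureTheory Filter Topology

namespace Pool.Agent.MP_0b7119_mp.G.JD

variable {E S : Type} [NormedAddCommGroup E] [InnerProductSpace ℝ E] [FiniteDimensional ℝ E]
  [MeasurableSpace E] [BorelSpace E] [NormedAddCommGroup S] [InnerProductSpace ℂ S]
  [CompleteSpace S] [FiniteDimensional ℂ S]

variable {w : E → ℝ} {M : ℝ} {r r' : E → S →L[ℂ] S} {f g : E → S}

omit [CompleteSpace S] [FiniteDimensional ℂ S] in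
theorem norm_sq_Lp (u : Lp S 2 (volume : Measure E)) : ‖u‖ ^ 2 = I2 (u : E → S) := by
  rw [← inner_self_eq_norm_sq (𝕜 := ℂ) u, L2.inner_def, ← integral_re (L2.integrable_inner u u)]
  simp only [inner_self_eq_norm_sq, I2]

omit [InnerProductSpace ℂ S] [CompleteSpace S] [FiniteDimensional ℂ S] in
theorem I2_congr (h : f =ᵐ[volume] g) : I2 f = I2 g := by
  refine integral_congr_ae ?_
  filter_upwards [h] with x hx
  rw [hx]

omit [CompleteSpace S] [FiniteDimensional ℂ S] in
theorem inner_toLp (hg : MemLp g 2 volume) (u : Lp S 2 (volume : Measure E)) (h : u =ᵐ[volume] f) :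
    inner ℂ (hg.toLp g) u = ∫ x, inner ℂ (g x) (f x) := by
  rw [L2.inner_def]
  refine integral_congr_ae ?_
  filter_upwards [h, hg.coeFn_toLp] with x hx hx'
  rw [hx, hx']

theorem weak_hilbert {H : Type} [NormedAddCommGroup H] [InnerProductSpace ℂ H] [CompleteSpace H]
    [TopologicalSpace.SeparableSpace H] (u : ℕ → H) (hu : ∀ n, ‖u n‖ ≤ 1) :
    ∃ φ : ℕ → ℕ, StrictMono φ ∧ ∃ U : H, ‖U‖ ≤ 1 ∧
      ∀ g : H, Tendsto (fun n => inner ℂ g (u (φ n))) atTop (𝓝 (inner ℂ g U)) := by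
  obtain ⟨a, ha, φ, hφ, hlim⟩ := WeakDual.isSeqCompact_closedBall (𝕜 := ℂ) (E := H) 0 1
    (x := fun n => StrongDual.toWeakDual (InnerProductSpace.toDual ℂ H (u n)))
    (fun n => by simpa using hu n)
  let U : H := (InnerProductSpace.toDual ℂ H).symm (WeakDual.toStrongDual a)
  have hU : ‖U‖ ≤ 1 := by simpa [U] using ha
  refine ⟨φ, hφ, U, hU, fun g => ?_⟩
  have h2 := tendsto_iff_forall_eval_tendsto_topDualPairing.mp hlim g
  have h3 : Tendsto (fun n => inner ℂ (u (φ n)) g) atTop (𝓝 (inner ℂ U g)) := by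
    have e : inner ℂ U g = a g := by
      simp only [U, InnerProductSpace.toDual_symm_apply]
      rfl
    rw [e]
    exact h2
  have h4 := (Complex.continuous_conj.tendsto _).comp h3
  simpa only [Function.comp_def, inner_conj_symm] using h4

theorem weak_subseq (f : ℕ → E → S) (hf : ∀ n, MemLp (f n) 2 volume) (h1 : ∀ n, I2 (f n) ≤ 1) :
    ∃ φ : ℕ → ℕ, StrictMono φ ∧ ∃ F : E → S, MemLp F 2 volume ∧ I2 F ≤ 1 ∧
      ∀ g : E → S, MemLp g 2 volume → Tendsto (fun n => ∫ x, inner ℂ (g x) (f (φ n) x)) atTop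
        (𝓝 (∫ x, inner ℂ (g x) (F x))) := by
  have := FiniteDimensional.proper_rclike ℂ S
  have : Fact ((2 : ENNReal) ≠ ⊤) := ⟨by simp⟩
  have hu : ∀ n, ‖(hf n).toLp (f n)‖ ≤ 1 := fun n => by
    have := norm_sq_Lp ((hf n).toLp (f n))
    rw [I2_congr (hf n).coeFn_toLp] at this
    nlinarith [h1 n, norm_nonneg ((hf n).toLp (f n))]
  obtain ⟨φ, hφ, U, hU, hlim⟩ := weak_hilbert (fun n => (hf n).toLp (f n)) hu
  refine ⟨φ, hφ, U, Lp.memLp U, ?_, fun g hg => ?_⟩
  · rw [← norm_sq_Lp]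
    nlinarith [norm_nonneg U]
  · have h4 := hlim (hg.toLp g)
    rw [inner_toLp hg U (EventuallyEq.refl _ _)] at h4
    exact h4.congr fun n => inner_toLp hg _ (hf (φ n)).coeFn_toLp

omit [CompleteSpace S] [FiniteDimensional ℂ S] in
theorem int_inner (hg : MemLp g 2 volume) (hf : MemLp f 2 volume) :
    Integrable (fun x => inner ℂ (g x) (f x)) volume :=
  Integrable.mono' (hg.norm.integrable_mul hf.norm) (hg.1.inner hf.1)
    (Eventually.of_forall fun _ => norm_inner_le_norm _ _)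

omit [CompleteSpace S] [FiniteDimensional ℂ S] in
theorem int_T (hw : Wt w M) (hr : Kr r) {B : ℝ} (hB : ∀ z, ‖r z‖ ≤ B) (hf : MemLp f 2 volume)
    (x : E) : Integrable (fun y => (w y : ℂ) • r (x - y) (f y)) volume ∧
      ‖T w r f x‖ ≤ B * ∫ y, w y * ‖f y‖ := by
  have hb : ∀ y, ‖(w y : ℂ) • r (x - y) (f y)‖ ≤ B * (w y * ‖f y‖) := fun y => by
    rw [norm_smul, Complex.norm_real, Real.norm_of_nonneg (hw.nonneg _), mul_left_comm]
    exact mul_le_mul_of_nonneg_left ((ContinuousLinearMap.le_opNorm _ _).trans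
      (mul_le_mul_of_nonneg_right (hB _) (norm_nonneg _))) (hw.nonneg _)
  refine ⟨Integrable.mono' ((int_wf hw hf).const_mul B) ?_ (Eventually.of_forall hb), ?_⟩
  · refine (Complex.measurable_ofReal.comp hw.meas).aestronglyMeasurable.smul ?_
    exact (isBoundedBilinearMap_apply (𝕜 := ℂ)).continuous.comp_aestronglyMeasurable
      ((hr.meas.comp_measurable (measurable_id.const_sub x)).aestronglyMeasurable.prodMk hf.1)
  · rw [← integral_const_mul]
    exact norm_integral_le_of_norm_le ((int_wf hw hf).const_mul B) (Eventually.of_forall hb)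

theorem T_tendsto (hw : Wt w M) (hr : Kr r) {B : ℝ} (hB : ∀ z, ‖r z‖ ≤ B) {d : ℕ → E → S}
    (hd : ∀ n, MemLp (d n) 2 volume)
    (hlim : ∀ g : E → S, MemLp g 2 volume →
      Tendsto (fun n => ∫ x, inner ℂ (g x) (d n x)) atTop (𝓝 0)) (x : E) :
    Tendsto (fun n => T w r (d n) x) atTop (𝓝 0) := by
  have key : ∀ s : S, Tendsto (fun n => inner ℂ s (T w r (d n) x)) atTop (𝓝 0) := by
    intro s
    have hg : MemLp (fun y => (w y : ℂ) • (star (r (x - y))) s) 2 volume := by
      refine MemLp.of_le_mul (c := B * ‖s‖) hw.l2 ?_ (Eventually.of_forall fun y => ?_)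
      · refine (Complex.measurable_ofReal.comp hw.meas).aestronglyMeasurable.smul ?_
        have h1 : AEStronglyMeasurable (fun y => star (r (x - y))) volume :=
          continuous_star.comp_aestronglyMeasurable
            (hr.meas.comp_measurable (measurable_id.const_sub x)).aestronglyMeasurable
        exact h1.apply_continuousLinearMap s
      · rw [norm_smul, Complex.norm_real, mul_comm]
        refine mul_le_mul_of_nonneg_right ((ContinuousLinearMap.le_opNorm _ _).trans ?_)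
          (norm_nonneg _)
        rw [norm_star]
        exact mul_le_mul_of_nonneg_right (hB _) (norm_nonneg _)
    refine (hlim _ hg).congr fun n => ?_
    rw [T, ← integral_inner (𝕜 := ℂ) (int_T hw hr hB (hd n) x).1]
    congr 1
    ext y
    rw [inner_smul_left, inner_smul_right, Complex.conj_ofReal,
      ContinuousLinearMap.star_eq_adjoint, ContinuousLinearMap.adjoint_inner_left]
  let b := stdOrthonormalBasis ℂ S
  have h2 := tendsto_finsetSum Finset.univ fun i _ => (key (b i)).smul_const (b i)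
  simpa only [b.sum_repr', zero_smul, Finset.sum_const_zero] using h2

theorem Q_tendsto_zero (hw : Wt w M) (hr : Kr r) {B : ℝ} (hB : ∀ z, ‖r z‖ ≤ B) {f d : ℕ → E → S}
    (hf : ∀ n, MemLp (f n) 2 volume) (hf1 : ∀ n, I2 (f n) ≤ 1)
    (hd : ∀ n, MemLp (d n) 2 volume) (hd1 : ∀ n, I2 (d n) ≤ 4)
    (hlim : ∀ g : E → S, MemLp g 2 volume →
      Tendsto (fun n => ∫ x, inner ℂ (g x) (d n x)) atTop (𝓝 0)) :
    Tendsto (fun n => Q w r (f n) (d n)) atTop (𝓝 0) := by
  have hw2 : Integrable (fun x => w x ^ 2) volume := hw.l2.integrable_sq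
  have hB0 : 0 ≤ B := (norm_nonneg _).trans (hB 0)
  set C : ℝ := B * (((∫ x, w x ^ 2) + 4) / 2) with hC
  have hT : ∀ n x, ‖T w r (d n) x‖ ≤ C := fun n x => by
    refine (int_T hw hr hB (hd n) x).2.trans (mul_le_mul_of_nonneg_left ?_ hB0)
    have : ∫ y, w y * ‖d n y‖ ≤ ∫ y, (w y ^ 2 + ‖d n y‖ ^ 2) / 2 :=
      integral_mono (int_wf hw (hd n)) ((hw2.add (int_sq (hd n))).div_const 2) fun y => by
        nlinarith [sq_nonneg (w y - ‖d n y‖)]
    rw [integral_div, integral_add hw2 (int_sq (hd n))] at this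
    have h4 := hd1 n
    unfold I2 at h4
    linarith
  have hG : ∀ n, MemLp (fun x => (w x : ℂ) • T w r (d n) x) 2 volume := fun n =>
    memLp_w hw (memLp_T hw hr (hd n))
  have h0 : Tendsto (fun n => I2 fun x => (w x : ℂ) • T w r (d n) x) atTop (𝓝 0) := by
    have := tendsto_integral_of_dominated_convergence (μ := (volume : Measure E))
      (F := fun n x => ‖(w x : ℂ) • T w r (d n) x‖ ^ 2) (f := fun _ => (0 : ℝ))
      (fun x => C ^ 2 * w x ^ 2) (fun n => (hG n).1.norm.pow 2) (hw2.const_mul _)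
      (fun n => Eventually.of_forall fun x => by
        rw [Real.norm_of_nonneg (sq_nonneg _), norm_smul, Complex.norm_real,
          Real.norm_of_nonneg (hw.nonneg x), mul_pow, mul_comm]
        exact mul_le_mul_of_nonneg_right (pow_le_pow_left₀ (norm_nonneg _) (hT n x) 2)
          (sq_nonneg _))
      (Eventually.of_forall fun x => by
        have := (((T_tendsto hw hr hB hd hlim x).const_smul (w x : ℂ)).norm).pow 2
        simpa using this)
    simpa [I2] using this
  rw [Metric.tendsto_atTop]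
  intro ε hε
  obtain ⟨N, hN⟩ := Metric.tendsto_atTop.mp h0 (ε ^ 2) (by positivity)
  refine ⟨N, fun n hn => ?_⟩
  have h1 := hN n hn
  rw [Real.dist_eq, sub_zero, abs_of_nonneg (I2_nonneg _)] at h1
  rw [Real.dist_eq, sub_zero, Q_eq hw hr (hf n) (hd n)]
  have h2 : |∫ x, (inner ℂ (f n x) ((w x : ℂ) • T w r (d n) x)).re| ≤
      ∫ x, (ε / 2 * ‖f n x‖ ^ 2 + 1 / (2 * ε) * ‖(w x : ℂ) • T w r (d n) x‖ ^ 2) := by
    rw [← Real.norm_eq_abs]
    refine norm_integral_le_of_norm_le (((int_sq (hf n)).const_mul _).add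
      ((int_sq (hG n)).const_mul _)) (Eventually.of_forall fun x => ?_)
    refine (Complex.abs_re_le_norm _).trans ((norm_inner_le_norm _ _).trans ?_)
    set A := ‖f n x‖
    set D := ‖(w x : ℂ) • T w r (d n) x‖
    have h3 : ε / 2 * A ^ 2 + 1 / (2 * ε) * D ^ 2 - A * D = (ε * A - D) ^ 2 / (2 * ε) := by
      field_simp
      ring
    have h4 : 0 ≤ (ε * A - D) ^ 2 / (2 * ε) := by positivity
    linarith
  rw [integral_add ((int_sq (hf n)).const_mul _) ((int_sq (hG n)).const_mul _),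
    integral_const_mul, integral_const_mul] at h2
  have h5 : 1 / (2 * ε) * (I2 fun x => (w x : ℂ) • T w r (d n) x) < ε / 2 := by
    rw [div_mul_eq_mul_div, div_lt_div_iff₀ (by positivity) (by positivity)]
    nlinarith
  have h6 : ε / 2 * I2 (f n) ≤ ε / 2 := by nlinarith [hf1 n]
  unfold I2 at h5 h6
  linarith

omit [InnerProductSpace ℂ S] [CompleteSpace S] [FiniteDimensional ℂ S] in
theorem I2_sub_le (hf : MemLp f 2 volume) (hg : MemLp g 2 volume) :
    I2 (fun x => f x - g x) ≤ 2 * I2 f + 2 * I2 g := by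
  unfold I2
  rw [← integral_const_mul, ← integral_const_mul,
    ← integral_add ((int_sq hf).const_mul _) ((int_sq hg).const_mul _)]
  refine integral_mono (int_sq (hf.sub hg)) (((int_sq hf).const_mul _).add
    ((int_sq hg).const_mul _)) fun x => ?_
  have := pow_le_pow_left₀ (norm_nonneg _) (norm_sub_le (f x) (g x)) 2
  simp only
  nlinarith [sq_nonneg (‖f x‖ - ‖g x‖)]

theorem Q_tendsto_bdd (hw : Wt w M) (hr : Kr r) {B : ℝ} (hB : ∀ z, ‖r z‖ ≤ B) {f : ℕ → E → S}
    {F : E → S} (hf : ∀ n, MemLp (f n) 2 volume) (hf1 : ∀ n, I2 (f n) ≤ 1)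
    (hF : MemLp F 2 volume) (hF1 : I2 F ≤ 1)
    (hlim : ∀ g : E → S, MemLp g 2 volume → Tendsto (fun n => ∫ x, inner ℂ (g x) (f n x)) atTop
      (𝓝 (∫ x, inner ℂ (g x) (F x)))) :
    Tendsto (fun n => Q w r (f n) (f n)) atTop (𝓝 (Q w r F F)) := by
  have hd : ∀ n, MemLp (fun x => f n x - F x) 2 volume := fun n => (hf n).sub hF
  have h1 := Q_tendsto_zero hw hr hB hf hf1 hd
    (fun n => (I2_sub_le (hf n) hF).trans (by linarith [hf1 n])) (fun g hg => by
      have := (hlim g hg).sub_const (∫ x, inner ℂ (g x) (F x))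
      rw [sub_self] at this
      refine this.congr fun n => ?_
      rw [← integral_sub (int_inner hg (hf n)) (int_inner hg hF)]
      simp only [inner_sub_right])
  have hG : MemLp (fun x => (w x : ℂ) • T w r F x) 2 volume := memLp_w hw (memLp_T hw hr hF)
  have e : ∀ g : E → S, MemLp g 2 volume →
      Q w r g F = (∫ x, inner ℂ ((w x : ℂ) • T w r F x) (g x)).re := fun g hg => by
    rw [Q_eq hw hr hg hF]
    refine Eq.trans ?_ (integral_re (int_inner hG hg))
    congr 1
    ext x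
    rw [← inner_conj_symm, Complex.conj_re]
    rfl
  have h2 : Tendsto (fun n => Q w r (f n) F) atTop (𝓝 (Q w r F F)) := by
    rw [e F hF]
    exact ((Complex.continuous_re.tendsto _).comp (hlim _ hG)).congr fun n => (e _ (hf n)).symm
  have h3 := h2.add h1
  rw [add_zero] at h3
  refine h3.congr fun n => ?_
  have := Q_add_right hw hr (hf n) hF (hd n) 1
  simp only [Complex.ofReal_one, one_smul, add_sub_cancel, one_mul] at this
  exact this.symm

theorem Q_tendsto (hw : Wt w M) (hr : Kr r) {f : ℕ → E → S}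
    {F : E → S} (hf : ∀ n, MemLp (f n) 2 volume) (hf1 : ∀ n, I2 (f n) ≤ 1)
    (hF : MemLp F 2 volume) (hF1 : I2 F ≤ 1)
    (hlim : ∀ g : E → S, MemLp g 2 volume → Tendsto (fun n => ∫ x, inner ℂ (g x) (f n x)) atTop
      (𝓝 (∫ x, inner ℂ (g x) (F x)))) :
    Tendsto (fun n => Q w r (f n) (f n)) atTop (𝓝 (Q w r F F)) := by
  rw [Metric.tendsto_atTop]
  intro ε hε
  obtain ⟨k, hk, hki⟩ := hr.int.exists_boundedContinuous_integral_sub_le
    (ε := ε / (3 * (M ^ 2 + 1))) (by positivity)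
  have hkr : Kr (k : E → S →L[ℂ] S) := ⟨k.continuous.stronglyMeasurable, hki⟩
  have hb : ∀ g : E → S, MemLp g 2 volume → I2 g ≤ 1 → |Q w r g g - Q w k g g| ≤ ε / 3 := by
    intro g hg hg1
    refine (Q_sub_ker hw hr hkr hg hg).trans ?_
    have h1 : M ^ 2 / 2 * (I2 g + I2 g) ≤ M ^ 2 + 1 := by nlinarith [sq_nonneg M]
    calc _ ≤ (M ^ 2 + 1) * (ε / (3 * (M ^ 2 + 1))) :=
          mul_le_mul h1 hk (integral_nonneg fun _ => norm_nonneg _) (by positivity)
      _ = ε / 3 := by field_simp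
  obtain ⟨N, hN⟩ := Metric.tendsto_atTop.mp
    (Q_tendsto_bdd hw hkr k.norm_coe_le_norm hf hf1 hF hF1 hlim) (ε / 3) (by positivity)
  refine ⟨N, fun n hn => ?_⟩
  have h1 := hN n hn
  have h2 := hb _ (hf n) (hf1 n)
  have h3 := hb _ hF hF1
  rw [Real.dist_eq, abs_lt] at h1 ⊢
  rw [abs_le] at h2 h3
  constructor <;> linarith [h1.1, h1.2, h2.1, h2.2, h3.1, h3.2]

end Pool.Agent.MP_0b7119_mp.G.JD
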