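import Pool.Agent.MP_0b7119_mp.Pruefer2

open Set MeasureTheory Matrix Filter Topology

namespace Pool.Agent.MP_0b7119_mp

noncomputable def GG (m y : ℝ) : ℝ := m * (Real.cos y - Real.cos 3)

noncomputable def hh (m p y : ℝ) : ℝ :=
  max (GG m y) 0 ^ (p - 1) * min 1 (max (GG m y) 0 / GG m 2)

noncomputable def HH (m p y : ℝ) : ℝ := ∫ t in (0 : ℝ)..y, hh m p t

noncomputable def cp (p : ℝ) : ℝ := sSup ((fun τ : ℝ => (τ - 1) / τ ^ p) '' Ioi 1)

theorem three_lt_pi : (3 : ℝ) < Real.pi := Real.pi_gt_three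

theorem pi_div_two_lt_two : Real.pi / 2 < 2 := by linarith [Real.pi_lt_four]

theorem cos_lt {x y : ℝ} (hx : 0 ≤ x) (hxy : x < y) (hy : y ≤ Real.pi) : Real.cos y < Real.cos x :=
  Real.cos_lt_cos_of_nonneg_of_le_pi hx hy hxy

theorem cos3_gt : -1 < Real.cos 3 := by
  have := cos_lt (x := 3) (y := Real.pi) (by norm_num) three_lt_pi le_rfl
  rwa [Real.cos_pi] at this

theorem GG_two_pos {m : ℝ} (hm : 0 < m) : 0 < GG m 2 :=
  mul_pos hm (sub_pos.2 (cos_lt (by norm_num) (by norm_num) three_lt_pi.le))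

theorem GG_ge {m : ℝ} (hm : 0 < m) {y : ℝ} (hy : y ∈ Icc (-2 : ℝ) 2) : GG m 2 ≤ GG m y := by
  have h1 : Real.cos 2 ≤ Real.cos |y| :=
    Real.cos_le_cos_of_nonneg_of_le_pi (abs_nonneg _) (by linarith [three_lt_pi]) (abs_le.2 hy)
  rw [Real.cos_abs] at h1
  unfold GG
  nlinarith

theorem GG_cont (m : ℝ) : Continuous (GG m) := by unfold GG; fun_prop

theorem hh_cont (m : ℝ) {p : ℝ} (hp : 1 ≤ p) : Continuous (hh m p) := by
  have h1 : Continuous fun y => max (GG m y) 0 := (GG_cont m).max continuous_const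
  unfold hh
  exact (h1.rpow_const (fun _ => Or.inr (by linarith))).mul
    (continuous_const.min (h1.div_const _))

theorem hh_nonneg {m : ℝ} (hm : 0 < m) (p y : ℝ) : 0 ≤ hh m p y := by
  have := GG_two_pos hm
  have h1 : 0 ≤ max (GG m y) 0 := le_max_right _ _
  unfold hh
  exact mul_nonneg (Real.rpow_nonneg h1 _) (le_min zero_le_one (by positivity))

theorem HH_hasDerivAt (m : ℝ) {p : ℝ} (hp : 1 ≤ p) (y : ℝ) : HasDerivAt (HH m p) (hh m p y) y :=
  ((hh_cont m hp).integral_hasStrictDerivAt 0 y).hasDerivAt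

theorem HH_sub (m : ℝ) {p : ℝ} (hp : 1 ≤ p) (x y : ℝ) :
    HH m p y - HH m p x = ∫ t in x..y, hh m p t :=
  intervalIntegral.integral_interval_sub_left ((hh_cont m hp).intervalIntegrable _ _)
    ((hh_cont m hp).intervalIntegrable _ _)

theorem HH_mono {m : ℝ} (hm : 0 < m) {p : ℝ} (hp : 1 ≤ p) {x y : ℝ} (hxy : x ≤ y) :
    HH m p x ≤ HH m p y := by
  have h1 := HH_sub m hp x y
  have h2 : 0 ≤ ∫ t in x..y, hh m p t :=
    intervalIntegral.integral_nonneg hxy (fun t _ => hh_nonneg hm p t)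
  linarith

theorem HH_lt {m : ℝ} (hm : 0 < m) {p : ℝ} (hp : 1 ≤ p) : HH m p 2 < HH m p 3 := by
  have h1 := HH_sub m hp 2 3
  have h2 : 0 < ∫ t in (2 : ℝ)..3, hh m p t := by
    apply intervalIntegral.intervalIntegral_pos_of_pos_on ((hh_cont m hp).intervalIntegrable _ _)
      _ (by norm_num)
    intro t ht
    have h3 : 0 < GG m t :=
      mul_pos hm (sub_pos.2 (cos_lt (by linarith [ht.1]) ht.2 three_lt_pi.le))
    have h4 := GG_two_pos hm
    unfold hh
    rw [max_eq_left h3.le]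
    exact mul_pos (Real.rpow_pos_of_pos h3 _) (lt_min one_pos (by positivity))
  linarith

theorem cp_bdd {p : ℝ} (hp : 1 ≤ p) : BddAbove ((fun τ : ℝ => (τ - 1) / τ ^ p) '' Ioi 1) := by
  refine ⟨1, ?_⟩
  rintro _ ⟨τ, hτ, rfl⟩
  have h1 : (1 : ℝ) < τ := hτ
  have h2 : τ ^ (1 : ℝ) ≤ τ ^ p := Real.rpow_le_rpow_of_exponent_le h1.le hp
  rw [Real.rpow_one] at h2
  show (τ - 1) / τ ^ p ≤ 1
  rw [div_le_one (by linarith)]
  linarith

theorem le_cp {p : ℝ} (hp : 1 ≤ p) {τ : ℝ} (hτ : 1 < τ) : (τ - 1) / τ ^ p ≤ cp p :=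
  le_csSup (cp_bdd hp) ⟨τ, hτ, rfl⟩

theorem cp_pos {p : ℝ} (hp : 1 ≤ p) : 0 < cp p := by
  have := le_cp hp (τ := 2) (by norm_num)
  have h2 : (0 : ℝ) < (2 - 1) / 2 ^ p := by positivity
  linarith

theorem young_hh {m : ℝ} (hm : 0 < m) {p : ℝ} (hp : 1 ≤ p) {V l y : ℝ} (hV : 0 ≤ V)
    (hl : l ≤ m * Real.cos 3) :
    hh m p y * (2 * (l + V) - 2 * m * Real.cos y) ≤ 2 * cp p * V ^ p := by
  have hc := cp_pos hp
  have h0 : 0 ≤ 2 * cp p * V ^ p := by positivity
  have hg2 := GG_two_pos hm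
  rcases le_or_gt (GG m y) 0 with hg | hg
  · have : hh m p y = 0 := by unfold hh; rw [max_eq_right hg]; simp
    rw [this, zero_mul]; exact h0
  · have h1 : 2 * (l + V) - 2 * m * Real.cos y ≤ 2 * (V - GG m y) := by unfold GG; linarith
    have h2 := hh_nonneg hm p y
    refine (mul_le_mul_of_nonneg_left h1 h2).trans ?_
    rcases le_or_gt V (GG m y) with h3 | h3
    · nlinarith
    · have h4 : hh m p y ≤ GG m y ^ (p - 1) := by
        unfold hh
        rw [max_eq_left hg.le]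
        exact mul_le_of_le_one_right (Real.rpow_nonneg hg.le _) (min_le_left _ _)
      have h5 : 1 < V / GG m y := (one_lt_div hg).2 h3
      have h6 := le_cp hp h5
      rw [Real.div_rpow hV hg.le, div_le_iff₀ (by
        have : 0 < V := hg.trans h3
        positivity)] at h6
      have h7 : GG m y ^ p = GG m y ^ (p - 1) * GG m y := by
        rw [← Real.rpow_add_one hg.ne']; congr 1; ring
      have h8 : 0 < GG m y ^ (p - 1) := Real.rpow_pos_of_pos hg _
      have h9 : GG m y ^ (p - 1) * (V - GG m y) ≤ cp p * V ^ p := by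
        have e1 : GG m y ^ (p - 1) * (V - GG m y) = GG m y ^ p * (V / GG m y - 1) := by
          rw [h7]; field_simp
        have e2 : cp p * V ^ p = GG m y ^ p * (cp p * (V ^ p / GG m y ^ p)) := by
          have : 0 < GG m y ^ p := Real.rpow_pos_of_pos hg _
          field_simp
        rw [e1, e2]
        exact mul_le_mul_of_nonneg_left h6 (Real.rpow_nonneg hg.le _)
      have h10 : hh m p y * (2 * (V - GG m y)) ≤ GG m y ^ (p - 1) * (2 * (V - GG m y)) :=
        mul_le_mul_of_nonneg_right h4 (by linarith)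
      linarith

theorem keller {m l p : ℝ} {V φ ρ : ℝ → ℝ} (P : Pruefer m l V φ ρ) (hm : 0 < m) (hl : -m ≤ l)
    (hl' : l < m * Real.cos 3) (hV : ∀ x, 0 ≤ V x) (hp : 1 ≤ p)
    (hVp : Integrable (fun x => V x ^ p) volume) (h0 : φ 0 ∈ Icc (-Real.pi) Real.pi) :
    HH m p 3 - HH m p (-3) ≤ 2 * cp p * ∫ x, V x ^ p := by
  have h3 : (3 : ℝ) ∈ Ioo 0 Real.pi := ⟨by norm_num, three_lt_pi⟩
  obtain ⟨y, hy, hy3⟩ := P.reach hm hl hV hp hVp h3 hl' h0.1
  obtain ⟨x, hx, hx3⟩ := P.reflect.reach hm hl (fun x => hV _) hp hVp.comp_neg h3 hl'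
    (x₀ := 0) (by simpa using h0.2)
  have hW := ((ACD.primitive hVp.locallyIntegrable (-x)).const_mul (2 * cp p)).sub
    (P.hφ.comp (HH_hasDerivAt m hp) (hh_cont m hp))
  have hxy : -x ≤ y := by linarith
  have h1 := hW.le_of_nonneg hxy (Eventually.of_forall fun z _ => by
    have := young_hh hm hp (hV z) hl'.le (y := φ z)
    linarith)
  simp only [intervalIntegral.integral_same, mul_zero] at h1
  have h2 : ∫ t in (-x)..y, V t ^ p ≤ ∫ t, V t ^ p := by
    rw [intervalIntegral.integral_of_le hxy]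
    exact setIntegral_le_integral hVp (Eventually.of_forall fun t => by
      have := hV t
      positivity)
  have h4 := HH_mono hm hp hy3
  have h5 : HH m p (φ (-x)) ≤ HH m p (-3) := HH_mono hm hp (by linarith)
  have h6 := cp_pos hp
  nlinarith

theorem gap {α β : Matrix (Fin 2) (Fin 2) ℂ} (C : Cliff α β) {m p a b : ℝ} {V Θ S : ℝ → ℝ}
    (hm : 0 < m) (hp : 1 ≤ p) (hab : a ≤ b) (hV : ∀ x, 0 ≤ V x)
    (hVl : LocallyIntegrable V volume) (hVp : Integrable (fun x => V x ^ p) volume)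
    (hVs : ∀ x, x ∉ Icc a b → V x = 0)
    (hΘ : ACD Θ (fun x => 2 * (m * Real.cos 2 + V x) - 2 * m * Real.cos (Θ x) + S x))
    (hS : Continuous S) (hS0 : ∀ x, 0 ≤ S x) (hSp : 0 < ∫ x in a..b, S x)
    (ha : Θ a = -2) (hb : Θ b = 2) :
    ∃ l' > m * Real.cos 2, l' ≤ m ∧ ∀ l ∈ Ioo (-m) m, IsEig α β m V l → l' ≤ l := by
  set K := 2 * m with hK
  have hK0 : 0 < K := by positivity
  set L := b - a with hL
  set s := ∫ x in a..b, S x with hs
  set δ := min 1 (Real.exp (-K * L) * s / (2 * (2 * Real.exp (2 * K * L) + 1))) with hδ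
  have hδ0 : 0 < δ := lt_min one_pos (by positivity)
  have hδ1 : δ ≤ 1 := min_le_left _ _
  have hδ2 : δ * (2 * (2 * Real.exp (2 * K * L) + 1)) ≤ Real.exp (-K * L) * s := by
    rw [← le_div_iff₀ (by positivity)]; exact min_le_right _ _
  have hc : 2 - δ ∈ Ioo 0 Real.pi := ⟨by linarith, by linarith [three_lt_pi]⟩
  refine ⟨m * Real.cos (2 - δ), ?_, ?_, ?_⟩
  · exact mul_lt_mul_of_pos_left (cos_lt hc.1.le (by linarith) (by linarith [three_lt_pi])) hm
  · exact mul_le_of_le_one_right hm.le (Real.cos_le_one _)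
  intro l hl hE
  by_contra hcon
  push Not at hcon
  obtain ⟨φ, ρ, P, h0⟩ := eig_to_pruefer C hVl hE a
  have h1 : -Real.pi ≤ φ b := P.no_down hm hl.1.le hV hab h0.1
  have h2 : 2 - δ ≤ φ b := P.end_right hm hl.1.le hV hp hVp hc hcon h1
    (fun x hx => hVs x (fun h => absurd h.2 (not_le.2 hx)))
  have h3 := P.reflect.end_right hm hl.1.le (fun x => hV _) hp hVp.comp_neg hc hcon (b := -a)
    (by simpa using h0.2) (fun x hx => hVs _ (fun h => by linarith [h.1]))
  simp only [neg_neg] at h3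
  have hcos : Real.cos (2 - δ) - Real.cos 2 ≤ δ := by
    have := (abs_le.1 (Real.abs_cos_sub_cos_le (2 - δ) 2)).2
    rw [show 2 - δ - 2 = -δ by ring, abs_neg, abs_of_pos hδ0] at this
    exact this
  have e1 : ACD (fun x => Real.exp (2 * K * (x - a))) _ :=
    ((ACD.id'.sub (ACD.const a)).const_mul (2 * K)).exp
  have e2 : ACD (fun x => Real.exp (-K * (x - a))) _ :=
    ((ACD.id'.sub (ACD.const a)).const_mul (-K)).exp
  have hE' := (e1.const_mul (2 * δ)).sub (e2.mul (ACD.primitive hS.locallyIntegrable a))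
  have hu := (hE'.sub (P.hφ.sub hΘ)).nonneg_of_ge (K := K) hab (Eventually.of_forall fun x hx => by
    set E1 := Real.exp (2 * K * (x - a)) with hE1
    set E2 := Real.exp (-K * (x - a)) with hE2
    set I := ∫ t in a..x, S t with hI
    have hxa : 0 ≤ x - a := by linarith [hx.1]
    have g1 : 1 ≤ E1 := Real.one_le_exp (by positivity)
    have g2 : E2 ≤ 1 := Real.exp_le_one_iff.2 (by nlinarith)
    have g3 : 0 < E2 := Real.exp_pos _
    have g4 : 0 ≤ I := intervalIntegral.integral_nonneg hx.1 (fun t _ => hS0 t)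
    have g5 := (abs_le.1 (Real.abs_cos_sub_cos_le (Θ x) (φ x))).2
    have g6 : |Θ x - φ x| ≤ |2 * δ * E1 - E2 * I - (φ x - Θ x)| + (2 * δ * E1 + E2 * I) := by
      have g7 : 0 ≤ 2 * δ * E1 := by positivity
      have g8 : 0 ≤ E2 * I := by positivity
      have g9 := le_abs_self (2 * δ * E1 - E2 * I - (φ x - Θ x))
      have g10 := neg_abs_le (2 * δ * E1 - E2 * I - (φ x - Θ x))
      rw [abs_le]; constructor <;> linarith
    have g11 : K * (Real.cos (Θ x) - Real.cos (φ x)) ≤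
        K * (|2 * δ * E1 - E2 * I - (φ x - Θ x)| + (2 * δ * E1 + E2 * I)) :=
      mul_le_mul_of_nonneg_left (g5.trans g6) hK0.le
    have g12 : E2 * S x ≤ S x := mul_le_of_le_one_left (hS0 x) g2
    have g13 : K * δ ≤ K * δ * E1 := le_mul_of_one_le_right (by positivity) g1
    have g14 : 2 * l - 2 * (m * Real.cos 2) ≤ K * δ := by nlinarith
    have g15 : 0 ≤ K * δ * E1 := by positivity
    nlinarith) (by
      simp only [sub_self, mul_zero, Real.exp_zero, intervalIntegral.integral_same, ha]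
      linarith)
  rw [hb] at hu
  have g : 0 < δ * Real.exp (2 * K * L) := by positivity
  simp only [← hL, ← hs] at hu
  nlinarith

end Pool.Agent.MP_0b7119_mp
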