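import Pool.Agent.MP_0b7119_mp.Kern

/-! Pointwise bounds for the Green function and its gradient. -/

open Set MeasureTheory Real
open scoped ENNReal

namespace Pool.Agent.MP_0b7119_mp.G

set_option linter.unusedSectionVars false

variable {E : Type} [NormedAddCommGroup E] [InnerProductSpace ℝ E] [FiniteDimensional ℝ E]
  [MeasurableSpace E] [BorelSpace E]

lemma J_aux {s ρ : ℝ} {t : ℝ} (ht : 0 < t) :
    (|(-1 : ℝ)| * t ^ ((-1 : ℝ) - 1)) • ((t ^ (-1 : ℝ)) ^ (s - 1 - 1) * rexp (-(ρ * t ^ (-1 : ℝ)))) =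
      t ^ (-s) * rexp (-ρ / t) := by
  rw [← Real.rpow_mul ht.le, smul_eq_mul, abs_neg, abs_one, one_mul, ← mul_assoc,
    ← Real.rpow_add ht, Real.rpow_neg_one]
  congr 2
  · ring
  · field_simp

lemma J_integrable {s ρ : ℝ} (hs : 1 < s) (hρ : 0 < ρ) :
    IntegrableOn (fun t : ℝ => t ^ (-s) * rexp (-ρ / t)) (Ioi 0) := by
  have h := (integrableOn_Ioi_comp_rpow_iff (fun y : ℝ => y ^ (s - 1 - 1) * rexp (-(ρ * y)))
    (p := -1) (by norm_num)).2 (integrableOn_exp_rpow hρ (by linarith))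
  exact h.congr_fun (fun t ht => J_aux ht) measurableSet_Ioi

lemma J_integral {s ρ : ℝ} (hs : 1 < s) (hρ : 0 < ρ) :
    ∫ t in Ioi (0 : ℝ), t ^ (-s) * rexp (-ρ / t) = (1 / ρ) ^ (s - 1) * Gamma (s - 1) := by
  rw [← Real.integral_rpow_mul_exp_neg_mul_Ioi (by linarith) hρ,
    ← integral_comp_rpow_Ioi (fun y : ℝ => y ^ (s - 1 - 1) * rexp (-(ρ * y))) (p := -1)
      (by norm_num)]
  exact setIntegral_congr_fun measurableSet_Ioi fun t ht => (J_aux ht).symm

/-- The constant in `∫ t^(-σ) heat t z dt = cJ σ |z|^(2 - n - 2σ)`. -/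
noncomputable def cJ (E : Type) [NormedAddCommGroup E] [InnerProductSpace ℝ E] (σ : ℝ) : ℝ :=
  (4 * π) ^ (-(Module.finrank ℝ E : ℝ) / 2) * (4 : ℝ) ^ ((Module.finrank ℝ E : ℝ) / 2 + σ - 1) *
    Gamma ((Module.finrank ℝ E : ℝ) / 2 + σ - 1)

lemma cJ_pos {σ : ℝ} (h : 1 < (Module.finrank ℝ E : ℝ) / 2 + σ) : 0 < cJ E σ := by
  unfold cJ
  have := Real.Gamma_pos_of_pos (s := (Module.finrank ℝ E : ℝ) / 2 + σ - 1) (by linarith)
  positivity

lemma rpow_heat_eq {σ t : ℝ} (ht : 0 < t) (z : E) : t ^ (-σ) * heat t z =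
    (4 * π) ^ (-(Module.finrank ℝ E : ℝ) / 2) *
      (t ^ (-((Module.finrank ℝ E : ℝ) / 2 + σ)) * rexp (-(‖z‖ ^ 2 / 4) / t)) := by
  unfold heat
  rw [Real.mul_rpow (by positivity) ht.le,
    show -((Module.finrank ℝ E : ℝ) / 2 + σ) = -σ + -(Module.finrank ℝ E : ℝ) / 2 by ring,
    Real.rpow_add ht, show -(‖z‖ ^ 2 / 4) / t = -‖z‖ ^ 2 / (4 * t) by ring]
  ring

lemma integrableOn_rpow_heat {σ : ℝ} (h : 1 < (Module.finrank ℝ E : ℝ) / 2 + σ) {z : E}
    (hz : z ≠ 0) : IntegrableOn (fun t : ℝ => t ^ (-σ) * heat t z) (Ioi 0) := by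
  have hn : 0 < ‖z‖ := norm_pos_iff.2 hz
  exact IntegrableOn.congr_fun ((J_integrable h (ρ := ‖z‖ ^ 2 / 4) (by positivity)).const_mul _)
    (fun t ht => (rpow_heat_eq ht z).symm) measurableSet_Ioi

lemma integral_rpow_heat {σ : ℝ} (h : 1 < (Module.finrank ℝ E : ℝ) / 2 + σ) {z : E}
    (hz : z ≠ 0) : ∫ t in Ioi (0 : ℝ), t ^ (-σ) * heat t z =
      cJ E σ * ‖z‖ ^ (-((Module.finrank ℝ E : ℝ) + 2 * σ - 2)) := by
  have hn : 0 < ‖z‖ := norm_pos_iff.2 hz
  rw [setIntegral_congr_fun measurableSet_Ioi fun t ht => rpow_heat_eq ht z, integral_const_mul,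
    J_integral h (by positivity), cJ]
  have h1 : (1 / (‖z‖ ^ 2 / 4)) ^ ((Module.finrank ℝ E : ℝ) / 2 + σ - 1) =
      (4 : ℝ) ^ ((Module.finrank ℝ E : ℝ) / 2 + σ - 1) *
        ‖z‖ ^ (-((Module.finrank ℝ E : ℝ) + 2 * σ - 2)) := by
    rw [show 1 / (‖z‖ ^ 2 / 4) = 4 * ‖z‖ ^ (-2 : ℝ) by
      rw [Real.rpow_neg hn.le, Real.rpow_two]; field_simp,
      Real.mul_rpow (by norm_num) (by positivity), ← Real.rpow_mul hn.le]
    congr 2
    ring
  rw [h1]
  ring

lemma measurable_heat_t (z : E) : Measurable fun t : ℝ => heat t z :=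
  measurable_heat.comp (measurable_prodMk_right (y := z))

lemma exp_neg_le_rpow {x a : ℝ} (hx : 0 < x) (ha : 0 ≤ a) (ha1 : a ≤ 1) :
    rexp (-x) ≤ x ^ (-a) := by
  rw [Real.exp_neg, Real.rpow_neg hx.le]
  refine inv_anti₀ (by positivity) ?_
  rcases le_total x 1 with h | h
  · exact (Real.rpow_le_one hx.le h ha).trans (Real.one_le_exp hx.le)
  · calc x ^ a ≤ x ^ (1 : ℝ) := Real.rpow_le_rpow_of_exponent_le h ha1
      _ = x := Real.rpow_one x
      _ ≤ _ := by linarith [Real.add_one_le_exp x]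

lemma one_sub_exp_le_sqrt {x : ℝ} (hx : 0 ≤ x) : 1 - rexp (-x) ≤ √x := by
  rcases le_total x 1 with h | h
  · have h1 := Real.add_one_le_exp (-x)
    have h2 : x ≤ √x := by
      rw [Real.le_sqrt hx hx]; nlinarith
    linarith
  · have h1 := Real.exp_pos (-x)
    have h2 : 1 ≤ √x := Real.one_le_sqrt.2 h
    linarith

section two

variable (hn : 2 ≤ Module.finrank ℝ E)
include hn

lemma two_le_cast : (2 : ℝ) ≤ (Module.finrank ℝ E : ℝ) := by exact_mod_cast hn

lemma g_integrand_le {b a t : ℝ} (hb : 0 < b) (ha : 0 ≤ a) (ha1 : a ≤ 1) (ht : 0 < t) (z : E) :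
    rexp (-b * t) * heat t z ≤ b ^ (-a) * (t ^ (-a) * heat t z) := by
  rw [← mul_assoc, ← Real.mul_rpow hb.le ht.le, neg_mul]
  exact mul_le_mul_of_nonneg_right (exp_neg_le_rpow (by positivity) ha ha1) (heat_nonneg ht.le z)

lemma integrableOn_g {b : ℝ} (hb : 0 < b) {z : E} (hz : z ≠ 0) :
    IntegrableOn (fun t : ℝ => rexp (-b * t) * heat t z) (Ioi 0) := by
  have h2 := two_le_cast hn
  refine Integrable.mono' ((integrableOn_rpow_heat (σ := 1) (by linarith) hz).const_mul (b ^ (-1 : ℝ)))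
    (((by fun_prop : Measurable fun t : ℝ => rexp (-b * t)).mul
      (measurable_heat_t z)).aestronglyMeasurable)
    ((ae_restrict_iff' measurableSet_Ioi).2 (Filter.Eventually.of_forall fun t ht => ?_))
  rw [Real.norm_of_nonneg (mul_nonneg (Real.exp_pos _).le (heat_nonneg (le_of_lt ht) z))]
  exact g_integrand_le hn hb zero_le_one le_rfl ht z

lemma gk_le {b a : ℝ} (hb : 0 < b) (ha : 0 < a) (ha1 : a ≤ 1) {z : E} (hz : z ≠ 0) :
    gk b z ≤ b ^ (-a) * cJ E a * ‖z‖ ^ (-((Module.finrank ℝ E : ℝ) + 2 * a - 2)) := by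
  have h2 := two_le_cast hn
  rw [mul_assoc, ← integral_rpow_heat (by linarith) hz, ← integral_const_mul]
  exact setIntegral_mono_on (integrableOn_g hn hb hz)
    ((integrableOn_rpow_heat (by linarith) hz).const_mul _) measurableSet_Ioi
    fun t ht => g_integrand_le hn hb ha.le ha1 ht z

lemma q_integrand_eq {t : ℝ} (ht : 0 < t) (z : E) :
    heat t z / (2 * t) = 1 / 2 * (t ^ (-(1 : ℝ)) * heat t z) := by
  rw [Real.rpow_neg_one]; field_simp

lemma integrableOn_q0 {z : E} (hz : z ≠ 0) :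
    IntegrableOn (fun t : ℝ => heat t z / (2 * t)) (Ioi 0) := by
  have h2 := two_le_cast hn
  exact IntegrableOn.congr_fun ((integrableOn_rpow_heat (σ := 1) (by linarith) hz).const_mul (1 / 2))
    (fun t ht => (q_integrand_eq hn ht z).symm) measurableSet_Ioi

lemma integrableOn_q {b : ℝ} (hb : 0 ≤ b) {z : E} (hz : z ≠ 0) :
    IntegrableOn (fun t : ℝ => rexp (-b * t) * (heat t z / (2 * t))) (Ioi 0) := by
  refine Integrable.mono' (integrableOn_q0 hn hz)
    (((by fun_prop : Measurable fun t : ℝ => rexp (-b * t)).mul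
      ((measurable_heat_t z).div (by fun_prop))).aestronglyMeasurable)
    ((ae_restrict_iff' measurableSet_Ioi).2 (Filter.Eventually.of_forall fun t ht => ?_))
  have ht' : 0 < t := ht
  have h0 : 0 ≤ heat t z / (2 * t) := by have := heat_nonneg ht'.le z; positivity
  rw [Real.norm_of_nonneg (mul_nonneg (Real.exp_pos _).le h0)]
  exact mul_le_of_le_one_left h0 (Real.exp_le_one_iff.2 (by nlinarith))

/-- The constant in `qk 0 z = cq |z|^(-n)`. -/
noncomputable def cq (E : Type) [NormedAddCommGroup E] [InnerProductSpace ℝ E] : ℝ :=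
  cJ E 1 / 2

lemma cq_pos : 0 < cq E := by
  have h2 := two_le_cast hn
  exact half_pos (cJ_pos (by linarith))

lemma integral_q0 {z : E} (hz : z ≠ 0) :
    ∫ t in Ioi (0 : ℝ), heat t z / (2 * t) = cq E * ‖z‖ ^ (-(Module.finrank ℝ E : ℝ)) := by
  have h2 := two_le_cast hn
  rw [setIntegral_congr_fun measurableSet_Ioi fun t ht => q_integrand_eq hn ht z,
    integral_const_mul, integral_rpow_heat (by linarith) hz, cq]
  rw [show (Module.finrank ℝ E : ℝ) + 2 * 1 - 2 = (Module.finrank ℝ E : ℝ) by ring]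
  ring

lemma qk_le {b : ℝ} (hb : 0 ≤ b) {z : E} (hz : z ≠ 0) :
    qk b z ≤ cq E * ‖z‖ ^ (-(Module.finrank ℝ E : ℝ)) := by
  rw [← integral_q0 hn hz]
  refine setIntegral_mono_on (integrableOn_q hn hb hz) (integrableOn_q0 hn hz) measurableSet_Ioi
    fun t ht => ?_
  have ht' : 0 < t := ht
  have h0 : 0 ≤ heat t z / (2 * t) := by have := heat_nonneg ht'.le z; positivity
  exact mul_le_of_le_one_left h0 (Real.exp_le_one_iff.2 (by nlinarith))

lemma qk_mul_norm_le {b : ℝ} (hb : 0 ≤ b) {z : E} (hz : z ≠ 0) :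
    qk b z * ‖z‖ ≤ cq E * ‖z‖ ^ (-((Module.finrank ℝ E : ℝ) - 1)) := by
  have hz' : 0 < ‖z‖ := norm_pos_iff.2 hz
  calc _ ≤ cq E * ‖z‖ ^ (-(Module.finrank ℝ E : ℝ)) * ‖z‖ := by
        gcongr; exact qk_le hn hb hz
    _ = _ := by
        rw [mul_assoc, ← Real.rpow_add_one hz'.ne']
        congr 2; ring

lemma qk_sub_le {b : ℝ} (hb : 0 ≤ b) {z : E} (hz : z ≠ 0) :
    cq E * ‖z‖ ^ (-(Module.finrank ℝ E : ℝ)) - qk b z ≤
      √b * cJ E (1 / 2) * ‖z‖ ^ (-((Module.finrank ℝ E : ℝ) - 1)) := by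
  have h2 := two_le_cast hn
  have h3 := integral_rpow_heat (σ := 1 / 2) (by linarith) hz
  rw [show (Module.finrank ℝ E : ℝ) + 2 * (1 / 2) - 2 = (Module.finrank ℝ E : ℝ) - 1 by ring] at h3
  rw [← integral_q0 hn hz, qk, ← integral_sub (integrableOn_q0 hn hz) (integrableOn_q hn hb hz),
    mul_assoc, ← h3, ← integral_const_mul]
  refine setIntegral_mono_on ((integrableOn_q0 hn hz).sub (integrableOn_q hn hb hz))
    ((integrableOn_rpow_heat (σ := 1 / 2) (by linarith) hz).const_mul _) measurableSet_Ioi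
    fun t ht => ?_
  have ht' : 0 < t := ht
  have h0 := heat_nonneg ht'.le z
  have h4 := one_sub_exp_le_sqrt (x := b * t) (by positivity)
  have hs : 0 < √t := Real.sqrt_pos.2 ht'
  calc heat t z / (2 * t) - rexp (-b * t) * (heat t z / (2 * t))
      = (1 - rexp (-(b * t))) * (heat t z / (2 * t)) := by rw [neg_mul]; ring
    _ ≤ √(b * t) * (heat t z / t) := by
        gcongr
        linarith
    _ = _ := by
        rw [Real.sqrt_mul hb, Real.rpow_neg ht'.le, ← Real.sqrt_eq_rpow]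
        field_simp
        rw [Real.sq_sqrt ht'.le]
        ring

lemma gk_ge {b L K : ℝ} (hb : 0 < b) (hL : 0 < L) (hK : b * L ^ 2 ≤ K) {z : E} (hz : z ≠ 0)
    (hzL : ‖z‖ ≤ 4 * L) :
    rexp (-2 * K - 4) * (8 * π) ^ (-(Module.finrank ℝ E : ℝ) / 2) *
      L ^ (-((Module.finrank ℝ E : ℝ) - 2)) ≤ gk b z := by
  have h2 := two_le_cast hn
  set n : ℝ := (Module.finrank ℝ E : ℝ)
  have hL2 : 0 < L ^ 2 := by positivity
  have hsub : Ioc (L ^ 2) (2 * L ^ 2) ⊆ Ioi 0 := fun t ht => lt_trans hL2 ht.1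
  calc _ = ∫ _ in Ioc (L ^ 2) (2 * L ^ 2),
        rexp (-2 * K - 4) * (8 * π * L ^ 2) ^ (-n / 2) := by
        rw [setIntegral_const, Real.volume_real_Ioc_of_le (by linarith), smul_eq_mul,
          Real.mul_rpow (by positivity) hL2.le, ← Real.rpow_two, ← Real.rpow_mul hL.le,
          show -(n - 2) = 2 + 2 * (-n / 2) by ring, Real.rpow_add hL]
        ring
    _ ≤ ∫ t in Ioc (L ^ 2) (2 * L ^ 2), rexp (-b * t) * heat t z := by
        refine setIntegral_mono_on (integrableOn_const (by simp)) ((integrableOn_g hn hb hz).mono_set hsub)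
          measurableSet_Ioc fun t ht => ?_
        have ht' : 0 < t := hsub ht
        unfold heat
        have e1 : (8 * π * L ^ 2) ^ (-n / 2) ≤ (4 * π * t) ^ (-n / 2) := by
          refine Real.rpow_le_rpow_of_nonpos (by positivity) ?_ (by linarith)
          nlinarith [ht.2, Real.pi_pos]
        have e2 : rexp (-2 * K - 4) ≤ rexp (-b * t) * rexp (-‖z‖ ^ 2 / (4 * t)) := by
          rw [← Real.exp_add]
          refine Real.exp_le_exp.2 ?_
          have e3 : b * t ≤ 2 * K := by nlinarith [ht.2]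
          have e4 : ‖z‖ ^ 2 / (4 * t) ≤ 4 := by
            rw [div_le_iff₀ (by positivity)]
            nlinarith [ht.1, norm_nonneg z]
          rw [neg_div]
          linarith
        calc _ ≤ rexp (-b * t) * rexp (-‖z‖ ^ 2 / (4 * t)) * (4 * π * t) ^ (-n / 2) := by
              gcongr
          _ = _ := by ring
    _ ≤ _ := setIntegral_mono_set (integrableOn_g hn hb hz)
        ((ae_restrict_iff' measurableSet_Ioi).2 (Filter.Eventually.of_forall fun t ht =>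
          mul_nonneg (Real.exp_pos _).le (heat_nonneg (le_of_lt ht) z)))
        (Filter.Eventually.of_forall hsub)

omit hn in
lemma abs_exp_sub_le {x y c : ℝ} (hx : c ≤ x) (hy : c ≤ y) :
    |rexp (-x) - rexp (-y)| ≤ |x - y| * rexp (-c) := by
  wlog h : x ≤ y generalizing x y
  · rw [abs_sub_comm, abs_sub_comm x]
    exact this hy hx (le_of_not_ge h)
  have h1 : rexp (-y) = rexp (-x) * rexp (-(y - x)) := by rw [← Real.exp_add]; congr 1; ring
  have h2 := Real.add_one_le_exp (-(y - x))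
  have h3 : rexp (-x) ≤ rexp (-c) := Real.exp_le_exp.2 (by linarith)
  have h4 := Real.exp_pos (-x)
  have h5 : rexp (-y) ≤ rexp (-x) := Real.exp_le_exp.2 (by linarith)
  rw [abs_of_nonneg (by linarith), abs_of_nonpos (by linarith), h1]
  nlinarith

lemma gk_lip {b : ℝ} (hb : 0 < b) {z z' w : E} (hw : w ≠ 0) (h1 : ‖w‖ ≤ ‖z‖) (h2 : ‖w‖ ≤ ‖z'‖) :
    |gk b z - gk b z'| ≤
      |‖z‖ ^ 2 - ‖z'‖ ^ 2| / 2 * (cq E * ‖w‖ ^ (-(Module.finrank ℝ E : ℝ))) := by
  have hw' : 0 < ‖w‖ := norm_pos_iff.2 hw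
  have hz : z ≠ 0 := norm_pos_iff.1 (by linarith)
  have hz' : z' ≠ 0 := norm_pos_iff.1 (by linarith)
  rw [gk, gk, ← integral_sub (integrableOn_g hn hb hz) (integrableOn_g hn hb hz'),
    ← integral_q0 hn hw, ← integral_const_mul, ← Real.norm_eq_abs]
  refine norm_integral_le_of_norm_le ((integrableOn_q0 hn hw).const_mul _)
    ((ae_restrict_iff' measurableSet_Ioi).2 (Filter.Eventually.of_forall fun t ht => ?_))
  have ht' : 0 < t := ht
  unfold heat
  have e1 := abs_exp_sub_le (x := ‖z‖ ^ 2 / (4 * t)) (y := ‖z'‖ ^ 2 / (4 * t))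
    (c := ‖w‖ ^ 2 / (4 * t)) (by gcongr) (by gcongr)
  have e2 : rexp (-b * t) ≤ 1 := Real.exp_le_one_iff.2 (by nlinarith)
  have e3 : 0 ≤ (4 * π * t) ^ (-(Module.finrank ℝ E : ℝ) / 2) := by positivity
  rw [← mul_sub, ← mul_sub, norm_mul, norm_mul, Real.norm_of_nonneg (Real.exp_pos _).le,
    Real.norm_of_nonneg e3, Real.norm_eq_abs, neg_div, neg_div, neg_div]
  rw [← sub_div, abs_div, abs_of_pos (by positivity : 0 < 4 * t)] at e1
  calc _ ≤ 1 * ((4 * π * t) ^ (-((Module.finrank ℝ E : ℝ) / 2)) *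
        (|‖z‖ ^ 2 - ‖z'‖ ^ 2| / (4 * t) * rexp (-(‖w‖ ^ 2 / (4 * t))))) := by
        gcongr
    _ = _ := by ring

omit hn in
lemma abs_exp_mul_sub_le {b b' b₀ t : ℝ} (h₀ : 0 < b₀) (hb : b₀ ≤ b) (hb' : b₀ ≤ b') (ht : 0 < t) :
    |rexp (-b * t) - rexp (-b' * t)| ≤ |b - b'| * (2 / b₀) * rexp (-(b₀ / 2) * t) := by
  have e1 := abs_exp_sub_le (x := b * t) (y := b' * t) (c := b₀ * t) (by gcongr) (by gcongr)
  rw [← sub_mul, abs_mul, abs_of_pos ht] at e1
  rw [neg_mul, neg_mul]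
  refine e1.trans ?_
  have e2 : rexp (-(b₀ * t)) = rexp (-(b₀ / 2) * t) * rexp (-(b₀ / 2 * t)) := by
    rw [← Real.exp_add]; congr 1; ring
  have e3 : t * rexp (-(b₀ / 2 * t)) ≤ 2 / b₀ := by
    rw [Real.exp_neg, ← div_eq_mul_inv, div_le_div_iff₀ (Real.exp_pos _) h₀]
    nlinarith [Real.add_one_le_exp (b₀ / 2 * t)]
  rw [e2]
  calc _ = |b - b'| * (t * rexp (-(b₀ / 2 * t))) * rexp (-(b₀ / 2) * t) := by ring
    _ ≤ _ := by gcongr

lemma gk_sub_le {b b' b₀ : ℝ} (h₀ : 0 < b₀) (hb : b₀ ≤ b) (hb' : b₀ ≤ b') {z : E} (hz : z ≠ 0) :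
    |gk b z - gk b' z| ≤ |b - b'| * (2 / b₀) * gk (b₀ / 2) z := by
  rw [gk, gk, gk, ← integral_sub (integrableOn_g hn (by linarith) hz)
    (integrableOn_g hn (by linarith) hz), ← integral_const_mul, ← Real.norm_eq_abs]
  refine norm_integral_le_of_norm_le ((integrableOn_g hn (by linarith) hz).const_mul _)
    ((ae_restrict_iff' measurableSet_Ioi).2 (Filter.Eventually.of_forall fun t ht => ?_))
  have ht' : 0 < t := ht
  have h0 := heat_nonneg ht'.le z
  rw [← sub_mul, norm_mul, Real.norm_of_nonneg h0, Real.norm_eq_abs, ← mul_assoc]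
  exact mul_le_mul_of_nonneg_right (abs_exp_mul_sub_le h₀ hb hb' ht') h0

lemma qk_sub_le' {b b' b₀ : ℝ} (h₀ : 0 < b₀) (hb : b₀ ≤ b) (hb' : b₀ ≤ b') {z : E} (hz : z ≠ 0) :
    |qk b z - qk b' z| ≤ |b - b'| * (2 / b₀) * qk (b₀ / 2) z := by
  rw [qk, qk, qk, ← integral_sub (integrableOn_q hn (by linarith) hz)
    (integrableOn_q hn (by linarith) hz), ← integral_const_mul, ← Real.norm_eq_abs]
  refine norm_integral_le_of_norm_le ((integrableOn_q hn (by linarith) hz).const_mul _)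
    ((ae_restrict_iff' measurableSet_Ioi).2 (Filter.Eventually.of_forall fun t ht => ?_))
  have ht' : 0 < t := ht
  have h0 : 0 ≤ heat t z / (2 * t) := by have := heat_nonneg ht'.le z; positivity
  rw [← sub_mul, norm_mul, Real.norm_of_nonneg h0, Real.norm_eq_abs, ← mul_assoc]
  exact mul_le_mul_of_nonneg_right (abs_exp_mul_sub_le h₀ hb hb' ht') h0

lemma ae_sub_ne (x : E) : ∀ᵐ y : E, x - y ≠ 0 := by
  have : Nontrivial E := Module.nontrivial_of_finrank_pos (R := ℝ) (by omega)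
  filter_upwards [(Set.countable_singleton x).ae_notMem volume] with y hy
  exact sub_ne_zero.2 fun h => hy (by simp [h])

lemma ae_ne_zero : ∀ᵐ y : E, y ≠ 0 := by
  filter_upwards [ae_sub_ne hn (0 : E)] with y hy
  simpa using hy

end two

section cont

variable {S : Type} [NormedAddCommGroup S] [InnerProductSpace ℂ S] [CompleteSpace S] {d : ℕ}
  {α : Fin d → S →L[ℂ] S} {β : S →L[ℂ] S}

lemma rk_cont (hn : 2 ≤ Module.finrank ℝ E) (h : IsDiracRep α β)
    (e : OrthonormalBasis (Fin d) ℝ E) {m c : ℝ} (hc : c < m) :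
    ∀ l ∈ Icc 0 c, ∀ η > 0, ∃ δ > 0, ∀ l' ∈ Icc 0 c, |l' - l| < δ →
      ∫ z, ‖rk e α β m l' z - rk e α β m l z‖ < η := by
  intro l hl η hη
  have hc0 : 0 ≤ c := hl.1.trans hl.2
  have hm : 0 < m := by linarith
  set b₀ := m ^ 2 - c ^ 2 with hb₀
  have h₀ : 0 < b₀ := by nlinarith
  have hge : ∀ l ∈ Icc 0 c, b₀ ≤ m ^ 2 - l ^ 2 := fun l hl => by nlinarith [hl.1, hl.2]
  set F : E → ℝ := fun z => 2 * m * (2 / b₀) * (2 * m * gk (b₀ / 2) z + qk (b₀ / 2) z * ‖z‖) +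
    gk (m ^ 2 - l ^ 2) z with hF
  have hFi : Integrable F :=
    ((((integrable_gk (half_pos h₀)).const_mul _).add (integrable_qk (half_pos h₀))).const_mul _).add
      (integrable_gk (h₀.trans_le (hge l hl)))
  have hF0 : ∀ z, 0 ≤ F z := fun z => by
    have := gk_nonneg (b₀ / 2) z
    have := qk_nonneg (b₀ / 2) z
    have := gk_nonneg (m ^ 2 - l ^ 2) z
    positivity
  have hI : 0 ≤ ∫ z, F z := integral_nonneg hF0
  refine ⟨η / ((∫ z, F z) + 1), by positivity, fun l' hl' hd => ?_⟩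
  have key : ∀ᵐ z : E, ‖rk e α β m l' z - rk e α β m l z‖ ≤ |l' - l| * F z := by
    filter_upwards [ae_ne_zero hn] with z hz
    have e1 := gk_sub_le hn h₀ (hge l' hl') (hge l hl) hz
    have e2 := qk_sub_le' hn h₀ (hge l' hl') (hge l hl) hz
    have e3 : |m ^ 2 - l' ^ 2 - (m ^ 2 - l ^ 2)| ≤ |l' - l| * (2 * m) := by
      rw [show m ^ 2 - l' ^ 2 - (m ^ 2 - l ^ 2) = -((l' - l) * (l' + l)) by ring, abs_neg, abs_mul,
        abs_of_nonneg (by linarith [hl.1, hl'.1] : 0 ≤ l' + l)]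
      gcongr
      linarith [hl.2, hl'.2]
    have e4 : rk e α β m l' z - rk e α β m l z =
        ((gk (m ^ 2 - l' ^ 2) z - gk (m ^ 2 - l ^ 2) z : ℝ) : ℂ) •
          ((m : ℂ) • β + (l' : ℂ) • (1 : S →L[ℂ] S)) +
        ((gk (m ^ 2 - l ^ 2) z * (l' - l) : ℝ) : ℂ) • (1 : S →L[ℂ] S) +
        (Complex.I * ((qk (m ^ 2 - l' ^ 2) z - qk (m ^ 2 - l ^ 2) z : ℝ) : ℂ)) • cl e α z := by
      unfold rk
      push_cast
      module
    have e5 := norm_mass_le h m l'
    rw [abs_of_pos hm, abs_of_nonneg hl'.1] at e5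
    have e6 : ‖(m : ℂ) • β + (l' : ℂ) • (1 : S →L[ℂ] S)‖ ≤ 2 * m := by linarith [hl'.2]
    have e7 : ‖(1 : S →L[ℂ] S)‖ ≤ 1 := ContinuousLinearMap.norm_id_le
    have e8 := norm_cl_le h e z
    have g0 := gk_nonneg (b₀ / 2) z
    have q0 := qk_nonneg (b₀ / 2) z
    have g1 := gk_nonneg (m ^ 2 - l ^ 2) z
    rw [e4]
    refine (norm_add₃_le).trans ?_
    rw [norm_smul, norm_smul, norm_smul, norm_mul, Complex.norm_I, one_mul, Complex.norm_real,
      Complex.norm_real, Complex.norm_real, Real.norm_eq_abs, Real.norm_eq_abs, Real.norm_eq_abs,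
      abs_mul, abs_of_nonneg g1]
    calc _ ≤ |l' - l| * (2 * m) * (2 / b₀) * gk (b₀ / 2) z * (2 * m) +
          gk (m ^ 2 - l ^ 2) z * |l' - l| * 1 +
          |l' - l| * (2 * m) * (2 / b₀) * qk (b₀ / 2) z * ‖z‖ := by
          gcongr
          · exact e1.trans (by gcongr)
          · exact e2.trans (by gcongr)
      _ = _ := by simp only [hF]; ring
  calc _ ≤ ∫ z, |l' - l| * F z :=
        integral_mono_of_nonneg (Filter.Eventually.of_forall fun z => norm_nonneg _)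
          (hFi.const_mul _) key
    _ = |l' - l| * ∫ z, F z := integral_const_mul _ _
    _ ≤ η / ((∫ z, F z) + 1) * ∫ z, F z := by gcongr
    _ < η := by
        rw [div_mul_eq_mul_div, div_lt_iff₀ (by positivity)]
        nlinarith

end cont

end Pool.Agent.MP_0b7119_mp.G
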