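import Pool.Agent.MP_0b7119_mp.Kern2

/-! Integral operators with admissible kernels, and boundedness of eigenfunctions. -/

open Set MeasureTheory Real
open scoped ENNReal

namespace Pool.Agent.MP_0b7119_mp.G

set_option linter.unusedSectionVars false

variable {E S : Type} [NormedAddCommGroup E] [InnerProductSpace ℝ E] [FiniteDimensional ℝ E]
  [MeasurableSpace E] [BorelSpace E] [NormedAddCommGroup S] [InnerProductSpace ℂ S]
  [CompleteSpace S] [FiniteDimensional ℂ S] {d : ℕ}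

/-- `sup_x ∫ V(y) a(x - y) dy ≤ γ`. -/
structure Adm (V a : E → ℝ) (γ : ℝ) : Prop where
  int : ∀ x, Integrable (fun y => V y * a (x - y))
  le : ∀ x, ∫ y, V y * a (x - y) ≤ γ

lemma Adm.mono {V a : E → ℝ} {γ γ' : ℝ} (h : Adm V a γ) (hγ : γ ≤ γ') : Adm V a γ' :=
  ⟨h.int, fun x => (h.le x).trans hγ⟩

lemma Adm.add_left {V W a : E → ℝ} {γ γ' : ℝ} (h : Adm V a γ) (h' : Adm W a γ') :
    Adm (fun y => V y + W y) a (γ + γ') := by
  refine ⟨fun x => ?_, fun x => ?_⟩
  · simp only [add_mul]; exact (h.int x).add (h'.int x)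
  · simp only [add_mul]
    rw [integral_add (h.int x) (h'.int x)]
    exact add_le_add (h.le x) (h'.le x)

lemma Adm.add_right {V a a' : E → ℝ} {γ γ' : ℝ} (h : Adm V a γ) (h' : Adm V a' γ') :
    Adm V (fun z => a z + a' z) (γ + γ') := by
  refine ⟨fun x => ?_, fun x => ?_⟩
  · simp only [mul_add]; exact (h.int x).add (h'.int x)
  · simp only [mul_add]
    rw [integral_add (h.int x) (h'.int x)]
    exact add_le_add (h.le x) (h'.le x)

lemma Adm.const_mul {V a : E → ℝ} {γ : ℝ} (h : Adm V a γ) {c : ℝ} (hc : 0 ≤ c) :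
    Adm V (fun z => c * a z) (c * γ) := by
  refine ⟨fun x => ?_, fun x => ?_⟩
  · simp only [mul_left_comm _ c]; exact (h.int x).const_mul c
  · simp only [mul_left_comm _ c]
    rw [integral_const_mul]
    exact mul_le_mul_of_nonneg_left (h.le x) hc

lemma Adm.of_le {V a a' : E → ℝ} {γ : ℝ} (h : Adm V a γ) (hV : Measurable V) (hV0 : ∀ y, 0 ≤ V y)
    (ha : Measurable a') (h0 : ∀ z, 0 ≤ a' z) (hle : ∀ x, ∀ᵐ y, a' (x - y) ≤ a (x - y)) :
    Adm V a' γ := by
  have hb : ∀ x, ∀ᵐ y, V y * a' (x - y) ≤ V y * a (x - y) := fun x => by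
    filter_upwards [hle x] with y hy using mul_le_mul_of_nonneg_left hy (hV0 y)
  have hi : ∀ x, Integrable (fun y => V y * a' (x - y)) := fun x => by
    refine (h.int x).mono' (hV.mul (ha.comp (measurable_const.sub measurable_id))).aestronglyMeasurable ?_
    filter_upwards [hb x] with y hy
    rwa [Real.norm_of_nonneg (mul_nonneg (hV0 y) (h0 _))]
  exact ⟨hi, fun x => (integral_mono_ae (hi x) (h.int x) (hb x)).trans (h.le x)⟩

lemma Adm.bound {F : Type} [NormedAddCommGroup F] [NormedSpace ℝ F] {V a : E → ℝ} {γ M : ℝ}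
    (h : Adm V a γ) (x : E) {f : E → F} (hf : AEStronglyMeasurable f volume) (hM : 0 ≤ M)
    (hb : ∀ᵐ y, ‖f y‖ ≤ V y * a (x - y) * M) : Integrable f ∧ ‖∫ y, f y‖ ≤ γ * M := by
  refine ⟨((h.int x).mul_const M).mono' hf hb, ?_⟩
  refine (norm_integral_le_of_norm_le ((h.int x).mul_const M) hb).trans ?_
  rw [integral_mul_const]
  exact mul_le_mul_of_nonneg_right (h.le x) hM

lemma adm_of_integrable {V a : E → ℝ} {C : ℝ} (hV : Measurable V) (hV0 : ∀ y, 0 ≤ V y)
    (hC : ∀ y, V y ≤ C) (ha : Integrable a) (h0 : ∀ z, 0 ≤ a z) : Adm V a (C * ∫ z, a z) := by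
  have hi : ∀ x, Integrable (fun y => V y * a (x - y)) := fun x =>
    (ha.comp_sub_left x).bdd_mul hV.aestronglyMeasurable (c := C)
      (Filter.Eventually.of_forall fun y => by rw [Real.norm_of_nonneg (hV0 y)]; exact hC y)
  refine ⟨hi, fun x => ?_⟩
  rw [← integral_sub_left_eq_self a volume x, ← integral_const_mul]
  exact integral_mono (hi x) ((ha.comp_sub_left x).const_mul C) fun y =>
    mul_le_mul_of_nonneg_right (hC y) (h0 _)

lemma Nice.integrable {V : E → ℝ} (h : Nice V) : Integrable V := by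
  obtain ⟨C, hC⟩ := h.bdd
  obtain ⟨R, hR⟩ := h.supp
  have h1 : IntegrableOn V (Metric.ball 0 R) :=
    Measure.integrableOn_of_bounded (M := C) measure_ball_lt_top.ne h.meas.aestronglyMeasurable
      (Filter.Eventually.of_forall fun y => by rw [Real.norm_of_nonneg (h.nonneg y)]; exact hC y)
  exact h1.integrable_of_forall_notMem_eq_zero fun x hx => hR x (by simpa using hx)

lemma Nice.memLp_two {V : E → ℝ} (h : Nice V) : MemLp V 2 volume := by
  obtain ⟨C, hC⟩ := h.bdd
  rw [memLp_two_iff_integrable_sq h.meas.aestronglyMeasurable]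
  refine (h.integrable.const_mul C).mono' (h.meas.pow_const 2).aestronglyMeasurable
    (Filter.Eventually.of_forall fun y => ?_)
  rw [Real.norm_of_nonneg (sq_nonneg _), sq]
  exact mul_le_mul_of_nonneg_right (hC y) (h.nonneg y)

lemma Nice.integrable_mul {V : E → ℝ} (h : Nice V) {f : E → ℝ}
    (hf : AEStronglyMeasurable f volume) {M : ℝ} (hM : ∀ x, |f x| ≤ M) :
    Integrable (fun x => V x * f x) :=
  h.integrable.mul_bdd hf (Filter.Eventually.of_forall hM)

lemma Test.const (ξ : S) : Test (fun _ : E => ξ) :=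
  ⟨stronglyMeasurable_const, ‖ξ‖, fun _ => le_rfl⟩

lemma sm_apply {r : E → S →L[ℂ] S} (hr : StronglyMeasurable r) {V : E → ℝ} (hV : Measurable V)
    {f : E → S} (hf : StronglyMeasurable f) :
    StronglyMeasurable (fun p : E × E => (V p.2 : ℂ) • r (p.1 - p.2) (f p.2)) := by
  refine StronglyMeasurable.smul
    (Complex.continuous_ofReal.measurable.comp (hV.comp measurable_snd)).stronglyMeasurable ?_
  exact (isBoundedBilinearMap_apply (𝕜 := ℂ) (E := S) (F := S)).continuous.comp_stronglyMeasurable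
    ((hr.comp_measurable (measurable_fst.sub measurable_snd)).prodMk
      (hf.comp_measurable measurable_snd))

lemma sm_Rop {r : E → S →L[ℂ] S} (hr : StronglyMeasurable r) {V : E → ℝ} (hV : Measurable V)
    {f : E → S} (hf : StronglyMeasurable f) : StronglyMeasurable (Rop r V f) :=
  (sm_apply hr hV hf).integral_prod_right'

lemma Rop_congr (r : E → S →L[ℂ] S) (V : E → ℝ) {f g : E → S} (h : f =ᵐ[volume] g) :
    Rop r V f = Rop r V g := by
  funext x
  refine integral_congr_ae ?_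
  filter_upwards [h] with y hy
  rw [hy]

lemma norm_Rop_integrand_le {r : E → S →L[ℂ] S} {ϱ V : E → ℝ} (hr : ∀ z, ‖r z‖ ≤ ϱ z)
    (hV : ∀ y, 0 ≤ V y) (f : E → S) (x y : E) :
    ‖(V y : ℂ) • r (x - y) (f y)‖ ≤ V y * ϱ (x - y) * ‖f y‖ := by
  rw [norm_smul, Complex.norm_real, Real.norm_of_nonneg (hV y), mul_assoc]
  exact mul_le_mul_of_nonneg_left (((r _).le_opNorm _).trans
    (mul_le_mul_of_nonneg_right (hr _) (norm_nonneg _))) (hV y)

/-- Eigenfunctions are bounded in terms of their `L¹(V)` norm. -/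
lemma bounded_sol {r : E → S →L[ℂ] S} (hrm : StronglyMeasurable r) {ϱ : E → ℝ}
    (hϱm : Measurable ϱ) (hϱi : Integrable ϱ) (hϱe : ∀ z, ϱ (-z) = ϱ z) (hr : ∀ z, ‖r z‖ ≤ ϱ z)
    {V : E → ℝ} (hV : Nice V) {N : Set E} (hN : MeasurableSet N) (hNe : ∀ z, -z ∈ N ↔ z ∈ N)
    (hnear : Adm V (N.indicator ϱ) (1 / 2)) {Φ : ℝ} (hΦ : 0 ≤ Φ) (hfar : ∀ z, z ∉ N → ϱ z ≤ Φ)
    {ψ : E → S} (hψ : Sol r V ψ) :
    ∃ φ : E → S, StronglyMeasurable φ ∧ (∀ x, φ x = Rop r V φ x) ∧
      (∀ x, ‖φ x‖ ≤ 2 * Φ * ∫ y, V y * ‖φ y‖) ∧ ∃ x, φ x ≠ 0 := by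
  obtain ⟨h2, hne, heq⟩ := hψ
  obtain ⟨C, hC⟩ := hV.bdd
  have hϱ0 : ∀ z, 0 ≤ ϱ z := fun z => (norm_nonneg _).trans (hr z)
  set ψ' := h2.1.mk ψ
  have hψ' : ψ =ᵐ[volume] ψ' := h2.1.ae_eq_mk
  have hm' : StronglyMeasurable ψ' := h2.1.stronglyMeasurable_mk
  set φ := Rop r V ψ' with hφ
  have hφψ : ψ =ᵐ[volume] φ := by rw [hφ, ← Rop_congr r V hψ']; exact heq
  have hφm : StronglyMeasurable φ := sm_Rop hrm hV.meas hm'
  have hfix : ∀ x, φ x = Rop r V φ x := fun x => by
    rw [← Rop_congr r V hφψ, Rop_congr r V hψ']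
  have hφ2 : MemLp φ 2 volume := h2.ae_eq hφψ
  have hi1 : Integrable (fun y => V y * ‖φ y‖) := hV.memLp_two.integrable_mul hφ2.norm
  set n₁ := ∫ y, V y * ‖φ y‖ with hn₁
  have hn0 : 0 ≤ n₁ := integral_nonneg fun y => mul_nonneg (hV.nonneg y) (norm_nonneg _)
  set B := 2 * Φ * n₁ with hB
  have hB0 : 0 ≤ B := by positivity
  set h : E → ℝ := fun y => max (‖φ y‖ - B) 0 with hh
  have hhm : Measurable h := (hφm.norm.measurable.sub_const B).max measurable_const
  have hh0 : ∀ y, 0 ≤ h y := fun y => le_max_right _ _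
  have hhle : ∀ y, h y ≤ ‖φ y‖ := fun y => max_le (by linarith) (norm_nonneg _)
  have hi2 : Integrable (fun y => V y * h y) :=
    hi1.mono' (hV.meas.mul hhm).aestronglyMeasurable (Filter.Eventually.of_forall fun y => by
      rw [Real.norm_of_nonneg (mul_nonneg (hV.nonneg y) (hh0 y))]
      exact mul_le_mul_of_nonneg_left (hhle y) (hV.nonneg y))
  set a := N.indicator ϱ with ha
  have ha0 : ∀ z, 0 ≤ a z := fun z => indicator_nonneg (fun z _ => hϱ0 z) z
  have hai : Integrable a := hϱi.indicator hN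
  have hae : ∀ z, a (-z) = a z := fun z => by
    by_cases hz : z ∈ N
    · rw [ha, indicator_of_mem hz, indicator_of_mem ((hNe z).2 hz), hϱe]
    · rw [ha, indicator_of_notMem hz, indicator_of_notMem (fun h => hz ((hNe z).1 h))]
  have hϱa : ∀ z, ϱ z ≤ a z + Φ := fun z => by
    by_cases hz : z ∈ N
    · rw [ha, indicator_of_mem hz]; linarith
    · rw [ha, indicator_of_notMem hz, zero_add]; exact hfar z hz
  have hprod : Integrable (fun p : E × E => V p.2 * h p.2 * a (p.1 - p.2)) (volume.prod volume) :=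
    hi2.convolution_integrand (ContinuousLinearMap.mul ℝ ℝ) hai
  have key : ∀ x, Integrable (fun y => V y * h y * a (x - y)) →
      ‖φ x‖ ≤ (∫ y, V y * h y * a (x - y)) + B := by
    intro x hx
    rw [hfix x]
    have hb : Integrable (fun y => V y * h y * a (x - y) + V y * a (x - y) * B +
        Φ * (V y * ‖φ y‖)) := (hx.add ((hnear.int x).mul_const B)).add (hi1.const_mul Φ)
    refine (norm_integral_le_of_norm_le hb (Filter.Eventually.of_forall fun y => ?_)).trans ?_
    · refine (norm_Rop_integrand_le hr hV.nonneg φ x y).trans ?_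
      have e1 : ‖φ y‖ ≤ h y + B := by
        have := le_max_left (‖φ y‖ - B) 0
        simp only [hh]; linarith
      have := hV.nonneg y
      have := ha0 (x - y)
      calc V y * ϱ (x - y) * ‖φ y‖ ≤ V y * (a (x - y) + Φ) * ‖φ y‖ := by gcongr; exact hϱa _
        _ = V y * a (x - y) * ‖φ y‖ + Φ * (V y * ‖φ y‖) := by ring
        _ ≤ V y * a (x - y) * (h y + B) + Φ * (V y * ‖φ y‖) := by gcongr
        _ = _ := by ring
    · have hb' : Integrable (fun y => V y * h y * a (x - y) + V y * a (x - y) * B) :=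
        hx.add ((hnear.int x).mul_const B)
      rw [integral_add hb' (hi1.const_mul Φ), integral_add hx ((hnear.int x).mul_const B), integral_mul_const, integral_const_mul]
      have := mul_le_mul_of_nonneg_right (hnear.le x) hB0
      simp only [hB] at this ⊢
      linarith
  have hT0 : ∀ x, 0 ≤ ∫ y, V y * h y * a (x - y) := fun x =>
    integral_nonneg fun y => mul_nonneg (mul_nonneg (hV.nonneg y) (hh0 y)) (ha0 _)
  have hle : ∀ᵐ x, h x ≤ ∫ y, V y * h y * a (x - y) := by
    filter_upwards [hprod.prod_right_ae] with x hx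
    exact max_le (by linarith [key x hx]) (hT0 x)
  have hprod2 : Integrable (fun p : E × E => V p.1 * (V p.2 * h p.2 * a (p.1 - p.2)))
      (volume.prod volume) :=
    hprod.bdd_mul (hV.meas.comp measurable_fst).aestronglyMeasurable (c := C)
      (Filter.Eventually.of_forall fun p => by rw [Real.norm_of_nonneg (hV.nonneg _)]; exact hC _)
  have hI : ∫ x, V x * h x ≤ 1 / 2 * ∫ x, V x * h x := by
    calc ∫ x, V x * h x ≤ ∫ x, ∫ y, V x * (V y * h y * a (x - y)) := by
          refine integral_mono_ae hi2 hprod2.integral_prod_left ?_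
          filter_upwards [hle] with x hx
          rw [integral_const_mul]
          exact mul_le_mul_of_nonneg_left hx (hV.nonneg x)
      _ = ∫ y, ∫ x, V x * (V y * h y * a (x - y)) :=
          integral_integral_swap (f := fun x y => V x * (V y * h y * a (x - y))) hprod2
      _ ≤ ∫ y, 1 / 2 * (V y * h y) := by
          refine integral_mono hprod2.integral_prod_right (hi2.const_mul _) fun y => ?_
          have e1 : ∀ x, V x * (V y * h y * a (x - y)) = V x * a (y - x) * (V y * h y) := fun x => by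
            rw [← hae, neg_sub]; ring
          simp only [e1]
          rw [integral_mul_const]
          exact mul_le_mul_of_nonneg_right (hnear.le y) (mul_nonneg (hV.nonneg y) (hh0 y))
      _ = _ := integral_const_mul _ _
  have hz : (fun x => V x * h x) =ᵐ[volume] 0 := by
    rw [← integral_eq_zero_iff_of_nonneg (fun y => mul_nonneg (hV.nonneg y) (hh0 y)) hi2]
    have := integral_nonneg (μ := volume) (f := fun x => V x * h x)
      fun y => mul_nonneg (hV.nonneg y) (hh0 y)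
    linarith
  refine ⟨φ, hφm, hfix, fun x => ?_, ?_⟩
  · have e1 : (fun y => V y * h y * a (x - y)) =ᵐ[volume] 0 := by
      filter_upwards [hz] with y hy
      simp only [Pi.zero_apply] at hy ⊢
      rw [hy, zero_mul]
    have := key x ((integrable_zero _ _ _).congr e1.symm)
    rw [integral_congr_ae e1] at this
    simpa using this
  · by_contra hall
    push Not at hall
    exact hne (hφψ.trans (Filter.Eventually.of_forall hall))

/-- No solution when the Schur sum is small. -/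
lemma no_sol {r : E → S →L[ℂ] S} (hrm : StronglyMeasurable r) {ϱ : E → ℝ}
    (hϱm : Measurable ϱ) (hϱi : Integrable ϱ) (hϱe : ∀ z, ϱ (-z) = ϱ z) (hr : ∀ z, ‖r z‖ ≤ ϱ z)
    {V : E → ℝ} (hV : Nice V) (hA : Adm V ϱ (1 / 2)) : ¬ ∃ ψ : E → S, Sol r V ψ := by
  rintro ⟨ψ, hψ⟩
  obtain ⟨φ, -, -, hb, x, hx⟩ := bounded_sol hrm hϱm hϱi hϱe hr hV MeasurableSet.univ
    (by simp) (by simpa using hA) le_rfl (by simp) hψ
  exact hx (by simpa using hb x)

section local_

variable (hn : 2 ≤ Module.finrank ℝ E)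
include hn

lemma integrableOn_rpow_ball {σ : ℝ} (hσ : σ < Module.finrank ℝ E) (ρ : ℝ) :
    IntegrableOn (fun z : E => ‖z‖ ^ (-σ)) (Metric.ball 0 ρ) :=
  integrableOn_ball_of_norm_le_rpow (C := 1) (by omega) hσ
    (Filter.Eventually.of_forall fun z => by
      rw [Real.norm_of_nonneg (by positivity), one_mul])
    (by fun_prop : Measurable fun z : E => ‖z‖ ^ (-σ)).aestronglyMeasurable

/-- `∫_{|z| < 1} |z|^(-σ)`. -/
noncomputable def cI (E : Type) [NormedAddCommGroup E] [InnerProductSpace ℝ E]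
    [FiniteDimensional ℝ E] [MeasurableSpace E] [BorelSpace E] (σ : ℝ) : ℝ :=
  ∫ z in Metric.ball (0 : E) 1, ‖z‖ ^ (-σ)

omit hn in
lemma cI_nonneg (σ : ℝ) : 0 ≤ cI E σ := integral_nonneg fun z => by positivity

omit hn in
lemma integral_rpow_ball (σ : ℝ) {ρ : ℝ} (hρ : 0 < ρ) :
    ∫ z in Metric.ball (0 : E) ρ, ‖z‖ ^ (-σ) = cI E σ * ρ ^ ((Module.finrank ℝ E : ℝ) - σ) := by
  have h1 := Measure.setIntegral_comp_smul_of_pos (volume : Measure E)
    (fun z : E => ‖z‖ ^ (-σ)) (Metric.ball 0 1) hρ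
  rw [smul_ball hρ.ne', smul_zero, Real.norm_of_nonneg hρ.le, mul_one] at h1
  have h2 : ∀ z : E, ‖ρ • z‖ ^ (-σ) = ρ ^ (-σ) * ‖z‖ ^ (-σ) := fun z => by
    rw [norm_smul, Real.norm_of_nonneg hρ.le, Real.mul_rpow hρ.le (norm_nonneg _)]
  simp only [h2] at h1
  rw [integral_const_mul, smul_eq_mul] at h1
  rw [sub_eq_add_neg, Real.rpow_add hρ, Real.rpow_natCast, cI]
  have h3 : (0 : ℝ) < ρ ^ Module.finrank ℝ E := by positivity
  field_simp at h1
  linarith

lemma adm_near {σ ρ C : ℝ} (hσ : σ < Module.finrank ℝ E) (hρ : 0 < ρ) {V : E → ℝ}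
    (hV : Measurable V) (hV0 : ∀ y, 0 ≤ V y) (hC : ∀ y, V y ≤ C) :
    Adm V ((Metric.ball (0 : E) ρ).indicator fun z => ‖z‖ ^ (-σ))
      (C * (cI E σ * ρ ^ ((Module.finrank ℝ E : ℝ) - σ))) := by
  have := adm_of_integrable hV hV0 hC
    ((integrable_indicator_iff Metric.isOpen_ball.measurableSet).2
      (integrableOn_rpow_ball hn hσ ρ))
    (fun z => indicator_nonneg (fun z _ => by positivity) z)
  rwa [integral_indicator Metric.isOpen_ball.measurableSet, integral_rpow_ball σ hρ] at this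

/-- Volume of the unit ball. -/
noncomputable def cB (E : Type) [NormedAddCommGroup E] [InnerProductSpace ℝ E]
    [FiniteDimensional ℝ E] [MeasurableSpace E] [BorelSpace E] : ℝ :=
  (volume : Measure E).real (Metric.ball 0 1)

omit hn in
lemma cB_pos : 0 < cB E :=
  ENNReal.toReal_pos (Metric.measure_ball_pos _ _ one_pos).ne' measure_ball_lt_top.ne

omit hn in
lemma real_ball {ρ : ℝ} (hρ : 0 < ρ) :
    (volume : Measure E).real (Metric.ball 0 ρ) = cB E * ρ ^ (Module.finrank ℝ E : ℝ) := by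
  rw [Measure.real, Measure.addHaar_ball_of_pos _ _ hρ, ENNReal.toReal_mul,
    ENNReal.toReal_ofReal (by positivity), Real.rpow_natCast, cB, Measure.real, mul_comm]

omit hn in
lemma integral_le_of_supp {V : E → ℝ} {C ρ : ℝ} (hρ : 0 < ρ) (hV : Measurable V)
    (hV0 : ∀ y, 0 ≤ V y) (hC : ∀ y, V y ≤ C) (hs : ∀ y, ρ ≤ ‖y‖ → V y = 0) :
    ∫ y, V y ≤ C * (cB E * ρ ^ (Module.finrank ℝ E : ℝ)) := by
  have hN : Nice V := ⟨hV, hV0, ⟨C, hC⟩, ⟨ρ, hs⟩⟩
  rw [← setIntegral_eq_integral_of_forall_compl_eq_zero (s := Metric.ball 0 ρ)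
    (fun y hy => hs y (by simpa using hy)), ← real_ball hρ, mul_comm, ← smul_eq_mul,
    ← setIntegral_const]
  exact setIntegral_mono hN.integrable.integrableOn
    (integrableOn_const measure_ball_lt_top.ne) hC

lemma adm_loc {σ ρ C : ℝ} (hσ0 : 0 ≤ σ) (hσ : σ < Module.finrank ℝ E) (hρ : 0 < ρ) {V : E → ℝ}
    (hV : Measurable V) (hV0 : ∀ y, 0 ≤ V y) (hC : ∀ y, V y ≤ C) (hs : ∀ y, ρ ≤ ‖y‖ → V y = 0) :
    Adm V (fun z => ‖z‖ ^ (-σ)) (C * (cI E σ + cB E) * ρ ^ ((Module.finrank ℝ E : ℝ) - σ)) := by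
  have hN : Nice V := ⟨hV, hV0, ⟨C, hC⟩, ⟨ρ, hs⟩⟩
  have h1 := adm_near hn hσ hρ hV hV0 hC
  have h2 : Adm V (fun _ => ρ ^ (-σ)) (C * (cB E * ρ ^ (Module.finrank ℝ E : ℝ)) * ρ ^ (-σ)) :=
    ⟨fun _ => hN.integrable.mul_const _, fun _ => by
      rw [integral_mul_const]
      exact mul_le_mul_of_nonneg_right (integral_le_of_supp hρ hV hV0 hC hs) (by positivity)⟩
  refine ((h1.add_right h2).of_le hV hV0 (by fun_prop) (fun z => by positivity)
    fun x => Filter.Eventually.of_forall fun y => ?_).mono (le_of_eq ?_)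
  · by_cases hz : x - y ∈ Metric.ball (0 : E) ρ
    · rw [indicator_of_mem hz]
      exact le_add_of_nonneg_right (by positivity)
    · rw [indicator_of_notMem hz, zero_add]
      exact Real.rpow_le_rpow_of_nonpos hρ (by simpa using hz) (by linarith)
  · rw [sub_eq_add_neg, Real.rpow_add hρ]
    ring

end local_

end Pool.Agent.MP_0b7119_mp.G
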