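import Pool.Agent.MP_0b7119_mp.Defs
import Pool.Agent.MP_0b7119_mp.ACD

open Set MeasureTheory Matrix Filter Topology

namespace Pool.Agent.MP_0b7119_mp

structure Cliff (α β : Matrix (Fin 2) (Fin 2) ℂ) : Prop where
  hα : α.IsHermitian
  hβ : β.IsHermitian
  αα : α * α = 1
  ββ : β * β = 1
  βα : β * α = -(α * β)

structure Pruefer (m l : ℝ) (V φ ρ : ℝ → ℝ) : Prop where
  hφ : ACD φ (fun x => 2 * (l + V x) - 2 * m * Real.cos (φ x))
  hρ : ACD ρ (fun x => -2 * m * Real.sin (φ x))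
  int : Integrable (fun x => Real.exp (ρ x)) volume

noncomputable def sq (A : Matrix (Fin 2) (Fin 2) ℂ) (v w : Fin 2 → ℂ) : ℂ := star v ⬝ᵥ A *ᵥ w

noncomputable def qf (A : Matrix (Fin 2) (Fin 2) ℂ) (v : Fin 2 → ℂ) : ℝ := (sq A v v).re

theorem sq_eq (A : Matrix (Fin 2) (Fin 2) ℂ) (v w : Fin 2 → ℂ) : sq A v w =
    (starRingEnd ℂ) (v 0) * (A 0 0 * w 0 + A 0 1 * w 1) +
      (starRingEnd ℂ) (v 1) * (A 1 0 * w 0 + A 1 1 * w 1) := by
  simp [sq, dotProduct, mulVec, Fin.sum_univ_two]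

theorem sq_conj {A : Matrix (Fin 2) (Fin 2) ℂ} (hA : A.IsHermitian) (v w : Fin 2 → ℂ) :
    (starRingEnd ℂ) (sq A v w) = sq A w v := by
  have h00 : (starRingEnd ℂ) (A 0 0) = A 0 0 := hA.apply 0 0
  have h01 : (starRingEnd ℂ) (A 0 1) = A 1 0 := hA.apply 1 0
  have h10 : (starRingEnd ℂ) (A 1 0) = A 0 1 := hA.apply 0 1
  have h11 : (starRingEnd ℂ) (A 1 1) = A 1 1 := hA.apply 1 1
  simp only [sq_eq, map_add, map_mul, Complex.conj_conj, h00, h01, h10, h11]
  ring

theorem sq_im {A : Matrix (Fin 2) (Fin 2) ℂ} (hA : A.IsHermitian) (v : Fin 2 → ℂ) :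
    (sq A v v).im = 0 := by
  have := congrArg Complex.im (sq_conj hA v v)
  simp only [Complex.conj_im] at this
  linarith

theorem sq_mul (A B : Matrix (Fin 2) (Fin 2) ℂ) (v w : Fin 2 → ℂ) :
    sq A v (B *ᵥ w) = sq (A * B) v w := by
  unfold sq; rw [mulVec_mulVec]

theorem sq_add (A B : Matrix (Fin 2) (Fin 2) ℂ) (v w : Fin 2 → ℂ) :
    sq (A + B) v w = sq A v w + sq B v w := by
  unfold sq; rw [add_mulVec, dotProduct_add]

theorem sq_smul (c : ℂ) (A : Matrix (Fin 2) (Fin 2) ℂ) (v w : Fin 2 → ℂ) :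
    sq (c • A) v w = c * sq A v w := by
  unfold sq; rw [smul_mulVec, dotProduct_smul, smul_eq_mul]

theorem qf_one (v : Fin 2 → ℂ) : qf 1 v = ‖v 0‖ ^ 2 + ‖v 1‖ ^ 2 := by
  simp only [qf, sq_eq]
  simp [Complex.sq_norm, Complex.normSq_apply]

theorem qf_contDiff (A : Matrix (Fin 2) (Fin 2) ℂ) : ContDiff ℝ 1 (qf A) := by
  have h0 : ContDiff ℝ 1 (fun v : Fin 2 → ℂ => v 0) := contDiff_apply ℝ ℂ 0
  have h1 : ContDiff ℝ 1 (fun v : Fin 2 → ℂ => v 1) := contDiff_apply ℝ ℂ 1
  have c0 : ContDiff ℝ 1 (fun v : Fin 2 → ℂ => (starRingEnd ℂ) (v 0)) :=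
    Complex.conjCLE.contDiff.comp h0
  have c1 : ContDiff ℝ 1 (fun v : Fin 2 → ℂ => (starRingEnd ℂ) (v 1)) :=
    Complex.conjCLE.contDiff.comp h1
  have : qf A = fun v => Complex.reCLM ((starRingEnd ℂ) (v 0) * (A 0 0 * v 0 + A 0 1 * v 1) +
      (starRingEnd ℂ) (v 1) * (A 1 0 * v 0 + A 1 1 * v 1)) := by
    funext v; simp only [qf, sq_eq]; rfl
  rw [this]
  exact Complex.reCLM.contDiff.comp
    ((c0.mul ((contDiff_const.mul h0).add (contDiff_const.mul h1))).add
      (c1.mul ((contDiff_const.mul h0).add (contDiff_const.mul h1))))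

theorem qf_hasDerivAt {A : Matrix (Fin 2) (Fin 2) ℂ} (hA : A.IsHermitian) {ψ : ℝ → Fin 2 → ℂ}
    {ψ' : Fin 2 → ℂ} {x : ℝ} (h : HasDerivAt ψ ψ' x) :
    HasDerivAt (fun x => qf A (ψ x)) (2 * (sq A (ψ x) ψ').re) x := by
  have h0 : HasDerivAt (fun x => ψ x 0) (ψ' 0) x := hasDerivAt_pi.1 h 0
  have h1 : HasDerivAt (fun x => ψ x 1) (ψ' 1) x := hasDerivAt_pi.1 h 1
  have c0 : HasDerivAt (fun x => (starRingEnd ℂ) (ψ x 0)) ((starRingEnd ℂ) (ψ' 0)) x :=
    Complex.conjCLE.toContinuousLinearMap.hasFDerivAt.comp_hasDerivAt x h0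
  have c1 : HasDerivAt (fun x => (starRingEnd ℂ) (ψ x 1)) ((starRingEnd ℂ) (ψ' 1)) x :=
    Complex.conjCLE.toContinuousLinearMap.hasFDerivAt.comp_hasDerivAt x h1
  have h2 := (c0.mul ((h0.const_mul (A 0 0)).add (h1.const_mul (A 0 1)))).add
    (c1.mul ((h0.const_mul (A 1 0)).add (h1.const_mul (A 1 1))))
  have h3 : HasDerivAt (fun x => sq A (ψ x) (ψ x)) (sq A ψ' (ψ x) + sq A (ψ x) ψ') x := by
    simp only [sq_eq]
    refine HasDerivAt.congr_deriv h2 ?_
    simp only [Pi.add_apply]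
    ring
  have h4 := Complex.reCLM.hasFDerivAt.comp_hasDerivAt x h3
  refine HasDerivAt.congr_deriv h4 ?_
  have h5 : (sq A ψ' (ψ x)).re = (sq A (ψ x) ψ').re := by
    rw [← sq_conj hA (ψ x) ψ', Complex.conj_re]
  simp only [Complex.reCLM_apply, Complex.add_re, h5]
  ring

namespace Cliff
variable {α β : Matrix (Fin 2) (Fin 2) ℂ} (C : Cliff α β)
include C

theorem αβα : α * β * α = -β := by
  rw [mul_assoc, C.βα, mul_neg, ← mul_assoc, C.αα, one_mul]

theorem βαβ : β * α * β = -α := by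
  rw [C.βα, neg_mul, mul_assoc, C.ββ, mul_one]

theorem γherm : (Complex.I • (α * β)).IsHermitian := by
  unfold IsHermitian
  rw [conjTranspose_smul, conjTranspose_mul, C.hα.eq, C.hβ.eq, C.βα]
  simp

theorem γγ : (Complex.I • (α * β)) * (Complex.I • (α * β)) = 1 := by
  rw [smul_mul_smul_comm, Complex.I_mul_I, ← mul_assoc, C.αβα, neg_mul, C.ββ]
  simp

theorem βγ : β * (Complex.I • (α * β)) + (Complex.I • (α * β)) * β = 0 := by
  rw [mul_smul_comm, smul_mul_assoc, ← smul_add, ← mul_assoc, C.βαβ, mul_assoc, C.ββ, mul_one]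
  simp

theorem cs (v : Fin 2 → ℂ) : qf β v ^ 2 + qf (Complex.I • (α * β)) v ^ 2 ≤ qf 1 v ^ 2 := by
  set γ := Complex.I • (α * β) with hγ
  set s := qf β v with hs
  set t := qf γ v with ht
  set r := Real.sqrt (s ^ 2 + t ^ 2) with hr
  have hr2 : r ^ 2 = s ^ 2 + t ^ 2 := Real.sq_sqrt (by positivity)
  have hr0 : 0 ≤ r := Real.sqrt_nonneg _
  have hn : 0 ≤ qf 1 v := by rw [qf_one]; positivity
  set P : Matrix (Fin 2) (Fin 2) ℂ := (r : ℂ) • 1 + ((-s : ℝ) : ℂ) • β + ((-t : ℝ) : ℂ) • γ with hP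
  have hPh : P.IsHermitian := by
    unfold IsHermitian
    have hγh : γᴴ = γ := C.γherm.eq
    rw [hP, conjTranspose_add, conjTranspose_add, conjTranspose_smul, conjTranspose_smul,
      conjTranspose_smul, C.hβ.eq, hγh, conjTranspose_one]
    simp
  have hPP : P * P = ((2 * r : ℝ) : ℂ) • P := by
    have h1 : β * β = 1 := C.ββ
    have h2 : γ * γ = 1 := C.γγ
    have h3 : γ * β = -(β * γ) := eq_neg_of_add_eq_zero_right C.βγ
    have h4 : ((r : ℂ)) ^ 2 = (s : ℂ) ^ 2 + (t : ℂ) ^ 2 := by exact_mod_cast hr2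
    rw [hP]
    simp only [add_mul, mul_add, smul_mul_assoc, mul_smul_comm, one_mul, mul_one, h1, h2, h3,
      smul_add, smul_smul, smul_neg]
    push_cast
    have h5 : ((r : ℂ) * r) • (1 : Matrix (Fin 2) (Fin 2) ℂ) =
        ((s : ℂ) * s) • (1 : Matrix (Fin 2) (Fin 2) ℂ) + ((t : ℂ) * t) • 1 := by
      rw [← add_smul]; congr 1; linear_combination h4
    have h6 : (2 * (r : ℂ) * r) • (1 : Matrix (Fin 2) (Fin 2) ℂ) =
        ((r : ℂ) * r) • (1 : Matrix (Fin 2) (Fin 2) ℂ) + ((r : ℂ) * r) • 1 := by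
      rw [← add_smul]; congr 1; ring
    rw [h6]
    nth_rewrite 3 [h5]
    module
  have h1 : 0 ≤ (sq (P * P) v v).re := by
    have e : sq (P * P) v v = sq 1 (P *ᵥ v) (P *ᵥ v) := by
      have e1 : sq 1 (P *ᵥ v) (P *ᵥ v) = sq P (P *ᵥ v) v := by rw [sq_mul, one_mul]
      rw [e1, ← sq_conj hPh, sq_mul]
      have e2 : (P * P).IsHermitian := by
        unfold IsHermitian; rw [conjTranspose_mul, hPh.eq]
      rw [sq_conj e2]
    rw [e]
    have := qf_one (P *ᵥ v)
    unfold qf at this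
    rw [this]; positivity
  rw [hPP, sq_smul, hP, sq_add, sq_add, sq_smul, sq_smul, sq_smul] at h1
  simp only [Complex.mul_re, Complex.add_re, Complex.ofReal_re, Complex.ofReal_im, zero_mul,
    sub_zero] at h1
  change 0 ≤ 2 * r * (r * qf 1 v + -s * s + -t * t) at h1
  rcases hr0.eq_or_lt with h0 | h0
  · rw [← hr2, ← h0]; nlinarith
  · have h2 : 0 ≤ r * qf 1 v + -s * s + -t * t := by
      by_contra hh
      push Not at hh
      nlinarith
    have h3 : r ≤ qf 1 v := by
      by_contra hh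
      push Not at hh
      nlinarith
    rw [← hr2]; nlinarith

theorem deriv_eq {m l w : ℝ} {v v' : Fin 2 → ℂ}
    (h : (-Complex.I) • α *ᵥ v' + (m : ℂ) • β *ᵥ v - (w : ℂ) • v = (l : ℂ) • v) :
    v' = (Complex.I • (α * (((l + w : ℝ) : ℂ) • 1 + ((-m : ℝ) : ℂ) • β))) *ᵥ v := by
  have h1 : (-Complex.I) • α *ᵥ v' = (((l + w : ℝ) : ℂ) • (1 : Matrix (Fin 2) (Fin 2) ℂ) +
      ((-m : ℝ) : ℂ) • β) *ᵥ v := by
    rw [add_mulVec, smul_mulVec, smul_mulVec, one_mulVec]
    push_cast
    rw [add_smul, ← h]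
    module
  rw [smul_mulVec, ← mulVec_mulVec, ← h1, mulVec_smul, mulVec_mulVec, C.αα, one_mulVec, smul_smul]
  simp

end Cliff

theorem not_integrable_of_ge {n : ℝ → ℝ} {c a : ℝ} (hc : 0 < c) (h : ∀ x ≥ a, c ≤ n x) :
    ¬ Integrable n volume := by
  intro hi
  have h1 : IntegrableOn (fun _ : ℝ => c) (Ici a) volume := by
    refine Integrable.mono' hi.integrableOn aestronglyMeasurable_const ?_
    rw [ae_restrict_iff' measurableSet_Ici]
    exact Eventually.of_forall fun x hx => by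
      rw [Real.norm_eq_abs, abs_of_pos hc]; exact h x hx
  rw [integrableOn_const_iff] at h1
  rcases h1 with h1 | h1
  · simp at h1; exact hc.ne' h1
  · simp at h1

theorem eig_to_pruefer {α β : Matrix (Fin 2) (Fin 2) ℂ} (C : Cliff α β) {m l : ℝ} {V : ℝ → ℝ}
    (hV : LocallyIntegrable V volume) (h : IsEig α β m V l) (x₀ : ℝ) :
    ∃ φ ρ, Pruefer m l V φ ρ ∧ φ x₀ ∈ Icc (-Real.pi) Real.pi := by
  obtain ⟨ψ, hne, hL, hac, hd⟩ := h
  set γ := Complex.I • (α * β) with hγ
  set n : ℝ → ℝ := fun x => qf 1 (ψ x) with hn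
  set b : ℝ → ℝ := fun x => qf β (ψ x) with hb
  set j : ℝ → ℝ := fun x => qf γ (ψ x) with hj
  have hd' : ∀ᵐ x, HasDerivAt ψ ((Complex.I • (α * (((l + V x : ℝ) : ℂ) • 1 +
      ((-m : ℝ) : ℂ) • β))) *ᵥ ψ x) x := by
    filter_upwards [hd] with x hx
    rw [← C.deriv_eq hx.2]
    exact hx.1.hasDerivAt
  have hnD : ACD n (fun x => -2 * m * j x) := by
    refine ⟨fun a b => ac_comp_contDiff (hac a b) (qf_contDiff 1), ?_⟩
    filter_upwards [hd'] with x hx
    refine (qf_hasDerivAt isHermitian_one hx).congr_deriv ?_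
    have e : (1 : Matrix (Fin 2) (Fin 2) ℂ) * (Complex.I • (α * (((l + V x : ℝ) : ℂ) • 1 +
        ((-m : ℝ) : ℂ) • β))) = (Complex.I * ((l + V x : ℝ) : ℂ)) • α + ((-m : ℝ) : ℂ) • γ := by
      rw [hγ]
      simp only [one_mul, mul_add, mul_smul_comm, mul_one, smul_add, smul_smul]
      module
    rw [sq_mul, e, sq_add, sq_smul, sq_smul]
    have := sq_im C.hα (ψ x)
    simp only [Complex.add_re, Complex.mul_re, Complex.mul_im, Complex.I_re, Complex.I_im,
      Complex.ofReal_re, Complex.ofReal_im, this, hj, qf]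
    ring
  have hbD : ACD b (fun x => -2 * (l + V x) * j x) := by
    refine ⟨fun a b => ac_comp_contDiff (hac a b) (qf_contDiff β), ?_⟩
    filter_upwards [hd'] with x hx
    refine (qf_hasDerivAt C.hβ hx).congr_deriv ?_
    have e : β * (Complex.I • (α * (((l + V x : ℝ) : ℂ) • 1 + ((-m : ℝ) : ℂ) • β))) =
        ((-(l + V x) : ℝ) : ℂ) • γ + (Complex.I * (m : ℂ)) • α := by
      rw [hγ]
      simp only [mul_add, mul_smul_comm, mul_one, smul_add, smul_smul, ← mul_assoc, C.βαβ]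
      rw [C.βα]
      push_cast
      module
    rw [sq_mul, e, sq_add, sq_smul _ γ, sq_smul _ α]
    have := sq_im C.hα (ψ x)
    simp only [Complex.add_re, Complex.mul_re, Complex.mul_im, Complex.I_re, Complex.I_im,
      Complex.ofReal_re, Complex.ofReal_im, this, hj, qf]
    ring
  have hjD : ACD j (fun x => 2 * (l + V x) * b x - 2 * m * n x) := by
    refine ⟨fun a b => ac_comp_contDiff (hac a b) (qf_contDiff γ), ?_⟩
    filter_upwards [hd'] with x hx
    refine (qf_hasDerivAt C.γherm hx).congr_deriv ?_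
    have e : γ * (Complex.I • (α * (((l + V x : ℝ) : ℂ) • 1 + ((-m : ℝ) : ℂ) • β))) =
        ((l + V x : ℝ) : ℂ) • β + ((-m : ℝ) : ℂ) • 1 := by
      have e1 : γ * (Complex.I • α) = β := by
        rw [hγ, smul_mul_smul_comm, Complex.I_mul_I, C.αβα]; simp
      rw [← smul_mul_assoc, ← mul_assoc, e1]
      simp only [mul_add, mul_smul_comm, mul_one, C.ββ]
    rw [sq_mul, e, sq_add, sq_smul, sq_smul]
    simp only [Complex.add_re, Complex.mul_re, Complex.ofReal_re, Complex.ofReal_im, hb, hn, qf]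
    ring
  have hn0 : ∀ x, 0 ≤ n x := fun x => by simp only [hn, qf_one]; positivity
  have hnint : Integrable n volume := by
    have h0 : MemLp (fun x => ψ x 0) 2 volume := memLp_pi_iff.1 hL 0
    have h1 : MemLp (fun x => ψ x 1) 2 volume := memLp_pi_iff.1 hL 1
    have i0 := (memLp_two_iff_integrable_sq_norm h0.1).1 h0
    have i1 := (memLp_two_iff_integrable_sq_norm h1.1).1 h1
    have : n = fun x => ‖ψ x 0‖ ^ 2 + ‖ψ x 1‖ ^ 2 := funext fun x => qf_one _
    rw [this]
    exact i0.add i1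
  have hC : ACD (fun x => n x * n x - (b x * b x + j x * j x)) (fun _ => 0) :=
    ((hnD.mul hnD).sub ((hbD.mul hbD).add (hjD.mul hjD))).congr_deriv' (fun x => by ring)
  have hfz : ∀ x, n x * n x = b x * b x + j x * j x := by
    intro x
    have h1 : b x ^ 2 + j x ^ 2 ≤ n x ^ 2 := C.cs (ψ x)
    by_contra hne
    have h2 : 0 < n x * n x - (b x * b x + j x * j x) := by
      rcases (show b x * b x + j x * j x ≤ n x * n x by nlinarith).eq_or_lt with h | h
      · exact absurd h.symm hne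
      · linarith
    refine not_integrable_of_ge (Real.sqrt_pos.2 h2) (a := 0) (fun y _ => ?_) hnint
    apply Real.sqrt_le_iff.2 ⟨hn0 y, ?_⟩
    have := hC.eq_of_zero x y
    nlinarith [mul_self_nonneg (b y), mul_self_nonneg (j y)]
  have hjn : ∀ x, |j x| ≤ n x := fun x =>
    abs_le_of_sq_le_sq' (by nlinarith [hfz x, mul_self_nonneg (b x)]) (hn0 x) |> abs_le.2
  -- positivity of n
  have hzero : ∀ (N J : ℝ → ℝ) (c : ℝ), ACD N (fun x => c * J x) → (∀ x, |J x| ≤ N x) →
      ∀ x y, x ≤ y → N x = 0 → N y = 0 := by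
    intro N J c hN hJ x y hxy hx
    have h1 := hN.neg.nonneg_of_ge (K := |c|) hxy (Eventually.of_forall fun z _ => by
      have h2 : c * J z ≤ |c| * |-N z| := by
        rw [abs_neg]
        calc c * J z ≤ |c * J z| := le_abs_self _
          _ = |c| * |J z| := abs_mul _ _
          _ ≤ |c| * |N z| :=
            mul_le_mul_of_nonneg_left ((hJ z).trans (le_abs_self _)) (abs_nonneg _)
      linarith) (by simp [hx])
    have := (abs_nonneg _).trans (hJ y)
    linarith
  have hnpos : ∀ x, 0 < n x := by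
    intro x
    rcases (hn0 x).eq_or_lt with h0 | h0
    · exfalso
      apply hne
      funext y
      have hy : n y = 0 := by
        rcases le_total x y with hxy | hxy
        · exact hzero n j (-2 * m) hnD hjn x y hxy h0.symm
        · have := hzero (fun z => n (-z)) (fun z => j (-z)) (2 * m)
            (hnD.reflect.congr_deriv' (fun z => by ring)) (fun z => hjn _) (-x) (-y)
            (by linarith) (by simpa using h0.symm)
          simpa using this
      simp only [hn, qf_one] at hy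
      have h1 : ‖ψ y 0‖ = 0 := by nlinarith [norm_nonneg (ψ y 0), sq_nonneg ‖ψ y 1‖]
      have h2 : ‖ψ y 1‖ = 0 := by nlinarith [norm_nonneg (ψ y 1), sq_nonneg ‖ψ y 0‖]
      funext i
      fin_cases i
      · simpa using h1
      · simpa using h2
    · exact h0
  have hjc : Continuous fun x => -2 * m * (j x / n x) :=
    continuous_const.mul (hjD.continuous.div hnD.continuous (fun x => (hnpos x).ne'))
  have hbc : Continuous fun x => 2 * m * (b x / n x) :=
    continuous_const.mul (hbD.continuous.div hnD.continuous (fun x => (hnpos x).ne'))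
  set ρ : ℝ → ℝ := fun x => Real.log (n x₀) + ∫ t in x₀..x, -2 * m * (j t / n t) with hρ
  have hρD : ACD ρ (fun x => -2 * m * (j x / n x)) :=
    ((ACD.const _).add (ACD.primitive hjc.locallyIntegrable x₀)).congr_deriv' (fun x => by ring)
  have hexp : ∀ x, n x * Real.exp (-ρ x) = 1 := by
    have h1 : ACD (fun x => n x * Real.exp (-ρ x)) (fun _ => 0) :=
      (hnD.mul hρD.neg.exp).congr_deriv' (fun x => by
        have := (hnpos x).ne'
        field_simp
        ring)
    intro x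
    rw [h1.eq_of_zero x x₀]
    simp only [hρ, intervalIntegral.integral_same, add_zero]
    rw [Real.exp_neg, Real.exp_log (hnpos x₀), mul_inv_cancel₀ (hnpos x₀).ne']
  have hexp' : ∀ x, Real.exp (ρ x) = n x := fun x => by
    have := hexp x
    rw [Real.exp_neg] at this
    have h2 := Real.exp_pos (ρ x)
    field_simp at this
    exact this.symm
  set z : ℂ := ⟨b x₀, j x₀⟩ with hz
  have hzn : ‖z‖ = n x₀ := by
    rw [Complex.norm_eq_sqrt_sq_add_sq]
    simp only [hz]
    rw [show b x₀ ^ 2 + j x₀ ^ 2 = n x₀ ^ 2 by nlinarith [hfz x₀]]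
    exact Real.sqrt_sq (hn0 x₀)
  have hz0 : z ≠ 0 := by
    intro h0; rw [h0, norm_zero] at hzn; exact (hnpos x₀).ne hzn
  have hloc : LocallyIntegrable (fun t => 2 * (l + V t) - 2 * m * (b t / n t)) volume := by
    refine LocallyIntegrable.sub ?_ hbc.locallyIntegrable
    have h1 : LocallyIntegrable (fun t => l + V t) volume :=
      (continuous_const.locallyIntegrable).add hV
    exact h1.smul (2 : ℝ)
  set φ : ℝ → ℝ := fun x => Complex.arg z + ∫ t in x₀..x, (2 * (l + V t) - 2 * m * (b t / n t))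
    with hφ
  have hφD : ACD φ (fun x => 2 * (l + V x) - 2 * m * (b x / n x)) :=
    ((ACD.const _).add (ACD.primitive hloc x₀)).congr_deriv' (fun x => by ring)
  have hφ0 : φ x₀ = Complex.arg z := by simp [hφ]
  have hinv : ∀ x, Real.exp (-ρ x) = (n x)⁻¹ := fun x => by rw [Real.exp_neg, hexp']
  have hr : ∀ x, (b x * Real.cos (φ x) + j x * Real.sin (φ x)) * Real.exp (-ρ x) = 1 := by
    have h1 : ACD (fun x => (b x * Real.cos (φ x) + j x * Real.sin (φ x)) * Real.exp (-ρ x))
        (fun _ => 0) :=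
      (((hbD.mul hφD.cos).add (hjD.mul hφD.sin)).mul hρD.neg.exp).congr_deriv' (fun x => by
        have h2 := (hnpos x).ne'
        have h3 := hfz x
        rw [hinv]
        field_simp
        linear_combination (-2 * m * Real.sin (φ x)) * h3)
    intro x
    rw [h1.eq_of_zero x x₀, hinv, hφ0, Complex.cos_arg hz0, Complex.sin_arg, hzn]
    have h2 := (hnpos x₀).ne'
    have h3 := hfz x₀
    simp only [hz]
    field_simp
    linarith
  have hy : ∀ x, (j x * Real.cos (φ x) - b x * Real.sin (φ x)) * Real.exp (-ρ x) = 0 := by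
    have h1 : ACD (fun x => (j x * Real.cos (φ x) - b x * Real.sin (φ x)) * Real.exp (-ρ x))
        (fun _ => 0) :=
      (((hjD.mul hφD.cos).sub (hbD.mul hφD.sin)).mul hρD.neg.exp).congr_deriv' (fun x => by
        have h2 := (hnpos x).ne'
        have h3 := hfz x
        rw [hinv]
        field_simp
        linear_combination (-2 * m * Real.cos (φ x)) * h3)
    intro x
    rw [h1.eq_of_zero x x₀, hinv, hφ0, Complex.cos_arg hz0, Complex.sin_arg, hzn]
    have h2 := (hnpos x₀).ne'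
    simp only [hz]
    field_simp
    ring
  have hcs : ∀ x, b x / n x = Real.cos (φ x) ∧ j x / n x = Real.sin (φ x) := by
    intro x
    have h1 := hr x
    have h2 := hy x
    have h3 := (hnpos x).ne'
    rw [hinv] at h1 h2
    have h4 : b x * Real.cos (φ x) + j x * Real.sin (φ x) = n x := by
      field_simp at h1; linarith
    have h5 : j x * Real.cos (φ x) - b x * Real.sin (φ x) = 0 := by
      rcases mul_eq_zero.1 h2 with h | h
      · exact h
      · exact absurd h (inv_ne_zero h3)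
    have h6 := Real.sin_sq_add_cos_sq (φ x)
    constructor
    · rw [div_eq_iff h3]
      linear_combination (Real.cos (φ x)) * h4 - (Real.sin (φ x)) * h5 - (b x) * h6
    · rw [div_eq_iff h3]
      linear_combination (Real.sin (φ x)) * h4 + (Real.cos (φ x)) * h5 - (j x) * h6
  refine ⟨φ, ρ, ⟨hφD.congr_deriv' (fun x => by rw [(hcs x).1]),
    hρD.congr_deriv' (fun x => by rw [(hcs x).2]), ?_⟩, ?_⟩
  · simp only [hexp']; exact hnint
  · rw [hφ0]; exact ⟨(Complex.neg_pi_lt_arg z).le, Complex.arg_le_pi z⟩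

end Pool.Agent.MP_0b7119_mp
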