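import Pool.Agent.MP_0b7119_mp.Pruefer

open Set MeasureTheory Matrix Filter Topology

namespace Pool.Agent.MP_0b7119_mp

theorem Cliff.exists_vec {α β : Matrix (Fin 2) (Fin 2) ℂ} (C : Cliff α β) :
    ∃ e : Fin 2 → ℂ, e ≠ 0 ∧ β *ᵥ e = e := by
  by_contra h
  push Not at h
  have h1 : ∀ w : Fin 2 → ℂ, (1 + β) *ᵥ w = 0 := by
    intro w
    by_contra hw
    apply h _ hw
    rw [mulVec_mulVec, mul_add, mul_one, C.ββ, add_comm]
  have h2 : (1 + β : Matrix (Fin 2) (Fin 2) ℂ) = 0 := by
    ext i j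
    have := congrFun (h1 (Pi.single j 1)) i
    simpa using this
  have h3 : β = -1 := eq_neg_of_add_eq_zero_right h2
  have h4 := C.βα
  rw [h3] at h4
  simp only [neg_mul, one_mul, mul_neg, mul_one, neg_neg] at h4
  have h5 : α = 0 := by
    have h7 : (2 : ℂ) • α = 0 := by
      rw [two_smul]
      nth_rewrite 1 [← h4]
      exact neg_add_cancel α
    exact (smul_eq_zero.1 h7).resolve_left two_ne_zero
  have h6 := C.αα
  rw [h5, zero_mul] at h6
  exact zero_ne_one h6

theorem pruefer_to_eig {α β : Matrix (Fin 2) (Fin 2) ℂ} (C : Cliff α β) {m l : ℝ}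
    {V φ ρ : ℝ → ℝ} (P : Pruefer m l V φ ρ) : IsEig α β m V l := by
  obtain ⟨e, he0, he⟩ := C.exists_vec
  set f : Fin 2 → ℂ := Complex.I • α *ᵥ e with hf
  have hβf : β *ᵥ f = -f := by
    rw [hf, mulVec_smul, mulVec_mulVec, C.βα, neg_mulVec, ← mulVec_mulVec, he, smul_neg]
  have hαf : α *ᵥ f = Complex.I • e := by
    rw [hf, mulVec_smul, mulVec_mulVec, C.αα, one_mulVec]
  have hαe : α *ᵥ e = (-Complex.I) • f := by
    rw [hf, smul_smul]; simp
  have hf0 : f ≠ 0 := by
    intro h0
    rw [h0, mulVec_zero] at hαf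
    exact he0 ((smul_eq_zero.1 hαf.symm).resolve_left Complex.I_ne_zero)
  set r : ℝ → ℝ := fun x => Real.exp ((1 / 2) * ρ x) with hr
  set u : ℝ → ℝ := fun x => r x * Real.cos ((1 / 2) * φ x) with hu
  set v : ℝ → ℝ := fun x => r x * Real.sin ((1 / 2) * φ x) with hv
  have trig : ∀ y : ℝ, Real.cos y = Real.cos ((1 / 2) * y) ^ 2 - Real.sin ((1 / 2) * y) ^ 2 ∧
      Real.sin y = 2 * Real.sin ((1 / 2) * y) * Real.cos ((1 / 2) * y) := by
    intro y
    have h1 := Real.cos_two_mul' ((1 / 2) * y)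
    have h2 := Real.sin_two_mul ((1 / 2) * y)
    rw [show 2 * ((1 / 2) * y) = y by ring] at h1 h2
    exact ⟨h1, h2⟩
  have huD : ACD u (fun x => -(l + V x + m) * v x) :=
    ((P.hρ.const_mul (1 / 2)).exp.mul (P.hφ.const_mul (1 / 2)).cos).congr_deriv' (fun x => by
      simp only [hv, hr]
      rw [(trig (φ x)).1, (trig (φ x)).2]
      have := Real.sin_sq_add_cos_sq ((1 / 2) * φ x)
      linear_combination (-m * Real.exp ((1 / 2) * ρ x) * Real.sin ((1 / 2) * φ x)) * this)
  have hvD : ACD v (fun x => (l + V x - m) * u x) :=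
    ((P.hρ.const_mul (1 / 2)).exp.mul (P.hφ.const_mul (1 / 2)).sin).congr_deriv' (fun x => by
      simp only [hu, hr]
      rw [(trig (φ x)).1, (trig (φ x)).2]
      have := Real.sin_sq_add_cos_sq ((1 / 2) * φ x)
      linear_combination (-m * Real.exp ((1 / 2) * ρ x) * Real.cos ((1 / 2) * φ x)) * this)
  have hrc : Continuous r := (P.hρ.const_mul (1 / 2)).exp.continuous
  refine ⟨fun x => u x • e + v x • f, ?_, ?_, ?_, ?_⟩
  · intro h0
    have h1 : u 0 • e + v 0 • f = 0 := congrFun h0 0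
    have h2 : β *ᵥ (u 0 • e + v 0 • f) = 0 := by rw [h1, mulVec_zero]
    rw [mulVec_add, mulVec_smul, mulVec_smul, he, hβf] at h2
    have h3 : (2 * u 0) • e = 0 := by
      have : (2 * u 0) • e = (u 0 • e + v 0 • f) + (u 0 • e + v 0 • -f) := by module
      rw [this, h1, h2, add_zero]
    have h4 : u 0 = 0 := by
      rcases smul_eq_zero.1 h3 with h | h
      · linarith
      · exact absurd h he0
    rw [h4, zero_smul, zero_add] at h1
    have h5 : v 0 = 0 := (smul_eq_zero.1 h1).resolve_right hf0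
    have h6 : 0 < r 0 := Real.exp_pos _
    have h7 := Real.sin_sq_add_cos_sq ((1 / 2) * φ 0)
    simp only [hu, hv] at h4 h5
    have h8 := (mul_eq_zero.1 h4).resolve_left h6.ne'
    have h9 := (mul_eq_zero.1 h5).resolve_left h6.ne'
    rw [h8, h9] at h7
    norm_num at h7
  · have h1 : MemLp r 2 volume := by
      rw [memLp_two_iff_integrable_sq hrc.aestronglyMeasurable]
      have : (fun x => r x ^ 2) = fun x => Real.exp (ρ x) := by
        funext x
        simp only [hr]
        rw [← Real.exp_nat_mul]; congr 1; push_cast; ring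
      rw [this]; exact P.int
    have hc : Continuous fun x => u x • e + v x • f :=
      (huD.continuous.smul continuous_const).add (hvD.continuous.smul continuous_const)
    refine (h1.const_mul (‖e‖ + ‖f‖)).mono' hc.aestronglyMeasurable
      (Eventually.of_forall fun x => ?_)
    have h0 : 0 < r x := Real.exp_pos _
    have h2 : |u x| ≤ r x := by
      simp only [hu]; rw [abs_mul, abs_of_pos h0]
      exact mul_le_of_le_one_right h0.le (Real.abs_cos_le_one _)
    have h3 : |v x| ≤ r x := by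
      simp only [hv]; rw [abs_mul, abs_of_pos h0]
      exact mul_le_of_le_one_right h0.le (Real.abs_sin_le_one _)
    calc ‖u x • e + v x • f‖ ≤ ‖u x • e‖ + ‖v x • f‖ := norm_add_le _ _
      _ = |u x| * ‖e‖ + |v x| * ‖f‖ := by rw [norm_smul, norm_smul]; rfl
      _ ≤ r x * ‖e‖ + r x * ‖f‖ := by gcongr
      _ = (‖e‖ + ‖f‖) * r x := by ring
  · intro a b
    exact (ac_comp_contDiff (g := fun s : ℝ => s • e) (huD.ac a b) (by fun_prop)).add
      (ac_comp_contDiff (g := fun s : ℝ => s • f) (hvD.ac a b) (by fun_prop))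
  · filter_upwards [huD.der, hvD.der] with x h1 h2
    have h3 : HasDerivAt (fun x => u x • e + v x • f)
        ((-(l + V x + m) * v x) • e + ((l + V x - m) * u x) • f) x :=
      (h1.smul_const e).add (h2.smul_const f)
    refine ⟨h3.differentiableAt, ?_⟩
    rw [h3.deriv]
    simp only [mulVec_add, mulVec_smul, he, hβf, hαe, hαf]
    funext i
    simp only [Pi.add_apply, Pi.sub_apply, Pi.smul_apply, Pi.neg_apply, smul_eq_mul,
      Complex.real_smul]
    push_cast
    have hI := Complex.I_mul_I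
    linear_combination (-((l : ℂ) + V x + m) * v x * f i - ((l : ℂ) + V x - m) * u x * e i) * hI

/-- `V ≤ η + η^(1-p) V^p` -/
theorem young_aux {V η p : ℝ} (hV : 0 ≤ V) (hη : 0 < η) (hp : 1 ≤ p) :
    V ≤ η + η ^ (1 - p) * V ^ p := by
  rcases le_total V η with h | h
  · have : 0 ≤ η ^ (1 - p) * V ^ p := by positivity
    linarith
  · have hV' : 0 < V := hη.trans_le h
    have h1 : η ^ (p - 1) ≤ V ^ (p - 1) := Real.rpow_le_rpow hη.le h (by linarith)
    have h2 : V ^ p = V ^ (p - 1) * V := by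
      rw [← Real.rpow_add_one hV'.ne']; congr 1; ring
    have h3 : η ^ (1 - p) * η ^ (p - 1) = 1 := by
      rw [← Real.rpow_add hη]; simp
    have h4 : 0 < η ^ (1 - p) := by positivity
    have h5 : η ^ (1 - p) * (η ^ (p - 1) * V) ≤ η ^ (1 - p) * (V ^ (p - 1) * V) := by gcongr
    rw [← mul_assoc, h3, one_mul, ← h2] at h5
    linarith

namespace Pruefer
variable {m l : ℝ} {V φ ρ : ℝ → ℝ}

theorem reflect (P : Pruefer m l V φ ρ) :
    Pruefer m l (fun x => V (-x)) (fun x => -φ (-x)) (fun x => ρ (-x)) :=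
  ⟨P.hφ.reflect.neg.congr_deriv' (fun x => by simp), P.hρ.reflect.congr_deriv' (fun x => by simp),
    P.int.comp_neg⟩

theorem no_down (P : Pruefer m l V φ ρ) (hm : 0 < m) (hl : -m ≤ l) (hV : ∀ x, 0 ≤ V x) {a b : ℝ}
    (hab : a ≤ b) (ha : -Real.pi ≤ φ a) : -Real.pi ≤ φ b := by
  have h1 := (P.hφ.add (ACD.const Real.pi)).nonneg_of_ge (K := 2 * m) hab
    (Eventually.of_forall fun x _ => by
      have h2 := Real.abs_cos_sub_cos_le (φ x) (-Real.pi)
      rw [Real.cos_neg, Real.cos_pi, sub_neg_eq_add (φ x)] at h2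
      have h3 := (abs_le.1 h2).2
      have := hV x
      nlinarith) (by linarith)
  linarith

theorem reach (P : Pruefer m l V φ ρ) (hm : 0 < m) (hl : -m ≤ l) (hV : ∀ x, 0 ≤ V x) {p : ℝ}
    (hp : 1 ≤ p) (hVp : Integrable (fun x => V x ^ p) volume) {c : ℝ} (hc : c ∈ Ioo 0 Real.pi)
    (hcl : l < m * Real.cos c) {x₀ : ℝ} (h0 : -Real.pi ≤ φ x₀) : ∃ x ≥ x₀, c ≤ φ x := by
  by_contra hcon
  push Not at hcon
  set γ := 2 * (m * Real.cos c - l) with hγ
  have hγ0 : 0 < γ := by linarith
  set A := 4 * m / γ with hA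
  set η := γ / 4 with hη
  have hA0 : 0 < A := by positivity
  have hη0 : 0 < η := by positivity
  set k : ℝ → ℝ := fun y => max (Real.sin y) 0 with hk
  have hkc : Continuous k := by fun_prop
  set F : ℝ → ℝ := fun y => ∫ t in (0 : ℝ)..y, k t with hF
  have hFd : ∀ y, HasDerivAt F (k y) y := fun y =>
    (hkc.integral_hasStrictDerivAt 0 y).hasDerivAt
  have hFb : ∀ y ∈ Icc (-Real.pi) Real.pi, |F y| ≤ Real.pi := by
    intro y hy
    have h1 : ‖∫ t in (0 : ℝ)..y, k t‖ ≤ 1 * |y - 0| := by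
      apply intervalIntegral.norm_integral_le_of_norm_le_const
      intro t _
      rw [Real.norm_eq_abs, abs_of_nonneg (le_max_right _ _)]
      exact max_le (Real.sin_le_one _) zero_le_one
    rw [one_mul, sub_zero] at h1
    exact h1.trans (abs_le.2 hy)
  set B := 2 * A * η ^ (1 - p) with hB
  have hB0 : 0 < B := by positivity
  have hG := (P.hρ.sub ((P.hφ.comp hFd hkc).const_mul A)).add
    ((ACD.primitive hVp.locallyIntegrable x₀).const_mul B)
  have hrange : ∀ x ≥ x₀, φ x ∈ Icc (-Real.pi) Real.pi := fun x hx =>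
    ⟨P.no_down hm hl hV hx h0, (hcon x hx).le.trans hc.2.le⟩
  refine not_integrable_of_ge (c := Real.exp (ρ x₀ - 2 * A * Real.pi - B * ∫ t, V t ^ p))
    (a := x₀) (Real.exp_pos _) (fun x hx => ?_) P.int
  apply Real.exp_le_exp.2
  have h1 := hG.le_of_nonneg hx (Eventually.of_forall fun z hz => by
    have hVz := hV z
    have hVp0 : 0 ≤ V z ^ p := by positivity
    rcases le_total (Real.sin (φ z)) 0 with hs | hs
    · have : k (φ z) = 0 := max_eq_right hs
      rw [this]
      have : 0 ≤ B * V z ^ p := by positivity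
      nlinarith
    · have e : k (φ z) = Real.sin (φ z) := max_eq_left hs
      rw [e]
      rcases hs.eq_or_lt with hs | hs
      · rw [← hs]
        have : 0 ≤ B * V z ^ p := by positivity
        nlinarith
      · have h2 : 0 < φ z := by
          by_contra hh
          push Not at hh
          have := Real.sin_nonpos_of_nonpos_of_neg_pi_le hh (hrange z hz.1).1
          linarith
        have h3 : Real.cos c ≤ Real.cos (φ z) :=
          Real.cos_le_cos_of_nonneg_of_le_pi h2.le hc.2.le (hcon z hz.1).le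
        have h4 := young_aux hVz hη0 hp
        have h5 : 2 * (l + V z) - 2 * m * Real.cos (φ z) ≤ 2 * η + 2 * (η ^ (1 - p) * V z ^ p) - γ := by
          nlinarith
        have h6 : A * (Real.sin (φ z) * (2 * (l + V z) - 2 * m * Real.cos (φ z))) ≤
            A * (Real.sin (φ z) * (2 * η + 2 * (η ^ (1 - p) * V z ^ p) - γ)) := by gcongr
        have h7 : A * (2 * η - γ) = -2 * m := by
          rw [hA, hη]; field_simp; ring
        have h8 : Real.sin (φ z) * (B * V z ^ p) ≤ 1 * (B * V z ^ p) := by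
          gcongr; exact Real.sin_le_one _
        have h9 : A * (Real.sin (φ z) * (2 * η + 2 * (η ^ (1 - p) * V z ^ p) - γ)) =
            Real.sin (φ z) * (A * (2 * η - γ)) + Real.sin (φ z) * (B * V z ^ p) := by
          rw [hB]; ring
        rw [h7] at h9
        linarith)
  simp only [intervalIntegral.integral_same, mul_zero, add_zero] at h1
  have h2 := abs_le.1 (hFb _ (hrange x hx))
  have h3 := abs_le.1 (hFb _ (hrange x₀ le_rfl))
  have h4 : ∫ t in x₀..x, V t ^ p ≤ ∫ t, V t ^ p := by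
    rw [intervalIntegral.integral_of_le hx]
    exact setIntegral_le_integral hVp (Eventually.of_forall fun t => by
      have := hV t
      positivity)
  have h5 : B * ∫ t in x₀..x, V t ^ p ≤ B * ∫ t, V t ^ p := by gcongr
  nlinarith [h2.1, h2.2, h3.1, h3.2]

theorem end_right (P : Pruefer m l V φ ρ) (hm : 0 < m) (hl : -m ≤ l) (hV : ∀ x, 0 ≤ V x) {p : ℝ}
    (hp : 1 ≤ p) (hVp : Integrable (fun x => V x ^ p) volume) {c : ℝ} (hc : c ∈ Ioo 0 Real.pi)
    (hcl : l < m * Real.cos c) {b : ℝ} (h0 : -Real.pi ≤ φ b) (hb : ∀ x > b, V x = 0) :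
    c ≤ φ b := by
  by_contra hcon
  push Not at hcon
  obtain ⟨x, hx, hcx⟩ := P.reach hm hl hV hp hVp hc hcl h0
  set c' := max (φ b) 0 with hc'
  have h1 : c' < c := max_lt hcon hc.1
  have h2 : Real.cos c ≤ Real.cos c' :=
    Real.cos_le_cos_of_nonneg_of_le_pi (le_max_right _ _) hc.2.le h1.le
  have h3 := ((ACD.const c').sub P.hφ).nonneg_of_ge (K := 2 * m) hx (by
    filter_upwards [Measure.ae_ne volume b] with z hz hzm
    rw [hb z (lt_of_le_of_ne hzm.1 (Ne.symm hz))]
    have h4 := (abs_le.1 (Real.abs_cos_sub_cos_le c' (φ z))).2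
    nlinarith) (by simp [hc'])
  linarith

end Pruefer

end Pool.Agent.MP_0b7119_mp
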